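import Pool.Agent.H755.Mach2

/-! The flat function of the arc complement is not trivial on a compact graph. -/

set_option autoImplicit false
set_option linter.deprecated false
set_option linter.unusedVariables false
set_option linter.style.longLine false

namespace Pool.Agent.H755.Mach

open Set Pool.Agent.Helper60.AS

def tptL (b : List ℤ) : List (List ℤ × Z4 × List ℕ) → Z4
  | [] => (0, 0, 0, 1)
  | t :: l => bif t.1 == b then t.2.1 else tptL b l
def tpt (b : List ℤ) : Z4 := tptL b topes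
def root : List ℤ := (topes.headD ([], (0,0,0,1), [])).1

def pok (b : List ℤ) : Bool :=
  match pth b topes with
  | [] => b == root
  | k :: r => decide (k < walls.length) && ((wk k).2.2.1 == (0, false)) &&
    (((up (wk k).1 == b) && (pth (dn (wk k).1) topes == r) && tl.elem (dn (wk k).1)) ||
    ((dn (wk k).1 == b) && (pth (up (wk k).1) topes == r) && tl.elem (up (wk k).1)))

theorem chk_tpt : (tl.all fun b => okp b (tpt b) && (ta b == [b]) && (up b == b)) = true := by decide +kernel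
theorem chk_pok : (tl.all pok) = true := by decide +kernel
theorem chk_two : (decide (9 < walls.length) && decide (38 < walls.length) &&
    ((wk 9).2.2.1 == (0, true)) && ((wk 38).2.2.1 == (1, true))) = true := by decide +kernel

/-- the graph -/
def Gam : Set E3 := ⋃ t ∈ {t | t ∈ walls}, segment ℝ (pt (tpt (up t.1))) (pt t.2.1) ∪
  segment ℝ (pt (tpt (dn t.1))) (pt t.2.1)

theorem Gam_compact : IsCompact Gam := by
  refine Set.Finite.isCompact_biUnion (List.finite_toSet walls) fun t _ => ?_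
  have h : ∀ x y : E3, IsCompact (segment ℝ x y) := fun x y => by
    rw [segment_eq_image]
    exact isCompact_Icc.image (by fun_prop)
  exact (h _ _).union (h _ _)

theorem seg_pts {w : List ℤ} {q : Z4} (hq : okp w q = true) {b : List ℤ} (hb : b ∈ tl) (hg : ge b w = true)
    {s : ℝ} (h0 : 0 < s) (h1 : s ≤ 1) :
    sv ((1 - s) • pt q + s • pt (tpt b)) = b ∧ 0 < ((1 - s) • pt q + s • pt (tpt b)) 2 ∧
    (1 - s) • pt q + s • pt (tpt b) ∈ Y := by
  have hb' := List.all_eq_true.1 chk_tpt b hb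
  simp only [Bool.and_eq_true, beq_iff_eq] at hb'
  obtain ⟨q1, q2, q3⟩ := okp_iff hq
  obtain ⟨b1, b2, b3⟩ := okp_iff hb'.1.1
  have hm : pt q ∈ C b := mem_C_of_ge ⟨q2.le, by rw [q1]; exact q3⟩ (by rw [q1]; exact hg)
  obtain ⟨m1, m2⟩ := seg_mem hb'.1.1 hm h0 h1
  refine ⟨m2, ?_, C_sub _ m1⟩
  show 0 < (1 - s) * pt q 2 + s * pt (tpt b) 2
  have : 0 ≤ 1 - s := by linarith
  positivity

theorem Gam_sub : ∀ a ∈ Gam, a ∈ Y ∧ 0 < a 2 := by
  intro a ha
  simp only [Gam, mem_iUnion, mem_union, mem_setOf_eq, exists_prop] at ha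
  obtain ⟨t, ht, ha⟩ := ha
  have hw := wall_data ht
  obtain ⟨q1, q2, q3⟩ := okp_iff hw.ok
  have main : ∀ b ∈ tl, ge b t.1 = true → a ∈ segment ℝ (pt (tpt b)) (pt t.2.1) → a ∈ Y ∧ 0 < a 2 := by
    intro b hb hg ha
    rw [segment_symm, segment_eq_image] at ha
    obtain ⟨s, hs, rfl⟩ := ha
    rcases hs.1.eq_or_lt with h0 | h0
    · rw [← h0]
      simp only [sub_zero, one_smul, zero_smul, add_zero]
      exact ⟨⟨q2.le, by rw [q1]; exact q3⟩, q2⟩
    · obtain ⟨e1, e2, e3⟩ := seg_pts hw.ok hb hg h0 hs.2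
      exact ⟨e3, e2⟩
  rcases ha with ha | ha
  · exact main _ hw.ut hw.gu ha
  · exact main _ hw.dt hw.gd ha

theorem Gm_nontriv {u : E3 → ZMod 3} (h : ∀ a ∈ Gam, ∃ ε > 0, ∀ x y, dist x a < ε → dist y a < ε →
    (Gm x y).v = rho (Gm x y).g (u y) - u x) : False := by
  have rel : ∀ t ∈ walls, (phi t.2.2.1).v =
      rho (phi t.2.2.1).g (u (pt (tpt (dn t.1)))) - u (pt (tpt (up t.1))) := by
    intro t ht
    have hw := wall_data ht
    obtain ⟨q1, q2, q3⟩ := okp_iff hw.ok
    have memG : ∀ b, b = up t.1 ∨ b = dn t.1 → ∀ s ∈ Icc (0:ℝ) 1,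
        (1 - s) • pt t.2.1 + s • pt (tpt b) ∈ Gam := by
      intro b hb s hs
      simp only [Gam, mem_iUnion, mem_union, mem_setOf_eq, exists_prop]
      refine ⟨t, ht, ?_⟩
      rcases hb with rfl | rfl
      · left; rw [segment_symm, segment_eq_image]; exact ⟨s, hs, rfl⟩
      · right; rw [segment_symm, segment_eq_image]; exact ⟨s, hs, rfl⟩
    -- constancy along the half open segments
    have const : ∀ b, b = up t.1 ∨ b = dn t.1 → b ∈ tl → ge b t.1 = true → ∀ s ∈ Ioc (0:ℝ) 1,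
        u ((1 - s) • pt t.2.1 + s • pt (tpt b)) = u (pt (tpt b)) ∧
          bt ((1 - s) • pt t.2.1 + s • pt (tpt b)) = b := by
      intro b hb hbt hg s hs
      have hb' := List.all_eq_true.1 chk_tpt b hbt
      simp only [Bool.and_eq_true, beq_iff_eq] at hb'
      have hpre : IsPreconnected ((fun s : ℝ => (1 - s) • pt t.2.1 + s • pt (tpt b)) '' Ioc 0 1) :=
        isPreconnected_Ioc.image _ (by fun_prop)
      have hbt : ∀ s ∈ Ioc (0:ℝ) 1, bt ((1 - s) • pt t.2.1 + s • pt (tpt b)) = b := by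
        intro s hs
        obtain ⟨e1, e2, e3⟩ := seg_pts hw.ok hbt hg hs.1 hs.2
        rw [bt, clip_of e2.le, e1, hb'.2]
      refine ⟨?_, hbt s hs⟩
      have := const_of_loc (f := u) hpre (a := (1 - s) • pt t.2.1 + s • pt (tpt b))
        (b := pt (tpt b)) ?_ ⟨s, hs, rfl⟩ ⟨1, ⟨one_pos, le_rfl⟩, by simp⟩
      · exact this
      · rintro _ ⟨r, hr, rfl⟩
        obtain ⟨e1, e2, e3⟩ := seg_pts hw.ok (by assumption) hg hr.1 hr.2
        obtain ⟨ε, he, h1⟩ := h _ (memG b hb r ⟨hr.1.le, hr.2⟩)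
        obtain ⟨ε', he', h2⟩ := bt_near e3
        refine ⟨min ε ε', lt_min he he', fun x hx => ?_⟩
        have h3 := h2 x (hx.trans_le (min_le_right _ _))
        rw [e1, hb'.1.2, List.mem_singleton] at h3
        have h4 := h1 x ((1 - r) • pt t.2.1 + r • pt (tpt b)) (hx.trans_le (min_le_left _ _)) (by simpa using he)
        have h5 : Gm x ((1 - r) • pt t.2.1 + r • pt (tpt b)) = 1 := by
          rw [Gm, h3, hbt r hr]
          exact gg_self e3 (by rw [e1, hb'.1.2]; simp)
        rw [h5, Aff.one_v, Aff.one_g, map_one] at h4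
        have h6 : (0 : ZMod 3) = u ((1 - r) • pt t.2.1 + r • pt (tpt b)) - u x := h4
        exact (sub_eq_zero.1 h6.symm).symm
    obtain ⟨ε, he, h1⟩ := h (pt t.2.1) (by simpa using memG _ (Or.inl rfl) 0 ⟨le_rfl, zero_le_one⟩)
    have near : ∀ b : List ℤ, ∃ δ > 0, ∀ s ∈ Ioo (0:ℝ) δ,
        dist ((1 - s) • pt t.2.1 + s • pt (tpt b)) (pt t.2.1) < ε := by
      intro b
      have hc : ContinuousAt (fun s : ℝ => (1 - s) • pt t.2.1 + s • pt (tpt b)) 0 := by fun_prop
      obtain ⟨δ, hδ, hd⟩ := Metric.continuousAt_iff.1 hc ε he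
      refine ⟨δ, hδ, fun s hs => ?_⟩
      have := @hd s (by rw [Real.dist_eq, sub_zero, abs_of_pos hs.1]; exact hs.2)
      simpa using this
    obtain ⟨δ1, hδ1, n1⟩ := near (up t.1)
    obtain ⟨δ2, hδ2, n2⟩ := near (dn t.1)
    set s := min (min (δ1 / 2) (δ2 / 2)) 1 with hs
    have s0 : 0 < s := by positivity
    have s1 : s < δ1 := ((min_le_left _ _).trans (min_le_left _ _)).trans_lt (by linarith)
    have s2 : s < δ2 := ((min_le_left _ _).trans (min_le_right _ _)).trans_lt (by linarith)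
    have s3 : s ≤ 1 := min_le_right _ _
    obtain ⟨c1, c2⟩ := const (up t.1) (Or.inl rfl) hw.ut hw.gu s ⟨s0, s3⟩
    obtain ⟨d1, d2⟩ := const (dn t.1) (Or.inr rfl) hw.dt hw.gd s ⟨s0, s3⟩
    have := h1 _ _ (n1 s ⟨s0, s1⟩) (n2 s ⟨s0, s2⟩)
    rw [Gm, c1, c2, d1, d2, hw.lab] at this
    exact this
  have paths : ∀ n : ℕ, ∀ b ∈ tl, (pth b topes).length = n → u (pt (tpt b)) = u (pt (tpt root)) := by
    intro n
    induction n with
    | zero =>
      intro b hb hn
      have := List.all_eq_true.1 chk_pok b hb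
      rw [List.length_eq_zero_iff] at hn
      simp only [pok, hn, beq_iff_eq] at this
      rw [this]
    | succ n ih =>
      intro b hb hn
      have hp := List.all_eq_true.1 chk_pok b hb
      rcases hl : pth b topes with _ | ⟨k, r⟩
      · rw [hl] at hn; simp at hn
      · simp only [pok, hl, Bool.and_eq_true, Bool.or_eq_true, decide_eq_true_eq, beq_iff_eq,
          List.elem_eq_mem] at hp
        obtain ⟨⟨hk, hlab⟩, hor⟩ := hp
        rw [hl, List.length_cons] at hn
        have hr := rel _ (wk_mem hk)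
        rw [hlab] at hr
        have e : phi (0, false) = 1 := by ext <;> simp [phi]
        rw [e, Aff.one_v, Aff.one_g, map_one] at hr
        have hr' : (0 : ZMod 3) = u (pt (tpt (dn (wk k).1))) - u (pt (tpt (up (wk k).1))) := hr
        have hr2 := sub_eq_zero.1 hr'.symm
        rcases hor with ⟨⟨o1, o2⟩, o3⟩ | ⟨⟨o1, o2⟩, o3⟩
        · rw [← o1, ← hr2]
          exact ih _ o3 (by rw [o2]; omega)
        · rw [← o1, hr2]
          exact ih _ o3 (by rw [o2]; omega)
  have h2 := chk_two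
  simp only [Bool.and_eq_true, decide_eq_true_eq, beq_iff_eq] at h2
  obtain ⟨⟨⟨k1, k2⟩, k3⟩, k4⟩ := h2
  have r1 := rel _ (wk_mem k1)
  have r2 := rel _ (wk_mem k2)
  have w1 := wall_data (wk_mem k1)
  have w2 := wall_data (wk_mem k2)
  rw [k3, paths _ _ w1.dt rfl, paths _ _ w1.ut rfl] at r1
  rw [k4, paths _ _ w2.dt rfl, paths _ _ w2.ut rfl] at r2
  have e1 : (phi (0, true)).v = 0 := by simp [phi]
  have e2 : (phi (1, true)).v = 1 := by simp [phi]
  have e3 : (phi (0, true)).g = (phi (1, true)).g := rfl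
  rw [e1, e3] at r1
  rw [e2, ← r1] at r2
  exact one_ne_zero r2

end Pool.Agent.H755.Mach
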