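import Pool.Agent.H755.PL

/-! Polyhedral knots, local unknottedness, total absolute curvature. -/

set_option autoImplicit false

namespace Pool.Agent.H755

open Set MeasureTheory

/-- Euclidean `(n+2)`-space -/
abbrev ES (n : ℕ) := EuclideanSpace ℝ (Fin (n + 2))

/-- `σ` is a (nonempty) face of the simplicial complex on `Fin N` whose facets are the elements
of `A`: a nonempty subset of some element of `A`. -/
def IsFace {N : ℕ} (A : Finset (Finset (Fin N))) (σ : Finset (Fin N)) : Prop :=
  σ.Nonempty ∧ ∃ τ ∈ A, σ ⊆ τ

/-- The geometric realization, in barycentric coordinates. -/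
def realization {N : ℕ} (A : Finset (Finset (Fin N))) : Set (Fin N → ℝ) :=
  {w | (∀ i, 0 ≤ w i) ∧ ∑ i, w i = 1 ∧ ∃ τ ∈ A, ∀ i, i ∉ τ → w i = 0}

/-- A polyhedral `n`-knot: a simplicial complex with vertex set `Fin N` whose realization is
homeomorphic to the `n`-sphere, and positions of its vertices in `E^(n+2)` such that the map which
is linear on each simplex is injective (hence an embedding, by compactness). -/
structure PolyhedralKnot (n : ℕ) where
  /-- number of vertices -/
  N : ℕ
  /-- the facets -/
  facets : Finset (Finset (Fin N))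
  /-- every element of `Fin N` is a vertex -/
  vertex : ∀ i, ∃ τ ∈ facets, i ∈ τ
  /-- the complex triangulates the `n`-sphere -/
  sphere : Nonempty (realization facets ≃ₜ Metric.sphere (0 : EuclideanSpace ℝ (Fin (n + 1))) 1)
  /-- the positions of the vertices -/
  pos : Fin N → ES n
  /-- the simplexwise linear map is injective -/
  inj : InjOn (fun w => ∑ i, w i • pos i) (realization facets)

/-- the image `f(S^n)` of a polyhedral knot -/
def PolyhedralKnot.body {n : ℕ} (K : PolyhedralKnot n) : Set (ES n) :=
  (fun w => ∑ i, w i • K.pos i) '' realization K.facets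

/-- the round sphere `S^n ⊂ R^(n+1) ⊂ R^(n+2)` -/
def roundSphere (n : ℕ) : Set (EuclideanSpace ℝ (Fin (n + 2))) :=
  {x | ‖x‖ = 1 ∧ x (Fin.last (n + 1)) = 0}

/-- `f` is unknotted: some homeomorphism of `E^(n+2)` carries `f(S^n)` to the round sphere
`S^n ⊂ E^(n+1) ⊂ E^(n+2)`. (If `f` is isotopic to the standard embedding, the end map of an ambient
isotopy is such a homeomorphism; so `¬ Unknotted` implies that `f` is knotted in every sense.) -/
def PolyhedralKnot.Unknotted {n : ℕ} (K : PolyhedralKnot n) : Prop :=
  ∃ Φ : ES n ≃ₜ ES n, Φ '' K.body = roundSphere n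

/-- the cube `[-1,1]^(n+2)`, the standard `(n+2)`-ball -/
def cube (n : ℕ) : Set (ES n) := {x | ∀ i, |x i| ≤ 1}

/-- the cube `[-1,1]^n × 0`, the standard `n`-ball in the standard `(n+2)`-ball -/
def flatCube (n : ℕ) : Set (ES n) := {x | x ∈ cube n ∧ ∀ i : Fin (n + 2), n ≤ i.1 → x i = 0}

/-- `f` is locally unknotted: every vertex `f(v)` has arbitrarily small closed star neighbourhoods
`B` (for `x` in `B` the half-open segment from `f(v)` to `x` lies in the interior of `B`, and
`B ∩ f(S^n)` is star shaped about `f(v)`) such that the pair `(B, B ∩ f(S^n))` is PL homeomorphic to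
the standard ball pair, here by the restriction of a PL homeomorphism of `E^(n+2)`. -/
def PolyhedralKnot.LocallyUnknotted {n : ℕ} (K : PolyhedralKnot n) : Prop :=
  ∀ v : Fin K.N, ∀ ε > 0, ∃ (B : Set (ES n)) (φ : ES n ≃ₜ ES n),
    B ⊆ Metric.ball (K.pos v) ε ∧ K.pos v ∈ interior B ∧
    (∀ x ∈ B, ∀ t : ℝ, 0 ≤ t → t < 1 → K.pos v + t • (x - K.pos v) ∈ interior B) ∧
    StarConvex ℝ (K.pos v) (B ∩ K.body) ∧ IsPL φ ∧ IsPL φ.symm ∧
    φ '' B = cube n ∧ φ '' (B ∩ K.body) = flatCube n

section homology

variable (F : Type) [Field F] {N : ℕ}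

/-- the sign of the face `τ` of `insert j τ` -/
def fsign (j : Fin N) (τ : Finset (Fin N)) : F := (-1) ^ (τ.filter (· < j)).card

/-- The simplicial boundary. A chain is a function on the subsets of `Fin N`; the coefficient of the
nonempty simplex `τ` in `∂ c` is `∑ ± c (insert j τ)` over the vertices `j` not in `τ`. -/
def bdry : (Finset (Fin N) → F) →ₗ[F] (Finset (Fin N) → F) where
  toFun c τ := if τ = ∅ then 0 else ∑ j ∈ τᶜ, fsign F j τ * c (insert j τ)
  map_add' c d := by
    funext τ
    by_cases h : τ = ∅
    · simp [h]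
    · simp [h, mul_add, Finset.sum_add_distrib]
  map_smul' a c := by
    funext τ
    by_cases h : τ = ∅
    · simp [h]
    · simp only [h, if_false, Pi.smul_apply, smul_eq_mul, RingHom.id_apply, Finset.mul_sum]
      refine Finset.sum_congr rfl fun j _ => by ring

/-- the `i`-chains supported on the set `S` of simplices -/
def chains (S : Set (Finset (Fin N))) (i : ℕ) : Submodule F (Finset (Fin N) → F) where
  carrier := {c | ∀ σ, c σ ≠ 0 → σ ∈ S ∧ σ.card = i + 1}
  add_mem' {c d} hc hd σ h := by
    by_cases h1 : c σ = 0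
    · exact hd σ (fun h2 => h (by simp [h1, h2]))
    · exact hc σ h1
  zero_mem' σ h := absurd rfl h
  smul_mem' a c hc σ h := hc σ (fun h1 => h (by simp [h1]))

/-- the chains of any degree supported on the set `S` of simplices -/
def supported (S : Set (Finset (Fin N))) : Submodule F (Finset (Fin N) → F) where
  carrier := {c | ∀ σ, c σ ≠ 0 → σ ∈ S}
  add_mem' {c d} hc hd σ h := by
    by_cases h1 : c σ = 0
    · exact hd σ (fun h2 => h (by simp [h1, h2]))
    · exact hc σ h1
  zero_mem' σ h := absurd rfl h
  smul_mem' a c hc σ h := hc σ (fun h1 => h (by simp [h1]))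

/-- relative cycles: `i`-chains of `L` whose boundary is supported on `L₀` -/
def relCycles (L L₀ : Set (Finset (Fin N))) (i : ℕ) : Submodule F (Finset (Fin N) → F) :=
  chains F L i ⊓ (supported F L₀).comap (bdry F)

/-- relative boundaries: `i`-chains of `L₀` plus boundaries of `(i+1)`-chains of `L` -/
def relBoundaries (L L₀ : Set (Finset (Fin N))) (i : ℕ) : Submodule F (Finset (Fin N) → F) :=
  chains F L₀ i ⊔ (chains F L (i + 1)).map (bdry F)

/-- the dimension of the simplicial homology `H_i(L, L₀; F)` -/
noncomputable def relBetti (L L₀ : Set (Finset (Fin N))) (i : ℕ) : ℕ :=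
  Module.finrank F
    (relCycles F L L₀ i ⧸ (relBoundaries F L L₀ i).submoduleOf (relCycles F L L₀ i))

/-- The number of critical points, counted with multiplicity, of the height `h` on the complex with
facets `A`: the sum over the vertices `v` and over all `i` of the dimension of
`H_i({h ≤ h v}, {h < h v}; F)`, where the sublevel sets are represented by the full subcomplexes
spanned by the vertices with `h ≤ h v`, respectively `h < h v`. -/
noncomputable def critCount (A : Finset (Finset (Fin N))) (h : Fin N → ℝ) : ℕ :=
  ∑ v, ∑ i ∈ Finset.range N,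
    relBetti F {σ | IsFace A σ ∧ ∀ j ∈ σ, h j ≤ h v} {σ | IsFace A σ ∧ ∀ j ∈ σ, h j < h v} i

/-- total absolute curvature: the average over the unit sphere of the number of critical points of
the height functions `⟨ξ, f⟩` -/
noncomputable def TA {n : ℕ} (K : PolyhedralKnot n) : ENNReal :=
  (∫⁻ ξ : Metric.sphere (0 : ES n) 1,
    (critCount F K.facets (fun i => inner ℝ (ξ : ES n) (K.pos i)) : ENNReal)
      ∂(volume : Measure (ES n)).toSphere) / (volume : Measure (ES n)).toSphere univ

end homology

end Pool.Agent.H755
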