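import Pool.Agent.H755.StdCompl
import Pool.Agent.H755.KDefs

/-! If `K` is carried to the round three-sphere by a homeomorphism of `R^5`, then `H²` of its
complement vanishes. -/

set_option autoImplicit false
set_option linter.deprecated false
set_option linter.unusedVariables false

namespace Pool.Agent.H755

open Set Pool.Agent.Helper60.AS

/-- splitting off the last coordinate -/
noncomputable def splitH : EuclideanSpace ℝ (Fin 5) ≃ₜ Om where
  toFun x := (fun i => x i.castSucc, x 4)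
  invFun p := WithLp.toLp 2 (Fin.snoc (α := fun _ => ℝ) p.1 p.2)
  left_inv x := by
    ext i
    refine Fin.lastCases ?_ (fun i => ?_) i
    · simp; rfl
    · simp
  right_inv p := by
    ext i
    · simp
    · show (Fin.snoc (α := fun _ => ℝ) p.1 p.2 : Fin 5 → ℝ) (Fin.last 4) = p.2
      exact Fin.snoc_last (α := fun _ => ℝ) _ _
  continuous_toFun := by
    refine Continuous.prodMk ?_ ?_
    · exact continuous_pi fun i => by fun_prop
    · fun_prop
  continuous_invFun := by
    refine (PiLp.continuous_toLp 2 _).comp ?_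
    refine continuous_pi fun i => ?_
    refine Fin.lastCases ?_ (fun i => ?_) i
    · simp only [Fin.snoc_last]; fun_prop
    · simp only [Fin.snoc_castSucc]; fun_prop

theorem exists_theta : ∃ Θ : EuclideanSpace ℝ (Fin 5) ≃ₜ Om, Θ '' (roundSphere 3) = stdS := by
  let ε : EuclideanSpace ℝ (Fin 4) ≃ₜ (Fin 4 → ℝ) :=
    (EuclideanSpace.equiv (Fin 4) ℝ).toHomeomorph
  let s : Set (Fin 4 → ℝ) := ε '' Metric.closedBall 0 1
  have hconv : Convex ℝ s :=
    (convex_closedBall (0 : EuclideanSpace ℝ (Fin 4)) 1).linear_image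
      (EuclideanSpace.equiv (Fin 4) ℝ).toLinearMap
  have hint : (interior s).Nonempty := by
    rw [← ε.image_interior, image_nonempty]
    exact ⟨0, by rw [interior_closedBall _ one_ne_zero]; simp⟩
  have hbd : Bornology.IsBounded s := ((isCompact_closedBall _ _).image ε.continuous).isBounded
  obtain ⟨h, -, -, hh⟩ := exists_homeomorph_image_interior_closure_frontier_eq_unitBall hconv hint hbd
  have hfr : frontier s = ε '' Metric.sphere 0 1 := by
    rw [← ε.image_frontier, frontier_closedBall _ one_ne_zero]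
  refine ⟨splitH.trans (h.prodCongr (Homeomorph.refl ℝ)), ?_⟩
  have hnorm : ∀ x : EuclideanSpace ℝ (Fin 5), x 4 = 0 →
      (‖x‖ = 1 ↔ (fun i : Fin 4 => x i.castSucc) ∈ frontier s) := by
    intro x hx
    rw [hfr]
    have h1 : ‖x‖ = ‖(WithLp.toLp 2 (fun i : Fin 4 => x i.castSucc) : EuclideanSpace ℝ (Fin 4))‖ := by
      rw [EuclideanSpace.norm_eq, EuclideanSpace.norm_eq, Fin.sum_univ_castSucc]
      have : x (Fin.last 4) = 0 := hx
      rw [this]
      simp
    constructor
    · intro hx1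
      refine ⟨WithLp.toLp 2 (fun i : Fin 4 => x i.castSucc), ?_, rfl⟩
      rw [mem_sphere_zero_iff_norm, ← h1, hx1]
    · rintro ⟨y, hy, hy2⟩
      rw [h1, ← hy2]
      rw [mem_sphere_zero_iff_norm] at hy
      exact hy
  ext p
  constructor
  · rintro ⟨x, ⟨hx1, hx2⟩, rfl⟩
    have hx2 : x 4 = 0 := hx2
    have h3 := (hnorm x hx2).1 hx1
    have h4 : h (fun i : Fin 4 => x i.castSucc) ∈ Metric.sphere (0 : Fin 4 → ℝ) 1 := by
      rw [← hh]; exact ⟨_, h3, rfl⟩
    refine ⟨?_, hx2⟩
    rw [mem_sphere_zero_iff_norm] at h4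
    exact h4
  · rintro ⟨h1, h2⟩
    have h3 : p.1 ∈ h '' frontier s := by rw [hh, mem_sphere_zero_iff_norm]; exact h1
    obtain ⟨y, hy, hy2⟩ := h3
    refine ⟨splitH.symm (y, 0), ⟨?_, ?_⟩, ?_⟩
    · have h5 : splitH (splitH.symm (y, 0)) = (y, 0) := splitH.apply_symm_apply _
      have h6 : (splitH.symm (y, 0)) 4 = 0 := congrArg Prod.snd h5
      rw [hnorm _ h6]
      have h7 : (fun i : Fin 4 => (splitH.symm (y, 0)) i.castSucc) = y := congrArg Prod.fst h5
      rw [h7]; exact hy
    · have h5 : splitH (splitH.symm (y, 0)) = (y, 0) := splitH.apply_symm_apply _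
      exact congrArg Prod.snd h5
    · have h5 : splitH (splitH.symm (y, 0)) = (y, 0) := splitH.apply_symm_apply _
      show (h.prodCongr (Homeomorph.refl ℝ)) (splitH (splitH.symm (y, 0))) = p
      rw [h5]
      show (h y, (0:ℝ)) = p
      rw [hy2]
      exact Prod.ext rfl (h2 : p.2 = 0).symm

theorem unknot_hv {K C : Set (EuclideanSpace ℝ (Fin 5))} (Φ : EuclideanSpace ℝ (Fin 5) ≃ₜ EuclideanSpace ℝ (Fin 5))
    (hΦ : Φ '' K = roundSphere 3) (hC : IsCompact C) (hd : C ⊆ Kᶜ) :
    ∃ C₁ : Set (EuclideanSpace ℝ (Fin 5)), IsCompact C₁ ∧ C ⊆ C₁ ∧ C₁ ⊆ Kᶜ ∧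
      ∀ (k V G : Type) [Group G] [CommRing k] [AddCommGroup V] [Module k V]
        (T : EuclideanSpace ℝ (Fin 5) → EuclideanSpace ℝ (Fin 5) → G) (ρ : G →* (V →ₗ[k] V)),
        GFlat T C₁ → HV (sys T ρ) C₁ ∅ 2 := by
  obtain ⟨Θ, hΘ⟩ := exists_theta
  let e := Φ.trans Θ
  have he : e '' K = stdS := by
    rw [← hΘ, ← hΦ, image_image]; rfl
  have hdis : ∀ x, e x ∈ stdS ↔ x ∈ K := fun x => by
    rw [← he]
    constructor
    · rintro ⟨y, hy, h⟩
      rwa [e.injective h] at hy
    · exact fun h => ⟨x, h, rfl⟩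
  obtain ⟨N, hN, hsub⟩ := exists_RN (hC.image e.continuous) (by
    rintro _ ⟨x, hx, rfl⟩ h
    exact hd hx ((hdis x).1 h))
  refine ⟨e ⁻¹' RN N, ?_, ?_, ?_, ?_⟩
  · rw [← e.image_symm]
    exact (RN_compact N).image e.symm.continuous
  · intro x hx; exact hsub ⟨x, hx, rfl⟩
  · intro x hx h
    exact RN_disj hN hx ((hdis x).2 h)
  · intro k V G _ _ _ _ T ρ hT
    have h1 : GFlat (fun x y => T (e.symm x) (e.symm y)) (RN N) :=
      hT.pull (fun a _ => e.symm.continuous.continuousAt) (fun a ha => by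
        show e (e.symm a) ∈ RN N
        rwa [e.apply_symm_apply])
    have h2 := RN_hv hN h1 ρ
    rw [homeo_HV e] at h2
    have h3 : pT e (sys (fun x y => T (e.symm x) (e.symm y)) ρ) = sys T ρ := by
      funext x y
      simp only [pT, sys, e.symm_apply_apply]
    rwa [h3, preimage_empty] at h2

end Pool.Agent.H755
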