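import Pool.Agent.H755.Wedge
import Pool.Agent.H755.Mach3
import Pool.Agent.H755.Unknot

/-! A set with an open book structure whose pages are the half-spun arc is knotted. -/

set_option autoImplicit false
set_option maxHeartbeats 4000000
set_option linter.deprecated false
set_option linter.unusedVariables false
set_option linter.style.longLine false

namespace Pool.Agent.H755

open Set Pool.Agent.Helper60.AS
open Mach (E3 Gm Gam Arc Y rho)

/-- the folding map -/
noncomputable def fold (x : X5) : X5 := WithLp.toLp 2 ![x 0, x 1, x 2, |x 3|, -|x 4|]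
/-- the projection to the half space -/
noncomputable def pr (x : X5) : E3 := ![x 0, x 1, |x 2| + |x 3|]
/-- its section -/
noncomputable def sec (y : E3) : X5 := WithLp.toLp 2 ![y 0, y 1, 0, y 2, 0]
/-- the apex -/
noncomputable def apex : X5 := WithLp.toLp 2 ![0, 0, 0, 16, -16]

theorem fold_cont : Continuous fold := by
  unfold fold
  refine (PiLp.continuous_toLp 2 _).comp (continuous_pi fun i => ?_)
  fin_cases i
  · show Continuous fun x : X5 => x 0
    fun_prop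
  · show Continuous fun x : X5 => x 1
    fun_prop
  · show Continuous fun x : X5 => x 2
    fun_prop
  · show Continuous fun x : X5 => |x 3|
    fun_prop
  · show Continuous fun x : X5 => -|x 4|
    fun_prop

theorem pr_cont : Continuous pr := by
  refine continuous_pi fun i => ?_
  fin_cases i
  · show Continuous fun x : X5 => x 0
    fun_prop
  · show Continuous fun x : X5 => x 1
    fun_prop
  · show Continuous fun x : X5 => |x 2| + |x 3|
    fun_prop

theorem sec_cont : Continuous sec := by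
  unfold sec
  refine (PiLp.continuous_toLp 2 _).comp (continuous_pi fun i => ?_)
  fin_cases i
  · show Continuous fun x : E3 => x 0
    fun_prop
  · show Continuous fun x : E3 => x 1
    fun_prop
  · show Continuous fun x : E3 => (0:ℝ)
    fun_prop
  · show Continuous fun x : E3 => x 2
    fun_prop
  · show Continuous fun x : E3 => (0:ℝ)
    fun_prop

theorem fold_of {x : X5} (h3 : 0 ≤ x 3) (h4 : x 4 ≤ 0) : fold x = x := by
  ext i; fin_cases i <;> simp [fold, abs_of_nonneg h3, abs_of_nonpos h4]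

theorem fold_fold (x : X5) : fold (fold x) = fold x :=
  fold_of (abs_nonneg _) (neg_nonpos.2 (abs_nonneg _))

theorem pr_sec {y : E3} (h : 0 ≤ y 2) : pr (sec y) = y := by
  funext i; fin_cases i
  · rfl
  · rfl
  · show |(0:ℝ)| + |y 2| = y 2
    rw [abs_zero, zero_add, abs_of_nonneg h]

theorem pr_two (x : X5) : 0 ≤ pr x 2 := add_nonneg (abs_nonneg _) (abs_nonneg _)

/-- the homotopy from `fold` to `sec ∘ pr` -/
noncomputable def hom (t : ℝ) (x : X5) : X5 :=
  WithLp.toLp 2 ![x 0, x 1, (1 - t) * x 2, |x 3| + t * |x 2|, -((1 - t) * |x 4|)]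

theorem hom_cont : Continuous fun p : ℝ × X5 => hom p.1 p.2 := by
  unfold hom
  refine (PiLp.continuous_toLp 2 _).comp (continuous_pi fun i => ?_)
  fin_cases i
  · show Continuous fun p : ℝ × X5 => p.2 0
    fun_prop
  · show Continuous fun p : ℝ × X5 => p.2 1
    fun_prop
  · show Continuous fun p : ℝ × X5 => (1 - p.1) * p.2 2
    fun_prop
  · show Continuous fun p : ℝ × X5 => |p.2 3| + p.1 * |p.2 2|
    fun_prop
  · show Continuous fun p : ℝ × X5 => -((1 - p.1) * |p.2 4|)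
    fun_prop

theorem hom_zero (x : X5) : hom 0 x = fold x := by
  ext i; fin_cases i <;> simp [hom, fold]

theorem hom_one (x : X5) : hom 1 x = sec (pr x) := by
  ext i; fin_cases i <;> simp [hom, sec, pr, add_comm]

theorem pr_hom {t : ℝ} (ht : t ∈ Icc (0:ℝ) 1) (x : X5) : pr (hom t x) = pr x := by
  funext i; fin_cases i
  · rfl
  · rfl
  · show |(1 - t) * x 2| + abs (|x 3| + t * |x 2|) = |x 2| + |x 3|
    have h1 : 0 ≤ |x 3| + t * |x 2| := by have := ht.1; positivity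
    rw [abs_mul, abs_of_nonneg (by linarith [ht.2] : 0 ≤ 1 - t), abs_of_nonneg h1]
    ring

theorem lp_cont1 (ψ : X5 ≃ₜ X5) (v x : X5) : Continuous fun s => lp ψ v s x := by
  have h : Continuous fun s : ℝ => (s, x) := by fun_prop
  have h2 := (lp_cont ψ v).comp h
  exact h2

section main

variable {K : Set X5} (ψ : X5 ≃ₜ X5)

structure Book (K : Set X5) (ψ : X5 ≃ₜ X5) : Prop where
  hom : ∀ t : ℝ, 0 ≤ t → ∀ x, ψ (t • x) = t • ψ x
  fold : ∀ x, x ∈ K ↔ fold x ∈ K
  cone : ∀ x : X5, 0 ≤ x 3 → x 4 ≤ 0 → (x ∈ K ↔ x ∈ PP ψ apex)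
  page : ∀ x : X5, x 4 = 0 → (x ∈ K ↔ pr x ∈ Arc)
  arc : ∃ y ∈ Arc, 0 < y 2

variable {ψ}

noncomputable def TT (ψ : X5 ≃ₜ X5) (x y : X5) : ℤˣ := Tz ψ apex (fold x) (fold y)

theorem TT_flat (hb : Book K ψ) : GFlat (TT ψ) Kᶜ := by
  refine (Tz_flat ψ apex).pull (fun x _ => fold_cont.continuousAt) ?_
  intro x hx h
  apply hx
  rw [hb.fold, hb.cone _ (abs_nonneg _) (neg_nonpos.2 (abs_nonneg _))]
  exact h

theorem mem_X0 (hb : Book K ψ) {x : X5} (h4 : x 4 = 0) (hx : x ∉ K) : pr x ∈ Y := by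
  rw [hb.page x h4] at hx
  refine ⟨pr_two x, ?_⟩
  by_contra h
  exact hx ⟨pr_two x, by simpa using h⟩

theorem sec_X0 (hb : Book K ψ) {y : E3} (hy : y ∈ Y) : sec y ∉ K := by
  rw [hb.page (sec y) rfl, pr_sec hy.1]
  intro h
  have := h.2
  rw [hy.2] at this
  exact absurd this (by simp)

theorem TT_page (hb : Book K ψ) : ∃ u, GaugeBy (TT ψ) (fun x y => TT ψ (sec (pr x)) (sec (pr y)))
    {x | x 4 = 0 ∧ x ∉ K} u := by
  obtain ⟨u, hu, -⟩ := transport_lemma (R := {x : X5 | x 4 = 0 ∧ x ∉ K}) (TT_flat hb) (K := hom)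
    (fun s _ a _ => hom_cont.continuousAt) (by
      rintro t ht a ⟨ha, haK⟩ h
      apply haK
      rw [hb.page a ha, ← pr_hom ht a, ← hb.page _]
      · exact h
      · show -((1 - t) * |a 4|) = 0
        rw [ha]; simp)
  refine ⟨u, ?_⟩
  have e0 : (fun x y => TT ψ (hom 0 x) (hom 0 y)) = TT ψ := by
    funext x y; simp only [hom_zero, TT, fold_fold]
  have e1 : (fun x y => TT ψ (hom 1 x) (hom 1 y)) = fun x y => TT ψ (sec (pr x)) (sec (pr y)) := by
    funext x y; simp only [hom_one]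
  rw [e0, e1] at hu
  exact hu

/-- the sign system is not trivial on the pages -/
theorem TT_nontriv (hb : Book K ψ) {w : X5 → ℤˣ} (hw : TrivBy (TT ψ) {x | x 4 = 0 ∧ x ∉ K} w) : False := by
  obtain ⟨y0, hy0, hy02⟩ := hb.arc
  set z0 := sec y0 with hz0
  have hz3 : z0 3 = y0 2 := rfl
  have hz4 : z0 4 = 0 := rfl
  have hzK : z0 ∈ K := by rw [hb.page _ hz4, pr_sec hy0.1]; exact hy0
  have hzP : z0 ∈ PP ψ apex := (hb.cone _ (by rw [hz3]; exact hy02.le) hz4.le).1 hzK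
  obtain ⟨e3, he3⟩ : ∃ e3 : X5, e3 3 = 1 := ⟨WithLp.toLp 2 ![0, 0, 0, 1, 0], rfl⟩
  obtain ⟨xe, hxe1⟩ : ∃ xe : ℝ → X5, ∀ ε, xe ε = apex + ψ.symm (ψ (z0 - apex) + ε • e3) := ⟨_, fun _ => rfl⟩
  have hxe : Continuous xe := by
    have : Continuous fun ε : ℝ => apex + ψ.symm (ψ (z0 - apex) + ε • e3) :=
      continuous_const.add (ψ.symm.continuous.comp (continuous_const.add (continuous_id.smul continuous_const)))
    exact this.congr fun ε => (hxe1 ε).symm
  have hxe0 : xe 0 = z0 := by rw [hxe1]; simp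
  obtain ⟨f, hf1⟩ : ∃ f : ℝ → ℝ → X5, ∀ ε s, f ε s = lp ψ apex s (xe ε) := ⟨_, fun _ _ => rfl⟩
  have hf : Continuous fun p : ℝ × ℝ => f p.1 p.2 := by
    have h : Continuous fun p : ℝ × ℝ => (p.2, xe p.1) := continuous_snd.prodMk (hxe.comp continuous_fst)
    have h2 := (lp_cont ψ apex).comp h
    exact h2.congr fun p => (hf1 _ _).symm
  have hf0 : ∀ s, f 0 s = z0 := by
    intro s
    rw [hf1, hxe0]
    have : rot s (ψ (z0 - apex)) = ψ (z0 - apex) := by
      ext i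
      fin_cases i
      · rfl
      · rfl
      · rfl
      · show Real.cos (2 * Real.pi * s) * ψ (z0 - apex) 3 - Real.sin (2 * Real.pi * s) * ψ (z0 - apex) 4 =
          ψ (z0 - apex) 3
        rw [hzP.1, hzP.2]; ring
      · show Real.sin (2 * Real.pi * s) * ψ (z0 - apex) 3 + Real.cos (2 * Real.pi * s) * ψ (z0 - apex) 4 =
          ψ (z0 - apex) 4
        rw [hzP.1, hzP.2]; ring
    rw [lp, this]; simp
  let U : Set X5 := {y | -16 < y 4 ∧ 0 < y 3 + y 4}
  have hU : IsOpen U := by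
    have a : IsOpen {y : X5 | -16 < y 4} := isOpen_lt continuous_const (by fun_prop)
    have b : IsOpen {y : X5 | 0 < y 3 + y 4} := isOpen_lt continuous_const (by fun_prop)
    exact a.inter b
  have hzU : z0 ∈ U := ⟨by rw [hz4]; norm_num, by rw [hz3, hz4]; linarith⟩
  have ev : ∀ᶠ ε in nhds (0:ℝ), ∀ s ∈ Icc (0:ℝ) 1, f ε s ∈ U := by
    refine isCompact_Icc.eventually_forall_of_forall_eventually fun s _ => ?_
    exact hf.continuousAt.eventually (hU.mem_nhds (by show f 0 s ∈ U; rw [hf0 s]; exact hzU))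
  obtain ⟨δ, hδ, hd⟩ := Metric.eventually_nhds_iff.1 ev
  set ε := δ / 2 with hε
  have hεp : 0 < ε := by positivity
  have hfU : ∀ s ∈ Icc (0:ℝ) 1, f ε s ∈ U := hd (by rw [Real.dist_eq, sub_zero, abs_of_pos hεp]; linarith)
  set x := xe ε with hx
  have hxP : x ∉ PP ψ apex := by
    rintro ⟨h, -⟩
    have e : ψ (x - apex) = ψ (z0 - apex) + ε • e3 := by rw [hx, hxe1]; simp
    rw [e] at h
    have h' : ψ (z0 - apex) 3 + ε * e3 3 = 0 := h
    rw [hzP.1, he3] at h'
    linarith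
  set γ : ℝ → X5 := fun s => lp ψ apex s x with hγ
  have hγc : Continuous γ := lp_cont1 ψ apex x
  have hγU : ∀ s ∈ Icc (0:ℝ) 1, γ s ∈ U := fun s hs => by
    have := hfU s hs
    rwa [hf1] at this
  have hγP : ∀ s, γ s ∉ PP ψ apex := fun s => lp_mem ψ apex s hxP
  have h1 : HasTr (Tz ψ apex) γ (-1) := Tz_loop ψ apex hxP
  -- the radial homotopy
  let cf : ℝ → X5 → ℝ := fun t y => (1 - t) + t * (16 / (16 + y 4))
  let KK : ℝ → X5 → X5 := fun t y => apex + cf t y • (y - apex)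
  have hcf : ∀ t ∈ Icc (0:ℝ) 1, ∀ y ∈ U, 0 < cf t y := by
    intro t ht y hy
    have h : 0 < 16 / (16 + y 4) := by have := hy.1; apply div_pos <;> linarith
    show 0 < (1 - t) + t * (16 / (16 + y 4))
    rcases ht.1.eq_or_lt with h' | h'
    · rw [← h']; norm_num
    · have := mul_pos h' h; linarith [ht.2]
  have hPc : ∀ (c : ℝ) (y : X5), 0 < c → y ∉ PP ψ apex → apex + c • (y - apex) ∉ PP ψ apex := by
    intro c y hc hy h
    apply hy
    obtain ⟨h1, h2⟩ := h
    rw [add_sub_cancel_left, hb.hom c hc.le] at h1 h2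
    have h1' : c * ψ (y - apex) 3 = 0 := h1
    have h2' : c * ψ (y - apex) 4 = 0 := h2
    exact ⟨(mul_eq_zero.1 h1').resolve_left hc.ne', (mul_eq_zero.1 h2').resolve_left hc.ne'⟩
  obtain ⟨u, hu, -⟩ := transport_lemma (R := {y | y ∈ U ∧ y ∉ PP ψ apex}) (Tz_flat ψ apex) (K := KK)
    (by
      rintro t ht a ⟨ha, -⟩
      have hne : (16:ℝ) + a 4 ≠ 0 := by have := ha.1; linarith
      have c1 : ContinuousAt (fun p : ℝ × X5 => cf p.1 p.2) (t, a) := by
        refine ContinuousAt.add (by fun_prop) (ContinuousAt.mul (by fun_prop) ?_)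
        exact ContinuousAt.div (by fun_prop) (by fun_prop) hne
      exact continuousAt_const.add (c1.smul (by fun_prop)))
    (by
      rintro t ht a ⟨ha, haP⟩
      exact hPc _ _ (hcf t ht a ha) haP)
  have h2 := HasTr.gauge (γ := γ) (g := -1) hu hγc.continuousOn (fun s hs => ⟨hγU s hs, hγP s⟩) (by
    have e : (fun x y => Tz ψ apex (KK 0 x) (KK 0 y)) = Tz ψ apex := by
      funext x y; simp [KK, cf]
    rw [e]; exact h1)
  have hends : γ 1 = γ 0 := by simp only [hγ, lp_one, lp_zero]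
  rw [hends] at h2
  have h3 : HasTr (fun x y => Tz ψ apex (KK 1 x) (KK 1 y)) γ 1 := by
    have hm : ∀ s ∈ Icc (0:ℝ) 1, KK 1 (γ s) ∈ {x : X5 | x 4 = 0 ∧ x ∉ K} ∧ 0 ≤ (KK 1 (γ s)) 3 := by
      intro s hs
      obtain ⟨u1, u2⟩ := hγU s hs
      have hp : 0 < 16 + γ s 4 := by linarith
      have k4 : KK 1 (γ s) 4 = 0 := by
        show -16 + ((1 - 1) + 1 * (16 / (16 + γ s 4))) * (γ s 4 - (-16)) = 0
        field_simp; ring
      have k3 : 0 ≤ KK 1 (γ s) 3 := by
        have : KK 1 (γ s) 3 = 16 * (γ s 3 + γ s 4) / (16 + γ s 4) := by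
          show 16 + ((1 - 1) + 1 * (16 / (16 + γ s 4))) * (γ s 3 - 16) = _
          field_simp; ring
        rw [this]; positivity
      refine ⟨⟨k4, fun h => ?_⟩, k3⟩
      rw [hb.cone _ k3 k4.le] at h
      exact hPc _ _ (hcf 1 (right_mem_Icc.2 zero_le_one) _ (hγU s hs)) (hγP s) h
    have hKc : ContinuousOn (fun s => KK 1 (γ s)) (Icc 0 1) := by
      have : ContinuousOn (fun s => cf 1 (γ s)) (Icc 0 1) := by
        refine ContinuousOn.add (by fun_prop) (ContinuousOn.mul (by fun_prop) ?_)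
        refine ContinuousOn.div (by fun_prop) (by fun_prop) fun s hs => ?_
        have := (hγU s hs).1; linarith
      exact continuousOn_const.add (this.smul (by fun_prop))
    refine ⟨fun s => (w (KK 1 (γ 0)))⁻¹ * w (KK 1 (γ s)), by simp, by simp [hends], fun s hs => ?_⟩
    obtain ⟨e, he, h⟩ := hw _ (hm s hs).1
    obtain ⟨d, hd', hd2⟩ := Metric.continuousOn_iff.1 hKc s hs e he
    refine ⟨d, hd', fun t ht t' ht' a b => ?_⟩
    have h4 := h _ _ (hd2 t ht a) (hd2 t' ht' b)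
    have h5 : Tz ψ apex (KK 1 (γ t)) (KK 1 (γ t')) = TT ψ (KK 1 (γ t)) (KK 1 (γ t')) := by
      rw [TT, fold_of (hm t ht).2 (hm t ht).1.1.le, fold_of (hm t' ht').2 (hm t' ht').1.1.le]
    show Tz ψ apex (KK 1 (γ t)) (KK 1 (γ t')) = _
    rw [h5, h4]; group
  have h4 := h2.unique h3
  rw [mul_comm, ← mul_assoc, mul_inv_cancel, one_mul] at h4
  exact absurd h4 (by decide)

end main

/-- the reflection in the last coordinate -/
noncomputable def rh : X5 ≃ₜ X5 where
  toFun x := WithLp.toLp 2 ![x 0, x 1, x 2, x 3, -x 4]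
  invFun x := WithLp.toLp 2 ![x 0, x 1, x 2, x 3, -x 4]
  left_inv x := by ext i; fin_cases i <;> simp
  right_inv x := by ext i; fin_cases i <;> simp
  continuous_toFun := by
    refine (PiLp.continuous_toLp 2 _).comp (continuous_pi fun i => ?_)
    fin_cases i
    · show Continuous fun x : X5 => x 0
      fun_prop
    · show Continuous fun x : X5 => x 1
      fun_prop
    · show Continuous fun x : X5 => x 2
      fun_prop
    · show Continuous fun x : X5 => x 3
      fun_prop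
    · show Continuous fun x : X5 => -x 4
      fun_prop
  continuous_invFun := by
    refine (PiLp.continuous_toLp 2 _).comp (continuous_pi fun i => ?_)
    fin_cases i
    · show Continuous fun x : X5 => x 0
      fun_prop
    · show Continuous fun x : X5 => x 1
      fun_prop
    · show Continuous fun x : X5 => x 2
      fun_prop
    · show Continuous fun x : X5 => x 3
      fun_prop
    · show Continuous fun x : X5 => -x 4
      fun_prop

theorem rh_apply (x : X5) : rh x = WithLp.toLp 2 ![x 0, x 1, x 2, x 3, -x 4] := rfl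
theorem rh_smul (t : ℝ) (x : X5) : rh (t • x) = t • rh x := by
  ext i; fin_cases i <;> simp [rh_apply]
theorem rh_sub (x y : X5) : rh (x - rh y) = rh x - y := by
  ext i; fin_cases i <;> simp [rh_apply]
  ring
theorem fold_rh {x : X5} (h3 : 0 ≤ x 3) (h4 : 0 ≤ x 4) : fold x = rh x := by
  ext i; fin_cases i <;> simp [fold, rh_apply, abs_of_nonneg h3, abs_of_nonneg h4]

/-- half spaces -/
theorem hs_conv (a b : ℝ) : Convex ℝ {x : X5 | 0 ≤ a * x 3 ∧ 0 ≤ b * x 4} := by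
  intro x hx y hy s t hs ht _
  refine ⟨?_, ?_⟩
  · show 0 ≤ a * (s * x 3 + t * y 3)
    have h1 := mul_nonneg hs hx.1
    have h2 := mul_nonneg ht hy.1
    linarith [show a * (s * x 3 + t * y 3) = s * (a * x 3) + t * (a * y 3) by ring]
  · show 0 ≤ b * (s * x 4 + t * y 4)
    have h1 := mul_nonneg hs hx.2
    have h2 := mul_nonneg ht hy.2
    linarith [show b * (s * x 4 + t * y 4) = s * (b * x 4) + t * (b * y 4) by ring]

theorem hs_closed (a b : ℝ) : IsClosed {x : X5 | 0 ≤ a * x 3 ∧ 0 ≤ b * x 4} := by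
  have h1 : IsClosed {x : X5 | 0 ≤ a * x 3} := isClosed_le continuous_const (by fun_prop)
  have h2 : IsClosed {x : X5 | 0 ≤ b * x 4} := isClosed_le continuous_const (by fun_prop)
  exact h1.inter h2

theorem hs_int {a b : ℝ} {v : X5} (h3 : 0 < a * v 3) (h4 : 0 < b * v 4) :
    v ∈ interior {x : X5 | 0 ≤ a * x 3 ∧ 0 ≤ b * x 4} := by
  have h1 : IsOpen {x : X5 | 0 < a * x 3} := isOpen_lt continuous_const (by fun_prop)
  have h2 : IsOpen {x : X5 | 0 < b * x 4} := isOpen_lt continuous_const (by fun_prop)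
  have h5 : {x : X5 | 0 < a * x 3} ∩ {x : X5 | 0 < b * x 4} ⊆ {x : X5 | 0 ≤ a * x 3 ∧ 0 ≤ b * x 4} :=
    fun x hx => ⟨le_of_lt hx.1, le_of_lt hx.2⟩
  exact interior_maximal h5 (h1.inter h2) ⟨h3, h4⟩

section main2

variable {K : Set X5} {ψ : X5 ≃ₜ X5}

theorem apex_three : apex 3 = 16 := rfl
theorem apex_four : apex 4 = -16 := rfl

theorem PP_rh (x : X5) : x ∈ PP (rh.trans ψ) (rh apex) ↔ rh x ∈ PP ψ apex := by
  have h : (rh.trans ψ) (x - rh apex) = ψ (rh x - apex) := by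
    show ψ (rh (x - rh apex)) = _
    rw [rh_sub]
  show (rh.trans ψ) (x - rh apex) 3 = 0 ∧ (rh.trans ψ) (x - rh apex) 4 = 0 ↔ _
  rw [h]; rfl

theorem Tz_rh (x y : X5) : Tz (rh.trans ψ) (rh apex) x y = Tz ψ apex (rh x) (rh y) := by
  have h : ∀ x, zet (rh.trans ψ) (rh apex) x = zet ψ apex (rh x) := by
    intro x
    have h : (rh.trans ψ) (x - rh apex) = ψ (rh x - apex) := by
      show ψ (rh (x - rh apex)) = _
      rw [rh_sub]
    unfold zet
    rw [h]
  unfold Tz cint ang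
  rw [h, h]

/-- **knottedness** -/
theorem knotted (hb : Book K ψ) : ¬ ∃ Φ : X5 ≃ₜ X5, Φ '' K = roundSphere 3 := by
  rintro ⟨Φ, hΦ⟩
  have hTK := TT_flat hb
  -- the graph in the page
  set G0 : Set X5 := sec '' Gam with hG0
  have hG0c : IsCompact G0 := Mach.Gam_compact.image sec_cont
  have hG0m : ∀ x ∈ G0, x 4 = 0 ∧ 0 ≤ x 3 ∧ x ∉ K := by
    rintro _ ⟨y, hy, rfl⟩
    have hyY := (Mach.Gam_sub y hy).1
    exact ⟨rfl, hyY.1, sec_X0 hb hyY⟩
  -- the two wedges
  obtain ⟨S₁, hS₁c, hGS₁, hS₁, hv₁⟩ : ∃ S, IsCompact S ∧ G0 ⊆ S ∧ (∀ x ∈ S, x 4 ≤ 0 ∧ x ∉ K) ∧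
      ∀ q, HV (sys (TT ψ) rho) S ∅ q := by
    have hWK : ∀ x ∈ {x : X5 | 0 ≤ (1:ℝ) * x 3 ∧ 0 ≤ (-1:ℝ) * x 4} \ PP ψ apex, x ∉ K := by
      rintro x ⟨⟨h3, h4⟩, hP⟩ hK
      exact hP ((hb.cone x (by linarith) (by linarith)).1 hK)
    obtain ⟨S, h1, h2, h3, h4⟩ := wedge ψ apex hb.hom (hs_conv 1 (-1)) (hs_closed 1 (-1))
      (hs_int (by rw [apex_three]; norm_num) (by rw [apex_four]; norm_num)) (T := TT ψ)
      (hTK.mono hWK) (by
        rintro x ⟨x3, x4⟩ y ⟨y3, y4⟩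
        rw [TT, fold_of (by linarith) (by linarith), fold_of (by linarith) (by linarith)]) hG0c (by
        intro x hx
        obtain ⟨e1, e2, e3⟩ := hG0m x hx
        refine ⟨⟨by linarith, by rw [e1]; simp⟩, fun h => e3 ((hb.cone x e2 e1.le).2 h)⟩)
    refine ⟨S, h1, h2, fun x hx => ⟨?_, hWK x (h3 hx)⟩, h4⟩
    have := (h3 hx).1.2
    linarith
  obtain ⟨S₂, hS₂c, hGS₂, hS₂, hv₂⟩ : ∃ S, IsCompact S ∧ G0 ⊆ S ∧ (∀ x ∈ S, 0 ≤ x 4 ∧ x ∉ K) ∧
      ∀ q, HV (sys (TT ψ) rho) S ∅ q := by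
    have hWK : ∀ x ∈ {x : X5 | 0 ≤ (1:ℝ) * x 3 ∧ 0 ≤ (1:ℝ) * x 4} \ PP (rh.trans ψ) (rh apex), x ∉ K := by
      rintro x ⟨⟨h3, h4⟩, hP⟩ hK
      apply hP
      rw [PP_rh]
      have e3 : 0 ≤ x 3 := by linarith
      have e4 : 0 ≤ x 4 := by linarith
      rw [hb.fold, fold_rh e3 e4] at hK
      exact (hb.cone (rh x) e3 (neg_nonpos.2 e4)).1 hK
    have hhom : ∀ t : ℝ, 0 ≤ t → ∀ x, (rh.trans ψ) (t • x) = t • (rh.trans ψ) x := by
      intro t ht x
      show ψ (rh (t • x)) = t • ψ (rh x)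
      rw [rh_smul, hb.hom t ht]
    obtain ⟨S, h1, h2, h3, h4⟩ := wedge (rh.trans ψ) (rh apex) hhom (hs_conv 1 1) (hs_closed 1 1)
      (hs_int (by show (0:ℝ) < 1 * 16; norm_num) (by show (0:ℝ) < 1 * (- -16); norm_num)) (T := TT ψ)
      (hTK.mono hWK) (by
        rintro x ⟨x3, x4⟩ y ⟨y3, y4⟩
        rw [TT, fold_rh (by linarith) (by linarith), fold_rh (by linarith) (by linarith), Tz_rh]) hG0c (by
        intro x hx
        obtain ⟨e1, e2, e3⟩ := hG0m x hx
        refine ⟨⟨by linarith, by rw [e1]; simp⟩, fun h => e3 ?_⟩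
        rw [PP_rh] at h
        have e4 : rh x = x := by
          ext i; fin_cases i <;> simp [rh_apply, e1]
        rw [e4] at h
        exact (hb.cone x e2 e1.le).2 h)
    refine ⟨S, h1, h2, fun x hx => ⟨?_, hWK x (h3 hx)⟩, h4⟩
    have := (h3 hx).1.2
    linarith
  -- the big compact set
  obtain ⟨C₁, hC₁c, hsub, hC₁K, hv⟩ := unknot_hv Φ hΦ (hS₁c.union hS₂c)
    (union_subset (fun x hx => (hS₁ x hx).2) (fun x hx => (hS₂ x hx).2))
  have hHV := hv (ZMod 3) (ZMod 3) ℤˣ (TT ψ) rho (hTK.mono hC₁K)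
  set Cm : Set X5 := C₁ ∩ {x | x 4 ≤ 0} with hCm
  set Cp : Set X5 := C₁ ∩ {x | 0 ≤ x 4} with hCp
  have clm : IsClosed {x : X5 | x 4 ≤ 0} := isClosed_le (by fun_prop) continuous_const
  have clp : IsClosed {x : X5 | 0 ≤ x 4} := isClosed_le continuous_const (by fun_prop)
  have hCmc : IsClosed Cm := hC₁c.isClosed.inter clm
  have hCpc : IsClosed Cp := hC₁c.isClosed.inter clp
  have hun : Cm ∪ Cp = C₁ := by
    ext x
    constructor
    · rintro (h | h) <;> exact h.1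
    · intro h
      rcases le_total (x 4) 0 with h4 | h4
      · exact Or.inl ⟨h, h4⟩
      · exact Or.inr ⟨h, h4⟩
  have hin : Cm ∩ Cp ⊆ {x | x 4 = 0 ∧ x ∉ K} := by
    rintro x ⟨⟨h1, h2⟩, ⟨h3, h4⟩⟩
    exact ⟨le_antisymm h2 h4, hC₁K h1⟩
  -- the sign system on the pages
  have hTp : GFlat (fun x y => TT ψ (sec x) (sec y)) Y :=
    hTK.pull (fun x _ => sec_cont.continuousAt) (fun y hy => sec_X0 hb hy)
  obtain ⟨u1, hu1⟩ := TT_page hb
  have hprY : MapsTo pr {x : X5 | x 4 = 0 ∧ x ∉ K} Y := fun x hx => mem_X0 hb hx.1 hx.2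
  rcases Mach.class_pm hTp with ⟨v0, hv0⟩ | ⟨u0, hu0⟩
  · have h1 := hv0.gaugeBy.pull (F := pr) (R := {x : X5 | x 4 = 0 ∧ x ∉ K})
      (fun x _ => pr_cont.continuousAt) hprY
    have h2 := hu1.trans h1
    exact TT_nontriv hb (trivBy_of_gaugeEq_one h2)
  · have h1 := hu0.pull (F := pr) (R := {x : X5 | x 4 = 0 ∧ x ∉ K})
      (fun x _ => pr_cont.continuousAt) hprY
    obtain ⟨w, hw⟩ : ∃ w, GaugeBy (TT ψ) (fun x y => (Gm (pr x) (pr y)).g)
      {x : X5 | x 4 = 0 ∧ x ∉ K} w := ⟨_, hu1.trans h1⟩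
    set F : X5 → X5 → Aff rho := fun x y => Gm (pr x) (pr y) with hF
    have hFf : GFlat F {x : X5 | x 4 = 0 ∧ x ∉ K} :=
      Mach.Gm_flat.pull (fun x _ => pr_cont.continuousAt) hprY
    -- the cocycle
    let c0 : List X5 → ZMod 3 := fun l => match l with
      | [x, y] => rho (w x) (F x y).v
      | _ => 0
    have hg : GaugeBy F (aff rho (TT ψ) c0) {x : X5 | x 4 = 0 ∧ x ∉ K} (fun x => ⟨0, (w x)⁻¹⟩) := by
      intro a ha
      obtain ⟨e, he, h⟩ := hw a ha
      refine ⟨e, he, fun x y hx hy => ?_⟩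
      have h2 := h x y hx hy
      simp only at h2
      refine Aff.ext ?_ ?_
      · show rho (w x) (F x y).v = _
        simp
      · show TT ψ x y = ((w x)⁻¹)⁻¹ * (F x y).g * (w y)⁻¹
        rw [hF]
        simp only
        rw [h2]; group
    have hc0 : c0 ∈ Zc (sys (TT ψ) rho) (Cm ∩ Cp) (∅ ∩ ∅) 1 := by
      rw [inter_self]
      rw [← gflat_aff rho (hTK.mono (hin.trans fun x hx => hx.2))]
      exact (GaugeEq.flat ⟨_, hg⟩ hFf).mono hin
    have hflat : Flat (sys (TT ψ) rho) (Cm ∪ Cp) := by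
      rw [hun]; exact (hTK.mono hC₁K).sys rho
    obtain ⟨c, hc, hmv⟩ := mvd_exists hCmc hCpc isClosed_empty isClosed_empty (empty_subset _)
      (empty_subset _) hflat hc0
    rw [hun, union_self] at hc
    have hcB := hHV hc
    have h3 := (mvd_eq_zero hCmc hCpc isClosed_empty isClosed_empty (empty_subset _)
      (empty_subset _) hflat hc0 hmv).1 (by rw [hun, union_self]; exact hcB)
    obtain ⟨c₁, hc₁, c₂, hc₂, h4⟩ := h3
    have hG0in : G0 ⊆ Cm ∩ Cp := by
      intro x hx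
      have e1 := (hG0m x hx).1
      have e2 := hsub (Or.inl (hGS₁ hx))
      exact ⟨⟨e2, e1.le⟩, ⟨e2, e1.ge⟩⟩
    have b1 : c₁ ∈ Bc (sys (TT ψ) rho) G0 ∅ 1 := by
      have : S₁ ⊆ Cm := fun x hx => ⟨hsub (Or.inl hx), (hS₁ x hx).1⟩
      exact Bc_mono hGS₁ (le_refl ∅) 1 (hv₁ 1 (Zc_mono this (le_refl ∅) 1 hc₁))
    have b2 : c₂ ∈ Bc (sys (TT ψ) rho) G0 ∅ 1 := by
      have : S₂ ⊆ Cp := fun x hx => ⟨hsub (Or.inr hx), (hS₂ x hx).1⟩
      exact Bc_mono hGS₂ (le_refl ∅) 1 (hv₂ 1 (Zc_mono this (le_refl ∅) 1 hc₂))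
    have b3 : c0 - (c₁ - c₂) ∈ Bc (sys (TT ψ) rho) G0 ∅ 1 := by
      rw [inter_self] at h4
      exact Bc_mono hG0in (le_refl ∅) 1 h4
    have b4 : c0 ∈ Bc (sys (TT ψ) rho) G0 ∅ 1 := by
      have := Submodule.add_mem _ b3 (Submodule.sub_mem _ b1 b2)
      rwa [sub_add_cancel] at this
    have hG0X : G0 ⊆ {x : X5 | x 4 = 0 ∧ x ∉ K} := fun x hx => ⟨(hG0m x hx).1, (hG0m x hx).2.2⟩
    rw [← tri_iff (hTK.mono (hG0X.trans fun x hx => hx.2))] at b4
    have b5 : Tri F G0 := b4.congr (GaugeEq.symm ⟨_, hg.mono hG0X⟩)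
    obtain ⟨F', ⟨U, hU⟩, hF'⟩ := b5
    refine Mach.Gm_nontriv (u := fun y => -(U (sec y)).v) fun a ha => ?_
    obtain ⟨e, he, h⟩ := hU (sec a) ⟨a, ha, rfl⟩
    obtain ⟨d, hd, h'⟩ := Metric.continuousAt_iff.1 (sec_cont.continuousAt (x := a)) e he
    have ha2 := (Mach.Gam_sub a ha).2
    obtain ⟨d2, hd2, h''⟩ := Metric.continuousAt_iff.1
      ((continuous_apply (2 : Fin 3)).continuousAt (x := a)) (a 2) ha2
    have hpos : ∀ x : E3, dist x a < d2 → 0 ≤ x 2 := by
      intro x hx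
      have := h'' hx
      rw [Real.dist_eq] at this
      have := (abs_lt.1 this).1
      linarith
    refine ⟨min d d2, lt_min hd hd2, fun x y hx hy => ?_⟩
    have h6 := h (sec x) (sec y) (h' (hx.trans_le (min_le_left _ _))) (h' (hy.trans_le (min_le_left _ _)))
    have px := pr_sec (hpos x (hx.trans_le (min_le_right _ _)))
    have py := pr_sec (hpos y (hy.trans_le (min_le_right _ _)))
    have h7 := (aff_gauge_eqs h6).1
    rw [hF'] at h7
    simp only [hF, px, py, map_zero, add_zero] at h7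
    show (Gm x y).v = rho (Gm x y).g (-(U (sec y)).v) - -(U (sec x)).v
    rw [map_neg, h7]
    abel

end main2

end Pool.Agent.H755
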