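import Pool.Agent.H755.Real
import Pool.Agent.H755.Knot

/-! The body, its symmetries, and the cone structure at the apex. -/

set_option autoImplicit false
set_option linter.deprecated false
set_option linter.unusedVariables false
set_option linter.style.longLine false

namespace Pool.Agent.H755

open Set

def body0 : Set E5 := (fun w : Fin 30 → ℝ => ∑ i, w i • pos0 i) '' realization FK

/-- nonnegative weights supported on `l` -/
def Wt (l : List ℕ) (u : Fin 30 → ℝ) : Prop := (∀ i, 0 ≤ u i) ∧ ∀ i, u i ≠ 0 → i.1 ∈ l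

theorem mem_body {x : E5} : x ∈ body0 ↔ ∃ l ∈ facets, ∃ u, Wt l u ∧ ∑ i, u i = 1 ∧ x = ∑ i, u i • pos0 i := by
  constructor
  · rintro ⟨w, ⟨h0, h1, τ, hτ, h2⟩, rfl⟩
    obtain ⟨l, hl, rfl⟩ := mem_FK.1 hτ
    refine ⟨l, hl, w, ⟨h0, fun i hi => ?_⟩, h1, rfl⟩
    by_contra h
    exact hi (h2 i (by rwa [mem_toFS]))
  · rintro ⟨l, hl, u, ⟨h0, h2⟩, h1, rfl⟩
    refine ⟨u, ⟨h0, h1, toFS l, mem_FK.2 ⟨l, hl, rfl⟩, fun i hi => ?_⟩, rfl⟩
    by_contra h
    exact hi (mem_toFS.2 (h2 i h))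

theorem pos0_apply (i : Fin 30) : (pos0 i 0 = (verts0 i.1).a ∧ pos0 i 1 = (verts0 i.1).b ∧
    pos0 i 2 = (verts0 i.1).c) ∧ pos0 i 3 = (verts0 i.1).d ∧ pos0 i 4 = (verts0 i.1).e := by
  refine ⟨⟨rfl, rfl, rfl⟩, rfl, rfl⟩

theorem sum_coord (u : Fin 30 → ℝ) (j : Fin 5) : (∑ i, u i • pos0 i) j = ∑ i, u i * pos0 i j := by
  simp

/-! ### symmetries -/

def reflS (x : Z5) : Z5 := ⟨x.a, x.b, x.c, -x.d, x.e⟩
def reflH (x : Z5) : Z5 := ⟨x.a, x.b, x.c, x.d, -x.e⟩

def maskOf : List ℕ → ℕ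
  | [] => 0
  | i :: l => 2 ^ i ||| maskOf l

def permOK (p : List ℕ) (r : Z5 → Z5) : Bool :=
  ((List.range 30).all fun i => decide (p.getD i 0 < 30) && (p.getD (p.getD i 0) 0 == i) &&
    decide ((verts0 (p.getD i 0)) = r (verts0 i))) &&
  facets.all fun l => fmasks.elem (maskOf (l.map fun i => p.getD i 0))

theorem chk_s : permOK psL reflS = true := by decide +kernel
theorem chk_h : permOK phL reflH = true := by decide +kernel

theorem testBit_maskOf : ∀ {l : List ℕ} {i : ℕ}, (maskOf l).testBit i = true ↔ i ∈ l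
  | [], i => by simp [maskOf]
  | j :: l, i => by
    rw [maskOf, Nat.testBit_lor, Bool.or_eq_true, testBit_maskOf, Nat.testBit_two_pow]
    simp only [decide_eq_true_eq, List.mem_cons]
    exact ⟨fun h => h.imp Eq.symm id, fun h => h.imp Eq.symm id⟩

theorem okF_rev : ∀ {L : List (List ℕ)} {M P : List ℕ}, okF L M P = true → ∀ A ∈ M, ∃ l ∈ L,
    (∀ i < 30, (A.testBit i = true ↔ i ∈ l))
  | [], [], _, _, A, hA => absurd hA (by simp)
  | [], _ :: _, _, h, A, hA => by simp [okF] at h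
  | _ :: _, [], _, h, _, _ => by simp [okF] at h
  | _ :: _, _ :: _, [], h, _, _ => by simp [okF] at h
  | a :: L, B :: M, c :: P, h, A, hA => by
    simp only [okF, Bool.and_eq_true, List.all_eq_true, decide_eq_true_eq] at h
    obtain ⟨⟨⟨h1, h2⟩, h3⟩, h4⟩ := h
    rcases List.mem_cons.1 hA with hA1 | hA1
    · exact ⟨a, by simp, by rw [hA1]; exact bitGo_iff h1⟩
    · obtain ⟨l, hl, h⟩ := okF_rev h4 A hA1
      exact ⟨l, List.mem_cons_of_mem _ hl, h⟩

theorem facet_lt {l : List ℕ} (hl : l ∈ facets) {i : ℕ} (hi : i ∈ l) : i < 30 := by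
  obtain ⟨A, hA, a1, a2, c, a3⟩ := okF_iff chk_okF l hl
  exact a2 i hi

/-- a linear reflection permuting vertices and facets preserves the body -/
theorem body_refl {p : List ℕ} {r : Z5 → Z5} (h : permOK p r = true) (R : E5 →ₗ[ℝ] E5)
    (hR : ∀ x, toE (r x) = R (toE x)) {x : E5} (hx : x ∈ body0) : R x ∈ body0 := by
  simp only [permOK, Bool.and_eq_true, List.all_eq_true, List.mem_range, decide_eq_true_eq, beq_iff_eq] at h
  obtain ⟨h1, h2⟩ := h
  rw [mem_body] at hx ⊢
  obtain ⟨l, hl, u, ⟨u0, u1⟩, u2, rfl⟩ := hx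
  have hm := h2 l hl
  rw [List.elem_eq_mem, decide_eq_true_eq] at hm
  obtain ⟨l', hl', hb⟩ := okF_rev chk_okF _ hm
  -- the permutation of Fin 30
  let σ : Fin 30 → Fin 30 := fun i => ⟨p.getD i.1 0, (h1 i.1 i.2).1.1⟩
  have hσ : Function.Involutive σ := fun i => Fin.ext (h1 i.1 i.2).1.2
  have hpos : ∀ i, pos0 (σ i) = R (pos0 i) := fun i => by
    rw [pos0, pos0, ← hR, ← (h1 i.1 i.2).2]
  refine ⟨l', hl', fun i => u (σ i), ⟨fun i => u0 _, fun i hi => ?_⟩, ?_, ?_⟩
  · have := u1 _ hi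
    rw [← hb i.1 i.2, testBit_maskOf, List.mem_map]
    refine ⟨(σ i).1, this, ?_⟩
    exact congrArg Fin.val (hσ i)
  · rw [← u2]
    exact Equiv.sum_comp (Function.Involutive.toPerm σ hσ) u
  · rw [map_sum, ← Equiv.sum_comp (Function.Involutive.toPerm σ hσ) (fun i => R (u i • pos0 i))]
    refine Finset.sum_congr rfl fun i _ => ?_
    show R (u (σ i) • pos0 (σ i)) = u (σ i) • pos0 i
    rw [map_smul, ← hpos, hσ i]

noncomputable def reflL (a b : ℝ) : E5 →ₗ[ℝ] E5 where
  toFun x := WithLp.toLp 2 ![x 0, x 1, x 2, a * x 3, b * x 4]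
  map_add' x y := by ext i; fin_cases i <;> simp <;> ring
  map_smul' c x := by ext i; fin_cases i <;> simp <;> ring

theorem body_s {x : E5} (hx : x ∈ body0) : reflL (-1) 1 x ∈ body0 :=
  body_refl chk_s _ (fun x => by
    ext i; fin_cases i <;> simp [toE, reflS, reflL]) hx

theorem body_h {x : E5} (hx : x ∈ body0) : reflL 1 (-1) x ∈ body0 :=
  body_refl chk_h _ (fun x => by
    ext i; fin_cases i <;> simp [toE, reflH, reflL]) hx

theorem reflL_invol {a b : ℝ} (ha : a * a = 1) (hb : b * b = 1) (x : E5) : reflL a b (reflL a b x) = x := by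
  ext i; fin_cases i
  · rfl
  · rfl
  · rfl
  · show a * (a * x 3) = x 3
    rw [← mul_assoc, ha, one_mul]
  · show b * (b * x 4) = x 4
    rw [← mul_assoc, hb, one_mul]

theorem body_s_iff (x : E5) : x ∈ body0 ↔ reflL (-1) 1 x ∈ body0 :=
  ⟨body_s, fun h => by
    have := body_s h
    rwa [reflL_invol (by norm_num) (by norm_num)] at this⟩

theorem body_h_iff (x : E5) : x ∈ body0 ↔ reflL 1 (-1) x ∈ body0 :=
  ⟨body_h, fun h => by
    have := body_h h
    rwa [reflL_invol (by norm_num) (by norm_num)] at this⟩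

theorem body_fold (x : E5) : x ∈ body0 ↔ fold x ∈ body0 := by
  have h1 : x ∈ body0 ↔ (WithLp.toLp 2 ![x 0, x 1, x 2, |x 3|, x 4] : E5) ∈ body0 := by
    rcases le_total 0 (x 3) with h | h
    · have : (WithLp.toLp 2 ![x 0, x 1, x 2, |x 3|, x 4] : E5) = x := by
        ext i; fin_cases i <;> simp [abs_of_nonneg h]
      rw [this]
    · have : (WithLp.toLp 2 ![x 0, x 1, x 2, |x 3|, x 4] : E5) = reflL (-1) 1 x := by
        ext i; fin_cases i <;> simp [abs_of_nonpos h, reflL]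
      rw [this]; exact body_s_iff x
  rw [h1]
  rcases le_total 0 (x 4) with h | h
  · have : fold x = reflL 1 (-1) (WithLp.toLp 2 ![x 0, x 1, x 2, |x 3|, x 4]) := by
      ext i; fin_cases i <;> simp [abs_of_nonneg h, reflL, fold]
    rw [this]; exact body_h_iff _
  · have : fold x = (WithLp.toLp 2 ![x 0, x 1, x 2, |x 3|, x 4] : E5) := by
      ext i; fin_cases i <;> simp [abs_of_nonpos h, fold]
    rw [this]

/-! ### the fan of a vertex -/

theorem vsAt_getD {w i : ℕ} (hw : w < 30) (hi : i < 30) :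
    toE ((vsAt w).getD i default) = pos0 ⟨i, hi⟩ - pos0 ⟨w, hw⟩ := by
  have hl := verts_len
  have e1 : (vsAt w).getD i default = (verts0 i).sub (verts0 w) := by
    have hi' : i < verts.length := by rw [hl]; exact hi
    have hw' : w < verts.length := by rw [hl]; exact hw
    have hd1 : ∀ d, verts.getD i d = verts[i] := fun d => List.getD_eq_getElem _ _ hi'
    have hd2 : ∀ d, verts.getD w d = verts[w] := fun d => List.getD_eq_getElem _ _ hw'
    rw [vsAt, List.getD_eq_getElem _ _ (by rw [List.length_map]; exact hi'), List.getElem_map,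
      verts0, verts0, hd1, hd2, hd2]
  rw [e1]
  ext j
  fin_cases j <;> simp [toE, Z5.sub, pos0]

theorem coneL_iff {w : ℕ} (hw : w < 30) : ∀ {t : List ℕ} (ht : ∀ i ∈ t, i < 30) {x : E5},
    x ∈ coneL (vsAt w) t ↔ ∃ u, Wt t u ∧ x = ∑ i, u i • (pos0 i - pos0 ⟨w, hw⟩)
  | [], _, x => by
    simp only [coneL, mem_singleton_iff]
    constructor
    · rintro rfl
      exact ⟨0, ⟨fun i => le_rfl, fun i hi => absurd rfl hi⟩, by simp⟩
    · rintro ⟨u, ⟨u0, u1⟩, rfl⟩
      refine Finset.sum_eq_zero fun i _ => ?_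
      have : u i = 0 := by
        by_contra h
        exact absurd (u1 i h) (by simp)
      rw [this, zero_smul]
  | j :: t, ht, x => by
    have hj : j < 30 := ht j (by simp)
    simp only [coneL, mem_setOf_eq]
    constructor
    · rintro ⟨r, hr, y, hy, rfl⟩
      obtain ⟨u, ⟨u0, u1⟩, rfl⟩ := (coneL_iff hw (fun i hi => ht i (by simp [hi]))).1 hy
      refine ⟨fun i => u i + if i = ⟨j, hj⟩ then r else 0, ⟨fun i => ?_, fun i hi => ?_⟩, ?_⟩
      · have := u0 i
        show 0 ≤ u i + if i = ⟨j, hj⟩ then r else 0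
        split_ifs <;> linarith
      · by_cases h : i = ⟨j, hj⟩
        · rw [h]; simp
        · replace hi : (u i + if i = ⟨j, hj⟩ then r else 0) ≠ 0 := hi
          rw [if_neg h, add_zero] at hi
          exact List.mem_cons_of_mem _ (u1 i hi)
      · simp only [add_smul, Finset.sum_add_distrib, ite_smul, zero_smul, Finset.sum_ite_eq',
          Finset.mem_univ, if_true]
        rw [vsAt_getD hw hj, add_comm]
    · rintro ⟨u, ⟨u0, u1⟩, rfl⟩
      refine ⟨u ⟨j, hj⟩, u0 _, ∑ i, (if i = ⟨j, hj⟩ then 0 else u i) • (pos0 i - pos0 ⟨w, hw⟩), ?_, ?_⟩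
      · rw [coneL_iff hw (fun i hi => ht i (by simp [hi]))]
        refine ⟨_, ⟨fun i => ?_, fun i hi => ?_⟩, rfl⟩
        · split_ifs
          · exact le_rfl
          · exact u0 i
        · by_cases h : i = ⟨j, hj⟩
          · rw [if_pos h] at hi; exact absurd rfl hi
          · rw [if_neg h] at hi
            rcases List.mem_cons.1 (u1 i hi) with h' | h'
            · exact absurd (Fin.ext h') h
            · exact h'
      · rw [vsAt_getD hw hj, ← Finset.add_sum_erase Finset.univ _ (Finset.mem_univ ⟨j, hj⟩),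
          ← Finset.add_sum_erase Finset.univ (fun i => (if i = ⟨j, hj⟩ then 0 else u i) • (pos0 i - pos0 ⟨w, hw⟩))
            (Finset.mem_univ ⟨j, hj⟩)]
        simp only [if_true, zero_smul, zero_add]
        congr 1
        refine Finset.sum_congr rfl fun i hi => ?_
        rw [if_neg (Finset.ne_of_mem_erase hi)]

theorem mem_linkF {w : ℕ} {t : List ℕ} : t ∈ linkF w ↔ ∃ l ∈ facets, w ∈ l ∧ l.erase w = t := by
  rw [linkF, List.mem_map]
  constructor
  · rintro ⟨l, hl, rfl⟩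
    rw [List.mem_filter] at hl
    exact ⟨l, hl.1, by simpa using hl.2, rfl⟩
  · rintro ⟨l, hl, hw, rfl⟩
    exact ⟨l, List.mem_filter.2 ⟨hl, by simpa using hw⟩, rfl⟩

theorem fan_iff {w : Fin 30} {x : E5} : x ∈ fan (vsAt w.1) (linkF w.1) ↔
    ∃ l ∈ facets, w.1 ∈ l ∧ ∃ u, Wt l u ∧ x = ∑ i, u i • (pos0 i - pos0 w) := by
  constructor
  · rintro ⟨t, ht, hx⟩
    obtain ⟨l, hl, hw, rfl⟩ := mem_linkF.1 ht
    obtain ⟨u, ⟨u0, u1⟩, rfl⟩ := (coneL_iff w.2 (fun i hi => facet_lt hl (List.mem_of_mem_erase hi))).1 hx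
    exact ⟨l, hl, hw, u, ⟨u0, fun i hi => List.mem_of_mem_erase (u1 i hi)⟩, rfl⟩
  · rintro ⟨l, hl, hw, u, ⟨u0, u1⟩, rfl⟩
    refine ⟨l.erase w.1, mem_linkF.2 ⟨l, hl, hw, rfl⟩, ?_⟩
    rw [coneL_iff w.2 (fun i hi => facet_lt hl (List.mem_of_mem_erase hi))]
    refine ⟨fun i => if i = w then 0 else u i, ⟨fun i => ?_, fun i hi => ?_⟩, ?_⟩
    · show 0 ≤ if i = w then 0 else u i
      split_ifs
      · exact le_rfl
      · exact u0 i
    · replace hi : (if i = w then 0 else u i) ≠ 0 := hi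
      by_cases h : i = w
      · rw [if_pos h] at hi; exact absurd rfl hi
      · rw [if_neg h] at hi
        exact (List.mem_erase_of_ne (fun h' => h (Fin.ext h'))).2 (u1 i hi)
    · refine Finset.sum_congr rfl fun i _ => ?_
      show u i • (pos0 i - pos0 w) = (if i = w then 0 else u i) • (pos0 i - pos0 w)
      by_cases h : i = w
      · rw [if_pos h, h, sub_self, smul_zero, smul_zero]
      · rw [if_neg h]

end Pool.Agent.H755
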