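import Pool.Agent.H755.BookA

/-! The pages and the cone at the apex. -/

set_option autoImplicit false
set_option maxHeartbeats 1000000
set_option linter.deprecated false
set_option linter.unusedVariables false
set_option linter.style.longLine false

namespace Pool.Agent.H755

open Set
open Mach (E3 Z4 evR evZ sgR sgZ pl Arc inA sv svL)

/-! ### kernel checks -/

/-- every facet lies in a quadrant and meets the apex quadrant in a face of a facet at the apex -/
def quadOK (l : List ℕ) : Bool :=
  ((l.all fun i => decide (0 ≤ (verts0 i).d)) || (l.all fun i => decide ((verts0 i).d ≤ 0))) &&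
  ((l.all fun i => decide (0 ≤ (verts0 i).e)) || (l.all fun i => decide ((verts0 i).e ≤ 0))) &&
  facets.any fun l' => l'.elem 26 && (l.all fun i => !decide (0 ≤ (verts0 i).d) || !decide ((verts0 i).e ≤ 0) || l'.elem i)

/-- for the facets at the apex -/
def apexOK (l : List ℕ) : Bool :=
  !l.elem 26 || ((l.all fun i => decide (0 ≤ (verts0 i).d) && decide ((verts0 i).e ≤ 0)) &&
    ((l.all fun i => i == 26 || decide ((verts0 i).e = 0)) || (l.all fun i => i == 26 || decide ((verts0 i).d = 0))))

/-- the patterns of the edges of the arc: functions which vanish, are nonnegative, nonpositive -/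
def pats : List (List ℕ × List ℕ × List ℕ) :=
  [([0, 1], [2], []), ([1, 2], [0, 3], []), ([2, 3], [], [1, 4]), ([3, 4], [2], [5]), ([4, 5], [3], [])]

def plf (j : ℕ) : Z4 := pl.getD j (0, 0, 0, 0)

def prZ (v : Z5) : Z4 := (v.a, v.b, |v.c| + |v.d|, 1)

def pageOK (l : List ℕ) : Bool :=
  !l.elem 26 || (let Z := l.filter fun i => decide ((verts0 i).e = 0)
    ((Z.all fun i => decide (0 ≤ (verts0 i).c)) || (Z.all fun i => decide ((verts0 i).c ≤ 0))) &&
    pats.any fun p => Z.all fun i => (p.1.all fun j => decide (evZ (plf j) (prZ (verts0 i)) = 0)) &&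
      (p.2.1.all fun j => decide (0 ≤ evZ (plf j) (prZ (verts0 i)))) &&
      (p.2.2.all fun j => decide (evZ (plf j) (prZ (verts0 i)) ≤ 0)))

theorem chk_quad : (facets.all quadOK) = true := by decide +kernel
theorem chk_apex : (facets.all apexOK) = true := by decide +kernel
theorem chk_page : (facets.all pageOK) = true := by decide +kernel

theorem pos_three (i : Fin 30) : pos0 i 3 = (verts0 i.1).d := rfl
theorem pos_four (i : Fin 30) : pos0 i 4 = (verts0 i.1).e := rfl

theorem apex_eq : apex = pos0 26 := by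
  ext i; fin_cases i <;> simp [apex, pos0, toE, verts0, verts]

/-- a weighted sum of nonpositive numbers which is nonnegative -/
theorem supp_zero {u v : Fin 30 → ℝ} (hu : ∀ i, 0 ≤ u i) (hv : ∀ i, u i ≠ 0 → v i ≤ 0)
    (h : 0 ≤ ∑ i, u i * v i) : ∀ i, u i ≠ 0 → v i = 0 := by
  have a2 : ∀ i, u i * v i ≤ 0 := fun i => by
    by_cases h : u i = 0
    · rw [h, zero_mul]
    · exact mul_nonpos_of_nonneg_of_nonpos (hu i) (hv i h)
  have e2 : ∑ i, u i * v i = 0 := le_antisymm (Finset.sum_nonpos fun i _ => a2 i) h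
  intro i hi
  have := (Finset.sum_eq_zero_iff_of_nonpos (fun i _ => a2 i)).1 e2 i (Finset.mem_univ i)
  exact (mul_eq_zero.1 this).resolve_left hi

theorem supp_zero' {u v : Fin 30 → ℝ} (hu : ∀ i, 0 ≤ u i) (hv : ∀ i, u i ≠ 0 → 0 ≤ v i)
    (h : ∑ i, u i * v i ≤ 0) : ∀ i, u i ≠ 0 → v i = 0 := by
  intro i hi
  have := supp_zero (v := fun i => - v i) hu (fun i hi => neg_nonpos.2 (hv i hi)) (by
    simp only [mul_neg, Finset.sum_neg_distrib]; linarith) i hi
  linarith

/-- points of the body in the apex quadrant lie in facets at the apex -/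
theorem body_quad {x : E5} (hx : x ∈ body0) (h3 : 0 ≤ x 3) (h4 : x 4 ≤ 0) :
    ∃ l ∈ facets, 26 ∈ l ∧ ∃ u, Wt l u ∧ ∑ i, u i = 1 ∧ x = ∑ i, u i • pos0 i := by
  obtain ⟨l, hl, u, ⟨u0, u1⟩, u2, rfl⟩ := mem_body.1 hx
  have hq := List.all_eq_true.1 chk_quad l hl
  simp only [quadOK, Bool.and_eq_true, Bool.or_eq_true, List.all_eq_true, List.any_eq_true,
    decide_eq_true_eq, List.elem_eq_mem, Bool.not_eq_true', decide_eq_false_iff_not] at hq
  obtain ⟨⟨q1, q2⟩, l', hl', hl26, q3⟩ := hq
  rw [sum_coord] at h3 h4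
  have s3 : ∀ i, u i ≠ 0 → 0 ≤ pos0 i 3 := by
    rcases q1 with q1 | q1
    · intro i hi
      rw [pos_three]
      exact Int.cast_nonneg (q1 i.1 (u1 i hi))
    · have := supp_zero (v := fun i => pos0 i 3) u0 (fun i hi => by
        simp only [pos_three]
        exact Int.cast_nonpos.2 (q1 i.1 (u1 i hi))) h3
      intro i hi; exact (this i hi).ge
  have s4 : ∀ i, u i ≠ 0 → pos0 i 4 ≤ 0 := by
    rcases q2 with q2 | q2
    · have := supp_zero' (v := fun i => pos0 i 4) u0 (fun i hi => by
        simp only [pos_four]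
        exact Int.cast_nonneg (q2 i.1 (u1 i hi))) h4
      intro i hi; exact (this i hi).le
    · intro i hi
      rw [pos_four]
      exact Int.cast_nonpos.2 (q2 i.1 (u1 i hi))
  refine ⟨l', hl', hl26, u, ⟨u0, fun i hi => ?_⟩, u2, rfl⟩
  rcases q3 i.1 (u1 i hi) with (h | h) | h
  · exfalso
    have := s3 i hi
    rw [pos_three] at this
    exact h (Int.cast_nonneg_iff.1 this)
  · exfalso
    have := s4 i hi
    rw [pos_four] at this
    exact h (Int.cast_nonpos.1 this)
  · exact h

theorem body_cone {x : E5} (h3 : 0 ≤ x 3) (h4 : x 4 ≤ 0) :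
    x ∈ body0 ↔ x - apex ∈ fan (vsAt 26) (linkF 26) := by
  have h26 : ((26 : Fin 30) : ℕ) = 26 := rfl
  have hfan := fan_iff (w := 26) (x := x - apex)
  rw [h26] at hfan
  rw [hfan, apex_eq]
  constructor
  · intro hx
    obtain ⟨l, hl, hl26, u, hu, u2, rfl⟩ := body_quad hx h3 h4
    refine ⟨l, hl, hl26, u, hu, ?_⟩
    simp only [smul_sub, Finset.sum_sub_distrib, ← Finset.sum_smul, u2, one_smul]
  · rintro ⟨l, hl, hl26, u, ⟨u0, u1⟩, hu⟩
    have hq := List.all_eq_true.1 chk_apex l hl
    simp only [apexOK, Bool.and_eq_true, Bool.or_eq_true, List.all_eq_true,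
      decide_eq_true_eq, List.elem_eq_mem, Bool.not_eq_true', decide_eq_false_iff_not, beq_iff_eq] at hq
    have hq := hq.resolve_left (fun h => h hl26)
    obtain ⟨q1, q2⟩ := hq
    have hx : x = pos0 26 + ∑ i, u i • (pos0 i - pos0 26) := by rw [← hu]; abel
    set s := ∑ i ∈ Finset.univ.erase 26, u i with hs
    have hcoord : ∀ j : Fin 5, x j = pos0 26 j + ∑ i ∈ Finset.univ.erase 26, u i * (pos0 i j - pos0 26 j) := by
      intro j
      rw [hx, ← Finset.add_sum_erase Finset.univ _ (Finset.mem_univ (26 : Fin 30)), sub_self, smul_zero,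
        zero_add]
      simp
    have e3 : pos0 26 3 = 16 := by rw [← apex_eq]; rfl
    have e4 : pos0 26 4 = -16 := by rw [← apex_eq]; rfl
    have hs1 : s ≤ 1 := by
      rcases q2 with q2 | q2
      · have : x 4 = -16 + 16 * s := by
          rw [hcoord 4, e4, hs, Finset.mul_sum]
          congr 1
          refine Finset.sum_congr rfl fun i hi => ?_
          by_cases h : u i = 0
          · rw [h]; ring
          · have := (q2 i.1 (u1 i h)).resolve_left (fun h' => (Finset.ne_of_mem_erase hi) (Fin.ext h'))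
            rw [pos_four, this]; push_cast; ring
        linarith
      · have : x 3 = 16 - 16 * s := by
          rw [hcoord 3, e3, hs, Finset.mul_sum, sub_eq_add_neg, ← Finset.sum_neg_distrib]
          congr 1
          refine Finset.sum_congr rfl fun i hi => ?_
          by_cases h : u i = 0
          · rw [h]; ring
          · have := (q2 i.1 (u1 i h)).resolve_left (fun h' => (Finset.ne_of_mem_erase hi) (Fin.ext h'))
            rw [pos_three, this]; push_cast; ring
        linarith
    rw [mem_body]
    refine ⟨l, hl, fun i => if i = 26 then 1 - s else u i, ⟨fun i => ?_, fun i hi => ?_⟩, ?_, ?_⟩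
    · show 0 ≤ if i = 26 then 1 - s else u i
      split_ifs
      · linarith
      · exact u0 i
    · replace hi : (if i = 26 then 1 - s else u i) ≠ 0 := hi
      by_cases h : i = 26
      · rw [h]; exact hl26
      · rw [if_neg h] at hi
        exact u1 i hi
    · rw [← Finset.add_sum_erase Finset.univ _ (Finset.mem_univ (26 : Fin 30))]
      have : ∑ i ∈ Finset.univ.erase (26 : Fin 30), (if i = 26 then 1 - s else u i) = s :=
        Finset.sum_congr rfl fun i hi => by rw [if_neg (Finset.ne_of_mem_erase hi)]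
      simp only [if_true]
      rw [this]; ring
    · rw [← Finset.add_sum_erase Finset.univ _ (Finset.mem_univ (26 : Fin 30))]
      have : ∑ i ∈ Finset.univ.erase (26 : Fin 30), (if i = 26 then 1 - s else u i) • pos0 i =
          ∑ i ∈ Finset.univ.erase (26 : Fin 30), u i • pos0 i :=
        Finset.sum_congr rfl fun i hi => by rw [if_neg (Finset.ne_of_mem_erase hi)]
      simp only [if_true]
      rw [this, hx, ← Finset.add_sum_erase Finset.univ (fun i => u i • (pos0 i - pos0 26)) (Finset.mem_univ (26 : Fin 30))]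
      simp only [sub_self, smul_zero, zero_add, smul_sub, Finset.sum_sub_distrib, ← Finset.sum_smul]
      rw [← hs]
      module

end Pool.Agent.H755
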