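import Pool.Agent.H755.BookB

/-! The pages of the body. -/

set_option autoImplicit false
set_option maxHeartbeats 4000000
set_option linter.deprecated false
set_option linter.unusedVariables false
set_option linter.unusedSimpArgs false
set_option linter.style.longLine false

namespace Pool.Agent.H755

open Set
open Mach (E3 Z4 evR evZ sgR sgZ pl Arc inA sv svL)

theorem sgR_eq_zero {x : ℝ} : sgR x = 0 ↔ x = 0 := by
  rcases lt_trichotomy x 0 with h | h | h
  · rw [Mach.sgR_neg h]; simp [h.ne]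
  · rw [h, Mach.sgR_zero]; simp
  · rw [Mach.sgR_pos h]; simp [h.ne']

theorem sgR_nonneg {x : ℝ} : 0 ≤ sgR x ↔ 0 ≤ x := by
  rcases lt_trichotomy x 0 with h | h | h
  · rw [Mach.sgR_neg h]; simp [h]
  · rw [h, Mach.sgR_zero]; simp
  · rw [Mach.sgR_pos h]; simp [h.le]

theorem sgR_nonpos {x : ℝ} : sgR x ≤ 0 ↔ x ≤ 0 := by
  rcases lt_trichotomy x 0 with h | h | h
  · rw [Mach.sgR_neg h]; simp [h.le]
  · rw [h, Mach.sgR_zero]; simp
  · rw [Mach.sgR_pos h]; simp [h]

theorem Arc_iff {y : E3} : y ∈ Arc ↔ 0 ≤ y 2 ∧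
    ((evR (plf 0) y = 0 ∧ evR (plf 1) y = 0 ∧ 0 ≤ evR (plf 2) y) ∨
    (evR (plf 1) y = 0 ∧ evR (plf 2) y = 0 ∧ 0 ≤ evR (plf 0) y ∧ 0 ≤ evR (plf 3) y) ∨
    (evR (plf 2) y = 0 ∧ evR (plf 3) y = 0 ∧ evR (plf 1) y ≤ 0 ∧ evR (plf 4) y ≤ 0) ∨
    (evR (plf 3) y = 0 ∧ evR (plf 4) y = 0 ∧ 0 ≤ evR (plf 2) y ∧ evR (plf 5) y ≤ 0) ∨
    (evR (plf 4) y = 0 ∧ evR (plf 5) y = 0 ∧ 0 ≤ evR (plf 3) y)) := by
  have e : sv y = [sgR (evR (plf 0) y), sgR (evR (plf 1) y), sgR (evR (plf 2) y), sgR (evR (plf 3) y),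
    sgR (evR (plf 4) y), sgR (evR (plf 5) y)] := rfl
  show 0 ≤ y 2 ∧ inA (sv y) = true ↔ _
  rw [e]
  simp only [inA, Bool.or_eq_true, Bool.and_eq_true, beq_iff_eq, decide_eq_true_eq, sgR_eq_zero,
    sgR_nonneg, sgR_nonpos]
  tauto

theorem evR_pr {u : Fin 30 → ℝ} (u0 : ∀ i, 0 ≤ u i) (u2 : ∑ i, u i = 1)
    (h2 : (∀ i, u i ≠ 0 → 0 ≤ pos0 i 2) ∨ ∀ i, u i ≠ 0 → pos0 i 2 ≤ 0) (h3 : ∀ i, u i ≠ 0 → 0 ≤ pos0 i 3)
    (f : Z4) : evR f (pr (∑ i, u i • pos0 i)) = ∑ i, u i * (evZ f (prZ (verts0 i.1)) : ℝ) := by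
  have e2 : |(∑ i, u i • pos0 i) 2| = ∑ i, u i * |pos0 i 2| := by
    rw [sum_coord]
    rcases h2 with h2 | h2
    · have : ∀ i, u i * |pos0 i 2| = u i * pos0 i 2 := fun i => by
        by_cases h : u i = 0
        · rw [h, zero_mul, zero_mul]
        · rw [abs_of_nonneg (h2 i h)]
      simp only [this]
      refine abs_of_nonneg (Finset.sum_nonneg fun i _ => ?_)
      rw [← this]; exact mul_nonneg (u0 i) (abs_nonneg _)
    · have : ∀ i, u i * |pos0 i 2| = -(u i * pos0 i 2) := fun i => by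
        by_cases h : u i = 0
        · rw [h, zero_mul, zero_mul, neg_zero]
        · rw [abs_of_nonpos (h2 i h)]; ring
      simp only [this, Finset.sum_neg_distrib]
      refine abs_of_nonpos (Finset.sum_nonpos fun i _ => ?_)
      have h := mul_nonneg (u0 i) (abs_nonneg (pos0 i 2))
      rw [this] at h; linarith
  have e3 : |(∑ i, u i • pos0 i) 3| = ∑ i, u i * |pos0 i 3| := by
    rw [sum_coord]
    have : ∀ i, u i * |pos0 i 3| = u i * pos0 i 3 := fun i => by
      by_cases h : u i = 0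
      · rw [h, zero_mul, zero_mul]
      · rw [abs_of_nonneg (h3 i h)]
    simp only [this]
    refine abs_of_nonneg (Finset.sum_nonneg fun i _ => ?_)
    rw [← this]; exact mul_nonneg (u0 i) (abs_nonneg _)
  have e : evR f (pr (∑ i, u i • pos0 i)) = f.1 * (∑ i, u i • pos0 i) 0 + f.2.1 * (∑ i, u i • pos0 i) 1 +
    f.2.2.1 * (|(∑ i, u i • pos0 i) 2| + |(∑ i, u i • pos0 i) 3|) + f.2.2.2 * ∑ i, u i := by
    rw [u2, mul_one]; rfl
  rw [e, e2, e3, sum_coord, sum_coord, ← Finset.sum_add_distrib, Finset.mul_sum, Finset.mul_sum,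
    Finset.mul_sum, Finset.mul_sum, ← Finset.sum_add_distrib, ← Finset.sum_add_distrib,
    ← Finset.sum_add_distrib]
  refine Finset.sum_congr rfl fun i _ => ?_
  have a0 : pos0 i 0 = (verts0 i.1).a := rfl
  have a1 : pos0 i 1 = (verts0 i.1).b := rfl
  have a2 : pos0 i 2 = (verts0 i.1).c := rfl
  have a3 : pos0 i 3 = (verts0 i.1).d := rfl
  rw [a0, a1, a2, a3]
  simp only [evZ, prZ]
  push_cast
  ring

theorem page_mp {x : E5} (hx : x ∈ body0) (h3 : 0 ≤ x 3) (h4 : x 4 = 0) : pr x ∈ Arc := by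
  obtain ⟨l, hl, hl26, u, ⟨u0, u1⟩, u2, rfl⟩ := body_quad hx h3 h4.le
  have hq := List.all_eq_true.1 chk_apex l hl
  simp only [apexOK, Bool.and_eq_true, Bool.or_eq_true, List.all_eq_true,
    decide_eq_true_eq, List.elem_eq_mem, Bool.not_eq_true', decide_eq_false_iff_not, beq_iff_eq] at hq
  have hq := (hq.resolve_left (fun h => h hl26)).1
  have hp := List.all_eq_true.1 chk_page l hl
  simp only [pageOK, Bool.and_eq_true, Bool.or_eq_true, List.all_eq_true, List.any_eq_true,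
    decide_eq_true_eq, List.elem_eq_mem, Bool.not_eq_true', decide_eq_false_iff_not, List.mem_filter] at hp
  obtain ⟨p1, p, hp, p2⟩ := hp.resolve_left (fun h => h hl26)
  rw [sum_coord] at h4
  have s4 : ∀ i, u i ≠ 0 → pos0 i 4 = 0 := supp_zero (v := fun i => pos0 i 4) u0 (fun i hi => by
    simp only [pos_four]
    exact Int.cast_nonpos.2 (hq i.1 (u1 i hi)).2) h4.ge
  have hZ : ∀ i : Fin 30, u i ≠ 0 → i.1 ∈ l ∧ (verts0 i.1).e = 0 := fun i hi => ⟨u1 i hi, by
    have := s4 i hi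
    rw [pos_four] at this
    exact Int.cast_eq_zero.1 this⟩
  have key := evR_pr u0 u2 (by
    rcases p1 with p1 | p1
    · left; intro i hi; exact Int.cast_nonneg (p1 i.1 (hZ i hi))
    · right; intro i hi; exact Int.cast_nonpos.2 (p1 i.1 (hZ i hi))) (fun i hi => by
    rw [pos_three]
    exact Int.cast_nonneg (hq i.1 (u1 i hi)).1)
  set y := pr (∑ i, u i • pos0 i) with hy
  have k0 : ∀ j ∈ p.1, evR (plf j) y = 0 := fun j hj => by
    rw [key]
    refine Finset.sum_eq_zero fun i _ => ?_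
    by_cases h : u i = 0
    · rw [h, zero_mul]
    · rw [(p2 i.1 (hZ i h)).1.1 j hj]; simp
  have k1 : ∀ j ∈ p.2.1, 0 ≤ evR (plf j) y := fun j hj => by
    rw [key]
    refine Finset.sum_nonneg fun i _ => ?_
    by_cases h : u i = 0
    · rw [h, zero_mul]
    · exact mul_nonneg (u0 i) (Int.cast_nonneg ((p2 i.1 (hZ i h)).1.2 j hj))
  have k2 : ∀ j ∈ p.2.2, evR (plf j) y ≤ 0 := fun j hj => by
    rw [key]
    refine Finset.sum_nonpos fun i _ => ?_
    by_cases h : u i = 0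
    · rw [h, zero_mul]
    · exact mul_nonpos_of_nonneg_of_nonpos (u0 i) (Int.cast_nonpos.2 ((p2 i.1 (hZ i h)).2 j hj))
  rw [Arc_iff]
  refine ⟨pr_two _, ?_⟩
  simp only [pats, List.mem_cons, List.not_mem_nil, or_false] at hp
  rcases hp with rfl | rfl | rfl | rfl | rfl
  · left; exact ⟨k0 0 (by simp), k0 1 (by simp), k1 2 (by simp)⟩
  · right; left; exact ⟨k0 1 (by simp), k0 2 (by simp), k1 0 (by simp), k1 3 (by simp)⟩
  · right; right; left; exact ⟨k0 2 (by simp), k0 3 (by simp), k2 1 (by simp), k2 4 (by simp)⟩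
  · right; right; right; left; exact ⟨k0 3 (by simp), k0 4 (by simp), k1 2 (by simp), k2 5 (by simp)⟩
  · right; right; right; right; exact ⟨k0 4 (by simp), k0 5 (by simp), k1 3 (by simp)⟩

theorem mem_tri {i j k : Fin 30} {l : List ℕ} (hl : l ∈ facets) (hi : i.1 ∈ l) (hj : j.1 ∈ l) (hk : k.1 ∈ l)
    {a b c : ℝ} (ha : 0 ≤ a) (hb : 0 ≤ b) (hc : 0 ≤ c) (h1 : a + b + c = 1) {x : E5}
    (hx : x = a • pos0 i + b • pos0 j + c • pos0 k) : x ∈ body0 := by
  rw [mem_body]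
  refine ⟨l, hl, fun m => (if m = i then a else 0) + (if m = j then b else 0) + (if m = k then c else 0),
    ⟨fun m => ?_, fun m hm => ?_⟩, ?_, ?_⟩
  · have h1 : 0 ≤ if m = i then a else 0 := by split_ifs <;> [exact ha; exact le_rfl]
    have h2 : 0 ≤ if m = j then b else 0 := by split_ifs <;> [exact hb; exact le_rfl]
    have h3 : 0 ≤ if m = k then c else 0 := by split_ifs <;> [exact hc; exact le_rfl]
    exact add_nonneg (add_nonneg h1 h2) h3
  · replace hm : (if m = i then a else 0) + (if m = j then b else 0) + (if m = k then c else 0) ≠ 0 := hm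
    by_cases e1 : m = i
    · rw [e1]; exact hi
    by_cases e2 : m = j
    · rw [e2]; exact hj
    by_cases e3 : m = k
    · rw [e3]; exact hk
    · rw [if_neg e1, if_neg e2, if_neg e3] at hm
      simp at hm
  · simp only [Finset.sum_add_distrib, Finset.sum_ite_eq', Finset.mem_univ, if_true]
    exact h1
  · simp only [add_smul, ite_smul, zero_smul, Finset.sum_add_distrib, Finset.sum_ite_eq', Finset.mem_univ, if_true]
    exact hx

theorem p0 (x : Fin 5) : pos0 0 x = ![(-8 : ℝ), -6, 0, 0, 0] x := by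
  fin_cases x <;> simp [pos0, toE, verts0, verts]
theorem p1 (x : Fin 5) : pos0 1 x = ![(2 : ℝ), 8, 8, 0, 0] x := by
  fin_cases x <;> simp [pos0, toE, verts0, verts]
theorem p2 (x : Fin 5) : pos0 2 x = ![(8 : ℝ), -8, 2, 0, 0] x := by
  fin_cases x <;> simp [pos0, toE, verts0, verts]
theorem p3 (x : Fin 5) : pos0 3 x = ![(-8 : ℝ), 8, 2, 0, 0] x := by
  fin_cases x <;> simp [pos0, toE, verts0, verts]
theorem p4 (x : Fin 5) : pos0 4 x = ![(-2 : ℝ), -4, 8, 0, 0] x := by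
  fin_cases x <;> simp [pos0, toE, verts0, verts]
theorem p5 (x : Fin 5) : pos0 5 x = ![(8 : ℝ), 6, 0, 0, 0] x := by
  fin_cases x <;> simp [pos0, toE, verts0, verts]
theorem p6 (x : Fin 5) : pos0 6 x = ![(-2 : ℝ), -4, -8, 0, 0] x := by
  fin_cases x <;> simp [pos0, toE, verts0, verts]
theorem p7 (x : Fin 5) : pos0 7 x = ![(-8 : ℝ), 8, -2, 0, 0] x := by
  fin_cases x <;> simp [pos0, toE, verts0, verts]
theorem p8 (x : Fin 5) : pos0 8 x = ![(8 : ℝ), -8, -2, 0, 0] x := by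
  fin_cases x <;> simp [pos0, toE, verts0, verts]
theorem p9 (x : Fin 5) : pos0 9 x = ![(2 : ℝ), 8, -8, 0, 0] x := by
  fin_cases x <;> simp [pos0, toE, verts0, verts]
theorem p10 (x : Fin 5) : pos0 10 x = ![(2 : ℝ), 8, 0, 8, 0] x := by
  fin_cases x <;> simp [pos0, toE, verts0, verts]
theorem p11 (x : Fin 5) : pos0 11 x = ![(8 : ℝ), -8, 0, 2, 0] x := by
  fin_cases x <;> simp [pos0, toE, verts0, verts]
theorem p12 (x : Fin 5) : pos0 12 x = ![(-8 : ℝ), 8, 0, 2, 0] x := by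
  fin_cases x <;> simp [pos0, toE, verts0, verts]
theorem p13 (x : Fin 5) : pos0 13 x = ![(-2 : ℝ), -4, 0, 8, 0] x := by
  fin_cases x <;> simp [pos0, toE, verts0, verts]

/-- a triangle, by coordinates -/
theorem mem_tri' {i j k : Fin 30} {l : List ℕ} (hl : l ∈ facets) (hi : i.1 ∈ l) (hj : j.1 ∈ l) (hk : k.1 ∈ l)
    {a b c : ℝ} (ha : 0 ≤ a) (hb : 0 ≤ b) (hc : 0 ≤ c) (h1 : a + b + c = 1) {x : E5}
    (e0 : x 0 = a * pos0 i 0 + b * pos0 j 0 + c * pos0 k 0)
    (e1 : x 1 = a * pos0 i 1 + b * pos0 j 1 + c * pos0 k 1)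
    (e2 : x 2 = a * pos0 i 2 + b * pos0 j 2 + c * pos0 k 2)
    (e3 : x 3 = a * pos0 i 3 + b * pos0 j 3 + c * pos0 k 3)
    (e4 : x 4 = a * pos0 i 4 + b * pos0 j 4 + c * pos0 k 4) : x ∈ body0 := by
  refine mem_tri hl hi hj hk ha hb hc h1 ?_
  ext m
  fin_cases m
  · simpa using e0
  · simpa using e1
  · simpa using e2
  · simpa using e3
  · simpa using e4

theorem page_mpr {x : E5} (h : pr x ∈ Arc) (h3 : 0 ≤ x 3) (h4 : x 4 = 0) : x ∈ body0 := by
  rw [Arc_iff] at h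
  have e : ∀ f : Z4, evR f (pr x) = f.1 * x 0 + f.2.1 * x 1 + f.2.2.1 * (|x 2| + x 3) + f.2.2.2 := by
    intro f
    show f.1 * x 0 + f.2.1 * x 1 + f.2.2.1 * (|x 2| + |x 3|) + f.2.2.2 = _
    rw [abs_of_nonneg h3]
  simp only [e, plf, pl, List.getD_cons_zero, List.getD_cons_succ] at h
  push_cast at h
  obtain ⟨hz, h⟩ := h
  have hz' : 0 ≤ |x 2| + x 3 := add_nonneg (abs_nonneg _) h3
  rcases h with ⟨f1, f2, f3⟩ | ⟨f1, f2, f3, f4⟩ | ⟨f1, f2, f3, f4⟩ | ⟨f1, f2, f3, f4⟩ | ⟨f1, f2, f3⟩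
  · obtain ⟨z, hzd⟩ : ∃ z, z = |x 2| + x 3 := ⟨_, rfl⟩
    simp only [← hzd] at hz' f1 f2 f3
    rcases le_total 0 (x 2) with hs | hs
    · rw [abs_of_nonneg hs] at hzd
      refine mem_tri' (i := 0) (j := 1) (k := 10) (l := [0, 1, 10, 26]) (a := 1 - z / 8) (b := (z - x 3) / 8) (c := x 3 / 8) (by decide +kernel) (by decide) (by decide) (by decide) ?_ ?_ ?_ ?_ ?_ ?_ ?_ ?_ ?_ <;>
        (try simp only [p0, p1, p10, h4]) <;> (try simp only [Matrix.cons_val]) <;> first | linarith | (norm_num; done) | (norm_num; linarith)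
    · rw [abs_of_nonpos hs] at hzd
      refine mem_tri' (i := 0) (j := 9) (k := 10) (l := [0, 9, 10, 26]) (a := 1 - z / 8) (b := (z - x 3) / 8) (c := x 3 / 8) (by decide +kernel) (by decide) (by decide) (by decide) ?_ ?_ ?_ ?_ ?_ ?_ ?_ ?_ ?_ <;>
        (try simp only [p0, p9, p10, h4]) <;> (try simp only [Matrix.cons_val]) <;> first | linarith | (norm_num; done) | (norm_num; linarith)
  · obtain ⟨z, hzd⟩ : ∃ z, z = |x 2| + x 3 := ⟨_, rfl⟩
    simp only [← hzd] at hz' f1 f2 f3 f4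
    rcases le_total 0 (x 2) with hs | hs
    · rw [abs_of_nonneg hs] at hzd
      rcases le_total (x 3) (2 * ((8 - z) / 6)) with hc | hc
      · refine mem_tri' (i := 1) (j := 2) (k := 11) (l := [1, 2, 11, 26]) (a := 1 - (8 - z) / 6) (b := (8 - z) / 6 - x 3 / 2) (c := x 3 / 2) (by decide +kernel) (by decide) (by decide) (by decide) ?_ ?_ ?_ ?_ ?_ ?_ ?_ ?_ ?_ <;>
          (try simp only [p1, p2, p11, h4]) <;> (try simp only [Matrix.cons_val]) <;> first | linarith | (norm_num; done) | (norm_num; linarith)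
      · refine mem_tri' (i := 1) (j := 11) (k := 10) (l := [1, 10, 11, 26]) (a := 1 - (8 - z) / 6 - (x 3 - 2 * ((8 - z) / 6)) / 8) (b := (8 - z) / 6) (c := (x 3 - 2 * ((8 - z) / 6)) / 8) (by decide +kernel) (by decide) (by decide) (by decide) ?_ ?_ ?_ ?_ ?_ ?_ ?_ ?_ ?_ <;>
          (try simp only [p1, p11, p10, h4]) <;> (try simp only [Matrix.cons_val]) <;> first | linarith | (norm_num; done) | (norm_num; linarith)
    · rw [abs_of_nonpos hs] at hzd
      rcases le_total (x 3) (2 * ((8 - z) / 6)) with hc | hc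
      · refine mem_tri' (i := 9) (j := 8) (k := 11) (l := [8, 9, 11, 26]) (a := 1 - (8 - z) / 6) (b := (8 - z) / 6 - x 3 / 2) (c := x 3 / 2) (by decide +kernel) (by decide) (by decide) (by decide) ?_ ?_ ?_ ?_ ?_ ?_ ?_ ?_ ?_ <;>
          (try simp only [p9, p8, p11, h4]) <;> (try simp only [Matrix.cons_val]) <;> first | linarith | (norm_num; done) | (norm_num; linarith)
      · refine mem_tri' (i := 9) (j := 11) (k := 10) (l := [9, 10, 11, 26]) (a := 1 - (8 - z) / 6 - (x 3 - 2 * ((8 - z) / 6)) / 8) (b := (8 - z) / 6) (c := (x 3 - 2 * ((8 - z) / 6)) / 8) (by decide +kernel) (by decide) (by decide) (by decide) ?_ ?_ ?_ ?_ ?_ ?_ ?_ ?_ ?_ <;>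
          (try simp only [p9, p11, p10, h4]) <;> (try simp only [Matrix.cons_val]) <;> first | linarith | (norm_num; done) | (norm_num; linarith)
  · obtain ⟨z, hzd⟩ : ∃ z, z = |x 2| + x 3 := ⟨_, rfl⟩
    simp only [← hzd] at hz' f1 f2 f3 f4
    rcases le_total 0 (x 2) with hs | hs
    · rw [abs_of_nonneg hs] at hzd
      rcases le_total (x 3) (2 * ((8 - x 0) / 16)) with hc | hc
      · refine mem_tri' (i := 2) (j := 3) (k := 12) (l := [2, 3, 12, 26]) (a := 1 - (8 - x 0) / 16) (b := (8 - x 0) / 16 - x 3 / 2) (c := x 3 / 2) (by decide +kernel) (by decide) (by decide) (by decide) ?_ ?_ ?_ ?_ ?_ ?_ ?_ ?_ ?_ <;>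
          (try simp only [p2, p3, p12, h4]) <;> (try simp only [Matrix.cons_val]) <;> first | linarith | (norm_num; done) | (norm_num; linarith)
      · refine mem_tri' (i := 2) (j := 12) (k := 11) (l := [2, 11, 12, 26]) (a := 1 - (8 - x 0) / 16 - (x 3 - 2 * ((8 - x 0) / 16)) / 2) (b := (8 - x 0) / 16) (c := (x 3 - 2 * ((8 - x 0) / 16)) / 2) (by decide +kernel) (by decide) (by decide) (by decide) ?_ ?_ ?_ ?_ ?_ ?_ ?_ ?_ ?_ <;>
          (try simp only [p2, p12, p11, h4]) <;> (try simp only [Matrix.cons_val]) <;> first | linarith | (norm_num; done) | (norm_num; linarith)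
    · rw [abs_of_nonpos hs] at hzd
      rcases le_total (x 3) (2 * ((8 - x 0) / 16)) with hc | hc
      · refine mem_tri' (i := 8) (j := 7) (k := 12) (l := [7, 8, 12, 26]) (a := 1 - (8 - x 0) / 16) (b := (8 - x 0) / 16 - x 3 / 2) (c := x 3 / 2) (by decide +kernel) (by decide) (by decide) (by decide) ?_ ?_ ?_ ?_ ?_ ?_ ?_ ?_ ?_ <;>
          (try simp only [p8, p7, p12, h4]) <;> (try simp only [Matrix.cons_val]) <;> first | linarith | (norm_num; done) | (norm_num; linarith)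
      · refine mem_tri' (i := 8) (j := 12) (k := 11) (l := [8, 11, 12, 26]) (a := 1 - (8 - x 0) / 16 - (x 3 - 2 * ((8 - x 0) / 16)) / 2) (b := (8 - x 0) / 16) (c := (x 3 - 2 * ((8 - x 0) / 16)) / 2) (by decide +kernel) (by decide) (by decide) (by decide) ?_ ?_ ?_ ?_ ?_ ?_ ?_ ?_ ?_ <;>
          (try simp only [p8, p12, p11, h4]) <;> (try simp only [Matrix.cons_val]) <;> first | linarith | (norm_num; done) | (norm_num; linarith)
  · obtain ⟨z, hzd⟩ : ∃ z, z = |x 2| + x 3 := ⟨_, rfl⟩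
    simp only [← hzd] at hz' f1 f2 f3 f4
    rcases le_total 0 (x 2) with hs | hs
    · rw [abs_of_nonneg hs] at hzd
      rcases le_total (x 3) (8 * ((z - 2) / 6)) with hc | hc
      · refine mem_tri' (i := 3) (j := 4) (k := 13) (l := [3, 4, 13, 26]) (a := 1 - (z - 2) / 6) (b := (z - 2) / 6 - x 3 / 8) (c := x 3 / 8) (by decide +kernel) (by decide) (by decide) (by decide) ?_ ?_ ?_ ?_ ?_ ?_ ?_ ?_ ?_ <;>
          (try simp only [p3, p4, p13, h4]) <;> (try simp only [Matrix.cons_val]) <;> first | linarith | (norm_num; done) | (norm_num; linarith)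
      · refine mem_tri' (i := 3) (j := 13) (k := 12) (l := [3, 12, 13, 26]) (a := 1 - (z - 2) / 6 - (x 3 - 8 * ((z - 2) / 6)) / 2) (b := (z - 2) / 6) (c := (x 3 - 8 * ((z - 2) / 6)) / 2) (by decide +kernel) (by decide) (by decide) (by decide) ?_ ?_ ?_ ?_ ?_ ?_ ?_ ?_ ?_ <;>
          (try simp only [p3, p13, p12, h4]) <;> (try simp only [Matrix.cons_val]) <;> first | linarith | (norm_num; done) | (norm_num; linarith)
    · rw [abs_of_nonpos hs] at hzd
      rcases le_total (x 3) (8 * ((z - 2) / 6)) with hc | hc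
      · refine mem_tri' (i := 7) (j := 6) (k := 13) (l := [6, 7, 13, 26]) (a := 1 - (z - 2) / 6) (b := (z - 2) / 6 - x 3 / 8) (c := x 3 / 8) (by decide +kernel) (by decide) (by decide) (by decide) ?_ ?_ ?_ ?_ ?_ ?_ ?_ ?_ ?_ <;>
          (try simp only [p7, p6, p13, h4]) <;> (try simp only [Matrix.cons_val]) <;> first | linarith | (norm_num; done) | (norm_num; linarith)
      · refine mem_tri' (i := 7) (j := 13) (k := 12) (l := [7, 12, 13, 26]) (a := 1 - (z - 2) / 6 - (x 3 - 8 * ((z - 2) / 6)) / 2) (b := (z - 2) / 6) (c := (x 3 - 8 * ((z - 2) / 6)) / 2) (by decide +kernel) (by decide) (by decide) (by decide) ?_ ?_ ?_ ?_ ?_ ?_ ?_ ?_ ?_ <;>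
          (try simp only [p7, p13, p12, h4]) <;> (try simp only [Matrix.cons_val]) <;> first | linarith | (norm_num; done) | (norm_num; linarith)
  · obtain ⟨z, hzd⟩ : ∃ z, z = |x 2| + x 3 := ⟨_, rfl⟩
    simp only [← hzd] at hz' f1 f2 f3
    rcases le_total 0 (x 2) with hs | hs
    · rw [abs_of_nonneg hs] at hzd
      refine mem_tri' (i := 4) (j := 5) (k := 13) (l := [4, 5, 13, 26]) (a := (z - x 3) / 8) (b := 1 - z / 8) (c := x 3 / 8) (by decide +kernel) (by decide) (by decide) (by decide) ?_ ?_ ?_ ?_ ?_ ?_ ?_ ?_ ?_ <;>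
        (try simp only [p4, p5, p13, h4]) <;> (try simp only [Matrix.cons_val]) <;> first | linarith | (norm_num; done) | (norm_num; linarith)
    · rw [abs_of_nonpos hs] at hzd
      refine mem_tri' (i := 6) (j := 5) (k := 13) (l := [5, 6, 13, 26]) (a := (z - x 3) / 8) (b := 1 - z / 8) (c := x 3 / 8) (by decide +kernel) (by decide) (by decide) (by decide) ?_ ?_ ?_ ?_ ?_ ?_ ?_ ?_ ?_ <;>
        (try simp only [p6, p5, p13, h4]) <;> (try simp only [Matrix.cons_val]) <;> first | linarith | (norm_num; done) | (norm_num; linarith)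

theorem body_page {x : E5} (h4 : x 4 = 0) : x ∈ body0 ↔ pr x ∈ Arc := by
  have hf4 : fold x 4 = 0 := by show -|x 4| = 0; rw [h4]; simp
  have hp : pr (fold x) = pr x := by
    funext i; fin_cases i
    · rfl
    · rfl
    · show |x 2| + abs |x 3| = |x 2| + |x 3|
      rw [abs_abs]
  rw [body_fold, ← hp]
  exact ⟨fun h => page_mp h (abs_nonneg _) hf4, fun h => page_mpr h (abs_nonneg _) hf4⟩

end Pool.Agent.H755
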