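import Pool.Agent.H755.BookC

/-! The body is knotted. -/

set_option autoImplicit false
set_option maxHeartbeats 4000000
set_option linter.deprecated false
set_option linter.unusedVariables false
set_option linter.style.longLine false

namespace Pool.Agent.H755

open Set
open Mach (E3 Z4 evR evZ sgR sgZ pl Arc inA sv svL)

/-- the local homeomorphism at each vertex -/
theorem exists_loc (w : Fin 30) : ∃ φ : E5 ≃ₜ E5, IsPL φ ∧ IsPL φ.symm ∧
    (∀ t : ℝ, 0 ≤ t → ∀ x, φ (t • x) = t • φ x) ∧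
      φ '' fan (vsAt w.1) (linkF w.1) = {x | x 3 = 0 ∧ x 4 = 0} :=
  runF_homeo (flipsCheck_all w.1 w.2)

theorem body_book : ∃ ψ : X5 ≃ₜ X5, Book body0 ψ := by
  obtain ⟨ψ, -, -, h1, h2⟩ := exists_loc 26
  refine ⟨ψ, h1, body_fold, fun x h3 h4 => ?_, fun x h4 => body_page h4, ![2, 8, 8], ?_, ?_⟩
  · rw [body_cone h3 h4]
    constructor
    · intro h
      have : ψ (x - apex) ∈ {x : E5 | x 3 = 0 ∧ x 4 = 0} := by
        rw [← h2]; exact ⟨_, h, rfl⟩
      exact this
    · intro h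
      have : ψ (x - apex) ∈ ψ '' fan (vsAt 26) (linkF 26) := by
        have h3 : ψ (x - apex) ∈ {x : E5 | x 3 = 0 ∧ x 4 = 0} := h
        rw [← h2] at h3; exact h3
      obtain ⟨y, hy, e⟩ := this
      rw [← ψ.injective e]; exact hy
  · rw [Arc_iff]
    refine ⟨?_, Or.inl ?_⟩
    · show (0:ℝ) ≤ 8
      norm_num
    · simp [evR, plf, pl]; norm_num
  · show (0:ℝ) < 8
    norm_num

theorem body_knotted : ¬ ∃ Φ : X5 ≃ₜ X5, Φ '' body0 = roundSphere 3 := by
  obtain ⟨ψ, hb⟩ := body_book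
  exact knotted hb

end Pool.Agent.H755
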