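import Pool.Agent.H755.BookA

/-! Bistellar flips: the realization of the complex is homeomorphic to the boundary of a simplex. -/

set_option autoImplicit false
set_option maxHeartbeats 4000000
set_option linter.deprecated false
set_option linter.unusedVariables false
set_option linter.unusedSimpArgs false
set_option linter.style.longLine false
set_option maxRecDepth 100000

namespace Pool.Agent.H755

open Set

/-- realization of the complex generated by a set of simplices -/
def RS (P : Set (Finset (Fin 30))) : Set (Fin 30 → ℝ) :=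
  {w | (∀ i, 0 ≤ w i) ∧ ∑ i, w i = 1 ∧ ∃ τ ∈ P, ∀ i, i ∉ τ → w i = 0}

noncomputable def mB (S : Finset (Fin 30)) (hS : S.Nonempty) (x : Fin 30 → ℝ) : ℝ := S.inf' hS x

noncomputable def bf (S T : Finset (Fin 30)) (hS : S.Nonempty) (x : Fin 30 → ℝ) : Fin 30 → ℝ :=
  fun i => x i - mB S hS x * ((if i ∈ S then 1 else 0) - ((S.card : ℝ) / T.card) * (if i ∈ T then 1 else 0))

structure HStep (P Q : Set (Finset (Fin 30))) (S T : Finset (Fin 30)) : Prop where
  noT : ∀ σ ∈ P, ¬ T ⊆ σ
  top : ∀ σ ∈ P, S ⊆ σ → σ ⊆ S ∪ T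
  keep : ∀ σ ∈ P, ¬ S ⊆ σ → σ ∈ Q
  new : ∀ a ∈ S, ∃ τ ∈ Q, (S ∪ T).erase a ⊆ τ

variable {P Q : Set (Finset (Fin 30))} {S T : Finset (Fin 30)} {hS : S.Nonempty} {hT : T.Nonempty}

theorem continuous_bf : Continuous (bf S T hS) := by
  have h1 : Continuous (mB S hS) := Continuous.finset_inf'_apply hS fun i _ => continuous_apply i
  refine continuous_pi fun i => ?_
  exact (continuous_apply i).sub (h1.mul continuous_const)

theorem bf_S (hd : Disjoint S T) {i : Fin 30} (hi : i ∈ S) (x : Fin 30 → ℝ) :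
    bf S T hS x i = x i - mB S hS x := by
  have h : i ∉ T := Finset.disjoint_left.1 hd hi
  simp [bf, hi, h]

theorem bf_T (hd : Disjoint S T) {i : Fin 30} (hi : i ∈ T) (x : Fin 30 → ℝ) :
    bf S T hS x i = x i + mB S hS x * ((S.card : ℝ) / T.card) := by
  have h : i ∉ S := Finset.disjoint_right.1 hd hi
  simp [bf, hi, h]

theorem bf_O {i : Fin 30} (hi : i ∉ S) (hi' : i ∉ T) (x : Fin 30 → ℝ) :
    bf S T hS x i = x i := by
  simp [bf, hi, hi']

theorem bf_mem (h : HStep P Q S T) (hd : Disjoint S T) (hT : T.Nonempty) {x : Fin 30 → ℝ} (hx : x ∈ RS P) :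
    bf S T hS x ∈ RS Q := by
  obtain ⟨x0, x1, σ, hσ, xσ⟩ := hx
  have m0 : 0 ≤ mB S hS x := Finset.le_inf' _ _ fun i _ => x0 i
  have mle : ∀ i ∈ S, mB S hS x ≤ x i := fun i hi => Finset.inf'_le _ hi
  have cS : (0:ℝ) < S.card := by exact_mod_cast hS.card_pos
  have cT : (0:ℝ) < T.card := by exact_mod_cast hT.card_pos
  refine ⟨fun i => ?_, ?_, ?_⟩
  · by_cases h1 : i ∈ S
    · rw [bf_S hd h1]; linarith [mle i h1]
    · by_cases h2 : i ∈ T
      · rw [bf_T hd h2]; have := x0 i; positivity
      · rw [bf_O h1 h2]; exact x0 i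
  · simp only [bf, Finset.sum_sub_distrib, ← Finset.mul_sum, x1]
    have e1 : ∑ i : Fin 30, (if i ∈ S then (1:ℝ) else 0) = S.card := by simp
    have e2 : ∑ i : Fin 30, (if i ∈ T then (1:ℝ) else 0) = T.card := by simp
    rw [e1, e2]
    field_simp
    ring
  · obtain ⟨a, ha, hm⟩ := Finset.exists_mem_eq_inf' hS x
    have hm : mB S hS x = x a := hm
    obtain ⟨τ, hτ, hτs⟩ := h.new a ha
    rcases m0.eq_or_lt with hm0 | hm0
    · have e : bf S T hS x = x := by
        funext i; simp only [bf, ← hm0, zero_mul, sub_zero]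
      rw [e]
      by_cases hSσ : S ⊆ σ
      · refine ⟨τ, hτ, fun i hi => ?_⟩
        by_cases hia : i = a
        · rw [hia, ← hm, ← hm0]
        · refine xσ i fun h1 => hi (hτs (Finset.mem_erase.2 ⟨hia, h.top σ hσ hSσ h1⟩))
      · exact ⟨σ, h.keep σ hσ hSσ, xσ⟩
    · have hSσ : S ⊆ σ := fun i hi => by
        by_contra h1
        have := mle i hi
        rw [xσ i h1] at this
        linarith
      refine ⟨τ, hτ, fun i hi => ?_⟩
      by_cases hia : i = a
      · rw [hia, bf_S hd ha, hm, sub_self]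
      · have h1 : i ∉ S ∪ T := fun h1 => hi (hτs (Finset.mem_erase.2 ⟨hia, h1⟩))
        rw [Finset.mem_union, not_or] at h1
        rw [bf_O h1.1 h1.2]
        refine xσ i fun h2 => ?_
        rcases Finset.mem_union.1 (h.top σ hσ hSσ h2) with h3 | h3
        · exact h1.1 h3
        · exact h1.2 h3

theorem bf_inv (h : HStep P Q S T) (hd : Disjoint S T) {x : Fin 30 → ℝ} (hx : x ∈ RS P) :
    bf T S hT (bf S T hS x) = x := by
  obtain ⟨x0, x1, σ, hσ, xσ⟩ := hx
  have cS : (0:ℝ) < S.card := by exact_mod_cast hS.card_pos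
  have cT : (0:ℝ) < T.card := by exact_mod_cast hT.card_pos
  obtain ⟨b, hb, hbσ⟩ := Finset.not_subset.1 (h.noT σ hσ)
  have hm : mB T hT (bf S T hS x) = mB S hS x * ((S.card : ℝ) / T.card) := by
    apply le_antisymm
    · refine (Finset.inf'_le _ hb).trans ?_
      rw [bf_T hd hb, xσ b hbσ, zero_add]
    · refine Finset.le_inf' _ _ fun i hi => ?_
      rw [bf_T hd hi]
      linarith [x0 i]
  funext i
  by_cases h1 : i ∈ S
  · rw [bf_T hd.symm h1, hm, bf_S hd h1]
    field_simp
    ring
  · by_cases h2 : i ∈ T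
    · rw [bf_S hd.symm h2, hm, bf_T hd h2]; ring
    · rw [bf_O h2 h1, bf_O h1 h2]

theorem step_homeo (h : HStep P Q S T) (h' : HStep Q P T S) (hd : Disjoint S T) (hS : S.Nonempty)
    (hT : T.Nonempty) : Nonempty (RS P ≃ₜ RS Q) :=
  ⟨{ toFun := fun x => ⟨bf S T hS x, bf_mem h hd hT x.2⟩
     invFun := fun x => ⟨bf T S hT x, bf_mem h' hd.symm hS x.2⟩
     left_inv := fun x => Subtype.ext (bf_inv h hd x.2)
     right_inv := fun x => Subtype.ext (bf_inv h' hd.symm x.2)
     continuous_toFun := (continuous_bf.comp continuous_subtype_val).subtype_mk _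
     continuous_invFun := (continuous_bf.comp continuous_subtype_val).subtype_mk _ }⟩

/-- the set of a mask -/
def bits (A : ℕ) : Finset (Fin 30) := Finset.univ.filter fun i => A.testBit i.1 = true

theorem mem_bits {A : ℕ} {i : Fin 30} : i ∈ bits A ↔ A.testBit i.1 = true := by simp [bits]

def MS (L : List ℕ) : Set (Finset (Fin 30)) := {τ | ∃ A ∈ L, bits A = τ}

def lbits (A : ℕ) : List ℕ := (List.range 30).filter fun i => A.testBit i

def bnew (L : List ℕ) (A B : ℕ) : List ℕ :=
  (L.filter fun s => s &&& A != A) ++ (lbits A).map fun a => (A ||| B) ^^^ 2 ^ a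

def bstep (L : List ℕ) (A B : ℕ) : Bool :=
  decide (A &&& B = 0) && decide (A ≠ 0) && decide (B ≠ 0) && decide (A < 2 ^ 30) && decide (B < 2 ^ 30) &&
  (L.all fun s => s &&& B != B) &&
  (L.all fun s => (s &&& A != A) || (s ||| (A ||| B) == (A ||| B))) &&
  (lbits B).all fun b => L.elem ((A ||| B) ^^^ 2 ^ b)

def brun : List (ℕ × ℕ) → List ℕ → List ℕ → Bool
  | [], L, R => L == R
  | (A, B) :: t, L, R => bstep L A B && brun t (bnew L A B) R

theorem bits_sub {A B : ℕ} (hA : A < 2 ^ 30) : bits A ⊆ bits B ↔ B &&& A = A := by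
  constructor
  · intro h
    apply Nat.eq_of_testBit_eq
    intro i
    rw [Nat.testBit_and]
    by_cases hi : i < 30
    · by_cases hAi : A.testBit i = true
      · have := mem_bits.1 (h (mem_bits (i := ⟨i, hi⟩).2 hAi))
        rw [hAi, Bool.and_true]; exact this
      · rw [Bool.not_eq_true] at hAi
        rw [hAi, Bool.and_false]
    · have : A.testBit i = false := Nat.testBit_lt_two_pow (hA.trans_le (Nat.pow_le_pow_right (by norm_num) (not_lt.1 hi)))
      rw [this, Bool.and_false]
  · intro h i hi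
    rw [mem_bits] at hi ⊢
    rw [← h, Nat.testBit_and, Bool.and_eq_true] at hi
    exact hi.1

theorem bits_nonempty {A : ℕ} (hA : A < 2 ^ 30) (h : A ≠ 0) : (bits A).Nonempty := by
  obtain ⟨i, hi⟩ := Nat.exists_testBit_of_ne_zero h
  have hi30 : i < 30 := by
    by_contra h1
    have : A.testBit i = false := Nat.testBit_lt_two_pow (hA.trans_le (Nat.pow_le_pow_right (by norm_num) (not_lt.1 h1)))
    rw [this] at hi
    exact absurd hi (by simp)
  exact ⟨⟨i, hi30⟩, mem_bits.2 hi⟩

theorem bits_disj {A B : ℕ} (h : A &&& B = 0) : Disjoint (bits A) (bits B) := by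
  rw [Finset.disjoint_left]
  intro i h1 h2
  rw [mem_bits] at h1 h2
  have : (A &&& B).testBit i.1 = true := by rw [Nat.testBit_and, h1, h2]; rfl
  rw [h, Nat.zero_testBit] at this
  exact absurd this (by simp)

theorem bits_new {A B : ℕ} {a : Fin 30} (ha : a ∈ bits A ∪ bits B) :
    bits ((A ||| B) ^^^ 2 ^ a.1) = (bits A ∪ bits B).erase a := by
  ext i
  rw [mem_bits, Nat.testBit_xor, Nat.testBit_or, Nat.testBit_two_pow, Finset.mem_erase, Finset.mem_union,
    mem_bits, mem_bits]
  rw [Finset.mem_union, mem_bits, mem_bits] at ha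
  by_cases h : i = a
  · subst h
    simp only [ne_eq, not_true_eq_false, false_and, iff_false, decide_true]
    rcases ha with ha | ha <;> simp [ha]
  · have : a.1 ≠ i.1 := fun h1 => h (Fin.ext h1.symm)
    simp [h, this]

theorem mem_lbits {A i : ℕ} : i ∈ lbits A ↔ ∃ h : i < 30, (⟨i, h⟩ : Fin 30) ∈ bits A := by
  simp only [lbits, List.mem_filter, List.mem_range, mem_bits, exists_prop]

theorem bstep_homeo {L : List ℕ} {A B : ℕ} (h : bstep L A B = true) :
    Nonempty (RS (MS L) ≃ₜ RS (MS (bnew L A B))) := by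
  simp only [bstep, Bool.and_eq_true, decide_eq_true_eq, List.all_eq_true, bne_iff_ne, ne_eq, Bool.or_eq_true,
    beq_iff_eq, List.elem_eq_mem] at h
  obtain ⟨⟨⟨⟨⟨⟨⟨h1, h2⟩, h3⟩, h4⟩, h5⟩, h6⟩, h7⟩, h8⟩ := h
  have hd := bits_disj h1
  have mem_new : ∀ a ∈ bits A, (bits A ∪ bits B).erase a ∈ MS (bnew L A B) := fun a ha =>
    ⟨(A ||| B) ^^^ 2 ^ a.1, List.mem_append_right _ (List.mem_map.2 ⟨a.1, mem_lbits.2 ⟨a.2, ha⟩, rfl⟩),
      bits_new (Finset.mem_union_left _ ha)⟩
  have new_cases : ∀ σ ∈ MS (bnew L A B), (σ ∈ MS L ∧ ¬ bits A ⊆ σ ∧ ¬ bits B ⊆ σ) ∨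
      ∃ a ∈ bits A, σ = (bits A ∪ bits B).erase a := by
    rintro σ ⟨s, hs, rfl⟩
    rcases List.mem_append.1 hs with hs | hs
    · left
      rw [List.mem_filter, bne_iff_ne] at hs
      exact ⟨⟨s, hs.1, rfl⟩, fun h => hs.2 ((bits_sub h4).1 h), fun h => h6 s hs.1 ((bits_sub h5).1 h)⟩
    · right
      obtain ⟨a, ha, rfl⟩ := List.mem_map.1 hs
      obtain ⟨ha30, ha⟩ := mem_lbits.1 ha
      exact ⟨⟨a, ha30⟩, ha, bits_new (a := ⟨a, ha30⟩) (Finset.mem_union_left _ ha)⟩
  refine step_homeo (S := bits A) (T := bits B) ⟨?_, ?_, ?_, ?_⟩ ⟨?_, ?_, ?_, ?_⟩ hd (bits_nonempty h4 h2) (bits_nonempty h5 h3)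
  · rintro σ ⟨s, hs, rfl⟩ h
    exact h6 s hs ((bits_sub h5).1 h)
  · rintro σ ⟨s, hs, rfl⟩ h i hi
    rcases h7 s hs with h9 | h9
    · exact absurd ((bits_sub h4).1 h) h9
    · rw [mem_bits] at hi
      rw [Finset.mem_union, mem_bits, mem_bits]
      have : (A ||| B).testBit i.1 = true := by rw [← h9, Nat.testBit_or, hi, Bool.true_or]
      rw [Nat.testBit_or, Bool.or_eq_true] at this
      exact this
  · rintro σ ⟨s, hs, rfl⟩ h
    refine ⟨s, List.mem_append_left _ (List.mem_filter.2 ⟨hs, ?_⟩), rfl⟩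
    rw [bne_iff_ne]
    exact fun h9 => h ((bits_sub h4).2 h9)
  · intro a ha
    exact ⟨_, mem_new a ha, Finset.Subset.refl _⟩
  · intro σ hσ h
    rcases new_cases σ hσ with ⟨-, h9, -⟩ | ⟨a, ha, rfl⟩
    · exact h9 h
    · exact absurd (h ha) (by simp)
  · intro σ hσ h
    rcases new_cases σ hσ with ⟨-, -, h9⟩ | ⟨a, ha, rfl⟩
    · exact absurd h h9
    · rw [Finset.union_comm]; exact Finset.erase_subset _ _
  · intro σ hσ h
    rcases new_cases σ hσ with ⟨h9, -, -⟩ | ⟨a, ha, rfl⟩
    · exact h9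
    · refine absurd (fun i hi => ?_) h
      refine Finset.mem_erase.2 ⟨?_, Finset.mem_union_right _ hi⟩
      rintro rfl
      exact Finset.disjoint_left.1 hd ha hi
  · intro b hb
    refine ⟨_, ⟨_, h8 b.1 (mem_lbits.2 ⟨b.2, hb⟩), rfl⟩, ?_⟩
    rw [bits_new (Finset.mem_union_right _ hb), Finset.union_comm]

theorem brun_homeo : ∀ {fl : List (ℕ × ℕ)} {L R : List ℕ}, brun fl L R = true → Nonempty (RS (MS L) ≃ₜ RS (MS R))
  | [], L, R, h => by
    rw [brun, beq_iff_eq] at h
    rw [h]; exact ⟨Homeomorph.refl _⟩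
  | (A, B) :: t, L, R, h => by
    rw [brun, Bool.and_eq_true] at h
    obtain ⟨f⟩ := bstep_homeo h.1
    obtain ⟨g⟩ := brun_homeo h.2
    exact ⟨f.trans g⟩

def bfl : List (ℕ × ℕ) := [
  (3074, 201326592), (1026, 201326593), (1025, 201327104), (1024, 201329152), 
  (2560, 201326848), (2304, 201330688), (6144, 201326596), (2048, 201326598), 
  (4352, 201326720), (4100, 201326600), (4104, 201334784), (4096, 201334912), 
  (8320, 201326656), (8200, 201326608), (8256, 201326624), (8192, 201326640), 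
  (67108888, 134348800), (525056, 805306368), (134348800, 67108888), (524800, 805568512), 
  (262656, 805306369), (262145, 805306370), (262144, 805830658), (524290, 805306372), 
  (524292, 806354944), (524288, 806355200), (1048832, 805306496), (65542, 603979776), 
  (1048704, 807403520), (1048580, 805306376), (1048576, 807403528), (65540, 603996160), 
  (81920, 603979777), (65536, 603979779), (2097160, 805306384), (2097280, 805306432), 
  (536870918, 335544320), (16385, 603980288), (2097216, 805306400), (2097152, 805306416), 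
  (16388, 603979784), (16392, 604110848), (16384, 604111360), (131584, 603980032), 
  (536870916, 335544328), (131328, 604012544), (163840, 603979792), (131072, 603979800), 
  (536870914, 335544321), (33024, 603979904), (32896, 603979840), (32832, 603979808), 
  (32768, 603979824), (536870920, 335544336), (134218496, 100663296), (536870928, 335544352), 
  (536870944, 335544384), (536870913, 335544832), (536871424, 335544576), 
  (536870976, 335544448), (536870912, 335544704), (768, 369098752), (4194316, 402653184), 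
  (12, 469762048), (4194312, 436207616), (33554440, 402653200), (8, 469762064), 
  (33554448, 411041792), (8388624, 402653216), (16, 469762080), (67108868, 402653186), 
  (4194308, 419430400), (4, 419430402), (8388640, 402653248), (32, 469762112), 
  (20971520, 402653185), (16777216, 402653187), (2, 469762049), (67108865, 402653696), 
  (1, 406848000), (4194304, 436208128), (512, 503316480), (67108928, 402653312), 
  (64, 411041920), (41943040, 402653440), (33554432, 469762304), (8388608, 402653568)]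

theorem chk_brun : brun bfl fmasks [201326976, 335544704, 469762176, 469762304, 402653568] = true := by
  decide +kernel

theorem FK_eq : (FK : Set (Finset (Fin 30))) = MS fmasks := by
  ext τ
  rw [Finset.mem_coe, mem_FK]
  constructor
  · rintro ⟨l, hl, rfl⟩
    obtain ⟨A, hA, a1, a2, -⟩ := okF_iff chk_okF l hl
    refine ⟨A, hA, ?_⟩
    ext i
    rw [mem_bits, mem_toFS, a1 i.1 i.2]
  · rintro ⟨A, hA, rfl⟩
    obtain ⟨l, hl, a1⟩ := okF_rev chk_okF A hA
    refine ⟨l, hl, ?_⟩
    ext i
    rw [mem_bits, mem_toFS, a1 i.1 i.2]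

theorem realization_eq : realization FK = RS (MS fmasks) := by
  rw [← FK_eq]; rfl

end Pool.Agent.H755
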