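import Pool.Agent.H755.Cx

/-! The realization is a 3-sphere. -/

set_option autoImplicit false
set_option maxHeartbeats 4000000
set_option linter.deprecated false
set_option linter.unusedVariables false
set_option linter.unusedSimpArgs false
set_option linter.style.longLine false
set_option maxRecDepth 100000

namespace Pool.Agent.H755

open Set

abbrev E4 := EuclideanSpace ℝ (Fin 4)

/-- boundary of the standard 4-simplex -/
def bd4 : Set (Fin 5 → ℝ) := {w | (∀ k, 0 ≤ w k) ∧ ∑ k, w k = 1 ∧ ∃ k, w k = 0}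

noncomputable def c5 (x : E4) : Fin 5 → ℝ := ![x 0, x 1, x 2, x 3, -(x 0 + x 1 + x 2 + x 3)]

noncomputable def q4v (w : Fin 5 → ℝ) : E4 := WithLp.toLp 2 ![w 0 - 1/5, w 1 - 1/5, w 2 - 1/5, w 3 - 1/5]

noncomputable def mn5 (v : Fin 5 → ℝ) : ℝ := Finset.univ.inf' ⟨0, Finset.mem_univ _⟩ v

theorem mn5_le (v : Fin 5 → ℝ) (k : Fin 5) : mn5 v ≤ v k := Finset.inf'_le _ (Finset.mem_univ _)

theorem mn5_mem (v : Fin 5 → ℝ) : ∃ k, mn5 v = v k := by
  obtain ⟨k, -, h⟩ := Finset.exists_mem_eq_inf' (⟨0, Finset.mem_univ _⟩ : (Finset.univ : Finset (Fin 5)).Nonempty) v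
  exact ⟨k, h⟩

theorem mn5_smul {t : ℝ} (ht : 0 ≤ t) (v : Fin 5 → ℝ) : mn5 (fun k => t * v k) = t * mn5 v := by
  apply le_antisymm
  · obtain ⟨k, hk⟩ := mn5_mem v
    rw [hk]
    exact mn5_le (fun k => t * v k) k
  · obtain ⟨k, hk⟩ := mn5_mem (fun k => t * v k)
    rw [hk]
    exact mul_le_mul_of_nonneg_left (mn5_le v k) ht

theorem c5_smul (t : ℝ) (x : E4) : c5 (t • x) = fun k => t * c5 x k := by
  funext k
  fin_cases k
  · rfl
  · rfl
  · rfl
  · rfl
  · show -(t * x 0 + t * x 1 + t * x 2 + t * x 3) = t * (-(x 0 + x 1 + x 2 + x 3))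
    ring

theorem c5_sum (x : E4) : ∑ k, c5 x k = 0 := by
  rw [Fin.sum_univ_five]
  show x 0 + x 1 + x 2 + x 3 + -(x 0 + x 1 + x 2 + x 3) = 0
  ring

theorem c5_q4v {w : Fin 5 → ℝ} (h : ∑ k, w k = 1) : c5 (q4v w) = fun k => w k - 1/5 := by
  rw [Fin.sum_univ_five] at h
  funext k
  fin_cases k
  · rfl
  · rfl
  · rfl
  · rfl
  · show -(w 0 - 1/5 + (w 1 - 1/5) + (w 2 - 1/5) + (w 3 - 1/5)) = w 4 - 1/5
    linarith

theorem mn5_neg {x : E4} (hx : x ≠ 0) : mn5 (c5 x) < 0 := by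
  by_contra h
  rw [not_lt] at h
  have h1 : ∀ k, 0 ≤ c5 x k := fun k => h.trans (mn5_le _ k)
  have h2 := (Finset.sum_eq_zero_iff_of_nonneg (fun k _ => h1 k)).1 (c5_sum x)
  apply hx
  ext k
  fin_cases k
  · exact h2 0 (Finset.mem_univ _)
  · exact h2 1 (Finset.mem_univ _)
  · exact h2 2 (Finset.mem_univ _)
  · exact h2 3 (Finset.mem_univ _)

theorem mn5_bd {w : Fin 5 → ℝ} (h : w ∈ bd4) : mn5 (fun k => w k - 1/5) = -1/5 := by
  obtain ⟨h0, h1, k, hk⟩ := h
  apply le_antisymm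
  · refine (mn5_le _ k).trans ?_
    show w k - 1/5 ≤ _
    rw [hk]; norm_num
  · obtain ⟨j, hj⟩ := mn5_mem (fun k => w k - 1/5)
    rw [hj]
    linarith [h0 j]

theorem q4v_ne {w : Fin 5 → ℝ} (h : w ∈ bd4) : q4v w ≠ 0 := by
  intro h1
  have h2 := mn5_bd h
  rw [← c5_q4v h.2.1, h1] at h2
  have : c5 (0 : E4) = fun _ => 0 := by
    funext k
    fin_cases k
    · rfl
    · rfl
    · rfl
    · rfl
    · show -((0:ℝ) + 0 + 0 + 0) = 0
      norm_num
  rw [this] at h2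
  obtain ⟨k, hk⟩ := mn5_mem (fun _ => 0)
  rw [hk] at h2
  norm_num at h2

theorem continuous_c5 : Continuous c5 := by
  have h : ∀ i : Fin 4, Continuous fun x : E4 => x i := fun i => by fun_prop
  refine continuous_pi fun k => ?_
  fin_cases k
  · exact h 0
  · exact h 1
  · exact h 2
  · exact h 3
  · exact (((h 0).add (h 1)).add (h 2)).add (h 3) |>.neg

theorem continuous_mn5 : Continuous mn5 :=
  Continuous.finset_inf'_apply _ fun i _ => continuous_apply i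

theorem continuous_q4v : Continuous q4v := by
  refine (PiLp.continuous_toLp 2 _).comp (continuous_pi fun k => ?_)
  fin_cases k
  · exact (continuous_apply (0 : Fin 5)).sub continuous_const
  · exact (continuous_apply (1 : Fin 5)).sub continuous_const
  · exact (continuous_apply (2 : Fin 5)).sub continuous_const
  · exact (continuous_apply (3 : Fin 5)).sub continuous_const

noncomputable def inv4 (x : E4) : Fin 5 → ℝ := fun k => 1/5 + c5 x k / (-5 * mn5 (c5 x))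

theorem inv4_mem {x : E4} (hx : x ≠ 0) : inv4 x ∈ bd4 := by
  have h := mn5_neg hx
  have h' : 0 < -5 * mn5 (c5 x) := by linarith
  refine ⟨fun k => ?_, ?_, ?_⟩
  · show 0 ≤ 1/5 + c5 x k / (-5 * mn5 (c5 x))
    have h1 : -1/5 ≤ c5 x k / (-5 * mn5 (c5 x)) := by
      rw [le_div_iff₀ h']
      linarith [mn5_le (c5 x) k]
    linarith
  · show ∑ k : Fin 5, (1/5 + c5 x k / (-5 * mn5 (c5 x))) = 1
    have e : ∑ k : Fin 5, c5 x k / (-5 * mn5 (c5 x)) = 0 := by rw [← Finset.sum_div, c5_sum, zero_div]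
    rw [Finset.sum_add_distrib, e]
    simp
  · obtain ⟨k, hk⟩ := mn5_mem (c5 x)
    refine ⟨k, ?_⟩
    show 1/5 + c5 x k / (-5 * mn5 (c5 x)) = 0
    rw [← hk]
    have : mn5 (c5 x) ≠ 0 := h.ne
    field_simp
    norm_num

theorem q4v_inv4 {x : E4} (hx : x ≠ 0) : q4v (inv4 x) = (-5 * mn5 (c5 x))⁻¹ • x := by
  ext k
  fin_cases k
  · show 1/5 + x 0 / (-5 * mn5 (c5 x)) - 1/5 = (-5 * mn5 (c5 x))⁻¹ * x 0
    ring
  · show 1/5 + x 1 / (-5 * mn5 (c5 x)) - 1/5 = (-5 * mn5 (c5 x))⁻¹ * x 1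
    ring
  · show 1/5 + x 2 / (-5 * mn5 (c5 x)) - 1/5 = (-5 * mn5 (c5 x))⁻¹ * x 2
    ring
  · show 1/5 + x 3 / (-5 * mn5 (c5 x)) - 1/5 = (-5 * mn5 (c5 x))⁻¹ * x 3
    ring

theorem sph_ne {x : E4} (hx : x ∈ Metric.sphere (0 : E4) 1) : x ≠ 0 := by
  rintro rfl
  simp at hx

theorem bd4_homeo : Nonempty (bd4 ≃ₜ Metric.sphere (0 : E4) 1) := by
  refine ⟨{ toFun := fun w => ⟨‖q4v w‖⁻¹ • q4v w, ?_⟩
            invFun := fun x => ⟨inv4 x, inv4_mem (sph_ne x.2)⟩
            left_inv := fun w => Subtype.ext ?_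
            right_inv := fun x => Subtype.ext ?_
            continuous_toFun := ?_
            continuous_invFun := ?_ }⟩
  · have h := norm_pos_iff.2 (q4v_ne w.2)
    rw [mem_sphere_zero_iff_norm, norm_smul, norm_inv, norm_norm, inv_mul_cancel₀ h.ne']
  · obtain ⟨w, hw⟩ := w
    have h := norm_pos_iff.2 (q4v_ne hw)
    funext k
    show 1/5 + c5 (‖q4v w‖⁻¹ • q4v w) k / (-5 * mn5 (c5 (‖q4v w‖⁻¹ • q4v w))) = w k
    rw [c5_smul, mn5_smul (inv_nonneg.2 h.le), c5_q4v hw.2.1, mn5_bd hw]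
    field_simp
    ring
  · obtain ⟨x, hx⟩ := x
    have hne := sph_ne hx
    show ‖q4v (inv4 x)‖⁻¹ • q4v (inv4 x) = x
    have h := mn5_neg hne
    have h' : 0 < -5 * mn5 (c5 x) := by linarith
    rw [mem_sphere_zero_iff_norm] at hx
    rw [q4v_inv4 hne, norm_smul, hx, mul_one, norm_inv, Real.norm_of_nonneg h'.le, inv_inv, smul_smul,
      mul_inv_cancel₀ h'.ne', one_smul]
  · refine Continuous.subtype_mk ?_ _
    have h1 : Continuous fun w : bd4 => q4v w := continuous_q4v.comp continuous_subtype_val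
    exact (h1.norm.inv₀ fun w => (norm_pos_iff.2 (q4v_ne w.2)).ne').smul h1
  · refine Continuous.subtype_mk ?_ _
    have h1 : Continuous fun x : Metric.sphere (0 : E4) 1 => c5 x := continuous_c5.comp continuous_subtype_val
    have h2 : Continuous fun x : Metric.sphere (0 : E4) 1 => mn5 (c5 x) := continuous_mn5.comp h1
    refine continuous_pi fun k => ?_
    refine continuous_const.add (((continuous_apply k).comp h1).div (continuous_const.mul h2) fun x => ?_)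
    have := mn5_neg (sph_ne x.2)
    exact mul_ne_zero (by norm_num) this.ne

def D5 : Fin 5 → Fin 30 := ![7, 8, 26, 27, 28]

theorem mem_fin {x : Fin 30 → ℝ} : x ∈ RS (MS [201326976, 335544704, 469762176, 469762304, 402653568]) ↔
    (∀ i, 0 ≤ x i) ∧ ∑ i, x i = 1 ∧ (∀ i, (∀ k, D5 k ≠ i) → x i = 0) ∧ ∃ k, x (D5 k) = 0 := by
  have hb : ∀ i : Fin 30, (i ∉ bits 201326976 ↔ (∀ k, D5 k ≠ i) ∨ i = D5 4) ∧
    (i ∉ bits 335544704 ↔ (∀ k, D5 k ≠ i) ∨ i = D5 3) ∧
    (i ∉ bits 469762176 ↔ (∀ k, D5 k ≠ i) ∨ i = D5 1) ∧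
    (i ∉ bits 469762304 ↔ (∀ k, D5 k ≠ i) ∨ i = D5 0) ∧
    (i ∉ bits 402653568 ↔ (∀ k, D5 k ≠ i) ∨ i = D5 2) := by
    simp only [mem_bits]
    decide +kernel
  constructor
  · rintro ⟨h0, h1, τ, ⟨A, hA, rfl⟩, h2⟩
    refine ⟨h0, h1, ?_⟩
    simp only [List.mem_cons, List.not_mem_nil, or_false] at hA
    rcases hA with rfl | rfl | rfl | rfl | rfl
    · exact ⟨fun i hi => h2 i ((hb i).1.2 (Or.inl hi)), 4, h2 _ ((hb _).1.2 (Or.inr rfl))⟩
    · exact ⟨fun i hi => h2 i ((hb i).2.1.2 (Or.inl hi)), 3, h2 _ ((hb _).2.1.2 (Or.inr rfl))⟩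
    · exact ⟨fun i hi => h2 i ((hb i).2.2.1.2 (Or.inl hi)), 1, h2 _ ((hb _).2.2.1.2 (Or.inr rfl))⟩
    · exact ⟨fun i hi => h2 i ((hb i).2.2.2.1.2 (Or.inl hi)), 0, h2 _ ((hb _).2.2.2.1.2 (Or.inr rfl))⟩
    · exact ⟨fun i hi => h2 i ((hb i).2.2.2.2.2 (Or.inl hi)), 2, h2 _ ((hb _).2.2.2.2.2 (Or.inr rfl))⟩
  · rintro ⟨h0, h1, h2, k, h3⟩
    refine ⟨h0, h1, ?_⟩
    have key : ∀ A ∈ [201326976, 335544704, 469762176, 469762304, 402653568],
      (∀ i, i ∉ bits A → (∀ k, D5 k ≠ i) ∨ i = D5 k) → ∃ τ ∈ MS [201326976, 335544704, 469762176, 469762304, 402653568],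
        ∀ i, i ∉ τ → x i = 0 := fun A hA h => ⟨bits A, ⟨A, hA, rfl⟩, fun i hi => by
      rcases h i hi with h | rfl
      · exact h2 i h
      · exact h3⟩
    fin_cases k
    · exact key 469762304 (by simp) fun i hi => (hb i).2.2.2.1.1 hi
    · exact key 469762176 (by simp) fun i hi => (hb i).2.2.1.1 hi
    · exact key 402653568 (by simp) fun i hi => (hb i).2.2.2.2.1 hi
    · exact key 335544704 (by simp) fun i hi => (hb i).2.1.1 hi
    · exact key 201326976 (by simp) fun i hi => (hb i).1.1 hi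

theorem D5_inj : Function.Injective D5 := by decide

noncomputable def ext5 (y : Fin 5 → ℝ) : Fin 30 → ℝ := fun i => ∑ k, if D5 k = i then y k else 0

theorem ext5_D5 (y : Fin 5 → ℝ) (k : Fin 5) : ext5 y (D5 k) = y k := by
  show ∑ j, (if D5 j = D5 k then y j else 0) = y k
  rw [Finset.sum_eq_single k]
  · simp
  · intro j _ hj
    rw [if_neg fun h => hj (D5_inj h)]
  · simp

theorem ext5_out (y : Fin 5 → ℝ) {i : Fin 30} (hi : ∀ k, D5 k ≠ i) : ext5 y i = 0 :=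
  Finset.sum_eq_zero fun k _ => if_neg (hi k)

theorem sum_D5 {x : Fin 30 → ℝ} (h : ∀ i, (∀ k, D5 k ≠ i) → x i = 0) : ∑ i, x i = ∑ k, x (D5 k) := by
  have h1 : ∑ k, x (D5 k) = ∑ i ∈ Finset.univ.map ⟨D5, D5_inj⟩, x i := by simp
  rw [h1]
  symm
  refine Finset.sum_subset (Finset.subset_univ _) fun i _ hi => h i fun k hk => hi ?_
  rw [Finset.mem_map]
  exact ⟨k, Finset.mem_univ _, hk⟩

theorem ext5_D {x : Fin 30 → ℝ} (h : ∀ i, (∀ k, D5 k ≠ i) → x i = 0) : ext5 (fun k => x (D5 k)) = x := by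
  funext i
  by_cases h1 : ∃ k, D5 k = i
  · obtain ⟨k, rfl⟩ := h1
    rw [ext5_D5]
  · push Not at h1
    rw [ext5_out _ h1, h i h1]

theorem fin_homeo : Nonempty (RS (MS [201326976, 335544704, 469762176, 469762304, 402653568]) ≃ₜ bd4) := by
  refine ⟨{ toFun := fun x => ⟨fun k => x.1 (D5 k), ?_⟩
            invFun := fun y => ⟨ext5 y.1, ?_⟩
            left_inv := fun x => Subtype.ext (ext5_D (mem_fin.1 x.2).2.2.1)
            right_inv := fun y => Subtype.ext (funext fun k => ext5_D5 y.1 k)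
            continuous_toFun := ?_
            continuous_invFun := ?_ }⟩
  · obtain ⟨h0, h1, h2, k, h3⟩ := mem_fin.1 x.2
    exact ⟨fun k => h0 _, by rw [← h1, sum_D5 h2], k, h3⟩
  · obtain ⟨y, h0, h1, k, h3⟩ := y
    rw [mem_fin]
    have h2 : ∀ i, (∀ k, D5 k ≠ i) → ext5 y i = 0 := fun i hi => ext5_out y hi
    refine ⟨fun i => ?_, ?_, h2, k, ?_⟩
    · exact Finset.sum_nonneg fun j _ => by split_ifs <;> [exact h0 j; exact le_rfl]
    · rw [sum_D5 h2, ← h1]
      exact Finset.sum_congr rfl fun k _ => ext5_D5 y k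
    · show ext5 y (D5 k) = 0
      rw [ext5_D5, h3]
  · refine Continuous.subtype_mk (continuous_pi fun k => ?_) _
    exact (continuous_apply (D5 k)).comp continuous_subtype_val
  · refine Continuous.subtype_mk (continuous_pi fun i => ?_) _
    refine continuous_finset_sum _ fun k _ => ?_
    by_cases h : D5 k = i
    · simp only [h, if_true]
      exact (continuous_apply k).comp continuous_subtype_val
    · simp only [h, if_false]
      exact continuous_const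

theorem FK_sphere : Nonempty (realization FK ≃ₜ Metric.sphere (0 : EuclideanSpace ℝ (Fin 4)) 1) := by
  obtain ⟨f⟩ := brun_homeo chk_brun
  obtain ⟨g⟩ := fin_homeo
  obtain ⟨h⟩ := bd4_homeo
  rw [realization_eq]
  exact ⟨f.trans (g.trans h)⟩

end Pool.Agent.H755
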