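import Pool.Agent.H755.FlipCheck

/-! The vertices, the facets and the flip certificates. -/

set_option autoImplicit false

namespace Pool.Agent.H755

/-- the vertices `(x₁, x₂, x₃, s, h)`: J0 J1 J2 J3 J4 J5 J6 J7 J8 J9 D1 D2 D3 D4 S10 S11 S12 S13 E1 E2 E3 E4 T10 T11 T12 T13 v v' M m -/
def verts : List Z5 := [⟨-8, -6, 0, 0, 0⟩,
  ⟨2, 8, 8, 0, 0⟩,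
  ⟨8, -8, 2, 0, 0⟩,
  ⟨-8, 8, 2, 0, 0⟩,
  ⟨-2, -4, 8, 0, 0⟩,
  ⟨8, 6, 0, 0, 0⟩,
  ⟨-2, -4, -8, 0, 0⟩,
  ⟨-8, 8, -2, 0, 0⟩,
  ⟨8, -8, -2, 0, 0⟩,
  ⟨2, 8, -8, 0, 0⟩,
  ⟨2, 8, 0, 8, 0⟩,
  ⟨8, -8, 0, 2, 0⟩,
  ⟨-8, 8, 0, 2, 0⟩,
  ⟨-2, -4, 0, 8, 0⟩,
  ⟨2, 0, -2, 0, -1⟩,
  ⟨0, 0, 2, 0, -6⟩,
  ⟨1, 0, 1, 0, -11⟩,
  ⟨-5, 7, 16, 0, -24⟩,
  ⟨2, 8, 0, -8, 0⟩,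
  ⟨8, -8, 0, -2, 0⟩,
  ⟨-8, 8, 0, -2, 0⟩,
  ⟨-2, -4, 0, -8, 0⟩,
  ⟨2, 0, -2, 0, 1⟩,
  ⟨0, 0, 2, 0, 6⟩,
  ⟨1, 0, 1, 0, 11⟩,
  ⟨-5, 7, 16, 0, 24⟩,
  ⟨0, 0, 0, 16, -16⟩,
  ⟨0, 0, 0, 16, 16⟩,
  ⟨0, 0, 0, -16, 16⟩,
  ⟨0, 0, 0, -16, -16⟩]

/-- the facets -/
def facets : List (List ℕ) := [[2, 3, 14, 26], [0, 9, 14, 26], [6, 7, 15, 26], [5, 6, 15, 26], [7, 8, 15, 26], [4, 5, 15, 26],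
  [0, 14, 16, 26], [2, 14, 16, 26], [1, 2, 16, 26], [0, 1, 16, 26], [3, 14, 17, 26], [3, 4, 17, 26],
  [9, 14, 17, 26], [4, 15, 17, 26], [8, 15, 17, 26], [8, 9, 17, 26], [0, 1, 10, 26], [0, 9, 10, 26],
  [1, 2, 11, 26], [1, 10, 11, 26], [9, 10, 11, 26], [8, 9, 11, 26], [2, 3, 12, 26], [2, 11, 12, 26],
  [8, 11, 12, 26], [7, 8, 12, 26], [3, 4, 13, 26], [3, 12, 13, 26], [7, 12, 13, 26], [6, 7, 13, 26],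
  [4, 5, 13, 26], [5, 6, 13, 26], [0, 1, 10, 27], [0, 9, 10, 27], [1, 2, 11, 27], [1, 10, 11, 27],
  [9, 10, 11, 27], [8, 9, 11, 27], [2, 3, 12, 27], [2, 11, 12, 27], [8, 11, 12, 27], [7, 8, 12, 27],
  [3, 4, 13, 27], [3, 12, 13, 27], [7, 12, 13, 27], [6, 7, 13, 27], [4, 5, 13, 27], [5, 6, 13, 27],
  [2, 3, 22, 27], [0, 9, 22, 27], [6, 7, 23, 27], [5, 6, 23, 27], [7, 8, 23, 27], [4, 5, 23, 27],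
  [0, 22, 24, 27], [2, 22, 24, 27], [1, 2, 24, 27], [0, 1, 24, 27], [3, 22, 25, 27], [3, 4, 25, 27],
  [9, 22, 25, 27], [4, 23, 25, 27], [8, 23, 25, 27], [8, 9, 25, 27], [2, 3, 22, 28], [0, 9, 22, 28],
  [6, 7, 23, 28], [5, 6, 23, 28], [7, 8, 23, 28], [4, 5, 23, 28], [0, 22, 24, 28], [2, 22, 24, 28],
  [1, 2, 24, 28], [0, 1, 24, 28], [3, 22, 25, 28], [3, 4, 25, 28], [9, 22, 25, 28], [4, 23, 25, 28],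
  [8, 23, 25, 28], [8, 9, 25, 28], [0, 1, 18, 28], [0, 9, 18, 28], [1, 2, 19, 28], [1, 18, 19, 28],
  [9, 18, 19, 28], [8, 9, 19, 28], [2, 3, 20, 28], [2, 19, 20, 28], [8, 19, 20, 28], [7, 8, 20, 28],
  [3, 4, 21, 28], [3, 20, 21, 28], [7, 20, 21, 28], [6, 7, 21, 28], [4, 5, 21, 28], [5, 6, 21, 28],
  [0, 1, 18, 29], [0, 9, 18, 29], [1, 2, 19, 29], [1, 18, 19, 29], [9, 18, 19, 29], [8, 9, 19, 29],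
  [2, 3, 20, 29], [2, 19, 20, 29], [8, 19, 20, 29], [7, 8, 20, 29], [3, 4, 21, 29], [3, 20, 21, 29],
  [7, 20, 21, 29], [6, 7, 21, 29], [4, 5, 21, 29], [5, 6, 21, 29], [2, 3, 14, 29], [0, 9, 14, 29],
  [6, 7, 15, 29], [5, 6, 15, 29], [7, 8, 15, 29], [4, 5, 15, 29], [0, 14, 16, 29], [2, 14, 16, 29],
  [1, 2, 16, 29], [0, 1, 16, 29], [3, 14, 17, 29], [3, 4, 17, 29], [9, 14, 17, 29], [4, 15, 17, 29],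
  [8, 15, 17, 29], [8, 9, 17, 29]]

def flips0 : List FlipD := [⟨[18, 29, 1, 9], 2, 0, [⟨-68, 56, -13, -13, 0⟩, ⟨-68, 56, 13, -13, 0⟩, ⟨-5, 11, -13, 13, -16⟩, ⟨44, -24, 13, 13, -26⟩]⟩,
  ⟨[18, 1, 9, 28], 1, 0, [⟨-14, 10, 0, -3, 6⟩, ⟨-8, 8, 4, -1, 0⟩, ⟨-12, 16, -13, -14, -14⟩]⟩,
  ⟨[22, 28, 9, 24], 2, 0, [⟨-14, 10, 0, -77, 80⟩, ⟨-4, 72, -121, 0, -25⟩, ⟨0, 0, 0, 1, 1⟩, ⟨-9, 14, -3, -1, 0⟩]⟩,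
  ⟨[28, 1, 9, 24], 1, 0, [⟨-14, 10, 0, -77, 80⟩, ⟨-116, 152, 121, -121, 1⟩, ⟨-60, 112, -121, -11, -1⟩]⟩,
  ⟨[22, 9, 24, 27], 1, 0, [⟨0, 0, 0, -1, 1⟩, ⟨0, 0, -11, -1, 1⟩, ⟨14, -10, 0, 3, -6⟩]⟩,
  ⟨[24, 1, 9, 27], 1, 0, [⟨0, 0, 0, 0, 1⟩, ⟨-12, 16, -13, -24, 24⟩, ⟨-12, 16, 13, -24, 24⟩]⟩,
  ⟨[27, 1, 9, 10], 1, 0, [⟨0, 0, 0, 1, 1⟩, ⟨-5, 11, -13, -13, 16⟩, ⟨44, -24, 13, -13, 26⟩]⟩,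
  ⟨[10, 1, 9, 26], 1, 0, [⟨0, 0, 0, 1, 0⟩, ⟨-116, 152, 121, 0, -1⟩, ⟨-60, 112, -121, 0, 12⟩]⟩,
  ⟨[9, 14, 26, 29], 2, 0, [⟨-500, 648, -509, -87, -94⟩, ⟨-500, 648, -509, 87, -94⟩, ⟨0, 0, 0, -1, -1⟩, ⟨0, 0, 0, 1, -1⟩]⟩,
  ⟨[14, 16, 26, 29], 1, 0, [⟨56, -40, 0, 0, 13⟩, ⟨748, -2464, -3377, -489, -1039⟩, ⟨748, -2464, -3377, 489, -1039⟩]⟩,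
  ⟨[9, 1, 26, 29], 1, 0, [⟨-16, 24, 0, 0, 1⟩, ⟨-60, 112, -121, -11, 1⟩, ⟨-60, 112, -121, 11, 1⟩]⟩]
def last0 : List ℕ × ℕ := ([1, 16, 26, 29], 0)
def flips1 : List FlipD := [⟨[10, 27, 0, 11], 2, 0, [⟨0, 0, 0, 1, -1⟩, ⟨0, 0, 0, 1, 1⟩, ⟨-8, -3, 0, 0, 3⟩, ⟨0, 7, -15, -4, 0⟩, ⟨28, -20, 0, 0, 7⟩]⟩,
  ⟨[10, 0, 11, 26], 1, 0, [⟨-44, 24, 13, 376, -363⟩, ⟨0, 0, 0, 1, 1⟩, ⟨0, 7, -15, -4, 0⟩]⟩,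
  ⟨[18, 29, 0, 19], 2, 0, [⟨0, 0, 0, -1, -1⟩, ⟨0, 0, 0, -1, 1⟩, ⟨-8, -3, 0, 0, -3⟩, ⟨0, 7, -15, 4, 0⟩, ⟨-4, -32, 61, -61, -75⟩]⟩,
  ⟨[18, 0, 19, 28], 1, 0, [⟨-44, 24, 13, -376, 363⟩, ⟨0, 0, 0, -1, -1⟩, ⟨0, 7, -15, 4, 0⟩]⟩,
  ⟨[19, 29, 2, 0], 2, 0, [⟨-4, -32, 61, -1, -13⟩, ⟨-44, -75, 156, -156, -121⟩, ⟨-4, -3, 4, -5, 5⟩, ⟨4, 8, -19, 24, -29⟩]⟩,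
  ⟨[29, 0, 2, 16], 1, 0, [⟨-88, -216, 488, -488, -363⟩, ⟨-4, -3, 4, -1, 0⟩, ⟨-4, -16, 33, -1, -9⟩]⟩,
  ⟨[19, 0, 2, 28], 1, 0, [⟨0, 0, 0, -1, 0⟩, ⟨-4, -3, 4, -5, -5⟩, ⟨0, -8, 14, 0, 3⟩]⟩,
  ⟨[28, 0, 2, 24], 1, 0, [⟨88, 216, -488, -488, 363⟩, ⟨-4, -3, 4, -1, 0⟩, ⟨-4, -16, 33, -1, 9⟩]⟩,
  ⟨[16, 0, 2, 26], 1, 0, [⟨0, 0, 0, 0, -1⟩, ⟨-12, -3, -4, -5, 0⟩, ⟨-260, -2672, 5001, -592, -1724⟩]⟩,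
  ⟨[26, 0, 2, 11], 1, 0, [⟨847, 2079, -4697, -2304, -1400⟩, ⟨-44, -75, 156, 156, -121⟩, ⟨-44, -152, 321, 200, -121⟩]⟩,
  ⟨[24, 0, 2, 27], 1, 0, [⟨-33, -81, 183, 183, 563⟩, ⟨-652, -75, -452, -452, 107⟩, ⟨-260, -2672, 5001, -592, 1724⟩]⟩]
def last1 : List ℕ × ℕ := ([0, 2, 11, 27], 0)
def flips2 : List FlipD := [⟨[1, 11, 26, 27], 2, 0, [⟨12, 3, 4, 6, -1⟩, ⟨12, 3, 4, 6, 1⟩, ⟨25, 25, 16, 16, -14⟩, ⟨25, 25, 16, 16, 14⟩]⟩,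
  ⟨[11, 12, 26, 27], 1, 0, [⟨-40, -41, -4, 4, -4⟩, ⟨-2, -3, -4, 4, 4⟩, ⟨-8, -8, -8, -1, 0⟩]⟩,
  ⟨[12, 3, 26, 27], 1, 0, [⟨-11, -11, 0, 1, -1⟩, ⟨-1, -1, 0, 1, 1⟩, ⟨-4, -3, 4, 0, 0⟩]⟩,
  ⟨[1, 16, 26, 29], 2, 0, [⟨-72, -72, 120, 53, -68⟩, ⟨-24, -24, 40, -40, -45⟩, ⟨289, 150, -108, -9, -65⟩, ⟨289, 150, -108, 9, -65⟩]⟩,
  ⟨[16, 14, 26, 29], 1, 0, [⟨-1, -1, 0, 2, -2⟩, ⟨-1, -1, 0, -2, -2⟩, ⟨-7, -3, 0, 0, 2⟩]⟩,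
  ⟨[14, 3, 26, 29], 1, 0, [⟨0, 0, 0, 1, -1⟩, ⟨0, 0, 0, -1, -1⟩, ⟨-15, -8, 4, 0, 3⟩]⟩,
  ⟨[22, 28, 3, 24], 2, 0, [⟨0, 0, 0, 1, 1⟩, ⟨-12, -11, -4, -2, 0⟩, ⟨-23, -23, -8, -15, 14⟩, ⟨-97, -60, 12, 0, -17⟩]⟩,
  ⟨[22, 3, 24, 27], 1, 0, [⟨0, 0, 0, 1, 1⟩, ⟨0, 0, 0, -1, 1⟩, ⟨-5, -3, 0, 0, -1⟩, ⟨3, 3, -8, 1, -1⟩]⟩,
  ⟨[19, 29, 1, 20], 2, 0, [⟨0, 0, 0, -1, -1⟩, ⟨0, 0, 0, -1, 1⟩, ⟨11, 11, 0, 0, -1⟩, ⟨5, 4, -4, -4, 4⟩, ⟨-28, -27, 44, -44, -41⟩]⟩,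
  ⟨[19, 1, 20, 28], 1, 0, [⟨0, 0, 0, -1, -1⟩, ⟨4, 3, -4, -4, 4⟩, ⟨5, 4, -4, -4, -4⟩]⟩,
  ⟨[24, 28, 1, 3], 2, 0, [⟨1, 1, 0, 0, 0⟩, ⟨-268, -267, 444, -119, 64⟩, ⟨-3, -3, 8, -18, 1⟩, ⟨-2828, -2379, 3516, 76, 291⟩]⟩,
  ⟨[28, 1, 3, 20], 1, 0, [⟨0, 0, 0, -9, -7⟩, ⟨0, 0, 0, -1, 1⟩, ⟨5, 5, -8, 8, 9⟩, ⟨-28, -27, 44, -36, 39⟩]⟩,
  ⟨[24, 1, 3, 27], 1, 0, [⟨9, 9, -15, 15, 37⟩, ⟨1, 1, 0, -1, 1⟩, ⟨-4, -3, 4, -1, 1⟩]⟩,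
  ⟨[20, 1, 3, 29], 1, 0, [⟨0, 0, 0, -1, -1⟩, ⟨1, 1, 0, -1, 1⟩, ⟨-4, -3, 4, -1, 1⟩]⟩,
  ⟨[27, 1, 3, 26], 1, 0, [⟨0, 0, 0, 3, 2⟩, ⟨-4, -3, 4, 5, 5⟩, ⟨1, 1, 0, 5, 5⟩]⟩]
def last2 : List ℕ × ℕ := ([1, 3, 26, 29], 0)
def flips3 : List FlipD := [⟨[2, 12, 26, 27], 2, 0, [⟨12, 12, 8, 9, -8⟩, ⟨6, 5, 4, 4, 4⟩, ⟨-1, -1, 0, 1, 1⟩, ⟨4, 2, 0, 0, -1⟩]⟩,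
  ⟨[12, 13, 26, 27], 1, 0, [⟨-4, -2, 0, 1, 0⟩, ⟨2, 3, -4, 2, -2⟩, ⟨2, 3, -4, 2, 2⟩]⟩,
  ⟨[13, 4, 26, 27], 1, 0, [⟨-10, -7, -4, 4, -3⟩, ⟨-1, -1, 0, 0, 0⟩, ⟨0, 0, 0, 1, 1⟩]⟩,
  ⟨[2, 14, 26, 29], 2, 0, [⟨0, 0, 0, 1, -1⟩, ⟨-8, -8, -8, -1, 0⟩, ⟨2, 1, -4, 1, 0⟩, ⟨-80, -104, 8, -11, 0⟩, ⟨-80, -104, 8, 11, 0⟩]⟩,
  ⟨[14, 17, 26, 29], 1, 0, [⟨8, 10, 0, 0, -1⟩, ⟨5, -1, -8, 8, -4⟩, ⟨17, 35, -32, -13, -18⟩]⟩,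
  ⟨[17, 4, 26, 29], 1, 0, [⟨0, 0, 0, 1, -1⟩, ⟨0, 0, 0, -1, -1⟩, ⟨-3, -1, 8, 0, -2⟩]⟩,
  ⟨[22, 28, 2, 25], 2, 0, [⟨1, 1, 0, 0, 0⟩, ⟨15, 13, 8, -6, -6⟩, ⟨1, 1, 1, -2, 2⟩, ⟨822, 694, 566, -411, -404⟩]⟩,
  ⟨[22, 2, 25, 27], 1, 0, [⟨1, 1, 0, 0, 0⟩, ⟨-3, -3, -3, 3, 2⟩, ⟨11, 9, 0, 0, -1⟩]⟩,
  ⟨[20, 29, 2, 21], 2, 0, [⟨0, 0, 0, -1, -1⟩, ⟨0, 0, 0, -1, 1⟩, ⟨2, 1, -4, 1, 0⟩, ⟨7, 7, 8, -8, -7⟩, ⟨10, 3, -4, 4, -14⟩]⟩,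
  ⟨[20, 2, 21, 28], 1, 0, [⟨0, 0, 0, -1, -1⟩, ⟨4, 4, 0, -3, 3⟩, ⟨2, 1, -4, 1, 0⟩]⟩,
  ⟨[25, 28, 4, 2], 2, 0, [⟨6, 5, 4, 0, 0⟩, ⟨1, 1, 8, -1, 0⟩, ⟨24, 8, -8, -11, 2⟩, ⟨-68, -68, 8, -38, 1⟩]⟩,
  ⟨[28, 2, 4, 21], 1, 0, [⟨-8, -8, -8, -2, -1⟩, ⟨0, 0, 0, -1, 1⟩, ⟨4, 2, 0, 0, 1⟩, ⟨0, 0, 8, -2, 3⟩]⟩,
  ⟨[25, 2, 4, 27], 1, 0, [⟨5, 5, 5, -5, 11⟩, ⟨-6, -6, 0, -1, 1⟩, ⟨6, 5, 4, -4, 4⟩]⟩,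
  ⟨[21, 2, 4, 29], 1, 0, [⟨0, 0, 0, -1, -1⟩, ⟨-1, -1, 0, -1, 1⟩, ⟨-2, -3, -4, 0, 1⟩]⟩,
  ⟨[27, 2, 4, 26], 1, 0, [⟨-1, -1, 0, 1, 1⟩, ⟨0, 0, 0, 1, 0⟩, ⟨-2, -3, -4, 0, 1⟩]⟩]
def last3 : List ℕ × ℕ := ([2, 4, 26, 29], 0)
def flips4 : List FlipD := [⟨[21, 29, 3, 5], 2, 0, [⟨2, 3, 4, -4, -3⟩, ⟨0, 8, 10, -10, -7⟩, ⟨6, 5, 4, -5, 5⟩, ⟨-12, 16, 5, -6, 6⟩]⟩,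
  ⟨[21, 3, 5, 28], 1, 0, [⟨0, 0, 0, -1, 1⟩, ⟨6, 5, 4, -5, -5⟩, ⟨-12, 16, 5, -6, -6⟩]⟩,
  ⟨[23, 28, 5, 25], 2, 0, [⟨72, -24, 60, -27, 52⟩, ⟨60, 4, 17, 0, 0⟩, ⟨0, 0, 0, 1, 1⟩, ⟨132, 36, 51, -18, -17⟩]⟩,
  ⟨[28, 3, 5, 25], 1, 0, [⟨0, 0, 0, -1, 1⟩, ⟨-312, 272, -50, -279, -147⟩, ⟨3, -13, -29, -29, 16⟩]⟩,
  ⟨[23, 5, 25, 27], 1, 0, [⟨0, 0, 0, -1, 1⟩, ⟨0, -8, -10, -4, 7⟩, ⟨4, -4, -11, -11, 6⟩]⟩,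
  ⟨[25, 3, 5, 27], 1, 0, [⟨0, 0, 0, 0, 1⟩, ⟨4, 2, 0, -1, 0⟩, ⟨-4, 0, -5, -5, 3⟩]⟩,
  ⟨[27, 3, 5, 13], 1, 0, [⟨0, 0, 0, 1, 1⟩, ⟨2, 3, 4, 4, 3⟩, ⟨0, 8, 10, 10, 7⟩]⟩,
  ⟨[13, 3, 5, 26], 1, 0, [⟨0, 0, 0, 1, 0⟩, ⟨-44, -16, -75, 70, 98⟩, ⟨0, -8, -16, -15, -9⟩]⟩,
  ⟨[5, 15, 26, 29], 2, 0, [⟨-24, -72, -120, -109, -70⟩, ⟨-24, -72, -120, 109, -70⟩, ⟨1100, -724, 265, -205, -381⟩, ⟨1100, -724, 265, 205, -381⟩]⟩,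
  ⟨[15, 17, 26, 29], 1, 0, [⟨-24, -72, -120, -109, -70⟩, ⟨-24, -72, -120, 109, -70⟩, ⟨-244, 160, -105, 0, 62⟩]⟩,
  ⟨[5, 3, 26, 29], 1, 0, [⟨20, 60, -9, 0, 22⟩, ⟨328, 112, -104, -109, 12⟩, ⟨328, 112, -104, 109, 12⟩]⟩]
def last4 : List ℕ × ℕ := ([3, 17, 26, 29], 0)
def flips5 : List FlipD := [⟨[13, 26, 4, 6], 2, 0, [⟨52, -56, -5, 5, 0⟩, ⟨52, -56, 5, 5, 0⟩, ⟨-4, 0, -5, -5, -7⟩, ⟨-4, 0, 5, -5, -7⟩]⟩,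
  ⟨[13, 4, 6, 27], 1, 0, [⟨5, -5, 0, 1, 1⟩, ⟨-4, 0, 5, 5, -7⟩, ⟨4, -8, -5, 0, -1⟩]⟩,
  ⟨[27, 4, 6, 23], 1, 0, [⟨0, 0, 0, 1, 1⟩, ⟨4, -8, -5, 5, -1⟩, ⟨5, -9, 5, 5, -4⟩]⟩,
  ⟨[26, 4, 6, 15], 1, 0, [⟨16, -16, 0, 5, -7⟩, ⟨4, -8, -5, 5, 1⟩, ⟨5, -9, 5, 5, 4⟩]⟩,
  ⟨[23, 4, 6, 28], 1, 0, [⟨0, 0, 0, 0, 1⟩, ⟨-4, 0, -5, 10, 8⟩, ⟨-4, 0, 5, 10, 8⟩]⟩,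
  ⟨[15, 4, 6, 29], 1, 0, [⟨-5, 5, 0, 0, -2⟩, ⟨-4, 0, -5, 10, -8⟩, ⟨-4, 0, 5, 10, -8⟩]⟩,
  ⟨[29, 4, 6, 21], 1, 0, [⟨0, 0, 0, -1, -1⟩, ⟨-28, 24, -5, 5, -2⟩, ⟨-28, 24, 5, 5, -2⟩]⟩]
def last5 : List ℕ × ℕ := ([4, 6, 21, 28], 0)
def flips6 : List FlipD := [⟨[13, 26, 7, 5], 2, 0, [⟨2, 3, -4, 4, -3⟩, ⟨-4, 8, -5, 5, -4⟩, ⟨2, 3, -4, 5, 4⟩, ⟨-12, 16, -5, 6, 6⟩]⟩,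
  ⟨[13, 5, 7, 27], 1, 0, [⟨0, 0, 0, 1, 1⟩, ⟨0, 0, 0, 1, 0⟩, ⟨2, 3, -4, 5, -4⟩, ⟨-12, 16, -5, 6, -6⟩]⟩,
  ⟨[27, 5, 7, 23], 1, 0, [⟨0, 0, 0, 1, 1⟩, ⟨2, 3, -4, 5, 4⟩, ⟨-5, -3, 10, 10, -13⟩]⟩,
  ⟨[26, 5, 7, 15], 1, 0, [⟨0, 0, 0, 1, -1⟩, ⟨8, 6, -4, 1, 0⟩, ⟨-5, -3, 10, 10, 13⟩]⟩,
  ⟨[23, 5, 7, 28], 1, 0, [⟨0, 0, 0, 0, 1⟩, ⟨-4, 0, 5, 5, 3⟩, ⟨10, 3, 4, 4, 0⟩]⟩,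
  ⟨[15, 5, 7, 29], 1, 0, [⟨-7, -21, 35, 35, -33⟩, ⟨-4, 0, 5, 5, -3⟩, ⟨10, 3, 4, 4, 0⟩]⟩,
  ⟨[29, 5, 7, 21], 1, 0, [⟨0, 0, 0, -1, -1⟩, ⟨2, 3, -4, -4, -3⟩, ⟨-20, 48, -35, -35, -27⟩]⟩]
def last6 : List ℕ × ℕ := ([5, 7, 21, 28], 0)
def flips7 : List FlipD := [⟨[12, 27, 8, 13], 2, 0, [⟨0, 0, 0, 1, -1⟩, ⟨0, 0, 0, 1, 1⟩, ⟨2, 1, 0, 0, 1⟩, ⟨-1, -1, 0, 0, 1⟩, ⟨2, 1, 4, -1, 0⟩]⟩,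
  ⟨[12, 8, 13, 26], 1, 0, [⟨0, 0, 0, 1, -1⟩, ⟨0, 0, 0, 1, 1⟩, ⟨2, 1, 4, -1, 0⟩, ⟨2, 2, 6, 0, -1⟩]⟩,
  ⟨[20, 29, 8, 21], 2, 0, [⟨0, 0, 0, -1, -1⟩, ⟨0, 0, 0, -1, 1⟩, ⟨2, 1, 0, 0, -1⟩, ⟨2, 1, 4, 1, 0⟩, ⟨7, 7, -8, -8, -7⟩]⟩,
  ⟨[20, 8, 21, 28], 1, 0, [⟨0, 0, 0, -1, -1⟩, ⟨4, 4, 24, 3, 16⟩, ⟨2, 1, 4, 1, 0⟩]⟩,
  ⟨[21, 29, 6, 8], 2, 0, [⟨-4, -4, -8, -1, 0⟩, ⟨6, 5, -4, -4, -4⟩, ⟨-2, -3, 4, -4, 5⟩, ⟨-1, -1, -3, 0, -1⟩]⟩,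
  ⟨[29, 6, 8, 15], 1, 0, [⟨8, 8, -8, -8, -7⟩, ⟨-1, -1, 0, -1, 0⟩, ⟨-2, -3, 4, -5, 4⟩]⟩,
  ⟨[21, 6, 8, 28], 1, 0, [⟨0, 0, 0, -1, 0⟩, ⟨-1, -1, 0, -1, -1⟩, ⟨-2, -3, 4, -4, -5⟩]⟩,
  ⟨[28, 6, 8, 23], 1, 0, [⟨-8, -8, 8, -8, 7⟩, ⟨-1, -1, 0, -1, 0⟩, ⟨-2, -3, 4, -5, -4⟩]⟩,
  ⟨[15, 6, 8, 26], 1, 0, [⟨0, 0, 0, 0, -1⟩, ⟨-2, -3, 4, -5, -4⟩, ⟨-84, -84, -64, -47, -55⟩]⟩,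
  ⟨[26, 6, 8, 13], 1, 0, [⟨-21, -21, 21, -16, -14⟩, ⟨10, 3, 4, -4, -12⟩, ⟨-4, -4, -24, 3, -14⟩]⟩,
  ⟨[23, 6, 8, 27], 1, 0, [⟨-5, -5, 5, -5, 9⟩, ⟨-84, -84, -64, -47, 55⟩, ⟨86, 49, -12, 12, -29⟩]⟩]
def last7 : List ℕ × ℕ := ([6, 8, 13, 27], 0)
def flips8 : List FlipD := [⟨[11, 12, 26, 27], 2, 0, [⟨-77, -78, 4, 4, -4⟩, ⟨1, 0, 4, 4, 4⟩, ⟨-4, -3, -4, 4, -4⟩, ⟨-4, -3, -4, 4, 4⟩]⟩,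
  ⟨[11, 9, 26, 27], 1, 0, [⟨12, 3, -4, 6, -1⟩, ⟨4, 3, 4, 4, 4⟩, ⟨5, 4, 4, 0, 0⟩]⟩,
  ⟨[12, 7, 26, 27], 1, 0, [⟨-12, -12, 0, 1, -1⟩, ⟨-1, -1, 0, 1, 1⟩, ⟨-4, -3, -4, 0, 0⟩]⟩,
  ⟨[23, 25, 27, 28], 2, 0, [⟨-12, -12, 0, 1, 1⟩, ⟨3, -7, 8, -4, 8⟩, ⟨3, -7, 8, 4, 8⟩, ⟨-12, -12, 0, -1, 1⟩]⟩,
  ⟨[25, 9, 27, 28], 1, 0, [⟨132, 51, 4, 5, 45⟩, ⟨1, 1, 0, 0, 0⟩, ⟨0, 0, 0, -1, 1⟩]⟩,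
  ⟨[23, 7, 27, 28], 1, 0, [⟨-1, -1, 0, 1, 1⟩, ⟨-1, -1, 0, -1, 1⟩, ⟨-16, -6, 0, 0, -5⟩]⟩,
  ⟨[26, 27, 9, 7], 2, 0, [⟨1, 1, 0, 1, 1⟩, ⟨-4, -3, -4, 1, -1⟩, ⟨1, 1, 0, 1, -1⟩, ⟨-4, -3, -4, 1, 1⟩]⟩,
  ⟨[27, 7, 9, 28], 1, 0, [⟨0, 0, 0, 0, 1⟩, ⟨1, 1, 0, 1, 1⟩, ⟨-4, -3, -4, 1, 1⟩]⟩,
  ⟨[19, 20, 28, 29], 2, 0, [⟨4, 3, 4, -4, 4⟩, ⟨3, 2, 4, -4, -4⟩, ⟨-4, -3, -4, -4, 4⟩, ⟨-20, -19, -4, -4, -4⟩]⟩,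
  ⟨[20, 7, 28, 29], 1, 0, [⟨0, 0, 0, -1, 1⟩, ⟨-4, -3, -4, 0, 0⟩, ⟨-1, -1, 0, -1, -1⟩]⟩,
  ⟨[19, 9, 28, 29], 1, 0, [⟨0, 0, 0, -1, 1⟩, ⟨0, 0, 0, -1, -1⟩, ⟨5, 5, 8, 1, 0⟩]⟩,
  ⟨[28, 7, 9, 29], 1, 0, [⟨0, 0, 0, -1, 0⟩, ⟨-16, -6, 0, -11, 16⟩, ⟨24, 24, 8, -7, 8⟩]⟩,
  ⟨[7, 15, 26, 29], 2, 0, [⟨-25, -25, -40, -27, -32⟩, ⟨-25, -25, -40, 27, -32⟩, ⟨-236, -171, -220, -65, -60⟩, ⟨-236, -171, -220, 65, -60⟩]⟩,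
  ⟨[15, 17, 26, 29], 1, 0, [⟨-6, -6, 8, 0, 1⟩, ⟨-24, -24, -40, -27, -32⟩, ⟨-24, -24, -40, 27, -32⟩]⟩,
  ⟨[7, 9, 26, 29], 1, 0, [⟨-3, -1, 0, 0, 1⟩, ⟨-120, -48, -8, -3, 32⟩, ⟨-120, -48, -8, 3, 32⟩]⟩]
def last8 : List ℕ × ℕ := ([9, 17, 26, 29], 0)
def flips9 : List FlipD := [⟨[0, 10, 26, 27], 2, 0, [⟨-44, 24, -13, 14, -1⟩, ⟨-4, -3, -4, 4, 4⟩, ⟨0, 0, 0, 1, 1⟩, ⟨-4, -3, -4, 4, -4⟩]⟩,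
  ⟨[10, 11, 26, 27], 1, 0, [⟨4, 2, 1, 1, 0⟩, ⟨0, 1, 1, 4, -4⟩, ⟨0, 1, 1, 4, 4⟩]⟩,
  ⟨[11, 8, 26, 27], 1, 0, [⟨12, 3, -4, 6, -1⟩, ⟨0, 0, 0, 1, 1⟩, ⟨4, -1, 0, 0, 0⟩]⟩,
  ⟨[0, 14, 26, 29], 2, 0, [⟨0, 0, 0, 1, -1⟩, ⟨-676, -392, -531, -65, -50⟩, ⟨-56, -29, -39, 4, -2⟩, ⟨0, 0, 0, -1, -1⟩]⟩,
  ⟨[14, 17, 26, 29], 1, 0, [⟨0, 0, 0, 1, -1⟩, ⟨0, 0, 0, -1, -1⟩, ⟨-76, -44, -63, -39, -39⟩, ⟨-76, -44, -63, 39, -39⟩, ⟨96, 7, 31, 0, 0⟩]⟩,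
  ⟨[17, 8, 26, 29], 1, 0, [⟨0, 0, 0, 1, -1⟩, ⟨0, 0, 0, -1, -1⟩, ⟨52, 19, 0, 0, -16⟩]⟩,
  ⟨[22, 28, 0, 25], 2, 0, [⟨0, 0, 0, 1, 1⟩, ⟨-4, 12, 16, -3, 0⟩, ⟨-52, -44, -67, -51, 50⟩, ⟨-76, -44, -63, 39, 39⟩]⟩,
  ⟨[22, 0, 25, 27], 1, 0, [⟨0, 0, 0, 1, 1⟩, ⟨0, 0, 0, -1, 1⟩, ⟨1, 17, 31, 31, -30⟩, ⟨-76, -44, -63, -39, 39⟩]⟩,
  ⟨[18, 29, 0, 19], 2, 0, [⟨0, 0, 0, -1, -1⟩, ⟨0, 0, 0, -1, 1⟩, ⟨0, 7, 15, 4, 0⟩, ⟨4, 8, 19, 19, -24⟩, ⟨-52, 3, 60, 60, -95⟩]⟩,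
  ⟨[18, 0, 19, 28], 1, 0, [⟨-84, -184, -427, -488, 377⟩, ⟨0, 0, 0, -1, -1⟩, ⟨0, 7, 15, 4, 0⟩]⟩,
  ⟨[25, 28, 8, 0], 2, 0, [⟨-456, -528, -952, -952, 797⟩, ⟨8, -104, -172, -135, 170⟩, ⟨76, -704, -1137, 1312, 1538⟩, ⟨-16, -12, -16, 11, 11⟩]⟩,
  ⟨[28, 0, 8, 19], 1, 0, [⟨0, 0, 0, -613, -363⟩, ⟨0, 0, 0, -1, 1⟩, ⟨-16, -6, 0, 0, 5⟩, ⟨4, 8, 19, 24, 29⟩]⟩,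
  ⟨[25, 0, 8, 27], 1, 0, [⟨0, 0, 0, 0, 1⟩, ⟨-4, -3, -4, -4, 4⟩, ⟨12, -16, -13, -16, 16⟩]⟩,
  ⟨[19, 0, 8, 29], 1, 0, [⟨0, 0, 0, -1, -1⟩, ⟨-4, -3, -4, -5, 5⟩, ⟨12, -16, -13, -1, 1⟩]⟩,
  ⟨[27, 0, 8, 26], 1, 0, [⟨4, 8, 19, 0, 5⟩, ⟨0, 0, 0, 63, 62⟩, ⟨-4, -3, -4, 125, 125⟩]⟩]
def last9 : List ℕ × ℕ := ([0, 8, 26, 29], 0)
def flips10 : List FlipD := [⟨[9, 26, 0, 11], 2, 0, [⟨-8, -3, 0, 0, -3⟩, ⟨28, -20, 0, 0, -7⟩, ⟨-44, -9, -21, -20, 0⟩, ⟨44, -24, -14, -13, 0⟩]⟩,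
  ⟨[9, 0, 11, 27], 1, 0, [⟨0, 0, -1, 0, 1⟩, ⟨-44, -9, -21, -20, 0⟩, ⟨44, -24, -14, -13, 0⟩]⟩,
  ⟨[26, 0, 1, 11], 1, 0, [⟨-44, -75, 156, 156, -121⟩, ⟨-44, -240, 475, 475, -363⟩, ⟨-88, -216, 489, 488, -363⟩]⟩]
def last10 : List ℕ × ℕ := ([0, 1, 11, 27], 0)
def flips11 : List FlipD := [⟨[1, 10, 26, 27], 2, 0, [⟨-4, -4, 7, 8, -7⟩, ⟨-4, -4, 7, 8, 7⟩, ⟨-12, -3, 4, -4, -1⟩, ⟨-12, -3, 4, -4, 1⟩]⟩,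
  ⟨[1, 2, 26, 27], 1, 0, [⟨0, 0, 1, 0, 0⟩, ⟨12, 7, 4, 4, -1⟩, ⟨12, 7, 4, 4, 1⟩]⟩,
  ⟨[10, 9, 26, 27], 1, 0, [⟨1, 1, 0, 0, 0⟩, ⟨-4, -4, -7, 8, -7⟩, ⟨-4, -4, -7, 8, 7⟩]⟩,
  ⟨[2, 12, 26, 27], 1, 0, [⟨-8, -1, 5, -4, 0⟩, ⟨0, 0, 9, 8, -7⟩, ⟨0, 0, 9, 8, 7⟩]⟩,
  ⟨[12, 8, 26, 27], 1, 0, [⟨-48, -13, 15, -20, 0⟩, ⟨-68, -33, -20, 20, -35⟩, ⟨-68, -33, -20, 20, 35⟩]⟩]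
def last11 : List ℕ × ℕ := ([8, 9, 26, 27], 0)
def flips12 : List FlipD := [⟨[2, 11, 26, 27], 2, 0, [⟨14, 13, 4, 12, -11⟩, ⟨14, 13, 4, 12, 11⟩, ⟨0, 0, 9, 8, -7⟩, ⟨0, 0, 9, 8, 7⟩]⟩,
  ⟨[2, 3, 26, 27], 1, 0, [⟨0, 0, 1, 0, 0⟩, ⟨4, 2, 0, 0, -1⟩, ⟨4, 2, 0, 0, 1⟩]⟩,
  ⟨[11, 8, 26, 27], 1, 0, [⟨6, 5, 4, 4, -4⟩, ⟨6, 5, 4, 4, 4⟩, ⟨7, 0, -5, -4, 0⟩]⟩,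
  ⟨[3, 13, 26, 27], 1, 0, [⟨9, 2, 60, -4, 0⟩, ⟨4, 2, 8, 0, -1⟩, ⟨4, 2, 8, 0, 1⟩]⟩,
  ⟨[13, 7, 26, 27], 1, 0, [⟨7, 7, -8, 8, -7⟩, ⟨7, 7, -8, 8, 7⟩, ⟨-11, -4, -60, 4, 0⟩]⟩]
def last12 : List ℕ × ℕ := ([7, 8, 26, 27], 0)
def flips13 : List FlipD := [⟨[3, 12, 26, 27], 2, 0, [⟨-4, 0, 0, 3, -1⟩, ⟨-4, 0, 0, 3, 1⟩, ⟨4, 2, 8, 0, -1⟩, ⟨4, 2, 8, 0, 1⟩]⟩,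
  ⟨[3, 4, 26, 27], 1, 0, [⟨0, 0, 1, 0, 0⟩, ⟨-8, 8, 0, 0, -1⟩, ⟨-8, 8, 0, 0, 1⟩]⟩,
  ⟨[12, 7, 26, 27], 1, 0, [⟨-6, -1, 2, 2, 0⟩, ⟨0, 8, 8, 10, -7⟩, ⟨0, 8, 8, 10, 7⟩]⟩,
  ⟨[4, 5, 26, 27], 1, 0, [⟨6, 1, 2, -2, 0⟩, ⟨-8, 8, 10, 0, -1⟩, ⟨-8, 8, 10, 0, 1⟩]⟩,
  ⟨[5, 6, 26, 27], 1, 0, [⟨2, 3, -4, 4, -3⟩, ⟨2, 3, -4, 4, 3⟩, ⟨22, -15, -83, 2, 0⟩]⟩]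
def last13 : List ℕ × ℕ := ([6, 7, 26, 27], 0)
def flips14 : List FlipD := [⟨[0, 16, 26, 29], 2, 0, [⟨-344, -344, -168, -37, -16⟩, ⟨-344, -344, -168, 37, -16⟩, ⟨-8, -8, 56, -233, -240⟩, ⟨-8, -8, 56, 233, -240⟩]⟩,
  ⟨[0, 9, 26, 29], 1, 0, [⟨-77, -83, -167, 0, -12⟩, ⟨-28, -83, -116, -19, -32⟩, ⟨-28, -83, -116, 19, -32⟩]⟩,
  ⟨[16, 2, 26, 29], 1, 0, [⟨217, -117, 112, 0, -14⟩, ⟨-196, -196, -88, -51, -40⟩, ⟨-196, -196, -88, 51, -40⟩]⟩,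
  ⟨[9, 17, 26, 29], 1, 0, [⟨31, 31, 16, 0, -2⟩, ⟨71, 37, -319, -195, -260⟩, ⟨71, 37, -319, 195, -260⟩]⟩,
  ⟨[17, 3, 26, 29], 1, 0, [⟨-403, 265, -208, 0, 26⟩, ⟨-409, -409, -168, -167, -146⟩, ⟨-409, -409, -168, 167, -146⟩]⟩]
def last14 : List ℕ × ℕ := ([2, 3, 26, 29], 0)
def flips15 : List FlipD := [⟨[4, 17, 26, 29], 2, 0, [⟨-12, -6, 0, -5, -8⟩, ⟨-12, -6, 0, 5, -8⟩, ⟨-2657, -2779, -1173, -931, -1255⟩, ⟨-2657, -2779, -1173, 931, -1255⟩]⟩,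
  ⟨[17, 8, 26, 29], 1, 0, [⟨-19, -227, 85, 0, -17⟩, ⟨-112, -220, -24, -103, -160⟩, ⟨-112, -220, -24, 103, -160⟩, ⟨85, 42, 15, 0, -3⟩]⟩,
  ⟨[4, 5, 26, 29], 1, 0, [⟨1, 11, 20, 0, -4⟩, ⟨8, -8, 2, -1, -2⟩, ⟨8, -8, 2, 1, -2⟩]⟩,
  ⟨[5, 6, 26, 29], 1, 0, [⟨2, 3, -4, -3, -4⟩, ⟨2, 3, -4, 3, -4⟩, ⟨3, 29, -40, 0, 8⟩]⟩,
  ⟨[6, 7, 26, 29], 1, 0, [⟨-23, -10, -4, -13, -20⟩, ⟨-23, -10, -4, 13, -20⟩, ⟨39, 91, -40, 0, 8⟩]⟩]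
def last15 : List ℕ × ℕ := ([7, 8, 26, 29], 0)
def flips16 : List FlipD := [⟨[2, 26, 14, 1], 2, 0, [⟨4, 3, -4, 1, 0⟩, ⟨100, 45, -20, 0, -16⟩, ⟨52, 15, -12, 0, -8⟩, ⟨100, 63, -20, 1, -16⟩]⟩,
  ⟨[2, 1, 14, 29], 1, 0, [⟨100, 27, -20, -18, -16⟩, ⟨52, 15, -12, 0, -8⟩, ⟨100, 45, -20, 0, -16⟩]⟩,
  ⟨[26, 0, 1, 14], 1, 0, [⟨-100, -27, 20, 1218, 16⟩, ⟨-25, 44, 5, 1218, 4⟩, ⟨-4, 72, -121, 1218, 25⟩]⟩]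
def last16 : List ℕ × ℕ := ([0, 1, 14, 29], 0)
def flips17 : List FlipD := [⟨[3, 14, 26, 29], 2, 0, [⟨33, 35, -8, -2, -2⟩, ⟨33, 35, -8, 2, -2⟩, ⟨-187, -129, -112, -75, -70⟩, ⟨-187, -129, -112, 75, -70⟩]⟩,
  ⟨[3, 4, 26, 29], 1, 0, [⟨-211, -113, -15, 0, 3⟩, ⟨-208, -48, -78, -23, -22⟩, ⟨-208, -48, -78, 23, -22⟩]⟩,
  ⟨[14, 9, 26, 29], 1, 0, [⟨128, 120, -20, 0, -15⟩, ⟨-96, -72, -96, -65, -65⟩, ⟨-96, -72, -96, 65, -65⟩]⟩,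
  ⟨[4, 15, 26, 29], 1, 0, [⟨-128, -72, -4, 0, 9⟩, ⟨-717, -359, -128, -41, -40⟩, ⟨-717, -359, -128, 41, -40⟩]⟩,
  ⟨[15, 8, 26, 29], 1, 0, [⟨-484, -332, 143, 0, 298⟩, ⟨-2133, -1895, -2376, -1633, -1811⟩, ⟨-2133, -1895, -2376, 1633, -1811⟩]⟩]
def last17 : List ℕ × ℕ := ([8, 9, 26, 29], 0)
def flips18 : List FlipD := [⟨[9, 28, 0, 19], 2, 0, [⟨-8, -3, 0, 0, 3⟩, ⟨28, -20, 0, 0, 7⟩, ⟨-44, -9, -21, 20, 0⟩, ⟨44, -24, -14, 13, 0⟩]⟩,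
  ⟨[9, 0, 19, 29], 1, 0, [⟨0, 0, -1, 0, -1⟩, ⟨-44, -9, -21, 20, 0⟩, ⟨44, -24, -14, 13, 0⟩]⟩,
  ⟨[28, 0, 1, 19], 1, 0, [⟨-44, -75, 156, -156, 121⟩, ⟨-44, -240, 475, -475, 363⟩, ⟨-88, -216, 489, -488, 363⟩]⟩]
def last18 : List ℕ × ℕ := ([0, 1, 19, 29], 0)
def flips19 : List FlipD := [⟨[1, 18, 28, 29], 2, 0, [⟨-4, -4, 7, -8, -7⟩, ⟨-4, -4, 7, -8, 7⟩, ⟨-12, -3, 4, 4, -1⟩, ⟨-12, -3, 4, 4, 1⟩]⟩,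
  ⟨[1, 2, 28, 29], 1, 0, [⟨0, 0, 1, 0, 0⟩, ⟨12, 7, 4, -4, -1⟩, ⟨12, 7, 4, -4, 1⟩]⟩,
  ⟨[18, 9, 28, 29], 1, 0, [⟨1, 1, 0, 0, 0⟩, ⟨-4, -4, -7, -8, -7⟩, ⟨-4, -4, -7, -8, 7⟩]⟩,
  ⟨[2, 20, 28, 29], 1, 0, [⟨-8, -1, 5, 4, 0⟩, ⟨0, 0, 9, -8, -7⟩, ⟨0, 0, 9, -8, 7⟩]⟩,
  ⟨[20, 8, 28, 29], 1, 0, [⟨-48, -13, 15, 20, 0⟩, ⟨-68, -33, -20, -20, -35⟩, ⟨-68, -33, -20, -20, 35⟩]⟩]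
def last19 : List ℕ × ℕ := ([8, 9, 28, 29], 0)
def flips20 : List FlipD := [⟨[2, 19, 28, 29], 2, 0, [⟨14, 13, 4, -12, -11⟩, ⟨14, 13, 4, -12, 11⟩, ⟨0, 0, 9, -8, -7⟩, ⟨0, 0, 9, -8, 7⟩]⟩,
  ⟨[2, 3, 28, 29], 1, 0, [⟨0, 0, 1, 0, 0⟩, ⟨4, 2, 0, 0, -1⟩, ⟨4, 2, 0, 0, 1⟩]⟩,
  ⟨[19, 8, 28, 29], 1, 0, [⟨6, 5, 4, -4, -4⟩, ⟨6, 5, 4, -4, 4⟩, ⟨7, 0, -5, 4, 0⟩]⟩,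
  ⟨[3, 21, 28, 29], 1, 0, [⟨9, 2, 60, 4, 0⟩, ⟨4, 2, 8, 0, -1⟩, ⟨4, 2, 8, 0, 1⟩]⟩,
  ⟨[21, 7, 28, 29], 1, 0, [⟨7, 7, -8, -8, -7⟩, ⟨7, 7, -8, -8, 7⟩, ⟨-11, -4, -60, -4, 0⟩]⟩]
def last20 : List ℕ × ℕ := ([7, 8, 28, 29], 0)
def flips21 : List FlipD := [⟨[3, 20, 28, 29], 2, 0, [⟨-4, 0, 0, -3, -1⟩, ⟨-4, 0, 0, -3, 1⟩, ⟨4, 2, 8, 0, -1⟩, ⟨4, 2, 8, 0, 1⟩]⟩,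
  ⟨[3, 4, 28, 29], 1, 0, [⟨0, 0, 1, 0, 0⟩, ⟨-8, 8, 0, 0, -1⟩, ⟨-8, 8, 0, 0, 1⟩]⟩,
  ⟨[20, 7, 28, 29], 1, 0, [⟨-6, -1, 2, -2, 0⟩, ⟨0, 8, 8, -10, -7⟩, ⟨0, 8, 8, -10, 7⟩]⟩,
  ⟨[4, 5, 28, 29], 1, 0, [⟨6, 1, 2, 2, 0⟩, ⟨-8, 8, 10, 0, -1⟩, ⟨-8, 8, 10, 0, 1⟩]⟩,
  ⟨[5, 6, 28, 29], 1, 0, [⟨2, 3, -4, -4, -3⟩, ⟨2, 3, -4, -4, 3⟩, ⟨22, -15, -83, -2, 0⟩]⟩]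
def last21 : List ℕ × ℕ := ([6, 7, 28, 29], 0)
def flips22 : List FlipD := [⟨[0, 24, 27, 28], 2, 0, [⟨-344, -344, -168, -37, 16⟩, ⟨-344, -344, -168, 37, 16⟩, ⟨-8, -8, 56, -233, 240⟩, ⟨-8, -8, 56, 233, 240⟩]⟩,
  ⟨[0, 9, 27, 28], 1, 0, [⟨-77, -83, -167, 0, 12⟩, ⟨-28, -83, -116, -19, 32⟩, ⟨-28, -83, -116, 19, 32⟩]⟩,
  ⟨[24, 2, 27, 28], 1, 0, [⟨217, -117, 112, 0, 14⟩, ⟨-196, -196, -88, -51, 40⟩, ⟨-196, -196, -88, 51, 40⟩]⟩,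
  ⟨[9, 25, 27, 28], 1, 0, [⟨31, 31, 16, 0, 2⟩, ⟨71, 37, -319, -195, 260⟩, ⟨71, 37, -319, 195, 260⟩]⟩,
  ⟨[25, 3, 27, 28], 1, 0, [⟨-403, 265, -208, 0, -26⟩, ⟨-409, -409, -168, -167, 146⟩, ⟨-409, -409, -168, 167, 146⟩]⟩]
def last22 : List ℕ × ℕ := ([2, 3, 27, 28], 0)
def flips23 : List FlipD := [⟨[4, 25, 27, 28], 2, 0, [⟨-12, -6, 0, -5, 8⟩, ⟨-12, -6, 0, 5, 8⟩, ⟨-2657, -2779, -1173, -931, 1255⟩, ⟨-2657, -2779, -1173, 931, 1255⟩]⟩,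
  ⟨[25, 8, 27, 28], 1, 0, [⟨-19, -227, 85, 0, 17⟩, ⟨-112, -220, -24, -103, 160⟩, ⟨-112, -220, -24, 103, 160⟩, ⟨85, 42, 15, 0, 3⟩]⟩,
  ⟨[4, 5, 27, 28], 1, 0, [⟨1, 11, 20, 0, 4⟩, ⟨8, -8, 2, -1, 2⟩, ⟨8, -8, 2, 1, 2⟩]⟩,
  ⟨[5, 6, 27, 28], 1, 0, [⟨2, 3, -4, -3, 4⟩, ⟨2, 3, -4, 3, 4⟩, ⟨3, 29, -40, 0, -8⟩]⟩,
  ⟨[6, 7, 27, 28], 1, 0, [⟨-23, -10, -4, -13, 20⟩, ⟨-23, -10, -4, 13, 20⟩, ⟨39, 91, -40, 0, -8⟩]⟩]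
def last23 : List ℕ × ℕ := ([7, 8, 27, 28], 0)
def flips24 : List FlipD := [⟨[2, 27, 22, 1], 2, 0, [⟨4, 3, -4, 1, 0⟩, ⟨100, 45, -20, 0, 16⟩, ⟨52, 15, -12, 0, 8⟩, ⟨100, 63, -20, 1, 16⟩]⟩,
  ⟨[2, 1, 22, 28], 1, 0, [⟨100, 27, -20, -18, 16⟩, ⟨52, 15, -12, 0, 8⟩, ⟨100, 45, -20, 0, 16⟩]⟩,
  ⟨[27, 0, 1, 22], 1, 0, [⟨-100, -27, 20, 1218, -16⟩, ⟨-25, 44, 5, 1218, -4⟩, ⟨-4, 72, -121, 1218, -25⟩]⟩]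
def last24 : List ℕ × ℕ := ([0, 1, 22, 28], 0)
def flips25 : List FlipD := [⟨[3, 22, 27, 28], 2, 0, [⟨33, 35, -8, -2, 2⟩, ⟨33, 35, -8, 2, 2⟩, ⟨-187, -129, -112, -75, 70⟩, ⟨-187, -129, -112, 75, 70⟩]⟩,
  ⟨[3, 4, 27, 28], 1, 0, [⟨-211, -113, -15, 0, -3⟩, ⟨-208, -48, -78, -23, 22⟩, ⟨-208, -48, -78, 23, 22⟩]⟩,
  ⟨[22, 9, 27, 28], 1, 0, [⟨128, 120, -20, 0, 15⟩, ⟨-96, -72, -96, -65, 65⟩, ⟨-96, -72, -96, 65, 65⟩]⟩,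
  ⟨[4, 23, 27, 28], 1, 0, [⟨-128, -72, -4, 0, -9⟩, ⟨-717, -359, -128, -41, 40⟩, ⟨-717, -359, -128, 41, 40⟩]⟩,
  ⟨[23, 8, 27, 28], 1, 0, [⟨-484, -332, 143, 0, -298⟩, ⟨-2133, -1895, -2376, -1633, 1811⟩, ⟨-2133, -1895, -2376, 1633, 1811⟩]⟩]
def last25 : List ℕ × ℕ := ([8, 9, 27, 28], 0)
def flips26 : List FlipD := [⟨[1, 2, 16, 11], 2, 0, [⟨196, -16, 153, -104, -197⟩, ⟨152, 88, -8, -1, -32⟩, ⟨20, 3, 0, 0, -4⟩, ⟨1, 1, 0, 0, 0⟩, ⟨11, 11, 0, 1, 1⟩, ⟨-84, -29, 4, 5, 32⟩]⟩,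
  ⟨[3, 4, 17, 13], 2, 0, [⟨-5, 1, 8, 8, 4⟩, ⟨-4, 0, 3, 3, 1⟩, ⟨-4, -4, 0, -3, -3⟩, ⟨-8, 0, 0, 2, 1⟩]⟩,
  ⟨[4, 17, 15, 13], 2, 0, [⟨-56, -56, 8, 1, 0⟩, ⟨24, -88, 124, 4, -17⟩, ⟨8, -16, 13, 1, -1⟩, ⟨-2, -3, -4, -4, -3⟩, ⟨-24, 24, 0, 5, 8⟩, ⟨28, -60, 13, -13, -18⟩]⟩,
  ⟨[7, 8, 15, 12], 2, 0, [⟨-773, -736, -204, -92, -99⟩, ⟨-22, -13, -36, -12, -12⟩, ⟨4, 2, 0, 0, 1⟩, ⟨5, 4, 28, 16, 20⟩, ⟨-2, -3, 4, 3, 4⟩, ⟨-1, 12, -20, 0, 4⟩, ⟨4, 9, -20, -20, -15⟩, ⟨-16, -4, 24, -24, -15⟩, ⟨8, 8, 24, -24, -17⟩]⟩,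
  ⟨[2, 16, 14, 11], 2, 0, [⟨37, -36, -1, 1, -4⟩, ⟨-91, -38, 5, 4, 30⟩, ⟨1, 1, 0, 0, 0⟩, ⟨2, -1, -4, -3, -4⟩, ⟨51, 57, 0, 5, 8⟩]⟩,
  ⟨[2, 3, 14, 12], 2, 0, [⟨7, 6, 4, 4, 4⟩, ⟨-15, -11, 0, 0, 2⟩, ⟨4, 1, 4, 15, 16⟩, ⟨12, 17, 20, -20, -20⟩, ⟨-2, -3, -4, -4, -3⟩, ⟨-2, -3, 4, 3, 4⟩, ⟨-3, -3, 8, -8, -7⟩, ⟨-4, -10, -16, 3, 8⟩, ⟨10, 9, -20, 1, 4⟩, ⟨8, 8, -24, -24, -17⟩]⟩,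
  ⟨[2, 11, 12, 14], 1, 0, [⟨6, 5, 4, 4, 4⟩, ⟨-168, -87, 61, 52, 86⟩, ⟨-3, -3, 8, -8, -7⟩, ⟨16, 16, 145, -48, -34⟩, ⟨-2, -3, -4, -4, -3⟩, ⟨-2, -3, 4, 3, 4⟩, ⟨8, 8, -24, -24, -17⟩, ⟨528, -40, -590, 280, 529⟩, ⟨-47, -340, -863, -36, 115⟩]⟩,
  ⟨[4, 5, 13, 15], 1, 0, [⟨16, 4, 117, 24, 15⟩, ⟨16, -16, 11, 0, -2⟩, ⟨-256, -56, 392, 379, 528⟩, ⟨0, 0, 1, 0, 0⟩, ⟨-8, 0, -8, -8, -3⟩, ⟨6, -8, 3, 1, 1⟩, ⟨42, 17, 13, 11, 15⟩, ⟨-179, 12, -173, 84, 169⟩]⟩,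
  ⟨[3, 13, 12, 17], 2, 0, [⟨-8, 0, 12, 8, 3⟩, ⟨-37, -15, 0, 7, -4⟩, ⟨-13, -5, 8, 8, 3⟩, ⟨-16, 24, -1, 10, 9⟩]⟩,
  ⟨[3, 12, 14, 17], 1, 0, [⟨329, 329, 145, 128, 112⟩, ⟨-1164, -340, 229, 229, 430⟩, ⟨-856, 1064, -992, -163, -192⟩, ⟨-292, 224, 27, -1568, -1630⟩, ⟨-20, 16, 5, 10, 14⟩, ⟨12, 12, -29, -56, -49⟩, ⟨103, 77, 51, 32, 41⟩]⟩,
  ⟨[8, 12, 11, 15], 2, 0, [⟨-139, -101, -8, 8, 26⟩, ⟨44, 35, 50, 20, 22⟩, ⟨-4, -8, -97, -24, -19⟩, ⟨-24, -24, 24, 13, 16⟩, ⟨-44, -44, -21, -16, -14⟩, ⟨-4, -4, 7, -16, -14⟩, ⟨4, 9, -20, -20, -15⟩, ⟨8, 8, 16, -24, -21⟩, ⟨8, 8, -32, 1, 8⟩]⟩,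
  ⟨[8, 9, 17, 11], 2, 0, [⟨724, 267, 0, -36, -260⟩, ⟨72, -24, -60, -53, -80⟩, ⟨1, 1, 0, 0, 0⟩, ⟨84, 84, 64, 47, 55⟩]⟩,
  ⟨[8, 11, 15, 17], 1, 0, [⟨40, -24, -20, -25, -36⟩, ⟨-528, -602, 11, -48, -79⟩, ⟨8, -8, 8, 1, 0⟩, ⟨-368, -368, -161, -144, -126⟩]⟩,
  ⟨[14, 16, 0, 11], 2, 0, [⟨-462, -657, -716, -332, -388⟩, ⟨16, -24, 8, 1, 0⟩, ⟨-9, -10, 12, -12, -10⟩, ⟨-6, -9, -33, -4, -5⟩, ⟨12, -16, -67, -5, -5⟩]⟩,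
  ⟨[12, 15, 7, 11], 2, 0, [⟨-165, -165, -21, -16, -14⟩, ⟨-8, -16, 24, -24, -17⟩, ⟨-16, -4, -117, -24, -15⟩, ⟨116, 176, 249, 64, 86⟩, ⟨-24, -24, 24, 13, 16⟩, ⟨16, 16, -137, -48, -42⟩, ⟨8, 8, 16, -24, -21⟩, ⟨8, 8, -32, 1, 8⟩]⟩,
  ⟨[15, 17, 13, 11], 2, 0, [⟨8, -14, 18, 1, -2⟩, ⟨-8, -8, 1, 0, 0⟩, ⟨10, 47, 212, 84, 92⟩, ⟨28, -60, 13, -13, -18⟩]⟩,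
  ⟨[16, 0, 1, 11], 1, 0, [⟨-39, -332, 660, -20, -164⟩, ⟨408, -552, 456, 59, 56⟩, ⟨-16, -6, 0, 0, 5⟩, ⟨24, -8, -24, -24, -11⟩, ⟨80, 464, -335, -176, 38⟩]⟩,
  ⟨[13, 15, 5, 11], 2, 0, [⟨240, -272, 125, -40, -58⟩, ⟨2, 2, 29, 8, 7⟩, ⟨40, 232, -456, -88, 19⟩, ⟨-8, 0, -8, -8, -3⟩, ⟨-8, 0, 8, -8, -3⟩, ⟨6, -8, 3, 1, 1⟩, ⟨-503, 219, 1066, 792, 1054⟩]⟩,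
  ⟨[5, 15, 6, 11], 2, 0, [⟨20, -16, -5, -10, -14⟩, ⟨575, -116, -849, -812, -1056⟩, ⟨63, 25, -79, -48, -61⟩, ⟨-8, 0, 8, -8, -3⟩, ⟨8, -8, 4, 3, 4⟩, ⟨-524, 106, 477, 512, 763⟩]⟩,
  ⟨[5, 6, 11, 13], 1, 0, [⟨4, -2, -2, 2, 1⟩, ⟨4, 4, -5, 8, 7⟩, ⟨-8, 0, -8, -8, -3⟩, ⟨-8, 0, 8, -8, -3⟩, ⟨8, 8, -9, 8, 7⟩, ⟨-76, 12, 85, 64, 100⟩]⟩,
  ⟨[1, 0, 10, 11], 1, 0, [⟨-8, -8, 25, 56, 49⟩, ⟨24, -8, 16, -16, -7⟩, ⟨-72, 24, 136, -136, -71⟩, ⟨8, 0, -7, -8, -3⟩, ⟨80, 464, -335, -176, 38⟩]⟩,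
  ⟨[10, 0, 9, 11], 1, 0, [⟨-8, -8, -16, 24, 21⟩, ⟨0, 0, 0, 1, 1⟩, ⟨4, 0, 3, -3, -1⟩, ⟨8, 0, -7, -8, -3⟩, ⟨-8, -8, -56, 56, 49⟩, ⟨-8, 64, 56, -56, -13⟩, ⟨-8, 64, -93, -56, -13⟩, ⟨1, 220, 221, 212, 295⟩]⟩,
  ⟨[0, 9, 11, 14], 1, 0, [⟨-54, -141, -386, 4, -40⟩, ⟨8, 0, 8, -72, -67⟩, ⟨24, 4, 40, 193, 208⟩, ⟨-372, 124, 413, 456, 647⟩]⟩,
  ⟨[9, 11, 14, 17], 1, 0, [⟨88, 88, 35, 32, 28⟩, ⟨111, 111, 65, 32, 28⟩, ⟨946, -330, -963, -832, -1142⟩]⟩,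
  ⟨[14, 11, 12, 17], 1, 0, [⟨1, 1, 0, 0, 0⟩, ⟨40, 32, 35, 24, 25⟩, ⟨160, 208, 155, 128, 136⟩]⟩,
  ⟨[17, 11, 12, 13], 1, 0, [⟨470, 581, 492, 396, 402⟩, ⟨-4, -4, 1, 0, 0⟩, ⟨132, 58, 16, -16, 23⟩]⟩,
  ⟨[12, 7, 11, 13], 1, 0, [⟨10, 47, 212, 84, 92⟩, ⟨2, 23, 12, -12, 0⟩, ⟨6, 13, 92, -8, 0⟩]⟩,
  ⟨[13, 6, 7, 11], 1, 0, [⟨-24, -24, 24, 13, 16⟩, ⟨-38, -1, 38, 36, 50⟩, ⟨-306, -343, -212, -84, -92⟩]⟩]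
def last26 : List ℕ × ℕ := ([6, 7, 11, 15], 0)
def flips27 : List FlipD := [⟨[1, 2, 11, 24], 2, 0, [⟨196, -16, 153, -104, 197⟩, ⟨152, 88, -8, -1, 32⟩, ⟨20, 3, 0, 0, 4⟩, ⟨1, 1, 0, 0, 0⟩, ⟨11, 11, 0, 1, -1⟩, ⟨-84, -29, 4, 5, -32⟩]⟩,
  ⟨[3, 4, 13, 25], 2, 0, [⟨-5, 1, 8, 8, -4⟩, ⟨-4, 0, 3, 3, -1⟩, ⟨-4, -4, 0, -3, 3⟩, ⟨-8, 0, 0, 2, -1⟩]⟩,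
  ⟨[4, 25, 23, 13], 2, 0, [⟨-56, -56, 8, 1, 0⟩, ⟨24, -88, 124, 4, 17⟩, ⟨8, -16, 13, 1, 1⟩, ⟨-2, -3, -4, -4, 3⟩, ⟨-24, 24, 0, 5, -8⟩, ⟨28, -60, 13, -13, 18⟩]⟩,
  ⟨[7, 8, 12, 23], 2, 0, [⟨-773, -736, -204, -92, 99⟩, ⟨-22, -13, -36, -12, 12⟩, ⟨4, 2, 0, 0, -1⟩, ⟨5, 4, 28, 16, -20⟩, ⟨-2, -3, 4, 3, -4⟩, ⟨-1, 12, -20, 0, -4⟩, ⟨4, 9, -20, -20, 15⟩, ⟨-16, -4, 24, -24, 15⟩, ⟨8, 8, 24, -24, 17⟩]⟩,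
  ⟨[2, 24, 22, 11], 2, 0, [⟨37, -36, -1, 1, 4⟩, ⟨-91, -38, 5, 4, -30⟩, ⟨1, 1, 0, 0, 0⟩, ⟨2, -1, -4, -3, 4⟩, ⟨51, 57, 0, 5, -8⟩]⟩,
  ⟨[2, 3, 12, 22], 2, 0, [⟨7, 6, 4, 4, -4⟩, ⟨-15, -11, 0, 0, -2⟩, ⟨4, 1, 4, 15, -16⟩, ⟨12, 17, 20, -20, 20⟩, ⟨-2, -3, -4, -4, 3⟩, ⟨-2, -3, 4, 3, -4⟩, ⟨-3, -3, 8, -8, 7⟩, ⟨-4, -10, -16, 3, -8⟩, ⟨10, 9, -20, 1, -4⟩, ⟨8, 8, -24, -24, 17⟩]⟩,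
  ⟨[2, 11, 12, 22], 1, 0, [⟨6, 5, 4, 4, -4⟩, ⟨-168, -87, 61, 52, -86⟩, ⟨-3, -3, 8, -8, 7⟩, ⟨16, 16, 145, -48, 34⟩, ⟨-2, -3, -4, -4, 3⟩, ⟨-2, -3, 4, 3, -4⟩, ⟨8, 8, -24, -24, 17⟩, ⟨528, -40, -590, 280, -529⟩, ⟨-47, -340, -863, -36, -115⟩]⟩,
  ⟨[4, 5, 13, 23], 1, 0, [⟨16, 4, 117, 24, -15⟩, ⟨16, -16, 11, 0, 2⟩, ⟨-256, -56, 392, 379, -528⟩, ⟨0, 0, 1, 0, 0⟩, ⟨-8, 0, -8, -8, 3⟩, ⟨6, -8, 3, 1, -1⟩, ⟨42, 17, 13, 11, -15⟩, ⟨-179, 12, -173, 84, -169⟩]⟩,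
  ⟨[3, 13, 12, 25], 2, 0, [⟨-8, 0, 12, 8, -3⟩, ⟨-37, -15, 0, 7, 4⟩, ⟨-13, -5, 8, 8, -3⟩, ⟨-16, 24, -1, 10, -9⟩]⟩,
  ⟨[3, 12, 22, 25], 1, 0, [⟨329, 329, 145, 128, -112⟩, ⟨-1164, -340, 229, 229, -430⟩, ⟨-856, 1064, -992, -163, 192⟩, ⟨-292, 224, 27, -1568, 1630⟩, ⟨-20, 16, 5, 10, -14⟩, ⟨12, 12, -29, -56, 49⟩, ⟨103, 77, 51, 32, -41⟩]⟩,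
  ⟨[8, 12, 11, 23], 2, 0, [⟨-139, -101, -8, 8, -26⟩, ⟨44, 35, 50, 20, -22⟩, ⟨-4, -8, -97, -24, 19⟩, ⟨-24, -24, 24, 13, -16⟩, ⟨-44, -44, -21, -16, 14⟩, ⟨-4, -4, 7, -16, 14⟩, ⟨4, 9, -20, -20, 15⟩, ⟨8, 8, 16, -24, 21⟩, ⟨8, 8, -32, 1, -8⟩]⟩,
  ⟨[8, 9, 11, 25], 2, 0, [⟨724, 267, 0, -36, 260⟩, ⟨72, -24, -60, -53, 80⟩, ⟨1, 1, 0, 0, 0⟩, ⟨84, 84, 64, 47, -55⟩]⟩,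
  ⟨[8, 11, 23, 25], 1, 0, [⟨40, -24, -20, -25, 36⟩, ⟨-528, -602, 11, -48, 79⟩, ⟨8, -8, 8, 1, 0⟩, ⟨-368, -368, -161, -144, 126⟩]⟩,
  ⟨[22, 24, 0, 11], 2, 0, [⟨-462, -657, -716, -332, 388⟩, ⟨16, -24, 8, 1, 0⟩, ⟨-9, -10, 12, -12, 10⟩, ⟨-6, -9, -33, -4, 5⟩, ⟨12, -16, -67, -5, 5⟩]⟩,
  ⟨[12, 23, 7, 11], 2, 0, [⟨-165, -165, -21, -16, 14⟩, ⟨-8, -16, 24, -24, 17⟩, ⟨-16, -4, -117, -24, 15⟩, ⟨116, 176, 249, 64, -86⟩, ⟨-24, -24, 24, 13, -16⟩, ⟨16, 16, -137, -48, 42⟩, ⟨8, 8, 16, -24, 21⟩, ⟨8, 8, -32, 1, -8⟩]⟩,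
  ⟨[23, 25, 13, 11], 2, 0, [⟨8, -14, 18, 1, 2⟩, ⟨-8, -8, 1, 0, 0⟩, ⟨10, 47, 212, 84, -92⟩, ⟨28, -60, 13, -13, 18⟩]⟩,
  ⟨[24, 0, 1, 11], 1, 0, [⟨-39, -332, 660, -20, 164⟩, ⟨408, -552, 456, 59, -56⟩, ⟨-16, -6, 0, 0, -5⟩, ⟨24, -8, -24, -24, 11⟩, ⟨80, 464, -335, -176, -38⟩]⟩,
  ⟨[13, 23, 5, 11], 2, 0, [⟨240, -272, 125, -40, 58⟩, ⟨2, 2, 29, 8, -7⟩, ⟨40, 232, -456, -88, -19⟩, ⟨-8, 0, -8, -8, 3⟩, ⟨-8, 0, 8, -8, 3⟩, ⟨6, -8, 3, 1, -1⟩, ⟨-503, 219, 1066, 792, -1054⟩]⟩,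
  ⟨[5, 23, 6, 11], 2, 0, [⟨20, -16, -5, -10, 14⟩, ⟨575, -116, -849, -812, 1056⟩, ⟨63, 25, -79, -48, 61⟩, ⟨-8, 0, 8, -8, 3⟩, ⟨8, -8, 4, 3, -4⟩, ⟨-524, 106, 477, 512, -763⟩]⟩,
  ⟨[5, 6, 11, 13], 1, 0, [⟨4, -2, -2, 2, -1⟩, ⟨4, 4, -5, 8, -7⟩, ⟨-8, 0, -8, -8, 3⟩, ⟨-8, 0, 8, -8, 3⟩, ⟨8, 8, -9, 8, -7⟩, ⟨-76, 12, 85, 64, -100⟩]⟩,
  ⟨[1, 0, 10, 11], 1, 0, [⟨-8, -8, 25, 56, -49⟩, ⟨24, -8, 16, -16, 7⟩, ⟨-72, 24, 136, -136, 71⟩, ⟨8, 0, -7, -8, 3⟩, ⟨80, 464, -335, -176, -38⟩]⟩,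
  ⟨[10, 0, 9, 11], 1, 0, [⟨-8, -8, -16, 24, -21⟩, ⟨0, 0, 0, 1, -1⟩, ⟨4, 0, 3, -3, 1⟩, ⟨8, 0, -7, -8, 3⟩, ⟨-8, -8, -56, 56, -49⟩, ⟨-8, 64, 56, -56, 13⟩, ⟨-8, 64, -93, -56, 13⟩, ⟨1, 220, 221, 212, -295⟩]⟩,
  ⟨[0, 9, 11, 22], 1, 0, [⟨-54, -141, -386, 4, 40⟩, ⟨8, 0, 8, -72, 67⟩, ⟨24, 4, 40, 193, -208⟩, ⟨-372, 124, 413, 456, -647⟩]⟩,
  ⟨[9, 11, 22, 25], 1, 0, [⟨88, 88, 35, 32, -28⟩, ⟨111, 111, 65, 32, -28⟩, ⟨946, -330, -963, -832, 1142⟩]⟩,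
  ⟨[22, 11, 12, 25], 1, 0, [⟨1, 1, 0, 0, 0⟩, ⟨40, 32, 35, 24, -25⟩, ⟨160, 208, 155, 128, -136⟩]⟩,
  ⟨[25, 11, 12, 13], 1, 0, [⟨470, 581, 492, 396, -402⟩, ⟨-4, -4, 1, 0, 0⟩, ⟨132, 58, 16, -16, -23⟩]⟩,
  ⟨[12, 7, 11, 13], 1, 0, [⟨10, 47, 212, 84, -92⟩, ⟨2, 23, 12, -12, 0⟩, ⟨6, 13, 92, -8, 0⟩]⟩,
  ⟨[13, 6, 7, 11], 1, 0, [⟨-24, -24, 24, 13, -16⟩, ⟨-38, -1, 38, 36, -50⟩, ⟨-306, -343, -212, -84, 92⟩]⟩]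
def last27 : List ℕ × ℕ := ([6, 7, 11, 23], 0)
def flips28 : List FlipD := [⟨[1, 2, 24, 19], 2, 0, [⟨196, -16, 153, 104, 197⟩, ⟨152, 88, -8, 1, 32⟩, ⟨20, 3, 0, 0, 4⟩, ⟨1, 1, 0, 0, 0⟩, ⟨11, 11, 0, -1, -1⟩, ⟨-84, -29, 4, -5, -32⟩]⟩,
  ⟨[3, 4, 25, 21], 2, 0, [⟨-5, 1, 8, -8, -4⟩, ⟨-4, 0, 3, -3, -1⟩, ⟨-4, -4, 0, 3, 3⟩, ⟨-8, 0, 0, -2, -1⟩]⟩,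
  ⟨[4, 25, 23, 21], 2, 0, [⟨-56, -56, 8, -1, 0⟩, ⟨24, -88, 124, -4, 17⟩, ⟨8, -16, 13, -1, 1⟩, ⟨-2, -3, -4, 4, 3⟩, ⟨-24, 24, 0, -5, -8⟩, ⟨28, -60, 13, 13, 18⟩]⟩,
  ⟨[7, 8, 23, 20], 2, 0, [⟨-773, -736, -204, 92, 99⟩, ⟨-22, -13, -36, 12, 12⟩, ⟨4, 2, 0, 0, -1⟩, ⟨5, 4, 28, -16, -20⟩, ⟨-2, -3, 4, -3, -4⟩, ⟨-1, 12, -20, 0, -4⟩, ⟨4, 9, -20, 20, 15⟩, ⟨-16, -4, 24, 24, 15⟩, ⟨8, 8, 24, 24, 17⟩]⟩,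
  ⟨[2, 24, 22, 19], 2, 0, [⟨37, -36, -1, -1, 4⟩, ⟨-91, -38, 5, -4, -30⟩, ⟨1, 1, 0, 0, 0⟩, ⟨2, -1, -4, 3, 4⟩, ⟨51, 57, 0, -5, -8⟩]⟩,
  ⟨[2, 3, 22, 20], 2, 0, [⟨7, 6, 4, -4, -4⟩, ⟨-15, -11, 0, 0, -2⟩, ⟨4, 1, 4, -15, -16⟩, ⟨12, 17, 20, 20, 20⟩, ⟨-2, -3, -4, 4, 3⟩, ⟨-2, -3, 4, -3, -4⟩, ⟨-3, -3, 8, 8, 7⟩, ⟨-4, -10, -16, -5, -10⟩, ⟨10, 9, -20, -1, -4⟩, ⟨8, 8, -24, 24, 17⟩]⟩,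
  ⟨[2, 19, 20, 22], 1, 0, [⟨6, 5, 4, -4, -4⟩, ⟨-168, -87, 61, -52, -86⟩, ⟨-3, -3, 8, 8, 7⟩, ⟨16, 16, 145, 48, 34⟩, ⟨-2, -3, -4, 4, 3⟩, ⟨-2, -3, 4, -3, -4⟩, ⟨8, 8, -24, 24, 17⟩, ⟨528, -40, -590, -280, -529⟩, ⟨-47, -340, -863, 36, -115⟩]⟩,
  ⟨[4, 5, 21, 23], 1, 0, [⟨16, 4, 117, -24, -15⟩, ⟨16, -16, 11, 0, 2⟩, ⟨-256, -56, 392, -379, -528⟩, ⟨0, 0, 1, 0, 0⟩, ⟨-8, 0, -8, 8, 3⟩, ⟨6, -8, 3, -1, -1⟩, ⟨42, 17, 13, -11, -15⟩, ⟨-179, 12, -173, -84, -169⟩]⟩,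
  ⟨[3, 21, 20, 25], 2, 0, [⟨-8, 0, 12, -8, -3⟩, ⟨-37, -15, 0, -7, 4⟩, ⟨-13, -5, 8, -8, -3⟩, ⟨-16, 24, -1, -10, -9⟩]⟩,
  ⟨[3, 20, 22, 25], 1, 0, [⟨329, 329, 145, -128, -112⟩, ⟨-1164, -340, 229, -229, -430⟩, ⟨-856, 1064, -992, 163, 192⟩, ⟨-292, 224, 27, 1568, 1630⟩, ⟨-20, 16, 5, -10, -14⟩, ⟨12, 12, -29, 56, 49⟩, ⟨103, 77, 51, -32, -41⟩]⟩,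
  ⟨[8, 20, 19, 23], 2, 0, [⟨-139, -101, -8, -8, -26⟩, ⟨44, 35, 50, -20, -22⟩, ⟨-4, -8, -97, 24, 19⟩, ⟨-24, -24, 24, -13, -16⟩, ⟨-44, -44, -21, 16, 14⟩, ⟨-4, -4, 7, 16, 14⟩, ⟨4, 9, -20, 20, 15⟩, ⟨8, 8, 16, 24, 21⟩, ⟨8, 8, -32, -1, -8⟩]⟩,
  ⟨[8, 9, 25, 19], 2, 0, [⟨724, 267, 0, 36, 260⟩, ⟨72, -24, -60, 53, 80⟩, ⟨1, 1, 0, 0, 0⟩, ⟨84, 84, 64, -47, -55⟩]⟩,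
  ⟨[8, 19, 23, 25], 1, 0, [⟨40, -24, -20, 25, 36⟩, ⟨-528, -602, 11, 48, 79⟩, ⟨8, -8, 8, -1, 0⟩, ⟨-368, -368, -161, 144, 126⟩]⟩,
  ⟨[22, 24, 0, 19], 2, 0, [⟨-462, -657, -716, 332, 388⟩, ⟨16, -24, 8, -1, 0⟩, ⟨-9, -10, 12, 12, 10⟩, ⟨-6, -9, -33, 4, 5⟩, ⟨12, -16, -67, 5, 5⟩]⟩,
  ⟨[20, 23, 7, 19], 2, 0, [⟨-165, -165, -21, 16, 14⟩, ⟨-8, -16, 24, 24, 17⟩, ⟨-16, -4, -117, 24, 15⟩, ⟨116, 176, 249, -64, -86⟩, ⟨-24, -24, 24, -13, -16⟩, ⟨16, 16, -137, 48, 42⟩, ⟨8, 8, 16, 24, 21⟩, ⟨8, 8, -32, -1, -8⟩]⟩,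
  ⟨[23, 25, 21, 19], 2, 0, [⟨8, -14, 18, -1, 2⟩, ⟨-8, -8, 1, 0, 0⟩, ⟨10, 47, 212, -84, -92⟩, ⟨28, -60, 13, 13, 18⟩]⟩,
  ⟨[24, 0, 1, 19], 1, 0, [⟨-39, -332, 660, 20, 164⟩, ⟨408, -552, 456, -59, -56⟩, ⟨-16, -6, 0, 0, -5⟩, ⟨24, -8, -24, 24, 11⟩, ⟨80, 464, -335, 176, -38⟩]⟩,
  ⟨[21, 23, 5, 19], 2, 0, [⟨240, -272, 125, 40, 58⟩, ⟨2, 2, 29, -8, -7⟩, ⟨40, 232, -456, 88, -19⟩, ⟨-8, 0, -8, 8, 3⟩, ⟨-8, 0, 8, 8, 3⟩, ⟨6, -8, 3, -1, -1⟩, ⟨-503, 219, 1066, -792, -1054⟩]⟩,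
  ⟨[5, 23, 6, 19], 2, 0, [⟨20, -16, -5, 10, 14⟩, ⟨575, -116, -849, 812, 1056⟩, ⟨63, 25, -79, 48, 61⟩, ⟨-8, 0, 8, 8, 3⟩, ⟨8, -8, 4, -3, -4⟩, ⟨-524, 106, 477, -512, -763⟩]⟩,
  ⟨[5, 6, 19, 21], 1, 0, [⟨4, -2, -2, -2, -1⟩, ⟨4, 4, -5, -8, -7⟩, ⟨-8, 0, -8, 8, 3⟩, ⟨-8, 0, 8, 8, 3⟩, ⟨8, 8, -9, -8, -7⟩, ⟨-76, 12, 85, -64, -100⟩]⟩,
  ⟨[1, 0, 18, 19], 1, 0, [⟨-8, -8, 25, -56, -49⟩, ⟨24, -8, 16, 16, 7⟩, ⟨-72, 24, 136, 136, 71⟩, ⟨8, 0, -7, 8, 3⟩, ⟨80, 464, -335, 176, -38⟩]⟩,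
  ⟨[18, 0, 9, 19], 1, 0, [⟨-8, -8, -16, -24, -21⟩, ⟨0, 0, 0, -1, -1⟩, ⟨4, 0, 3, 3, 1⟩, ⟨8, 0, -7, 8, 3⟩, ⟨-8, -8, -56, -56, -49⟩, ⟨-8, 64, 56, 56, 13⟩, ⟨-8, 64, -93, 56, 13⟩, ⟨1, 220, 221, -212, -295⟩]⟩,
  ⟨[0, 9, 19, 22], 1, 0, [⟨-54, -141, -386, -4, 40⟩, ⟨8, 0, 8, 72, 67⟩, ⟨24, 4, 40, -193, -208⟩, ⟨-372, 124, 413, -456, -647⟩]⟩,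
  ⟨[9, 19, 22, 25], 1, 0, [⟨88, 88, 35, -32, -28⟩, ⟨111, 111, 65, -32, -28⟩, ⟨946, -330, -963, 832, 1142⟩]⟩,
  ⟨[22, 19, 20, 25], 1, 0, [⟨1, 1, 0, 0, 0⟩, ⟨40, 32, 35, -24, -25⟩, ⟨160, 208, 155, -128, -136⟩]⟩,
  ⟨[25, 19, 20, 21], 1, 0, [⟨470, 581, 492, -396, -402⟩, ⟨-4, -4, 1, 0, 0⟩, ⟨132, 58, 16, 16, -23⟩]⟩,
  ⟨[20, 7, 19, 21], 1, 0, [⟨10, 47, 212, -84, -92⟩, ⟨2, 23, 12, 12, 0⟩, ⟨6, 13, 92, 8, 0⟩]⟩,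
  ⟨[21, 6, 7, 19], 1, 0, [⟨-24, -24, 24, -13, -16⟩, ⟨-38, -1, 38, -36, -50⟩, ⟨-306, -343, -212, 84, 92⟩]⟩]
def last28 : List ℕ × ℕ := ([6, 7, 19, 23], 0)
def flips29 : List FlipD := [⟨[1, 2, 19, 16], 2, 0, [⟨196, -16, 153, 104, -197⟩, ⟨152, 88, -8, 1, -32⟩, ⟨20, 3, 0, 0, -4⟩, ⟨1, 1, 0, 0, 0⟩, ⟨11, 11, 0, -1, 1⟩, ⟨-84, -29, 4, -5, 32⟩]⟩,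
  ⟨[2, 3, 20, 14], 2, 0, [⟨7, 6, 4, -4, 4⟩, ⟨-15, -11, 0, 0, 2⟩, ⟨4, 1, 4, -15, 16⟩, ⟨12, 17, 20, 20, -20⟩, ⟨-2, -3, -4, -3, 4⟩, ⟨-2, -3, -4, 4, -3⟩, ⟨-2, -3, 4, -3, 4⟩, ⟨-3, -3, 8, 8, -7⟩, ⟨8, 8, -24, 24, -17⟩, ⟨16, 8, -56, -148, 159⟩]⟩,
  ⟨[2, 20, 19, 14], 2, 0, [⟨6, 5, 4, -4, 4⟩, ⟨-156, -75, 44, -44, 79⟩, ⟨-8, -8, -8, -15, 16⟩, ⟨-3, -3, 8, 8, -7⟩, ⟨16, 16, 145, 48, -34⟩, ⟨-2, -3, -4, 4, -3⟩, ⟨-2, -3, 4, -3, 4⟩, ⟨4, 4, -16, 11, -9⟩, ⟨137, 88, -100, -294, 282⟩]⟩,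
  ⟨[2, 14, 16, 19], 1, 0, [⟨37, -36, -1, -1, -4⟩, ⟨2, 1, 4, 4, -4⟩, ⟨-91, -38, 5, -4, 30⟩, ⟨12, 9, 4, -1, 0⟩, ⟨296, 336, 11, -37, 57⟩]⟩,
  ⟨[4, 5, 21, 15], 2, 0, [⟨184, 40, 1376, -280, 173⟩, ⟨20, -24, 17, -4, 3⟩, ⟨4, 2, 0, 0, 1⟩, ⟨-36, 12, -43, -19, 39⟩, ⟨-64, 95, 197, -164, 223⟩, ⟨0, 0, 1, 0, 0⟩, ⟨-8, 0, -8, 8, -3⟩, ⟨2, 2, 29, -8, 7⟩]⟩,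
  ⟨[4, 15, 17, 21], 2, 0, [⟨38, -79, 713, -116, 43⟩, ⟨-371, -329, -40, 40, -56⟩, ⟨8, -16, 13, -1, -1⟩, ⟨-2, -3, -4, 4, -3⟩, ⟨-120, -120, -72, 55, -64⟩]⟩,
  ⟨[4, 3, 17, 21], 1, 0, [⟨-24, -4, 40, -22, 7⟩, ⟨-8, -8, 8, -5, 4⟩, ⟨16, 16, 21, -16, 14⟩]⟩,
  ⟨[3, 14, 17, 20], 2, 0, [⟨2, 3, 4, 4, -4⟩, ⟨-856, 1064, -992, 163, -192⟩, ⟨72, 72, 184, -121, 144⟩, ⟨24, 24, -40, 40, -35⟩, ⟨-3, -3, 8, 8, -7⟩, ⟨12, 12, 0, -1, 1⟩, ⟨-20, 16, 5, -10, 14⟩]⟩,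
  ⟨[3, 17, 20, 21], 1, 0, [⟨-8, 0, 12, -8, 3⟩, ⟨-12, -12, 13, -8, 7⟩, ⟨-4, 12, 16, -17, 11⟩]⟩,
  ⟨[7, 8, 20, 15], 2, 0, [⟨-773, -736, -204, 92, -99⟩, ⟨-8, -16, 24, 24, -17⟩, ⟨5, 4, 28, -16, 20⟩, ⟨-17, 36, -172, 49, -44⟩, ⟨-2, -3, 4, -3, 4⟩, ⟨-1, 12, -20, 0, 4⟩, ⟨-16, -16, -21, 16, -14⟩, ⟨8, 8, 24, 24, -17⟩, ⟨-404, 200, -1400, 255, -128⟩]⟩,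
  ⟨[8, 9, 19, 17], 2, 0, [⟨72, -24, -60, 53, -80⟩, ⟨724, 267, 0, 36, -260⟩, ⟨1, 1, 0, 0, 0⟩, ⟨84, 84, 64, -47, 55⟩]⟩,
  ⟨[8, 17, 15, 19], 2, 0, [⟨40, -24, -20, 25, -36⟩, ⟨-155, -155, 8, 8, -7⟩, ⟨8, -8, 8, -1, 0⟩, ⟨6, -31, 68, -6, -4⟩, ⟨-368, -368, -161, 144, -126⟩]⟩,
  ⟨[8, 15, 19, 20], 1, 0, [⟨-165, -165, -21, 16, -14⟩, ⟨44, 35, 50, -20, 22⟩, ⟨-4, -8, -97, 24, -19⟩, ⟨31, 138, -253, -4, 57⟩, ⟨-4, -4, 7, 16, -14⟩, ⟨4, 9, -20, 20, -15⟩, ⟨8, 8, 16, 24, -21⟩, ⟨-154, -191, 154, -68, 78⟩]⟩,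
  ⟨[15, 20, 7, 19], 2, 0, [⟨-165, -165, -21, 16, -14⟩, ⟨756, 957, 1260, -515, 572⟩, ⟨-16, -4, -117, 24, -15⟩, ⟨-8, -16, 24, 24, -17⟩, ⟨16, 16, -137, 48, -42⟩, ⟨-24, -24, 24, -13, 16⟩, ⟨8, 8, 16, 24, -21⟩, ⟨8, 8, -32, -1, 8⟩]⟩,
  ⟨[14, 16, 0, 19], 2, 0, [⟨-462, -657, -716, 332, -388⟩, ⟨16, -24, 8, -1, 0⟩, ⟨-9, -10, 12, 12, -10⟩, ⟨-6, -9, -33, 4, -5⟩, ⟨12, -16, -67, 5, -5⟩]⟩,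
  ⟨[15, 17, 21, 19], 2, 0, [⟨8, -14, 18, -1, -2⟩, ⟨-8, -8, 1, 0, 0⟩, ⟨10, 47, 212, -84, 92⟩, ⟨28, -60, 13, 13, -18⟩]⟩,
  ⟨[16, 0, 1, 19], 1, 0, [⟨-39, -332, 660, 20, -164⟩, ⟨408, -552, 456, -59, 56⟩, ⟨-16, -6, 0, 0, 5⟩, ⟨24, -8, -24, 24, -11⟩, ⟨80, 464, -335, 176, 38⟩]⟩,
  ⟨[15, 21, 5, 19], 2, 0, [⟨240, -272, 125, 40, -58⟩, ⟨2, 2, 29, -8, 7⟩, ⟨40, 232, -456, 88, 19⟩, ⟨-8, 0, -8, 8, -3⟩, ⟨-8, 0, 8, 8, -3⟩, ⟨6, -8, 3, -1, 1⟩, ⟨-503, 219, 1066, -792, 1054⟩]⟩,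
  ⟨[5, 15, 6, 19], 2, 0, [⟨20, -16, -5, 10, -14⟩, ⟨575, -116, -849, 812, -1056⟩, ⟨63, 25, -79, 48, -61⟩, ⟨-8, 0, 8, 8, -3⟩, ⟨8, -8, 4, -3, 4⟩, ⟨-524, 106, 477, -512, 763⟩]⟩,
  ⟨[5, 6, 19, 21], 1, 0, [⟨4, -2, -2, -2, 1⟩, ⟨4, 4, -5, -8, 7⟩, ⟨-8, 0, -8, 8, -3⟩, ⟨-8, 0, 8, 8, -3⟩, ⟨8, 8, -9, -8, 7⟩, ⟨-76, 12, 85, -64, 100⟩]⟩,
  ⟨[1, 0, 18, 19], 1, 0, [⟨-8, -8, 25, -56, 49⟩, ⟨24, -8, 16, 16, -7⟩, ⟨-72, 24, 136, 136, -71⟩, ⟨8, 0, -7, 8, -3⟩, ⟨80, 464, -335, 176, 38⟩]⟩,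
  ⟨[18, 0, 9, 19], 1, 0, [⟨-8, -8, -16, -24, 21⟩, ⟨0, 0, 0, -1, 1⟩, ⟨4, 0, 3, 3, -1⟩, ⟨8, 0, -7, 8, -3⟩, ⟨-8, -8, -56, -56, 49⟩, ⟨-8, 64, 56, 56, -13⟩, ⟨-8, 64, -93, 56, -13⟩, ⟨1, 220, 221, -212, 295⟩]⟩,
  ⟨[0, 9, 14, 19], 1, 0, [⟨-54, -141, -386, -4, -40⟩, ⟨8, 0, 8, 72, -67⟩, ⟨24, 4, 40, -193, 208⟩, ⟨-372, 124, 413, -456, 647⟩]⟩,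
  ⟨[15, 6, 7, 19], 1, 0, [⟨-156, -156, 8, 8, -7⟩, ⟨70, 33, 4, 4, 15⟩, ⟨108, 108, -71, 40, -35⟩]⟩,
  ⟨[6, 7, 19, 21], 1, 0, [⟨-1, -1, 0, 0, 0⟩, ⟨-16, -16, -21, 16, -14⟩, ⟨2, -5, -44, -2, 0⟩]⟩,
  ⟨[9, 14, 17, 19], 1, 0, [⟨88, 88, 35, -32, 28⟩, ⟨111, 111, 65, -32, 28⟩, ⟨946, -330, -963, 832, -1142⟩]⟩,
  ⟨[14, 17, 19, 20], 1, 0, [⟨149, 149, 8, 8, -7⟩, ⟨40, 32, 35, -24, 25⟩, ⟨160, 208, 155, -128, 136⟩]⟩,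
  ⟨[7, 19, 20, 21], 1, 0, [⟨-164, -164, -21, 16, -14⟩, ⟨520, 224, 35, 72, 85⟩, ⟨3752, 4640, 3907, -3160, 3209⟩]⟩]
def last29 : List ℕ × ℕ := ([17, 19, 20, 21], 0)
def flipData : List (List FlipD × (List ℕ × ℕ)) := [(flips0, last0), (flips1, last1), (flips2, last2), (flips3, last3), (flips4, last4), (flips5, last5), (flips6, last6), (flips7, last7), (flips8, last8), (flips9, last9), (flips10, last10), (flips11, last11), (flips12, last12), (flips13, last13), (flips14, last14), (flips15, last15), (flips16, last16), (flips17, last17), (flips18, last18), (flips19, last19), (flips20, last20), (flips21, last21), (flips22, last22), (flips23, last23), (flips24, last24),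 (flips25, last25), (flips26, last26), (flips27, last27), (flips28, last28), (flips29, last29)]

/-- the vectors from the vertex `w` -/
def vsAt (w : ℕ) : List Z5 := verts.map fun x => x.sub (verts.getD w default)

/-- the link of the vertex `w` -/
def linkF (w : ℕ) : List (List ℕ) := (facets.filter fun t => t.contains w).map fun t => t.erase w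

def flipsCheck (w : ℕ) : Bool :=
  let p := flipData.getD w ([], ([], 0))
  runF (vsAt w) p.1 (linkF w) p.2.1 p.2.2

theorem flipsCheck0 : flipsCheck 0 = true := by decide +kernel
theorem flipsCheck1 : flipsCheck 1 = true := by decide +kernel
theorem flipsCheck2 : flipsCheck 2 = true := by decide +kernel
theorem flipsCheck3 : flipsCheck 3 = true := by decide +kernel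
theorem flipsCheck4 : flipsCheck 4 = true := by decide +kernel
theorem flipsCheck5 : flipsCheck 5 = true := by decide +kernel
theorem flipsCheck6 : flipsCheck 6 = true := by decide +kernel
theorem flipsCheck7 : flipsCheck 7 = true := by decide +kernel
theorem flipsCheck8 : flipsCheck 8 = true := by decide +kernel
theorem flipsCheck9 : flipsCheck 9 = true := by decide +kernel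
theorem flipsCheck10 : flipsCheck 10 = true := by decide +kernel
theorem flipsCheck11 : flipsCheck 11 = true := by decide +kernel
theorem flipsCheck12 : flipsCheck 12 = true := by decide +kernel
theorem flipsCheck13 : flipsCheck 13 = true := by decide +kernel
theorem flipsCheck14 : flipsCheck 14 = true := by decide +kernel
theorem flipsCheck15 : flipsCheck 15 = true := by decide +kernel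
theorem flipsCheck16 : flipsCheck 16 = true := by decide +kernel
theorem flipsCheck17 : flipsCheck 17 = true := by decide +kernel
theorem flipsCheck18 : flipsCheck 18 = true := by decide +kernel
theorem flipsCheck19 : flipsCheck 19 = true := by decide +kernel
theorem flipsCheck20 : flipsCheck 20 = true := by decide +kernel
theorem flipsCheck21 : flipsCheck 21 = true := by decide +kernel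
theorem flipsCheck22 : flipsCheck 22 = true := by decide +kernel
theorem flipsCheck23 : flipsCheck 23 = true := by decide +kernel
theorem flipsCheck24 : flipsCheck 24 = true := by decide +kernel
theorem flipsCheck25 : flipsCheck 25 = true := by decide +kernel
theorem flipsCheck26 : flipsCheck 26 = true := by decide +kernel
theorem flipsCheck27 : flipsCheck 27 = true := by decide +kernel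
theorem flipsCheck28 : flipsCheck 28 = true := by decide +kernel
theorem flipsCheck29 : flipsCheck 29 = true := by decide +kernel

theorem flipsCheck_all : ∀ w < 30, flipsCheck w = true := by
  intro w hw
  interval_cases w
  · exact flipsCheck0
  · exact flipsCheck1
  · exact flipsCheck2
  · exact flipsCheck3
  · exact flipsCheck4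
  · exact flipsCheck5
  · exact flipsCheck6
  · exact flipsCheck7
  · exact flipsCheck8
  · exact flipsCheck9
  · exact flipsCheck10
  · exact flipsCheck11
  · exact flipsCheck12
  · exact flipsCheck13
  · exact flipsCheck14
  · exact flipsCheck15
  · exact flipsCheck16
  · exact flipsCheck17
  · exact flipsCheck18
  · exact flipsCheck19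
  · exact flipsCheck20
  · exact flipsCheck21
  · exact flipsCheck22
  · exact flipsCheck23
  · exact flipsCheck24
  · exact flipsCheck25
  · exact flipsCheck26
  · exact flipsCheck27
  · exact flipsCheck28
  · exact flipsCheck29

end Pool.Agent.H755
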