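import Pool.Agent.H755.PL

/-! A bistellar flip across a simplicial cone, realised by a piecewise linear homeomorphism. -/

set_option autoImplicit false
set_option linter.deprecated false

namespace Pool.Agent.H755

open Set Module

/-- the real identity behind the inversion formula -/
theorem flip_real {ε : ℝ} (hε : 0 < ε) (a b δ g : ℝ)
    (hg : g = max 0 (min ((a + δ) / (1 + ε)) ((b + δ) / ε))) :
    max 0 (min ((b + g + δ) / (1 + ε)) ((a - g + δ) / ε)) = g := by
  have h1 : (0:ℝ) < 1 + ε := by linarith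
  rcases le_total ((a + δ) / (1 + ε)) 0 with hu | hu
  · have hg0 : g = 0 := by rw [hg]; exact max_eq_left (min_le_of_left_le hu)
    have ha : a + δ ≤ 0 := by
      by_contra h
      exact absurd hu (not_le.2 (div_pos (not_le.1 h) h1))
    rw [hg0]
    refine max_eq_left (min_le_of_right_le ?_)
    exact div_nonpos_of_nonpos_of_nonneg (by linarith) hε.le
  rcases le_total ((b + δ) / ε) 0 with hv | hv
  · have hg0 : g = 0 := by rw [hg]; exact max_eq_left (min_le_of_right_le hv)
    have hb : b + δ ≤ 0 := by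
      by_contra h
      exact absurd hv (not_le.2 (div_pos (not_le.1 h) hε))
    rw [hg0]
    refine max_eq_left (min_le_of_left_le ?_)
    exact div_nonpos_of_nonpos_of_nonneg (by linarith) h1.le
  rcases le_total ((a + δ) / (1 + ε)) ((b + δ) / ε) with h | h
  · have hg1 : g = (a + δ) / (1 + ε) := by rw [hg, min_eq_left h, max_eq_right hu]
    have hg2 : g * (1 + ε) = a + δ := by rw [hg1]; field_simp
    have e1 : (a - g + δ) / ε = g := by
      rw [div_eq_iff hε.ne']; linarith
    have hb : g * ε ≤ b + δ := by rw [← hg1] at h; exact (le_div_iff₀ hε).1 h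
    have e2 : g ≤ (b + g + δ) / (1 + ε) := by
      rw [le_div_iff₀ h1]; linarith
    rw [e1, min_eq_right e2, max_eq_right]
    rw [hg1]; exact hu
  · have hg1 : g = (b + δ) / ε := by rw [hg, min_eq_right h, max_eq_right hv]
    have hg2 : g * ε = b + δ := by rw [hg1]; field_simp
    have e1 : (b + g + δ) / (1 + ε) = g := by
      rw [div_eq_iff h1.ne']; linarith
    have ha : g * (1 + ε) ≤ a + δ := by rw [← hg1] at h; exact (le_div_iff₀ h1).1 h
    have e2 : g ≤ (a - g + δ) / ε := by
      rw [le_div_iff₀ hε]; linarith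
    rw [e1, min_eq_left e2, max_eq_right]
    rw [hg1]; exact hv

section

variable {E : Type*} [NormedAddCommGroup E] [NormedSpace ℝ E] [FiniteDimensional ℝ E]

/-- the smallest coordinate in `A` -/
noncomputable def mn (b : Basis (Fin 5) ℝ E) (A : Finset (Fin 5)) (hA : A.Nonempty) (x : E) : ℝ :=
  A.inf' hA (fun i => b.coord i x)

/-- displacement of the flip -/
noncomputable def flG (b : Basis (Fin 5) ℝ E) (A B : Finset (Fin 5)) (hA : A.Nonempty)
    (hB : B.Nonempty) (ε C : ℝ) (x : E) : ℝ :=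
  max 0 (min ((mn b A hA x + ε * (mn b A hA x + mn b B hB x - C * |b.coord 4 x|)) / (1 + ε))
    ((mn b B hB x + ε * (mn b A hA x + mn b B hB x - C * |b.coord 4 x|)) / ε))

/-- direction of the flip -/
noncomputable def flD (b : Basis (Fin 5) ℝ E) (A B : Finset (Fin 5)) : E :=
  ∑ i ∈ A, b i - ∑ i ∈ B, b i

/-- the flip map -/
noncomputable def flM (b : Basis (Fin 5) ℝ E) (A B : Finset (Fin 5)) (hA : A.Nonempty)
    (hB : B.Nonempty) (ε C : ℝ) (x : E) : E :=
  x - flG b A B hA hB ε C x • flD b A B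

variable {b : Basis (Fin 5) ℝ E} {A B : Finset (Fin 5)} {hA : A.Nonempty} {hB : B.Nonempty}
  {ε C : ℝ}

theorem coord_sum (b : Basis (Fin 5) ℝ E) (A : Finset (Fin 5)) (i : Fin 5) :
    b.coord i (∑ j ∈ A, b j) = if i ∈ A then 1 else 0 := by
  simp [map_sum, Basis.coord_apply, Finsupp.single_apply]

theorem coord_flD (i : Fin 5) : b.coord i (flD b A B) =
    (if i ∈ A then 1 else 0) - (if i ∈ B then 1 else 0) := by
  rw [flD, map_sub, coord_sum, coord_sum]

theorem coord_flM (x : E) (i : Fin 5) : b.coord i (flM b A B hA hB ε C x) =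
    b.coord i x - flG b A B hA hB ε C x * ((if i ∈ A then 1 else 0) - (if i ∈ B then 1 else 0)) := by
  rw [flM, map_sub, map_smul, coord_flD, smul_eq_mul]

theorem mn_le (x : E) {i : Fin 5} (hi : i ∈ A) : mn b A hA x ≤ b.coord i x :=
  Finset.inf'_le _ hi

theorem le_mn {x : E} {c : ℝ} (h : ∀ i ∈ A, c ≤ b.coord i x) : c ≤ mn b A hA x :=
  Finset.le_inf' _ _ h

theorem mn_shift {x y : E} {t : ℝ} (h : ∀ i ∈ A, b.coord i y = b.coord i x + t) :
    mn b A hA y = mn b A hA x + t := by
  apply le_antisymm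
  · have : mn b A hA y - t ≤ mn b A hA x := le_mn fun i hi => by
      have := mn_le (b := b) (hA := hA) y hi
      rw [h i hi] at this
      linarith
    linarith
  · exact le_mn fun i hi => by
      have := mn_le (b := b) (hA := hA) x hi
      rw [h i hi]
      linarith

theorem mn_smul {x : E} {t : ℝ} (ht : 0 ≤ t) : mn b A hA (t • x) = t * mn b A hA x := by
  obtain ⟨i, hi, hi'⟩ := A.exists_mem_eq_inf' hA (fun i => b.coord i x)
  apply le_antisymm
  · have h1 := mn_le (b := b) (hA := hA) (t • x) hi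
    rw [map_smul, smul_eq_mul] at h1
    have h2 : mn b A hA x = b.coord i x := hi'
    rw [h2]; exact h1
  · refine le_mn fun j hj => ?_
    rw [map_smul, smul_eq_mul]
    exact mul_le_mul_of_nonneg_left (mn_le _ hj) ht

theorem isPL_coord (b : Basis (Fin 5) ℝ E) (i : Fin 5) : IsPL (fun x : E => b.coord i x) :=
  isPL_linear (LinearMap.toContinuousLinearMap (b.coord i))

theorem isPL_mn : IsPL (mn b A hA) := by
  classical
  have h : ∀ (S : Finset (Fin 5)) (hS : S.Nonempty), IsPL (mn b S hS) := by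
    intro S hS
    induction hS using Finset.Nonempty.cons_induction with
    | singleton a =>
      refine cast (congrArg IsPL (funext fun x => ?_)) (isPL_coord b a)
      simp [mn]
    | cons a s h hs ih =>
      refine cast (congrArg IsPL (funext fun x => ?_)) ((isPL_coord b a).min ih)
      simp only [mn]
      rw [Finset.inf'_cons hs]
  exact h A hA

theorem continuous_coord (b : Basis (Fin 5) ℝ E) (i : Fin 5) :
    Continuous (fun x : E => b.coord i x) :=
  (LinearMap.toContinuousLinearMap (b.coord i)).continuous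

theorem continuous_mn : Continuous (mn b A hA) := by
  unfold mn
  exact Continuous.finset_inf'_apply hA fun i _ => continuous_coord b i

theorem continuous_flG : Continuous (flG b A B hA hB ε C) := by
  have h1 := continuous_mn (b := b) (hA := hA)
  have h2 := continuous_mn (b := b) (hA := hB)
  have h3 := continuous_coord b 4
  unfold flG
  fun_prop

theorem isPL_flG : IsPL (flG b A B hA hB ε C) := by
  have h1 := isPL_mn (b := b) (hA := hA)
  have h2 := isPL_mn (b := b) (hA := hB)
  have h3 := (isPL_coord b 4).abs.const_mul (-C)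
  have h4 := ((h1.add_real h2).add_real h3).const_mul ε
  have h5 := (h1.add_real h4).const_mul (1 / (1 + ε))
  have h6 := (h2.add_real h4).const_mul (1 / ε)
  have h7 := (isPL_const (E := E) (0:ℝ)).max (h5.min h6)
  refine cast (congrArg IsPL (funext fun x => ?_)) h7
  simp only [flG]
  congr 2
  · ring
  · ring

theorem continuous_flM : Continuous (flM b A B hA hB ε C) := by
  unfold flM
  exact continuous_id.sub (continuous_flG.smul continuous_const)

theorem isPL_flM : IsPL (flM b A B hA hB ε C) := by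
  have h := (isPL_flG (b := b) (hA := hA) (hB := hB) (ε := ε) (C := C)).neg_real.add_smul_const
    (ContinuousLinearMap.id ℝ E) (flD b A B)
  refine cast (congrArg IsPL (funext fun x => ?_)) h
  simp [flM, sub_eq_add_neg]

theorem mnA_flM (hd : Disjoint A B) (x : E) :
    mn b A hA (flM b A B hA hB ε C x) = mn b A hA x - flG b A B hA hB ε C x := by
  rw [sub_eq_add_neg]
  refine mn_shift fun i hi => ?_
  have : i ∉ B := Finset.disjoint_left.1 hd hi
  rw [coord_flM]
  simp [hi, this, sub_eq_add_neg]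

theorem mnB_flM (hd : Disjoint A B) (x : E) :
    mn b B hB (flM b A B hA hB ε C x) = mn b B hB x + flG b A B hA hB ε C x := by
  refine mn_shift fun i hi => ?_
  have : i ∉ A := Finset.disjoint_right.1 hd hi
  rw [coord_flM]
  simp [hi, this]

theorem c4_flM (h4A : (4 : Fin 5) ∉ A) (h4B : (4 : Fin 5) ∉ B) (x : E) :
    b.coord 4 (flM b A B hA hB ε C x) = b.coord 4 x := by
  rw [coord_flM]; simp [h4A, h4B]

theorem flG_flM (hε : 0 < ε) (hd : Disjoint A B) (h4A : (4 : Fin 5) ∉ A) (h4B : (4 : Fin 5) ∉ B)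
    (x : E) : flG b B A hB hA ε C (flM b A B hA hB ε C x) = flG b A B hA hB ε C x := by
  have key := flip_real hε (mn b A hA x) (mn b B hB x)
    (ε * (mn b A hA x + mn b B hB x - C * |b.coord 4 x|)) (flG b A B hA hB ε C x) rfl
  rw [flG, mnA_flM hd, mnB_flM hd, c4_flM h4A h4B]
  have e : mn b B hB x + flG b A B hA hB ε C x + (mn b A hA x - flG b A B hA hB ε C x) -
      C * |b.coord 4 x| = mn b A hA x + mn b B hB x - C * |b.coord 4 x| := by ring
  rw [e]
  exact key

theorem flD_swap : flD b B A = - flD b A B := by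
  simp [flD]

theorem flM_flM (hε : 0 < ε) (hd : Disjoint A B) (h4A : (4 : Fin 5) ∉ A) (h4B : (4 : Fin 5) ∉ B)
    (x : E) : flM b B A hB hA ε C (flM b A B hA hB ε C x) = x := by
  have h := flG_flM (b := b) (hA := hA) (hB := hB) (C := C) hε hd h4A h4B x
  rw [flM, h, flD_swap, flM]
  simp

/-- the flip homeomorphism -/
noncomputable def flH (b : Basis (Fin 5) ℝ E) (A B : Finset (Fin 5)) (hA : A.Nonempty)
    (hB : B.Nonempty) (ε C : ℝ) (hε : 0 < ε) (hd : Disjoint A B) (h4A : (4 : Fin 5) ∉ A)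
    (h4B : (4 : Fin 5) ∉ B) : E ≃ₜ E where
  toFun := flM b A B hA hB ε C
  invFun := flM b B A hB hA ε C
  left_inv := flM_flM hε hd h4A h4B
  right_inv := flM_flM hε hd.symm h4B h4A
  continuous_toFun := continuous_flM
  continuous_invFun := continuous_flM

theorem flM_smul {x : E} {t : ℝ} (ht : 0 ≤ t) :
    flM b A B hA hB ε C (t • x) = t • flM b A B hA hB ε C x := by
  have h : flG b A B hA hB ε C (t • x) = t * flG b A B hA hB ε C x := by
    rw [flG, flG, mn_smul ht, mn_smul ht, map_smul, smul_eq_mul, abs_mul, abs_of_nonneg ht,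
      mul_max_of_nonneg _ _ ht, mul_min_of_nonneg _ _ ht, mul_zero]
    congr 2 <;> ring
  rw [flM, flM, h, smul_sub, smul_smul]

/-- the part of the boundary of the orthant spanned by `b 0, .., b 3` where a coordinate in `T`
vanishes -/
def bdS (b : Basis (Fin 5) ℝ E) (T : Finset (Fin 5)) : Set E :=
  {x | b.coord 4 x = 0 ∧ (∀ i, i ≠ 4 → 0 ≤ b.coord i x) ∧ ∃ t ∈ T, b.coord t x = 0}

theorem flM_bdS (hε : 0 < ε) (hd : Disjoint A B) (h4A : (4 : Fin 5) ∉ A) (h4B : (4 : Fin 5) ∉ B)
    (hAB : ∀ i, i ≠ 4 → i ∈ A ∨ i ∈ B) :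
    MapsTo (flM b A B hA hB ε C) (bdS b B) (bdS b A) := by
  rintro x ⟨h4, hnn, t, ht, ht0⟩
  have hmB : mn b B hB x = 0 := by
    apply le_antisymm
    · rw [← ht0]; exact mn_le x ht
    · exact le_mn fun i hi => hnn i (by rintro rfl; exact h4B hi)
  have hmA : 0 ≤ mn b A hA x := le_mn fun i hi => hnn i (by rintro rfl; exact h4A hi)
  have hG : flG b A B hA hB ε C x = mn b A hA x := by
    rw [flG, hmB, h4]
    have e1 : (mn b A hA x + ε * (mn b A hA x + 0 - C * |0|)) / (1 + ε) = mn b A hA x := by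
      rw [abs_zero]; field_simp; ring
    have e2 : (0 + ε * (mn b A hA x + 0 - C * |0|)) / ε = mn b A hA x := by
      rw [abs_zero]; field_simp; ring
    rw [e1, e2, min_self, max_eq_right hmA]
  refine ⟨by rw [c4_flM h4A h4B]; exact h4, fun i hi => ?_, ?_⟩
  · rw [coord_flM, hG]
    rcases hAB i hi with h | h
    · have : i ∉ B := Finset.disjoint_left.1 hd h
      simp only [h, this, if_true, if_false]
      linarith [mn_le (b := b) (hA := hA) x h]
    · have : i ∉ A := Finset.disjoint_right.1 hd h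
      simp only [h, this, if_true, if_false]
      linarith [hnn i hi]
  · obtain ⟨i, hi, hi'⟩ := A.exists_mem_eq_inf' hA (fun i => b.coord i x)
    have hm : mn b A hA x = b.coord i x := hi'
    refine ⟨i, hi, ?_⟩
    have : i ∉ B := Finset.disjoint_left.1 hd hi
    rw [coord_flM, hG, hm]
    simp [hi, this]

theorem flH_image_bdS (hε : 0 < ε) (hd : Disjoint A B) (h4A : (4 : Fin 5) ∉ A)
    (h4B : (4 : Fin 5) ∉ B) (hAB : ∀ i, i ≠ 4 → i ∈ A ∨ i ∈ B) :
    flH b A B hA hB ε C hε hd h4A h4B '' (bdS b B) = bdS b A := by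
  apply Subset.antisymm
  · exact (flM_bdS hε hd h4A h4B hAB).image_subset
  · intro y hy
    refine ⟨flM b B A hB hA ε C y,
      flM_bdS hε hd.symm h4B h4A (fun i hi => (hAB i hi).symm) hy, ?_⟩
    exact flM_flM hε hd.symm h4B h4A y

/-- where the flip is the identity -/
theorem flM_eq_self {N : ℝ} (hN : 1 ≤ N) (h4A : (4 : Fin 5) ∉ A)
    (h4B : (4 : Fin 5) ∉ B) (hd : Disjoint A B) (hAB : ∀ i, i ≠ 4 → i ∈ A ∨ i ∈ B) (f : E →ₗ[ℝ] ℝ)
    (h2 : ∀ i, i ≠ 4 → 0 ≤ f (b i)) {p : ℝ} {a a' : Fin 5} (ha : a ∈ A) (ha' : a' ∈ B)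
    (hpa : p ≤ f (b a)) (hpa' : p ≤ f (b a')) (hp : 0 < p)
    (hNp : ∑ i ∈ Finset.univ.erase (4 : Fin 5), f (b i) + 2 * |f (b 4)| < N * p)
    {x : E} (hx : f x ≤ 0) :
    flM b A B hA hB (1 / N) (N ^ 2) x = x := by
  have hN0 : 0 < N := by linarith
  by_contra hne
  have hG : flG b A B hA hB (1 / N) (N ^ 2) x ≠ 0 := by
    intro h
    apply hne
    rw [flM, h, zero_smul, sub_zero]
  set mA := mn b A hA x with hmA
  set mB := mn b B hB x with hmB
  set z := |b.coord 4 x| with hz
  have hz0 : 0 ≤ z := abs_nonneg _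
  set δ := 1 / N * (mA + mB - N ^ 2 * z) with hδ
  have hpos : 0 < min ((mA + δ) / (1 + 1 / N)) ((mB + δ) / (1 / N)) := by
    by_contra h
    exact hG (max_eq_left (not_lt.1 h))
  have h1N : 0 < 1 + 1 / N := by positivity
  have hu : 0 < mA + δ := by
    have := (lt_min_iff.1 hpos).1
    by_contra h
    exact absurd this (not_lt.2 (div_nonpos_of_nonpos_of_nonneg (not_lt.1 h) h1N.le))
  have hv : 0 < mB + δ := by
    have := (lt_min_iff.1 hpos).2
    by_contra h
    exact absurd this (not_lt.2 (div_nonpos_of_nonpos_of_nonneg (not_lt.1 h) (by positivity)))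
  set w := mA + mB with hw
  have hδN : N * δ = w - N ^ 2 * z := by
    rw [hδ]; field_simp
  -- `N w + 2 w > 2 N² z`
  have h3 : 2 * N ^ 2 * z < (N + 2) * w := by nlinarith
  have hw0 : 0 < w := by
    by_contra h
    have : (N + 2) * w ≤ 0 := mul_nonpos_of_nonneg_of_nonpos (by linarith) (not_lt.1 h)
    nlinarith [mul_nonneg (sq_nonneg N) hz0]
  have hzw : N * z ≤ 3 / 2 * w := by
    have : (N + 2) * w ≤ 3 * N * w := by nlinarith
    have h5 : 2 * N * (N * z) ≤ 2 * N * (3 / 2 * w) := by nlinarith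
    exact le_of_mul_le_mul_left h5 (by linarith)
  have hδw : N * δ ≤ w := by rw [hδN]; nlinarith [mul_nonneg (sq_nonneg N) hz0]
  -- the coordinates
  have hxi : ∀ i, i ≠ 4 → 0 ≤ N * b.coord i x + w := by
    intro i hi
    rcases hAB i hi with h | h
    · have := mn_le (b := b) (hA := hA) x h
      nlinarith
    · have := mn_le (b := b) (hA := hB) x h
      nlinarith
  have hfx : f x = ∑ i ∈ Finset.univ.erase (4 : Fin 5), f (b i) * b.coord i x +
      f (b 4) * b.coord 4 x := by
    conv_lhs => rw [← b.sum_repr x]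
    rw [map_sum, ← Finset.sum_erase_add _ _ (Finset.mem_univ (4 : Fin 5))]
    congr 1
    · exact Finset.sum_congr rfl fun i _ => by rw [map_smul, smul_eq_mul, mul_comm]; rfl
    · rw [map_smul, smul_eq_mul, mul_comm]; rfl
  have haa' : a ≠ a' := fun h => Finset.disjoint_left.1 hd ha (h ▸ ha')
  have ha4 : a ≠ 4 := fun h => h4A (h ▸ ha)
  have ha4' : a' ≠ 4 := fun h => h4B (h ▸ ha')
  have hsum : f (b a) * (N * b.coord a x + w) + f (b a') * (N * b.coord a' x + w) ≤
      ∑ i ∈ Finset.univ.erase (4 : Fin 5), f (b i) * (N * b.coord i x + w) := by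
    rw [← Finset.sum_pair (f := fun i => f (b i) * (N * b.coord i x + w)) haa']
    apply Finset.sum_le_sum_of_subset_of_nonneg
    · intro i hi
      rcases Finset.mem_insert.1 hi with rfl | hi
      · exact Finset.mem_erase.2 ⟨ha4, Finset.mem_univ _⟩
      · rw [Finset.mem_singleton.1 hi]
        exact Finset.mem_erase.2 ⟨ha4', Finset.mem_univ _⟩
    · intro i hi _
      exact mul_nonneg (h2 i (Finset.mem_erase.1 hi).1) (hxi i (Finset.mem_erase.1 hi).1)
  have hsum2 : ∑ i ∈ Finset.univ.erase (4 : Fin 5), f (b i) * (N * b.coord i x + w) =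
      N * ∑ i ∈ Finset.univ.erase (4 : Fin 5), f (b i) * b.coord i x +
      w * ∑ i ∈ Finset.univ.erase (4 : Fin 5), f (b i) := by
    rw [Finset.mul_sum, Finset.mul_sum, ← Finset.sum_add_distrib]
    exact Finset.sum_congr rfl fun i _ => by ring
  set P := ∑ i ∈ Finset.univ.erase (4 : Fin 5), f (b i) with hP
  have h6 : p * (N * b.coord a x + w) ≤ f (b a) * (N * b.coord a x + w) :=
    mul_le_mul_of_nonneg_right hpa (hxi a ha4)
  have h7 : p * (N * b.coord a' x + w) ≤ f (b a') * (N * b.coord a' x + w) :=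
    mul_le_mul_of_nonneg_right hpa' (hxi a' ha4')
  have h8 : w ≤ b.coord a x + b.coord a' x := by
    have e1 := mn_le (b := b) (hA := hA) x ha
    have e2 := mn_le (b := b) (hA := hB) x ha'
    linarith
  have h9 : -(|f (b 4)| * z) ≤ f (b 4) * b.coord 4 x := by
    rw [hz, ← abs_mul]; exact neg_abs_le _
  have h10 : |f (b 4)| * (N * z) ≤ |f (b 4)| * (3 / 2 * w) :=
    mul_le_mul_of_nonneg_left hzw (abs_nonneg _)
  have h11 : N * p * w ≤ N * f x + w * P + |f (b 4)| * (3 / 2 * w) := by
    have e1 : N * p * w ≤ p * (N * b.coord a x + w) + p * (N * b.coord a' x + w) := by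
      have : N * p * w ≤ N * p * (b.coord a x + b.coord a' x) :=
        mul_le_mul_of_nonneg_left h8 (by positivity)
      nlinarith [mul_pos hp hw0]
    rw [hfx]
    nlinarith
  have h12 : (P + 2 * |f (b 4)|) * w < N * p * w := mul_lt_mul_of_pos_right hNp hw0
  nlinarith [mul_nonneg (abs_nonneg (f (b 4))) hw0.le, mul_nonneg hN0.le (neg_nonneg.2 hx)]

/-- **Flip lemma.** -/
theorem flip_homeo {ι : Type*} [Finite ι] (b : Basis (Fin 5) ℝ E) {A B : Finset (Fin 5)}
    (hA : A.Nonempty) (hB : B.Nonempty) (h4A : (4 : Fin 5) ∉ A) (h4B : (4 : Fin 5) ∉ B)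
    (hd : Disjoint A B) (hAB : ∀ i, i ≠ 4 → i ∈ A ∨ i ∈ B) (τ : ι → Set E) (f : ι → (E →ₗ[ℝ] ℝ))
    (h1 : ∀ k, ∀ x ∈ τ k, f k x ≤ 0) (h2 : ∀ k i, i ≠ 4 → 0 ≤ f k (b i))
    (h3 : ∀ k, ∃ a ∈ A, 0 < f k (b a)) (h4 : ∀ k, ∃ a ∈ B, 0 < f k (b a)) :
    ∃ φ : E ≃ₜ E, IsPL φ ∧ IsPL φ.symm ∧ (∀ t : ℝ, 0 ≤ t → ∀ x, φ (t • x) = t • φ x) ∧
      (∀ k, ∀ x ∈ τ k, φ x = x) ∧ φ '' (bdS b B) = bdS b A := by
  have : Fintype ι := Fintype.ofFinite ι
  choose a ha ha0 using h3
  choose a' ha' ha0' using h4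
  let p : ι → ℝ := fun k => min (f k (b (a k))) (f k (b (a' k)))
  have hp : ∀ k, 0 < p k := fun k => lt_min (ha0 k) (ha0' k)
  let q : ι → ℝ := fun k => (∑ i ∈ Finset.univ.erase (4 : Fin 5), f k (b i) + 2 * |f k (b 4)|) / p k
  have hq : ∀ k, 0 ≤ q k := fun k => by
    apply div_nonneg _ (hp k).le
    have : 0 ≤ ∑ i ∈ Finset.univ.erase (4 : Fin 5), f k (b i) :=
      Finset.sum_nonneg fun i hi => h2 k i (Finset.mem_erase.1 hi).1
    positivity
  let N : ℝ := 1 + ∑ k, q k
  have hN : 1 ≤ N := by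
    have := Finset.sum_nonneg fun k (_ : k ∈ Finset.univ) => hq k
    simp only [N]; linarith
  have hN0 : 0 < N := by linarith
  have hNq : ∀ k, q k < N := fun k => by
    have := Finset.single_le_sum (fun k _ => hq k) (Finset.mem_univ k)
    simp only [N]; linarith
  refine ⟨flH b A B hA hB (1 / N) (N ^ 2) (by positivity) hd h4A h4B, isPL_flM, isPL_flM,
    fun t ht x => flM_smul ht, fun k x hx => ?_, flH_image_bdS (by positivity) hd h4A h4B hAB⟩
  refine flM_eq_self hN h4A h4B hd hAB (f k) (h2 k) (ha k) (ha' k) (min_le_left _ _)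
    (min_le_right _ _) (hp k) ?_ (h1 k x hx)
  have := hNq k
  exact (div_lt_iff₀ (hp k)).1 this

end

end Pool.Agent.H755
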