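import Pool.Agent.H755.Flip

/-! A kernel checkable certificate that a two-dimensional fan in `R^5` is unknotted. -/

set_option autoImplicit false
set_option linter.deprecated false
set_option linter.unusedSimpArgs false

namespace Pool.Agent.H755

open Set Module

/-- an integer vector with five entries -/
structure Z5 where
  (a b c d e : ℤ)
deriving DecidableEq, Inhabited

namespace Z5
def dot (f x : Z5) : ℤ := f.a * x.a + f.b * x.b + f.c * x.c + f.d * x.d + f.e * x.e

/-- 2x2 minors of two rows in a pair of columns -/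
@[inline] def m2 (p q r s : ℤ) : ℤ := p * s - q * r

/-- determinant with rows `(x i)` of a 4 x 4 matrix -/
def det4 (x0 x1 x2 x3 y0 y1 y2 y3 z0 z1 z2 z3 w0 w1 w2 w3 : ℤ) : ℤ :=
  m2 x0 x1 y0 y1 * m2 z2 z3 w2 w3 - m2 x0 x2 y0 y2 * m2 z1 z3 w1 w3 + m2 x0 x3 y0 y3 * m2 z1 z2 w1 w2
  + m2 x1 x2 y1 y2 * m2 z0 z3 w0 w3 - m2 x1 x3 y1 y3 * m2 z0 z2 w0 w2
  + m2 x2 x3 y2 y3 * m2 z0 z1 w0 w1

/-- a functional vanishing on four vectors -/
def cross (x y z w : Z5) : Z5 :=
  ⟨det4 x.b x.c x.d x.e y.b y.c y.d y.e z.b z.c z.d z.e w.b w.c w.d w.e,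
   - det4 x.a x.c x.d x.e y.a y.c y.d y.e z.a z.c z.d z.e w.a w.c w.d w.e,
   det4 x.a x.b x.d x.e y.a y.b y.d y.e z.a z.b z.d z.e w.a w.b w.d w.e,
   - det4 x.a x.b x.c x.e y.a y.b y.c y.e z.a z.b z.c z.e w.a w.b w.c w.e,
   det4 x.a x.b x.c x.d y.a y.b y.c y.d z.a z.b z.c z.d w.a w.b w.c w.d⟩

/-- unit vector -/
def unit : ℕ → Z5
  | 0 => ⟨1, 0, 0, 0, 0⟩
  | 1 => ⟨0, 1, 0, 0, 0⟩
  | 2 => ⟨0, 0, 1, 0, 0⟩
  | 3 => ⟨0, 0, 0, 1, 0⟩
  | _ => ⟨0, 0, 0, 0, 1⟩

def sub (x y : Z5) : Z5 := ⟨x.a - y.a, x.b - y.b, x.c - y.c, x.d - y.d, x.e - y.e⟩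
end Z5

abbrev E5 := EuclideanSpace ℝ (Fin 5)

/-- the real vector of an integer vector -/
noncomputable def toE (x : Z5) : E5 := !₂[(x.a : ℝ), x.b, x.c, x.d, x.e]

/-- the linear functional of an integer vector -/
noncomputable def lin (f : Z5) : E5 →ₗ[ℝ] ℝ where
  toFun x := f.a * x 0 + f.b * x 1 + f.c * x 2 + f.d * x 3 + f.e * x 4
  map_add' x y := by simp only [PiLp.add_apply]; ring
  map_smul' r x := by simp only [PiLp.smul_apply, smul_eq_mul, RingHom.id_apply]; ring

theorem lin_apply (f : Z5) (x : E5) :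
    lin f x = f.a * x 0 + f.b * x 1 + f.c * x 2 + f.d * x 3 + f.e * x 4 := rfl

theorem lin_toE (f x : Z5) : lin f (toE x) = ((f.dot x : ℤ) : ℝ) := by
  simp [lin_apply, toE, Z5.dot]

/-- five vectors with a dual system of functionals form a basis -/
theorem exists_basis (u : Fin 5 → E5) (g : Fin 5 → Z5) (h0 : ∀ i j, i ≠ j → lin (g j) (u i) = 0)
    (h1 : ∀ j, lin (g j) (u j) ≠ 0) : ∃ b : Basis (Fin 5) ℝ E5, ∀ i, b i = u i := by
  have hli : LinearIndependent ℝ u := by
    rw [Fintype.linearIndependent_iff]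
    intro c hc j
    have h := congrArg (lin (g j)) hc
    rw [map_sum, map_zero, Finset.sum_eq_single j] at h
    · rw [map_smul, smul_eq_mul] at h
      rcases mul_eq_zero.1 h with h | h
      · exact h
      · exact absurd h (h1 j)
    · intro i _ hij
      rw [map_smul, h0 i j hij, smul_zero]
    · intro h; exact absurd (Finset.mem_univ j) h
  refine ⟨basisOfLinearIndependentOfCardEqFinrank hli (by simp), fun i => ?_⟩
  simp

/-- the five vectors of a flip -/
def gens (vs : List Z5) (l : List ℕ) (e5 : ℕ) : List Z5 :=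
  (l.map fun i => vs.getD i default) ++ [Z5.unit e5]

/-- basis check -/
def basisOK : List Z5 → Bool
  | [x, y, z, w, v] =>
    let g0 := Z5.cross y z w v
    let g1 := Z5.cross x z w v
    let g2 := Z5.cross x y w v
    let g3 := Z5.cross x y z v
    let g4 := Z5.cross x y z w
    (g0.dot x != 0 && g0.dot y == 0 && g0.dot z == 0 && g0.dot w == 0 && g0.dot v == 0) &&
    (g1.dot x == 0 && g1.dot y != 0 && g1.dot z == 0 && g1.dot w == 0 && g1.dot v == 0) &&
    (g2.dot x == 0 && g2.dot y == 0 && g2.dot z != 0 && g2.dot w == 0 && g2.dot v == 0) &&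
    (g3.dot x == 0 && g3.dot y == 0 && g3.dot z == 0 && g3.dot w != 0 && g3.dot v == 0) &&
    (g4.dot x == 0 && g4.dot y == 0 && g4.dot z == 0 && g4.dot w == 0 && g4.dot v != 0)
  | _ => false

theorem basis_of_check {L : List Z5} (h : basisOK L = true) :
    ∃ b : Basis (Fin 5) ℝ E5, ∀ i : Fin 5, b i = toE (L.getD i default) := by
  match L, h with
  | [x, y, z, w, v], h =>
    simp only [basisOK, Bool.and_eq_true, bne_iff_ne, beq_iff_eq, ne_eq] at h
    obtain ⟨⟨⟨⟨⟨⟨⟨⟨a0, a1⟩, a2⟩, a3⟩, a4⟩, ⟨⟨⟨b0, b1⟩, b2⟩, b3⟩, b4⟩, ⟨⟨⟨c0, c1⟩, c2⟩, c3⟩, c4⟩,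
      ⟨⟨⟨d0, d1⟩, d2⟩, d3⟩, d4⟩, ⟨⟨⟨e0, e1⟩, e2⟩, e3⟩, e4⟩ := h
    refine exists_basis _ ![Z5.cross y z w v, Z5.cross x z w v, Z5.cross x y w v,
      Z5.cross x y z v, Z5.cross x y z w] ?_ ?_
    · intro i j hij
      fin_cases i <;> fin_cases j <;> first | exact absurd rfl hij | simp [lin_toE, *]
    · intro j
      fin_cases j <;> simp [lin_toE, *]

/-- the simplicial cone spanned by the vectors with indices in `t` -/
def coneL (vs : List Z5) : List ℕ → Set E5
  | [] => {0}
  | i :: t => {x | ∃ r : ℝ, 0 ≤ r ∧ ∃ y ∈ coneL vs t, x = r • toE (vs.getD i default) + y}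

/-- the union of the cones -/
def fan (vs : List Z5) (F : List (List ℕ)) : Set E5 := {x | ∃ t ∈ F, x ∈ coneL vs t}

theorem coneL_perm {vs : List Z5} {t t' : List ℕ} (h : t.Perm t') : coneL vs t = coneL vs t' := by
  induction h with
  | nil => rfl
  | cons i _ ih => simp only [coneL, ih]
  | swap i j t =>
    ext x
    simp only [coneL, mem_setOf_eq]
    constructor
    · rintro ⟨r, hr, _, ⟨s, hs, y, hy, rfl⟩, rfl⟩
      exact ⟨s, hs, _, ⟨r, hr, y, hy, rfl⟩, by abel⟩
    · rintro ⟨r, hr, _, ⟨s, hs, y, hy, rfl⟩, rfl⟩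
      exact ⟨s, hs, _, ⟨r, hr, y, hy, rfl⟩, by abel⟩
  | trans _ _ h1 h2 => rw [h1, h2]

theorem mem_coneL_three {vs : List Z5} {i j k : ℕ} {x : E5} : x ∈ coneL vs [i, j, k] ↔
    ∃ a b c : ℝ, 0 ≤ a ∧ 0 ≤ b ∧ 0 ≤ c ∧ x = a • toE (vs.getD i default) +
      b • toE (vs.getD j default) + c • toE (vs.getD k default) := by
  simp only [coneL, mem_setOf_eq, mem_singleton_iff]
  constructor
  · rintro ⟨a, ha, _, ⟨b, hb, _, ⟨c, hc, y, rfl, rfl⟩, rfl⟩, rfl⟩
    exact ⟨a, b, c, ha, hb, hc, by abel⟩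
  · rintro ⟨a, b, c, ha, hb, hc, rfl⟩
    exact ⟨a, ha, _, ⟨b, hb, _, ⟨c, hc, 0, rfl, rfl⟩, rfl⟩, by abel⟩

/-- a functional which is nonpositive on the generators is nonpositive on the cone -/
theorem coneL_nonpos {vs : List Z5} {t : List ℕ} {f : Z5}
    (h : ∀ i ∈ t, f.dot (vs.getD i default) ≤ 0) : ∀ x ∈ coneL vs t, lin f x ≤ 0 := by
  induction t with
  | nil => rintro x rfl; simp
  | cons i t ih =>
    rintro x ⟨r, hr, y, hy, rfl⟩
    rw [map_add, map_smul, smul_eq_mul, lin_toE]
    have h1 : ((f.dot (vs.getD i default) : ℤ) : ℝ) ≤ 0 := by exact_mod_cast h i (by simp)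
    have h2 := ih (fun j hj => h j (by simp [hj])) y hy
    nlinarith [mul_nonneg hr (neg_nonneg.2 h1)]

/-- data of a flip: `l` lists four indices, the first `na` of which form `A` -/
structure FlipD where
  l : List ℕ
  na : ℕ
  e5 : ℕ
  fs : List Z5

/-- a functional separating the facet `t` from the flip simplex -/
def goodF (vs : List Z5) (l : List ℕ) (na : ℕ) (t : List ℕ) (f : Z5) : Bool :=
  (t.all fun i => decide (f.dot (vs.getD i default) ≤ 0)) &&
  (l.all fun i => decide (0 ≤ f.dot (vs.getD i default))) &&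
  ((l.take na).any fun i => decide (0 < f.dot (vs.getD i default))) &&
  ((l.drop na).any fun i => decide (0 < f.dot (vs.getD i default)))

/-- the positions of the removed facets -/
def remF (l : List ℕ) (na : ℕ) : List (List ℕ) :=
  ((List.range 4).filter (fun p => decide (na ≤ p))).map fun p => l.eraseIdx p

def addF (l : List ℕ) (na : ℕ) : List (List ℕ) :=
  ((List.range 4).filter (fun p => decide (p < na))).map fun p => l.eraseIdx p

/-- the facets which stay -/
def keepF (F : List (List ℕ)) (l : List ℕ) (na : ℕ) : List (List ℕ) :=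
  F.filter fun t => !((remF l na).any fun r => r.isPerm t)

def flipOK (vs : List Z5) (F : List (List ℕ)) (f : FlipD) : Bool :=
  decide (f.l.length = 4) && decide (1 ≤ f.na) && decide (f.na ≤ 3) &&
  basisOK (gens vs f.l f.e5) &&
  ((remF f.l f.na).all fun r => F.any fun t => r.isPerm t) &&
  ((keepF F f.l f.na).all fun t => f.fs.any fun g => goodF vs f.l f.na t g)

def flipF (F : List (List ℕ)) (f : FlipD) : List (List ℕ) := keepF F f.l f.na ++ addF f.l f.na

/-- run through the flips, then compare with the boundary of a simplex -/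
def runF (vs : List Z5) : List FlipD → List (List ℕ) → List ℕ → ℕ → Bool
  | [], F, l, e5 => decide (l.length = 4) && basisOK (gens vs l e5) &&
      ((remF l 0).all fun r => F.any fun t => r.isPerm t) &&
      (F.all fun t => (remF l 0).any fun r => r.isPerm t)
  | f :: fs, F, l, e5 => flipOK vs F f && runF vs fs (flipF F f) l e5

theorem fan_append (vs : List Z5) (F G : List (List ℕ)) : fan vs (F ++ G) = fan vs F ∪ fan vs G := by
  ext x
  simp only [fan, mem_setOf_eq, List.mem_append, mem_union]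
  constructor
  · rintro ⟨t, ht | ht, h⟩
    exacts [Or.inl ⟨t, ht, h⟩, Or.inr ⟨t, ht, h⟩]
  · rintro (⟨t, ht, h⟩ | ⟨t, ht, h⟩)
    exacts [⟨t, Or.inl ht, h⟩, ⟨t, Or.inr ht, h⟩]

/-- the finset of positions in the removed/added part -/
def posB (na : ℕ) : Finset (Fin 5) := Finset.univ.filter fun i => na ≤ i.1 ∧ i.1 < 4
def posA (na : ℕ) : Finset (Fin 5) := Finset.univ.filter fun i => i.1 < na ∧ i.1 < 4

/-- the part of the boundary of the orthant is a union of simplicial cones -/
theorem bdS_eq {vs : List Z5} {l : List ℕ} {e5 : ℕ} (hl : l.length = 4) {b : Basis (Fin 5) ℝ E5}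
    (hb : ∀ i : Fin 5, b i = toE ((gens vs l e5).getD i default)) (P : ℕ → Prop) [DecidablePred P] :
    bdS b (Finset.univ.filter fun i : Fin 5 => P i.1 ∧ i.1 < 4) =
      fan vs (((List.range 4).filter (fun p => decide (P p))).map fun p => l.eraseIdx p) := by
  match l, hl with
  | [i0, i1, i2, i3], _ =>
    have e0 : b 0 = toE (vs.getD i0 default) := by rw [hb 0]; rfl
    have e1 : b 1 = toE (vs.getD i1 default) := by rw [hb 1]; rfl
    have e2 : b 2 = toE (vs.getD i2 default) := by rw [hb 2]; rfl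
    have e3 : b 3 = toE (vs.getD i3 default) := by rw [hb 3]; rfl
    have hsum : ∀ x : E5, x = b.coord 0 x • b 0 + b.coord 1 x • b 1 + b.coord 2 x • b 2 +
        b.coord 3 x • b 3 + b.coord 4 x • b 4 := by
      intro x
      conv_lhs => rw [← b.sum_repr x]
      simp only [Fin.sum_univ_five, Basis.coord_apply]
    have hf : ∀ x : E5, x ∈ fan vs (((List.range 4).filter (fun p => decide (P p))).map
        fun p => [i0, i1, i2, i3].eraseIdx p) ↔
        (P 0 ∧ x ∈ coneL vs [i1, i2, i3]) ∨ (P 1 ∧ x ∈ coneL vs [i0, i2, i3]) ∨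
        (P 2 ∧ x ∈ coneL vs [i0, i1, i3]) ∨ (P 3 ∧ x ∈ coneL vs [i0, i1, i2]) := by
      intro x
      simp only [fan, mem_setOf_eq, List.mem_map, List.mem_filter, List.mem_range, decide_eq_true_eq]
      constructor
      · rintro ⟨t, ⟨p, ⟨hp, hP⟩, rfl⟩, hx⟩
        interval_cases p
        · exact Or.inl ⟨hP, hx⟩
        · exact Or.inr (Or.inl ⟨hP, hx⟩)
        · exact Or.inr (Or.inr (Or.inl ⟨hP, hx⟩))
        · exact Or.inr (Or.inr (Or.inr ⟨hP, hx⟩))
      · rintro (⟨hP, hx⟩ | ⟨hP, hx⟩ | ⟨hP, hx⟩ | ⟨hP, hx⟩)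
        · exact ⟨_, ⟨0, ⟨by norm_num, hP⟩, rfl⟩, hx⟩
        · exact ⟨_, ⟨1, ⟨by norm_num, hP⟩, rfl⟩, hx⟩
        · exact ⟨_, ⟨2, ⟨by norm_num, hP⟩, rfl⟩, hx⟩
        · exact ⟨_, ⟨3, ⟨by norm_num, hP⟩, rfl⟩, hx⟩
    ext x
    rw [hf]
    simp only [mem_coneL_three, ← e0, ← e1, ← e2, ← e3]
    constructor
    · rintro ⟨h4, hnn, t, ht, ht0⟩
      have hx := hsum x
      rw [h4, zero_smul, add_zero] at hx
      have n0 := hnn 0 (by decide)
      have n1 := hnn 1 (by decide)
      have n2 := hnn 2 (by decide)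
      have n3 := hnn 3 (by decide)
      simp only [Finset.mem_filter, Finset.mem_univ, true_and] at ht
      fin_cases t
      · replace ht0 : b.coord 0 x = 0 := ht0
        rw [ht0, zero_smul, zero_add] at hx
        exact Or.inl ⟨ht.1, _, _, _, n1, n2, n3, hx⟩
      · replace ht0 : b.coord 1 x = 0 := ht0
        rw [ht0, zero_smul, add_zero] at hx
        exact Or.inr (Or.inl ⟨ht.1, _, _, _, n0, n2, n3, hx⟩)
      · replace ht0 : b.coord 2 x = 0 := ht0
        rw [ht0, zero_smul, add_zero] at hx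
        exact Or.inr (Or.inr (Or.inl ⟨ht.1, _, _, _, n0, n1, n3, hx⟩))
      · replace ht0 : b.coord 3 x = 0 := ht0
        rw [ht0, zero_smul, add_zero] at hx
        exact Or.inr (Or.inr (Or.inr ⟨ht.1, _, _, _, n0, n1, n2, hx⟩))
      · exact absurd ht.2 (by norm_num)
    · have hc : ∀ i j, b.coord i (b j) = if i = j then 1 else 0 := by
        intro i j
        simp [Basis.coord_apply, Finsupp.single_apply, eq_comm]
      rintro (⟨hP, r, s, t, hr, hs, ht, rfl⟩ | ⟨hP, r, s, t, hr, hs, ht, rfl⟩ |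
        ⟨hP, r, s, t, hr, hs, ht, rfl⟩ | ⟨hP, r, s, t, hr, hs, ht, rfl⟩)
      · refine ⟨by simp [hc], fun i hi => ?_, 0, by simpa using hP, by simp [hc]⟩
        fin_cases i <;> simp [hc, hr, hs, ht] at hi ⊢
      · refine ⟨by simp [hc], fun i hi => ?_, 1, by simpa using hP, by simp [hc]⟩
        fin_cases i <;> simp [hc, hr, hs, ht] at hi ⊢
      · refine ⟨by simp [hc], fun i hi => ?_, 2, by simpa using hP, by simp [hc]⟩
        fin_cases i <;> simp [hc, hr, hs, ht] at hi ⊢
      · refine ⟨by simp [hc], fun i hi => ?_, 3, by simpa using hP, by simp [hc]⟩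
        fin_cases i <;> simp [hc, hr, hs, ht] at hi ⊢

theorem remF_eq (l : List ℕ) (na : ℕ) : remF l na =
    ((List.range 4).filter (fun p => decide (na ≤ p))).map fun p => l.eraseIdx p := rfl

theorem bdS_remF {vs : List Z5} {l : List ℕ} {e5 na : ℕ} (hl : l.length = 4) {b : Basis (Fin 5) ℝ E5}
    (hb : ∀ i : Fin 5, b i = toE ((gens vs l e5).getD i default)) :
    bdS b (posB na) = fan vs (remF l na) := bdS_eq hl hb (fun p => na ≤ p)

theorem bdS_addF {vs : List Z5} {l : List ℕ} {e5 na : ℕ} (hl : l.length = 4) {b : Basis (Fin 5) ℝ E5}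
    (hb : ∀ i : Fin 5, b i = toE ((gens vs l e5).getD i default)) :
    bdS b (posA na) = fan vs (addF l na) := bdS_eq hl hb (fun p => p < na)

theorem fan_keep_rem {vs : List Z5} {F : List (List ℕ)} {l : List ℕ} {na : ℕ}
    (h : (remF l na).all (fun r => F.any fun t => r.isPerm t) = true) :
    fan vs F = fan vs (keepF F l na) ∪ fan vs (remF l na) := by
  ext x
  simp only [fan, mem_setOf_eq, mem_union, keepF, List.mem_filter, Bool.not_eq_true',
    List.any_eq_false, List.isPerm_iff]
  simp only [List.all_eq_true, List.any_eq_true, List.isPerm_iff] at h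
  constructor
  · rintro ⟨t, ht, hx⟩
    by_cases h1 : ∃ r ∈ remF l na, r.Perm t
    · obtain ⟨r, hr, hp⟩ := h1
      exact Or.inr ⟨r, hr, coneL_perm (vs := vs) hp ▸ hx⟩
    · exact Or.inl ⟨t, ⟨ht, fun r hr hp => h1 ⟨r, hr, hp⟩⟩, hx⟩
  · rintro (⟨t, ⟨ht, _⟩, hx⟩ | ⟨r, hr, hx⟩)
    · exact ⟨t, ht, hx⟩
    · obtain ⟨t, ht, hp⟩ := h r hr
      exact ⟨t, ht, coneL_perm (vs := vs) hp ▸ hx⟩

theorem mem_take_pos {l : List ℕ} (hl : l.length = 4) {na : ℕ} (p : ℕ → Bool)
    (h : (l.take na).any p = true) : ∃ i : Fin 5, i ∈ posA na ∧ i.1 < 4 ∧ p (l.getD i 0) = true := by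
  rw [List.any_eq_true] at h
  obtain ⟨x, hx, hp⟩ := h
  obtain ⟨i, hi, rfl⟩ := List.mem_iff_getElem.1 hx
  rw [List.length_take] at hi
  have h1 : i < na := lt_of_lt_of_le hi (min_le_left _ _)
  have h2 : i < l.length := lt_of_lt_of_le hi (min_le_right _ _)
  refine ⟨⟨i, by omega⟩, by simp [posA]; omega, by simp; omega, ?_⟩
  rw [List.getElem_take] at hp
  simpa [List.getD_eq_getElem?_getD, h2] using hp

theorem mem_drop_pos {l : List ℕ} (hl : l.length = 4) {na : ℕ} (p : ℕ → Bool)
    (h : (l.drop na).any p = true) : ∃ i : Fin 5, i ∈ posB na ∧ i.1 < 4 ∧ p (l.getD i 0) = true := by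
  rw [List.any_eq_true] at h
  obtain ⟨x, hx, hp⟩ := h
  obtain ⟨i, hi, rfl⟩ := List.mem_iff_getElem.1 hx
  rw [List.length_drop] at hi
  rw [List.getElem_drop] at hp
  have h2 : na + i < l.length := by omega
  refine ⟨⟨na + i, by omega⟩, by simp [posB]; omega, by simp; omega, ?_⟩
  simpa [List.getD_eq_getElem?_getD, h2] using hp

theorem gens_getD {vs : List Z5} {l : List ℕ} {e5 : ℕ} (hl : l.length = 4) {i : ℕ} (hi : i < 4) :
    (gens vs l e5).getD i default = vs.getD (l.getD i 0) default := by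
  match l, hl with
  | [i0, i1, i2, i3], _ => interval_cases i <;> rfl

/-- one flip -/
theorem flip_step {vs : List Z5} {F : List (List ℕ)} {f : FlipD} (h : flipOK vs F f = true) :
    ∃ φ : E5 ≃ₜ E5, IsPL φ ∧ IsPL φ.symm ∧ (∀ t : ℝ, 0 ≤ t → ∀ x, φ (t • x) = t • φ x) ∧
      φ '' fan vs F = fan vs (flipF F f) := by
  simp only [flipOK, Bool.and_eq_true, decide_eq_true_eq] at h
  obtain ⟨⟨⟨⟨⟨hl, hna1⟩, hna3⟩, hb⟩, hrem⟩, hkeep⟩ := h
  obtain ⟨b, hb⟩ := basis_of_check hb
  have hkf := fan_keep_rem (vs := vs) hrem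
  simp only [List.all_eq_true, List.any_eq_true] at hkeep
  have hex : ∀ k : Fin (keepF F f.l f.na).length, ∃ g : Z5,
      goodF vs f.l f.na ((keepF F f.l f.na).get k) g = true := fun k => by
    obtain ⟨g, _, hg⟩ := hkeep _ (List.get_mem _ k)
    exact ⟨g, hg⟩
  choose g hg using hex
  simp only [goodF, Bool.and_eq_true, List.all_eq_true, decide_eq_true_eq] at hg
  have hbi : ∀ i : Fin 5, i.1 < 4 → b i = toE (vs.getD (f.l.getD i 0) default) := fun i hi => by
    rw [hb, gens_getD hl hi]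
  obtain ⟨φ, p1, p2, p3, p4, p5⟩ := flip_homeo (ι := Fin (keepF F f.l f.na).length) b
    (A := posA f.na) (B := posB f.na) ⟨0, by simp [posA]; omega⟩ ⟨3, by simp [posB]; omega⟩
    (by simp [posA]) (by simp [posB])
    (by
      rw [Finset.disjoint_left]
      intro a ha hb
      simp only [posA, posB, Finset.mem_filter, Finset.mem_univ, true_and] at ha hb
      omega)
    (by
      intro i hi
      have : i.1 < 4 := by
        have := i.2
        have h2 : i.1 ≠ 4 := fun h => hi (Fin.ext h)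
        omega
      simp only [posA, posB, Finset.mem_filter, Finset.mem_univ, true_and]
      omega)
    (fun k => coneL vs ((keepF F f.l f.na).get k)) (fun k => lin (g k))
    (fun k => coneL_nonpos (hg k).1.1.1)
    (by
      intro k i hi
      have h4 : i.1 < 4 := by
        have := i.2
        have h2 : i.1 ≠ 4 := fun h => hi (Fin.ext h)
        omega
      rw [hbi i h4, lin_toE]
      have h5 := (hg k).1.1.2 (f.l.getD i 0) (by
        rw [List.getD_eq_getElem _ _ (by omega)]
        exact List.getElem_mem _)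
      exact_mod_cast h5)
    (by
      intro k
      obtain ⟨i, hi, h4, hp⟩ := mem_take_pos hl _ (hg k).1.2
      refine ⟨i, hi, ?_⟩
      rw [hbi i h4, lin_toE]
      exact_mod_cast of_decide_eq_true hp)
    (by
      intro k
      obtain ⟨i, hi, h4, hp⟩ := mem_drop_pos hl _ (hg k).2
      refine ⟨i, hi, ?_⟩
      rw [hbi i h4, lin_toE]
      exact_mod_cast of_decide_eq_true hp)
  refine ⟨φ, p1, p2, p3, ?_⟩
  rw [hkf, image_union, flipF, fan_append, ← bdS_remF hl hb, p5, bdS_addF hl hb]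
  congr 1
  have hfix : ∀ x ∈ fan vs (keepF F f.l f.na), φ x = x := by
    rintro x ⟨t, ht, hx⟩
    obtain ⟨k, hk⟩ := List.mem_iff_get.1 ht
    exact p4 k x (by rw [hk]; exact hx)
  ext x
  constructor
  · rintro ⟨y, hy, rfl⟩
    rw [hfix y hy]; exact hy
  · intro hx
    exact ⟨x, hx, hfix x hx⟩

theorem IsPL.smul_const {g : E5 → ℝ} (hg : IsPL g) (d : E5) : IsPL (fun x => g x • d) := by
  have h := hg.add_smul_const (0 : E5 →L[ℝ] E5) d
  simpa using h

theorem IsPL.vec5 {g : Fin 5 → E5 → ℝ} (hg : ∀ i, IsPL (g i)) (d : Fin 5 → E5) :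
    IsPL (fun x => ∑ i, g i x • d i) := by
  have h := ((((hg 0).smul_const (d 0)).add ((hg 1).smul_const (d 1))).add
    ((hg 2).smul_const (d 2))).add ((hg 3).smul_const (d 3)) |>.add ((hg 4).smul_const (d 4))
  refine cast (congrArg IsPL (funext fun x => ?_)) h
  rw [Fin.sum_univ_five]

/-- forward and backward coordinate maps of the last step -/
noncomputable def lsF (c : Fin 5 → ℝ) : Fin 5 → ℝ :=
  ![c 0 - c 3, c 1 - c 3, c 2 - c 3, min (min (c 0) (c 1)) (min (c 2) (c 3)), c 4]

noncomputable def lsG (c : Fin 5 → ℝ) : Fin 5 → ℝ :=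
  ![c 0 + (c 3 - min (min (c 0) (c 1)) (min (c 2) 0)), c 1 + (c 3 - min (min (c 0) (c 1)) (min (c 2) 0)),
    c 2 + (c 3 - min (min (c 0) (c 1)) (min (c 2) 0)), c 3 - min (min (c 0) (c 1)) (min (c 2) 0), c 4]

theorem min4_shift (a b c d t : ℝ) :
    min (min (a + t) (b + t)) (min (c + t) (d + t)) = min (min a b) (min c d) + t := by
  rw [min_add_add_right, min_add_add_right, min_add_add_right]

theorem lsG_lsF (c : Fin 5 → ℝ) : lsG (lsF c) = c := by
  have h := min4_shift (c 0) (c 1) (c 2) (c 3) (- c 3)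
  have h' : min (min (c 0 - c 3) (c 1 - c 3)) (min (c 2 - c 3) 0) =
      min (min (c 0) (c 1)) (min (c 2) (c 3)) - c 3 := by
    rw [← sub_self (c 3)]
    simpa only [sub_eq_add_neg] using h
  funext i
  fin_cases i <;> simp [lsG, lsF, h']

theorem lsF_lsG (c : Fin 5 → ℝ) : lsF (lsG c) = c := by
  have h := min4_shift (c 0) (c 1) (c 2) 0 (c 3 - min (min (c 0) (c 1)) (min (c 2) 0))
  rw [zero_add] at h
  funext i
  fin_cases i <;> simp [lsG, lsF, h]

/-- the last step: the boundary of a simplicial cone is carried to `R^3`. -/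
theorem last_step (b : Basis (Fin 5) ℝ E5) :
    ∃ φ : E5 ≃ₜ E5, IsPL φ ∧ IsPL φ.symm ∧ (∀ t : ℝ, 0 ≤ t → ∀ x, φ (t • x) = t • φ x) ∧
      φ '' (bdS b (posB 0)) = {x | x 3 = 0 ∧ x 4 = 0} := by
  let e : Basis (Fin 5) ℝ E5 := (EuclideanSpace.basisFun (Fin 5) ℝ).toBasis
  have he : ∀ (x : E5) i, e.coord i x = x i := fun x i => by
    simp [e, Basis.coord_apply]
  have hee : ∀ (c : Fin 5 → ℝ) (j : Fin 5), (∑ i, c i • e i : E5) j = c j := fun c j => by
    rw [← he, map_sum, Finset.sum_eq_single j]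
    · simp [Basis.coord_apply]
    · intro i _ hij
      simp [Basis.coord_apply, Finsupp.single_apply, hij]
    · intro h; exact absurd (Finset.mem_univ j) h
  have hbb : ∀ (c : Fin 5 → ℝ) (j : Fin 5), b.coord j (∑ i, c i • b i) = c j := fun c j => by
    rw [map_sum, Finset.sum_eq_single j]
    · simp [Basis.coord_apply]
    · intro i _ hij
      simp [Basis.coord_apply, Finsupp.single_apply, hij]
    · intro h; exact absurd (Finset.mem_univ j) h
  have hex : ∀ x : E5, ∑ i, (x i) • e i = x := fun x => by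
    conv_rhs => rw [← e.sum_repr x]
    exact Finset.sum_congr rfl fun i _ => by rw [← he, Basis.coord_apply]
  have hbx : ∀ x : E5, ∑ i, (b.coord i x) • b i = x := fun x => by
    conv_rhs => rw [← b.sum_repr x]
    rfl
  have hc := continuous_coord b
  let F : E5 → E5 := fun x => ∑ i, lsF (fun j => b.coord j x) i • e i
  let G : E5 → E5 := fun y => ∑ i, lsG (fun j => y j) i • b i
  have hFc : Continuous F := by
    have h0 := hc 0; have h1 := hc 1; have h2 := hc 2; have h3 := hc 3; have h4 := hc 4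
    refine continuous_finset_sum _ fun i _ => ?_
    have : Continuous fun x => lsF (fun j => b.coord j x) i := by
      fin_cases i <;> simp only [lsF] <;> fun_prop
    exact this.smul continuous_const
  have hGc : Continuous G := by
    refine continuous_finset_sum _ fun i _ => ?_
    have : Continuous fun y : E5 => lsG (fun j => y j) i := by
      fin_cases i <;> simp only [lsG] <;> fun_prop
    exact this.smul continuous_const
  have hGF : ∀ x, G (F x) = x := fun x => by
    show ∑ i, lsG (fun j => (∑ i, lsF (fun j => b.coord j x) i • e i : E5) j) i • b i = x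
    simp only [hee]
    rw [show (fun j => lsF (fun j => b.coord j x) j) = lsF (fun j => b.coord j x) from rfl, lsG_lsF]
    exact hbx x
  have hFG : ∀ y, F (G y) = y := fun y => by
    show ∑ i, lsF (fun j => b.coord j (∑ i, lsG (fun j => y j) i • b i)) i • e i = y
    simp only [hbb]
    rw [show (fun j => lsG (fun j => y j) j) = lsG (fun j => y j) from rfl, lsF_lsG]
    exact hex y
  have pc := isPL_coord b
  have pe : ∀ i, IsPL (fun x : E5 => x i) := fun i =>
    cast (congrArg IsPL (funext fun x => he x i)) (isPL_coord e i)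
  refine ⟨⟨⟨F, G, hGF, hFG⟩, hFc, hGc⟩, ?_, ?_, ?_, ?_⟩
  · refine IsPL.vec5 (g := fun i x => lsF (fun j => b.coord j x) i) (fun i => ?_) e
    fin_cases i
    · exact cast (congrArg IsPL (funext fun x => by simp [lsF, sub_eq_add_neg]))
        ((pc 0).add_real (pc 3).neg_real)
    · exact cast (congrArg IsPL (funext fun x => by simp [lsF, sub_eq_add_neg]))
        ((pc 1).add_real (pc 3).neg_real)
    · exact cast (congrArg IsPL (funext fun x => by simp [lsF, sub_eq_add_neg]))
        ((pc 2).add_real (pc 3).neg_real)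
    · exact ((pc 0).min (pc 1)).min ((pc 2).min (pc 3))
    · exact pc 4
  · refine IsPL.vec5 (g := fun i y => lsG (fun j => y j) i) (fun i => ?_) b
    have hm := (pe 3).add_real (((pe 0).min (pe 1)).min ((pe 2).min (isPL_const 0))).neg_real
    fin_cases i
    · exact cast (congrArg IsPL (funext fun x => by simp [lsG, sub_eq_add_neg])) ((pe 0).add_real hm)
    · exact cast (congrArg IsPL (funext fun x => by simp [lsG, sub_eq_add_neg])) ((pe 1).add_real hm)
    · exact cast (congrArg IsPL (funext fun x => by simp [lsG, sub_eq_add_neg])) ((pe 2).add_real hm)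
    · exact cast (congrArg IsPL (funext fun x => by simp [lsG, sub_eq_add_neg])) hm
    · exact pe 4
  · intro t ht x
    show ∑ i, lsF (fun j => b.coord j (t • x)) i • e i = t • ∑ i, lsF (fun j => b.coord j x) i • e i
    rw [Finset.smul_sum]
    refine Finset.sum_congr rfl fun i _ => ?_
    rw [smul_smul]
    congr 1
    have hm : ∀ p q r s : ℝ, min (min (t * p) (t * q)) (min (t * r) (t * s)) =
        t * min (min p q) (min r s) := fun p q r s => by
      rw [← mul_min_of_nonneg _ _ ht, ← mul_min_of_nonneg _ _ ht, ← mul_min_of_nonneg _ _ ht]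
    fin_cases i <;> simp [lsF, mul_sub, hm]
  · ext y
    constructor
    · rintro ⟨x, ⟨h4, hnn, i, hi, hi0⟩, rfl⟩
      simp only [posB, Finset.mem_filter, Finset.mem_univ, true_and] at hi
      have n0 := hnn 0 (by decide)
      have n1 := hnn 1 (by decide)
      have n2 := hnn 2 (by decide)
      have n3 := hnn 3 (by decide)
      refine ⟨?_, ?_⟩
      · show (∑ i, lsF (fun j => b.coord j x) i • e i : E5) 3 = 0
        rw [hee]
        show min (min (b.coord 0 x) (b.coord 1 x)) (min (b.coord 2 x) (b.coord 3 x)) = 0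
        apply le_antisymm
        · fin_cases i
          · exact (min_le_left _ _).trans ((min_le_left _ _).trans hi0.le)
          · exact (min_le_left _ _).trans ((min_le_right _ _).trans hi0.le)
          · exact (min_le_right _ _).trans ((min_le_left _ _).trans hi0.le)
          · exact (min_le_right _ _).trans ((min_le_right _ _).trans hi0.le)
          · exact absurd hi.2 (by norm_num)
        · exact le_min (le_min n0 n1) (le_min n2 n3)
      · show (∑ i, lsF (fun j => b.coord j x) i • e i : E5) 4 = 0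
        rw [hee]
        exact h4
    · rintro ⟨h3, h4⟩
      refine ⟨G y, ⟨?_, ?_, ?_⟩, hFG y⟩
      · show b.coord 4 (∑ i, lsG (fun j => y j) i • b i) = 0
        rw [hbb]; exact h4
      · intro i hi
        show 0 ≤ b.coord i (∑ i, lsG (fun j => y j) i • b i)
        rw [hbb]
        have m0 : min (min (y 0) (y 1)) (min (y 2) 0) ≤ y 0 := (min_le_left _ _).trans (min_le_left _ _)
        have m1 : min (min (y 0) (y 1)) (min (y 2) 0) ≤ y 1 := (min_le_left _ _).trans (min_le_right _ _)
        have m2 : min (min (y 0) (y 1)) (min (y 2) 0) ≤ y 2 := (min_le_right _ _).trans (min_le_left _ _)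
        have m3 : min (min (y 0) (y 1)) (min (y 2) 0) ≤ 0 := (min_le_right _ _).trans (min_le_right _ _)
        fin_cases i
        · show 0 ≤ y 0 + (y 3 - min (min (y 0) (y 1)) (min (y 2) 0)); linarith
        · show 0 ≤ y 1 + (y 3 - min (min (y 0) (y 1)) (min (y 2) 0)); linarith
        · show 0 ≤ y 2 + (y 3 - min (min (y 0) (y 1)) (min (y 2) 0)); linarith
        · show 0 ≤ y 3 - min (min (y 0) (y 1)) (min (y 2) 0); linarith
        · exact absurd rfl hi
      · have key : ∃ i : Fin 5, i.1 < 4 ∧ lsG (fun j => y j) i = 0 := by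
          rcases min_choice (min (y 0) (y 1)) (min (y 2) 0) with h | h
          · rcases min_choice (y 0) (y 1) with h' | h'
            · refine ⟨0, by decide, ?_⟩
              show y 0 + (y 3 - min (min (y 0) (y 1)) (min (y 2) 0)) = 0
              rw [h, h', h3]; ring
            · refine ⟨1, by decide, ?_⟩
              show y 1 + (y 3 - min (min (y 0) (y 1)) (min (y 2) 0)) = 0
              rw [h, h', h3]; ring
          · rcases min_choice (y 2) 0 with h' | h'
            · refine ⟨2, by decide, ?_⟩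
              show y 2 + (y 3 - min (min (y 0) (y 1)) (min (y 2) 0)) = 0
              rw [h, h', h3]; ring
            · refine ⟨3, by decide, ?_⟩
              show y 3 - min (min (y 0) (y 1)) (min (y 2) 0) = 0
              rw [h, h', h3]; ring
        obtain ⟨i, hi, h0⟩ := key
        refine ⟨i, by simp [posB, hi], ?_⟩
        show b.coord i (∑ i, lsG (fun j => y j) i • b i) = 0
        rw [hbb]; exact h0

theorem runF_homeo {vs : List Z5} {fl : List FlipD} {l : List ℕ} {e5 : ℕ} :
    ∀ {F : List (List ℕ)}, runF vs fl F l e5 = true →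
    ∃ φ : E5 ≃ₜ E5, IsPL φ ∧ IsPL φ.symm ∧ (∀ t : ℝ, 0 ≤ t → ∀ x, φ (t • x) = t • φ x) ∧
      φ '' fan vs F = {x | x 3 = 0 ∧ x 4 = 0} := by
  induction fl with
  | nil =>
    intro F h
    simp only [runF, Bool.and_eq_true, decide_eq_true_eq] at h
    obtain ⟨⟨⟨hl, hb⟩, hrem⟩, hall⟩ := h
    obtain ⟨b, hb⟩ := basis_of_check hb
    have h1 : fan vs F = bdS b (posB 0) := by
      rw [bdS_remF hl hb, fan_keep_rem hrem]
      refine Subset.antisymm (union_subset ?_ Subset.rfl) subset_union_right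
      rintro x ⟨t, ht, hx⟩
      simp only [List.all_eq_true, List.any_eq_true, List.isPerm_iff] at hall
      obtain ⟨r, hr, hp⟩ := hall t (List.mem_filter.1 ht).1
      exact ⟨r, hr, coneL_perm (vs := vs) hp ▸ hx⟩
    rw [h1]
    exact last_step b
  | cons f fs ih =>
    intro F h
    rw [runF, Bool.and_eq_true] at h
    obtain ⟨φ, a1, a2, a3, a4⟩ := flip_step h.1
    obtain ⟨ψ, b1, b2, b3, b4⟩ := ih h.2
    refine ⟨φ.trans ψ, b1.comp a1, a2.comp b2, fun t ht x => ?_, ?_⟩
    · simp only [Homeomorph.trans_apply, a3 t ht, b3 t ht]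
    · rw [← b4, ← a4, image_image]
      rfl

end Pool.Agent.H755
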