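import Pool.Graph.R_pool_sql_team_seeded_620a6dc7.Helper60.AS.Tri
import Pool.Graph.R_pool_sql_team_seeded_620a6dc7.Helper60.AS.Exact

/-! Sets near which every flat function is trivial. -/

set_option autoImplicit false
set_option linter.deprecated false
set_option linter.unusedVariables false
set_option linter.unusedSectionVars false

namespace Pool.Agent.H755

open Set Pool.Agent.Helper60.AS

variable {Ω : Type} [PseudoMetricSpace Ω] {S S' : Set Ω}

/-- `T` is trivial near `S` -/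
def TrivBy {G : Type} [Group G] (T : Ω → Ω → G) (S : Set Ω) (v : Ω → G) : Prop :=
  ∀ a ∈ S, ∃ ε > 0, ∀ x y, dist x a < ε → dist y a < ε → T x y = (v x)⁻¹ * v y

/-- every flat function near `S` is trivial -/
def GTriv (S : Set Ω) : Prop := ∀ (G : Type) [Group G] (T : Ω → Ω → G), GFlat T S → ∃ v, TrivBy T S v

theorem TrivBy.mono {G : Type} [Group G] {T : Ω → Ω → G} {v : Ω → G} (h : TrivBy T S v)
    (h' : S' ⊆ S) : TrivBy T S' v := fun a ha => h a (h' ha)

theorem TrivBy.left {G : Type} [Group G] {T : Ω → Ω → G} {v : Ω → G} (h : TrivBy T S v) (g : G) :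
    TrivBy T S (fun x => g * v x) := by
  intro a ha
  obtain ⟨e, he, h⟩ := h a ha
  refine ⟨e, he, fun x y hx hy => ?_⟩
  rw [h x y hx hy]
  group

/-- two trivializations differ by a locally constant function -/
theorem TrivBy.locConst {G : Type} [Group G] {T : Ω → Ω → G} {v w : Ω → G} (h : TrivBy T S v)
    (h' : TrivBy T S w) : ∀ a ∈ S, ∃ ε > 0, ∀ x, dist x a < ε →
      v x * (w x)⁻¹ = v a * (w a)⁻¹ := by
  intro a ha
  obtain ⟨e, he, h⟩ := h a ha
  obtain ⟨e', he', h'⟩ := h' a ha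
  refine ⟨min e e', lt_min he he', fun x hx => ?_⟩
  have h1 := h x a (hx.trans_le (min_le_left _ _)) (by simpa using he)
  have h2 := h' x a (hx.trans_le (min_le_right _ _)) (by simpa using he')
  rw [h1] at h2
  have h3 : v a * (w a)⁻¹ = v x * (w x)⁻¹ := by
    calc v a * (w a)⁻¹ = v x * ((v x)⁻¹ * v a) * (w a)⁻¹ := by group
      _ = v x * ((w x)⁻¹ * w a) * (w a)⁻¹ := by rw [h2]
      _ = v x * (w x)⁻¹ := by group
  exact h3.symm

/-- locally constant functions are constant on preconnected sets -/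
theorem const_of_loc {X : Type} {f : Ω → X} (hS : IsPreconnected S)
    (h : ∀ a ∈ S, ∃ ε > 0, ∀ x, dist x a < ε → f x = f a) {a b : Ω} (ha : a ∈ S) (hb : b ∈ S) :
    f a = f b := by
  refine hS.induction₂ (fun x y => f x = f y) ?_ ?_ ?_ ha hb
  · intro x hx
    obtain ⟨e, he, h⟩ := h x hx
    exact mem_nhdsWithin_of_mem_nhds (Filter.mem_of_superset (Metric.ball_mem_nhds x he)
      fun y hy => (h y hy).symm)
  · intro x y z _ _ _ h1 h2; exact h1.trans h2
  · intro x y _ _ h1; exact h1.symm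

theorem TrivBy.const {G : Type} [Group G] {T : Ω → Ω → G} {v w : Ω → G} (h : TrivBy T S v)
    (h' : TrivBy T S w) (hS : IsPreconnected S) {a b : Ω} (ha : a ∈ S) (hb : b ∈ S) :
    v a * (w a)⁻¹ = v b * (w b)⁻¹ :=
  const_of_loc (f := fun x => v x * (w x)⁻¹) hS (h.locConst h') ha hb

theorem trivBy_of_gaugeEq_one {G : Type} [Group G] {T : Ω → Ω → G} {u : Ω → G}
    (h : GaugeBy T (fun _ _ => 1) S u) : TrivBy T S (fun x => (u x)⁻¹) := by
  intro a ha
  obtain ⟨e, he, h⟩ := h a ha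
  refine ⟨e, he, fun x y hx hy => ?_⟩
  have this : (1:G) = (u x)⁻¹ * T x y * u y := h x y hx hy
  have h2 : T x y = u x * 1 * (u y)⁻¹ := by rw [this]; group
  rw [h2]; group

theorem TrivBy.gaugeBy {G : Type} [Group G] {T : Ω → Ω → G} {v : Ω → G} (h : TrivBy T S v) :
    GaugeBy T (fun _ _ => 1) S (fun x => (v x)⁻¹) := by
  intro a ha
  obtain ⟨e, he, h⟩ := h a ha
  refine ⟨e, he, fun x y hx hy => ?_⟩
  rw [h x y hx hy]
  group

theorem TrivBy.pull {Ω' : Type} [PseudoMetricSpace Ω'] {G : Type} [Group G] {T : Ω → Ω → G}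
    {v : Ω → G} (h : TrivBy T S v) {F : Ω' → Ω} {R : Set Ω'} (hF : ∀ a ∈ R, ContinuousAt F a)
    (hm : MapsTo F R S) : TrivBy (fun x y => T (F x) (F y)) R (fun x => v (F x)) := by
  intro a ha
  obtain ⟨e, he, h⟩ := h (F a) (hm ha)
  obtain ⟨δ, hδ, hd⟩ := Metric.continuousAt_iff.1 (hF a ha) e he
  exact ⟨δ, hδ, fun x y hx hy => h _ _ (hd hx) (hd hy)⟩

theorem contAt_of {K : ℝ → Ω → Ω} {s : ℝ} {a : Ω}
    (hK : ContinuousAt (fun p : ℝ × Ω => K p.1 p.2) (s, a)) : ContinuousAt (K s) a :=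
  ContinuousAt.comp (f := fun x : Ω => (s, x)) (g := fun p : ℝ × Ω => K p.1 p.2) hK
    (by fun_prop)

/-- deformation of `S` into `S'` -/
theorem GTriv.deform (hS' : GTriv S') (K : ℝ → Ω → Ω)
    (hK : ∀ s ∈ Icc (0:ℝ) 1, ∀ a ∈ S, ContinuousAt (fun p : ℝ × Ω => K p.1 p.2) (s, a))
    (hm : ∀ s ∈ Icc (0:ℝ) 1, ∀ a ∈ S, K s a ∈ S) (h0 : ∀ x, K 0 x = x)
    (h1 : ∀ a ∈ S, K 1 a ∈ S') (hsub : S' ⊆ S) : GTriv S := by
  intro G _ T hT
  obtain ⟨u, hu, -⟩ := transport_lemma (R := S) hT hK hm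
  simp only [h0] at hu
  obtain ⟨v, hv⟩ := hS' G T (hT.mono hsub)
  have hv' := hv.pull (F := K 1) (R := S) (fun a ha => contAt_of (hK 1 (right_mem_Icc.2 zero_le_one) a ha))
    (fun a ha => h1 a ha)
  refine ⟨fun x => v (K 1 x) * (u x)⁻¹, fun a ha => ?_⟩
  obtain ⟨e, he, h⟩ := hu a ha
  obtain ⟨e', he', h'⟩ := hv' a ha
  refine ⟨min e e', lt_min he he', fun x y hx hy => ?_⟩
  have a1 := h x y (hx.trans_le (min_le_left _ _)) (hy.trans_le (min_le_left _ _))
  have a2 := h' x y (hx.trans_le (min_le_right _ _)) (hy.trans_le (min_le_right _ _))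
  simp only at a1 a2
  have a3 : T x y = u x * T (K 1 x) (K 1 y) * (u y)⁻¹ := by rw [a1]; group
  rw [a3, a2]; group

theorem GTriv.star (p : Ω) (hp : p ∈ S) (K : ℝ → Ω → Ω)
    (hK : ∀ s ∈ Icc (0:ℝ) 1, ∀ a ∈ S, ContinuousAt (fun p : ℝ × Ω => K p.1 p.2) (s, a))
    (hm : ∀ s ∈ Icc (0:ℝ) 1, ∀ a ∈ S, K s a ∈ S) (h0 : ∀ x, K 0 x = x)
    (h1 : ∀ x, K 1 x = p) : GTriv S := by
  intro G _ T hT
  obtain ⟨v, hv⟩ := gauge_trivial (R := S) hT hK hm h0 h1
  exact ⟨v, hv⟩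

theorem GTriv.union {A B : Set Ω} (cA : IsClosed A) (cB : IsClosed B) (hA : GTriv A) (hB : GTriv B)
    (hAB : IsPreconnected (A ∩ B)) : GTriv (A ∪ B) := by
  intro G _ T hT
  obtain ⟨v, hv⟩ := hA G T (hT.mono subset_union_left)
  obtain ⟨w, hw⟩ := hB G T (hT.mono subset_union_right)
  -- adjust `w`
  obtain ⟨g, hg⟩ : ∃ g : G, ∀ a ∈ A ∩ B, v a * (w a)⁻¹ = g := by
    rcases (A ∩ B).eq_empty_or_nonempty with he | ⟨p, hp⟩
    · exact ⟨1, fun a ha => by rw [he] at ha; exact ha.elim⟩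
    · exact ⟨v p * (w p)⁻¹, fun a ha =>
        (hv.mono inter_subset_left).const (hw.mono inter_subset_right) hAB ha hp⟩
  have hw' := hw.left g
  have hl := (hv.mono (S' := A ∩ B) inter_subset_left).locConst (hw.mono inter_subset_right)
  obtain ⟨u, hu, -⟩ := gauge_glue' (T := T) (T' := fun _ _ => 1) cA cB isOpen_univ
    (u₁ := fun x => (v x)⁻¹) (u₂ := fun x => (g * w x)⁻¹)
    (by simpa using hv.gaugeBy) (by simpa using hw'.gaugeBy)
    (by
      intro a ha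
      obtain ⟨e, he, h⟩ := hl a ha.1
      refine ⟨e, he, fun x hx => ?_⟩
      have := h x hx
      rw [hg a ha.1] at this
      rw [← this]; group)
  refine ⟨fun x => (u x)⁻¹, ?_⟩
  have := trivBy_of_gaugeEq_one hu
  simpa using this

theorem GTriv.hv {k V G : Type} [Group G] [CommRing k] [AddCommGroup V] [Module k V]
    (h : GTriv S) {T : Ω → Ω → G} (hT : GFlat T S) (ρ : G →* (V →ₗ[k] V)) :
    HV (sys T ρ) S ∅ 1 := by
  intro c hc
  have hA : GFlat (aff ρ T c) S := (gflat_aff ρ hT).2 hc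
  obtain ⟨v, hv⟩ := h _ _ hA
  rw [← tri_iff hT]
  exact ⟨fun _ _ => 1, ⟨_, hv.gaugeBy⟩, fun _ _ => rfl⟩

section normed

variable {E : Type} [NormedAddCommGroup E] [NormedSpace ℝ E]

theorem gtriv_starConvex {S : Set E} {p : E} (hp : p ∈ S) (h : StarConvex ℝ p S) : GTriv S := by
  refine GTriv.star p hp (fun s x => (1 - s) • x + s • p) ?_ ?_ ?_ ?_
  · intro s _ a _
    exact Continuous.continuousAt (by fun_prop)
  · intro s hs a ha
    have := h ha (a := s) (b := 1 - s) hs.1 (by linarith [hs.2]) (by ring)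
    rwa [add_comm] at this
  · intro x; simp
  · intro x; simp

theorem gtriv_convex {S : Set E} (h : Convex ℝ S) : GTriv S := by
  rcases S.eq_empty_or_nonempty with he | ⟨p, hp⟩
  · intro G _ T _
    exact ⟨fun _ => 1, fun a ha => by rw [he] at ha; exact ha.elim⟩
  · exact gtriv_starConvex hp (h.starConvex hp)

theorem preconn_deform {S S' : Set E} (hS' : IsPreconnected S') (K : ℝ → E → E)
    (hK : ∀ a, Continuous fun s => K s a)
    (hm : ∀ s ∈ Icc (0:ℝ) 1, ∀ a ∈ S, K s a ∈ S) (h0 : ∀ x, K 0 x = x)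
    (h1 : ∀ a ∈ S, K 1 a ∈ S') (hsub : S' ⊆ S) : IsPreconnected S := by
  refine isPreconnected_of_forall_pair fun x hx y hy => ?_
  refine ⟨(fun s => K s x) '' Icc 0 1 ∪ S' ∪ (fun s => K s y) '' Icc 0 1, ?_, ?_, ?_, ?_⟩
  · rintro z ((⟨s, hs, rfl⟩ | hz) | ⟨s, hs, rfl⟩)
    exacts [hm s hs x hx, hsub hz, hm s hs y hy]
  · exact Or.inl (Or.inl ⟨0, left_mem_Icc.2 zero_le_one, h0 x⟩)
  · exact Or.inr ⟨0, left_mem_Icc.2 zero_le_one, h0 y⟩
  · have o : (1:ℝ) ∈ Icc (0:ℝ) 1 := right_mem_Icc.2 zero_le_one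
    refine IsPreconnected.union (K 1 y) (Or.inr (h1 y hy)) ⟨1, o, rfl⟩
      (IsPreconnected.union (K 1 x) ⟨1, o, rfl⟩ (h1 x hx) ?_ hS') ?_
    · exact isPreconnected_Icc.image _ (hK x).continuousOn
    · exact isPreconnected_Icc.image _ (hK y).continuousOn

end normed

/-- push onto a smaller compact set -/
theorem hv_push {k V : Type} [CommRing k] [AddCommGroup V] [Module k V] [ProperSpace Ω]
    {T : Ω → Ω → (V →ₗ[k] V)} {R : Set Ω} (hS : IsCompact S) (cR : IsClosed R) (h2 : R ⊆ S)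
    (hT : Flat T S) (K : ℝ → Ω → Ω)
    (hK : ContinuousOn (fun p : ℝ × Ω => K p.1 p.2) (Icc 0 1 ×ˢ S))
    (h0 : ∀ x ∈ S, K 0 x = x) (mS : ∀ s ∈ Icc (0:ℝ) 1, MapsTo (K s) S S)
    (mR : ∀ s ∈ Icc (0:ℝ) 1, MapsTo (K s) R R) (e : MapsTo (K 1) S R) {q : ℕ}
    (h : HV T R ∅ q) : HV T S ∅ q := by
  intro c hc
  have hb := push_bij (T := T) hS isClosed_empty cR isClosed_empty (empty_subset _) h2
    (le_refl ∅) (empty_subset _) hT K hK h0 mS (fun s _ x hx => hx.elim) mR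
    (fun s _ x hx => hx.elim) e (fun x hx => hx.elim) q
  have h3 : Hres T h2 (le_refl ∅) q (H.mk T S ∅ q ⟨c, hc⟩) = 0 := by
    rw [hi_Hres_mk, H.mk_eq_zero]
    exact h (Zc_mono h2 (le_refl ∅) q hc)
  have h4 := hb.1 (h3.trans (map_zero _).symm)
  rwa [H.mk_eq_zero] at h4

theorem GFlat.sys {k V G : Type} [Group G] [CommRing k] [AddCommGroup V] [Module k V]
    {T : Ω → Ω → G} (hT : GFlat T S) (ρ : G →* (V →ₗ[k] V)) : Flat (sys T ρ) S := by
  intro a ha
  obtain ⟨e, he, h⟩ := hT a ha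
  obtain ⟨e', he', h'⟩ := (hT a ha).one
  refine ⟨min e e', lt_min he he', fun x y z hx hy hz => ⟨?_, ?_⟩⟩
  · show ρ (T x y) * ρ (T y z) = ρ (T x z)
    rw [← map_mul, h x y z (hx.trans_le (min_le_left _ _)) (hy.trans_le (min_le_left _ _))
      (hz.trans_le (min_le_left _ _))]
  · show ρ (T x x) = 1
    rw [h' x (hx.trans_le (min_le_right _ _)), map_one]

end Pool.Agent.H755
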