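import Pool.Agent.H755.KDefs

/-! A Morse-type bound for the relative homology. -/

set_option autoImplicit false
set_option maxHeartbeats 4000000
set_option linter.deprecated false
set_option linter.unusedVariables false
set_option linter.unusedSimpArgs false
set_option linter.unusedSectionVars false
set_option linter.style.longLine false

namespace Pool.Agent.H755

open Set

section

variable (F : Type) [Field F] {N : ℕ}

theorem bdry_apply (c : Finset (Fin N) → F) {τ : Finset (Fin N)} (h : τ ≠ ∅) :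
    bdry F c τ = ∑ j ∈ τᶜ, fsign F j τ * c (insert j τ) := by
  simp [bdry, h]

theorem fsign_insert {j k : Fin N} {τ : Finset (Fin N)} (hk : k ∉ τ) :
    fsign F j (insert k τ) = (if k < j then -1 else 1) * fsign F j τ := by
  unfold fsign
  rw [Finset.filter_insert]
  split_ifs with h
  · rw [Finset.card_insert_of_notMem (fun h1 => hk (Finset.mem_filter.1 h1).1), pow_succ]
    ring
  · rw [one_mul]

theorem fsign_swap {j k : Fin N} {τ : Finset (Fin N)} (hj : j ∉ τ) (hk : k ∉ τ) (h : j ≠ k) :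
    fsign F j τ * fsign F k (insert j τ) = - (fsign F k τ * fsign F j (insert k τ)) := by
  rw [fsign_insert F hj, fsign_insert F hk]
  rcases lt_or_gt_of_ne h with h | h
  · rw [if_pos h, if_neg (not_lt.2 h.le)]; ring
  · rw [if_neg (not_lt.2 h.le), if_pos h]; ring

theorem fsign_ne (j : Fin N) (τ : Finset (Fin N)) : fsign F j τ ≠ 0 :=
  pow_ne_zero _ (neg_ne_zero.2 one_ne_zero)

theorem bdry_bdry (c : Finset (Fin N) → F) : bdry F (bdry F c) = 0 := by
  funext τ
  by_cases hτ : τ = ∅
  · simp [bdry, hτ]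
  rw [bdry_apply F _ hτ]
  have e : ∀ j ∈ τᶜ, fsign F j τ * bdry F c (insert j τ) =
      ∑ k ∈ (insert j τ)ᶜ, fsign F j τ * (fsign F k (insert j τ) * c (insert k (insert j τ))) := by
    intro j _
    rw [bdry_apply F _ (Finset.insert_ne_empty j τ), Finset.mul_sum]
  rw [Finset.sum_congr rfl e, Finset.sum_sigma']
  refine Finset.sum_involution (fun p _ => ⟨p.2, p.1⟩) ?_ ?_ ?_ ?_
  · rintro ⟨j, k⟩ h
    simp only [Finset.mem_sigma, Finset.mem_compl, Finset.mem_insert, not_or] at h
    obtain ⟨h1, h2, h3⟩ := h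
    show fsign F j τ * (fsign F k (insert j τ) * c (insert k (insert j τ))) +
      fsign F k τ * (fsign F j (insert k τ) * c (insert j (insert k τ))) = 0
    rw [Finset.insert_comm j k τ, ← mul_assoc, ← mul_assoc, fsign_swap F h1 h3 (Ne.symm h2)]
    ring
  · rintro ⟨j, k⟩ h _ h4
    simp only [Finset.mem_sigma, Finset.mem_compl, Finset.mem_insert, not_or] at h
    simp only [Sigma.mk.injEq] at h4
    exact h.2.1 h4.1
  · rintro ⟨j, k⟩ h
    simp only [Finset.mem_sigma, Finset.mem_compl, Finset.mem_insert, not_or] at h ⊢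
    exact ⟨h.2.2, Ne.symm h.2.1, h.1⟩
  · rintro ⟨j, k⟩ h
    rfl

/-- a matching: for each pair `(τ, σ)`, `σ` is `τ` with one more vertex; and later pairs do not
contain earlier faces -/
def Mat (M : List (Finset (Fin N) × Finset (Fin N))) : Prop :=
  M.Pairwise (fun p q => ¬ p.1 ⊆ q.2)

/-- elimination of the coefficients at the lower faces -/
theorem elim_low {i : ℕ} : ∀ {M : List (Finset (Fin N) × Finset (Fin N))}, Mat M →
    (∀ p ∈ M, p.1 ≠ ∅ ∧ ∃ j ∉ p.1, p.2 = insert j p.1) → ∀ c : Finset (Fin N) → F,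
    ∃ e : Finset (Fin N) → F, (∀ σ, e σ ≠ 0 → σ.card = i + 2 ∧ ∃ p ∈ M, p.2 = σ) ∧
      ∀ p ∈ M, p.1.card = i + 1 → (c - bdry F e) p.1 = 0
  | [], _, _, c => ⟨0, fun σ h => absurd rfl h, fun p hp => absurd hp (by simp)⟩
  | (τ, σ) :: M, hM, hp, c => by
    obtain ⟨hM1, hM2⟩ := List.pairwise_cons.1 hM
    have hp' := fun p h => hp p (List.mem_cons_of_mem _ h)
    obtain ⟨hτ, j, hj, hσ⟩ := hp (τ, σ) (by simp)
    replace hσ : σ = insert j τ := hσ
    replace hj : j ∉ τ := hj
    replace hτ : τ ≠ ∅ := hτ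
    by_cases hc : τ.card = i + 1
    · set a : F := c τ / fsign F j τ with ha
      set e1 : Finset (Fin N) → F := Pi.single σ a with he1
      obtain ⟨e, h1, h2⟩ := elim_low hM2 hp' (c - bdry F e1)
      refine ⟨e1 + e, ?_, ?_⟩
      · intro ρ hρ
        by_cases h3 : ρ = σ
        · rw [h3]
          refine ⟨?_, (τ, σ), by simp, rfl⟩
          rw [hσ, Finset.card_insert_of_notMem hj, hc]
        · have : e ρ ≠ 0 := by
            intro h4
            apply hρ
            rw [Pi.add_apply, h4, he1, Pi.single_eq_of_ne h3, add_zero]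
          obtain ⟨h5, p, h6, h7⟩ := h1 ρ this
          exact ⟨h5, p, List.mem_cons_of_mem _ h6, h7⟩
      · intro p hpm hpc
        have e2 : c - bdry F (e1 + e) = (c - bdry F e1) - bdry F e := by
          rw [map_add]; abel
        rw [e2]
        rcases List.mem_cons.1 hpm with rfl | hpm
        · show (c - bdry F e1) τ - bdry F e τ = 0
          have h3 : bdry F e τ = 0 := by
            rw [bdry_apply F _ hτ]
            refine Finset.sum_eq_zero fun k hk => ?_
            by_cases h4 : e (insert k τ) = 0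
            · rw [h4, mul_zero]
            · obtain ⟨-, p, h6, h7⟩ := h1 _ h4
              refine absurd ?_ (hM1 p h6)
              rw [h7]
              exact Finset.subset_insert _ _
          have h4 : bdry F e1 τ = c τ := by
            rw [bdry_apply F _ hτ, Finset.sum_eq_single j]
            · rw [he1, hσ, Pi.single_eq_same, ha]
              field_simp [fsign_ne F j τ]
            · intro k hk hkj
              rw [he1, Pi.single_eq_of_ne, mul_zero]
              rw [hσ]
              intro h5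
              have : k ∈ insert j τ := by rw [← h5]; exact Finset.mem_insert_self _ _
              rcases Finset.mem_insert.1 this with h6 | h6
              · exact hkj h6
              · exact (Finset.mem_compl.1 hk) h6
            · intro h5
              exact absurd (Finset.mem_compl.2 hj) h5
          rw [Pi.sub_apply, h3, h4]; ring
        · exact h2 p hpm hpc
    · obtain ⟨e, h1, h2⟩ := elim_low (i := i) hM2 hp' c
      refine ⟨e, fun ρ hρ => ?_, fun p hpm hpc => ?_⟩
      · obtain ⟨h5, p, h6, h7⟩ := h1 ρ hρ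
        exact ⟨h5, p, List.mem_cons_of_mem _ h6, h7⟩
      · rcases List.mem_cons.1 hpm with rfl | hpm
        · exact absurd hpc hc
        · exact h2 p hpm hpc

/-- vanishing of the coefficients at the upper faces -/
theorem elim_up : ∀ {M : List (Finset (Fin N) × Finset (Fin N))}, Mat M →
    (∀ p ∈ M, p.1 ≠ ∅ ∧ ∃ j ∉ p.1, p.2 = insert j p.1) → ∀ c : Finset (Fin N) → F,
    (∀ p ∈ M, bdry F c p.1 = 0) →
    (∀ p ∈ M, ∀ k ∉ p.1, c (insert k p.1) ≠ 0 → ∃ q ∈ M, q.2 = insert k p.1) →
      ∀ p ∈ M, c p.2 = 0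
  | [], _, _, c, _, _ => fun p hp => absurd hp (by simp)
  | (τ, σ) :: M, hM, hp, c, hb, hq => by
    obtain ⟨hM1, hM2⟩ := List.pairwise_cons.1 hM
    have hp' := fun p h => hp p (List.mem_cons_of_mem _ h)
    obtain ⟨hτ, j, hj, hσ⟩ := hp (τ, σ) (by simp)
    replace hσ : σ = insert j τ := hσ
    replace hj : j ∉ τ := hj
    replace hτ : τ ≠ ∅ := hτ
    have h0 : c σ = 0 := by
      have h1 := hb (τ, σ) (by simp)
      replace h1 : bdry F c τ = 0 := h1
      rw [bdry_apply F _ hτ, Finset.sum_eq_single j] at h1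
      · rw [hσ]
        exact (mul_eq_zero.1 h1).resolve_left (fsign_ne F j τ)
      · intro k hk hkj
        by_cases h4 : c (insert k τ) = 0
        · rw [h4, mul_zero]
        · obtain ⟨q, hqm, hq2⟩ := hq (τ, σ) (by simp) k (Finset.mem_compl.1 hk) h4
          rcases List.mem_cons.1 hqm with rfl | hqm
          · exfalso
            replace hq2 : σ = insert k τ := hq2
            have : k ∈ insert j τ := by rw [← hσ, hq2]; exact Finset.mem_insert_self _ _
            rcases Finset.mem_insert.1 this with h6 | h6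
            · exact hkj h6
            · exact (Finset.mem_compl.1 hk) h6
          · refine absurd ?_ (hM1 q hqm)
            rw [hq2]
            exact Finset.subset_insert _ _
      · intro h5
        exact absurd (Finset.mem_compl.2 hj) h5
    intro p hpm
    rcases List.mem_cons.1 hpm with rfl | hpm
    · exact h0
    · refine elim_up hM2 hp' c (fun p h => hb p (List.mem_cons_of_mem _ h)) (fun p hpm k hk hne => ?_) p hpm
      obtain ⟨q, hqm, hq2⟩ := hq p (List.mem_cons_of_mem _ hpm) k hk hne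
      rcases List.mem_cons.1 hqm with rfl | hqm
      · exfalso
        apply hne
        rw [← hq2]
        exact h0
      · exact ⟨q, hqm, hq2⟩

/-- the bound for one degree -/
theorem relBetti_le {L L₀ : Set (Finset (Fin N))} (h0 : L₀ ⊆ L)
    (hL : ∀ σ ∈ L, ∀ τ ⊆ σ, τ ≠ ∅ → τ ∈ L) (hL0 : ∀ σ ∈ L₀, ∀ τ ⊆ σ, τ ≠ ∅ → τ ∈ L₀)
    {M : List (Finset (Fin N) × Finset (Fin N))} (hM : Mat M)
    (hp : ∀ p ∈ M, p.1 ≠ ∅ ∧ ∃ j ∉ p.1, p.2 = insert j p.1) (hpL : ∀ p ∈ M, p.2 ∈ L ∧ p.1 ∉ L₀)
    {C : Finset (Finset (Fin N))} (hC : ∀ σ ∈ L, σ ∉ L₀ → σ ∈ C ∨ (∃ p ∈ M, p.1 = σ) ∨ ∃ p ∈ M, p.2 = σ)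
    (i : ℕ) : relBetti F L L₀ i ≤ (C.filter fun σ => σ.card = i + 1).card := by
  classical
  set Ci := C.filter fun σ => σ.card = i + 1 with hCi
  set Z := relCycles F L L₀ i with hZ
  set B := relBoundaries F L L₀ i with hB
  -- the cycles which vanish at the lower faces
  let Z' : Submodule F Z :=
    { carrier := {c | ∀ p ∈ M, p.1.card = i + 1 → (c : Finset (Fin N) → F) p.1 = 0}
      add_mem' := fun {a b} ha hb p hp hc => by
        show (a : Finset (Fin N) → F) p.1 + (b : Finset (Fin N) → F) p.1 = 0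
        rw [ha p hp hc, hb p hp hc, add_zero]
      zero_mem' := fun p _ _ => rfl
      smul_mem' := fun t a ha p hp hc => by
        show t * (a : Finset (Fin N) → F) p.1 = 0
        rw [ha p hp hc, mul_zero] }
  let π : Z' →ₗ[F] (Z ⧸ B.submoduleOf Z) := (B.submoduleOf Z).mkQ.comp Z'.subtype
  let ρ : Z' →ₗ[F] (Ci → F) :=
    { toFun := fun c σ => (c : Finset (Fin N) → F) σ
      map_add' := fun a b => rfl
      map_smul' := fun t a => rfl }
  have hπ : LinearMap.range π = ⊤ := by
    rw [LinearMap.range_eq_top]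
    intro y
    obtain ⟨c, rfl⟩ := Submodule.mkQ_surjective _ y
    obtain ⟨e, e1, e2⟩ := elim_low F (i := i) hM hp (c : Finset (Fin N) → F)
    have heL : e ∈ chains F L (i + 1) := fun σ hσ => by
      obtain ⟨h1, p, h2, h3⟩ := e1 σ hσ
      exact ⟨h3 ▸ (hpL p h2).1, h1⟩
    have hbe : bdry F e ∈ B := Submodule.mem_sup_right ⟨e, heL, rfl⟩
    have hbeZ : bdry F e ∈ Z := by
      refine ⟨fun σ hσ => ?_, ?_⟩
      · have hσ0 : σ ≠ ∅ := by
          rintro rfl
          exact hσ (by simp [bdry])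
        rw [bdry_apply F _ hσ0] at hσ
        obtain ⟨k, hk, hk2⟩ := Finset.exists_ne_zero_of_sum_ne_zero hσ
        have h1 := heL _ (right_ne_zero_of_mul hk2)
        refine ⟨hL _ h1.1 σ (Finset.subset_insert _ _) hσ0, ?_⟩
        have h2 := h1.2
        rw [Finset.card_insert_of_notMem (Finset.mem_compl.1 hk)] at h2
        omega
      · show bdry F (bdry F e) ∈ supported F L₀
        rw [bdry_bdry]
        exact Submodule.zero_mem _
    refine ⟨⟨c - ⟨bdry F e, hbeZ⟩, fun p hpm hpc => e2 p hpm hpc⟩, ?_⟩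
    show (B.submoduleOf Z).mkQ (c - ⟨bdry F e, hbeZ⟩) = (B.submoduleOf Z).mkQ c
    rw [map_sub, sub_eq_self, Submodule.mkQ_apply, Submodule.Quotient.mk_eq_zero]
    exact hbe
  have hker : LinearMap.ker ρ ≤ LinearMap.ker π := by
    intro c hc
    rw [LinearMap.mem_ker] at hc ⊢
    show (B.submoduleOf Z).mkQ c = 0
    rw [Submodule.mkQ_apply, Submodule.Quotient.mk_eq_zero]
    show (c : Finset (Fin N) → F) ∈ B
    refine Submodule.mem_sup_left ?_
    have hcL : ∀ σ, (c : Finset (Fin N) → F) σ ≠ 0 → σ ∈ L ∧ σ.card = i + 1 := c.1.2.1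
    have hcb : ∀ σ, bdry F (c : Finset (Fin N) → F) σ ≠ 0 → σ ∈ L₀ := c.1.2.2
    have hnon : ∀ σ, (c : Finset (Fin N) → F) σ ≠ 0 → σ ∈ L₀ ∨ ∃ p ∈ M, p.2 = σ := by
      intro σ hσ
      by_cases h1 : σ ∈ L₀
      · exact Or.inl h1
      · right
        have h2 := hcL σ hσ
        rcases hC σ h2.1 h1 with h3 | ⟨p, h3, h4⟩ | h3
        · exfalso
          have h5 := congrFun hc ⟨σ, Finset.mem_filter.2 ⟨h3, h2.2⟩⟩
          exact hσ h5
        · exfalso
          apply hσ
          rw [← h4]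
          exact c.2 p h3 (by rw [h4]; exact h2.2)
        · exact h3
    have hup := elim_up F hM hp (c : Finset (Fin N) → F) (fun p hpm => by
        by_contra h
        exact (hpL p hpm).2 (hcb _ h)) (fun p hpm k hk hne => by
        rcases hnon _ hne with h1 | h1
        · exact absurd (hL0 _ h1 p.1 (Finset.subset_insert _ _) (hp p hpm).1) (hpL p hpm).2
        · exact h1)
    intro σ hσ
    rcases hnon σ hσ with h1 | ⟨p, h1, h2⟩
    · exact ⟨h1, (hcL σ hσ).2⟩
    · exact absurd (h2 ▸ hup p h1) hσ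
  have f1 := LinearMap.finrank_range_add_finrank_ker (K := F) (V := Z') (V₂ := Z ⧸ B.submoduleOf Z) π
  have f2 := LinearMap.finrank_range_add_finrank_ker (K := F) (V := Z') (V₂ := Ci → F) ρ
  have f3 : Module.finrank F (LinearMap.range ρ) ≤ Ci.card := by
    refine (Submodule.finrank_le _).trans ?_
    rw [Module.finrank_fintype_fun_eq_card, Fintype.card_coe]
  have f4 := Submodule.finrank_mono hker
  rw [hπ, finrank_top] at f1
  show Module.finrank F (Z ⧸ B.submoduleOf Z) ≤ _
  omega

/-- the bound for the sum over all degrees -/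
theorem sum_relBetti_le {L L₀ : Set (Finset (Fin N))} (h0 : L₀ ⊆ L)
    (hL : ∀ σ ∈ L, ∀ τ ⊆ σ, τ ≠ ∅ → τ ∈ L) (hL0 : ∀ σ ∈ L₀, ∀ τ ⊆ σ, τ ≠ ∅ → τ ∈ L₀)
    {M : List (Finset (Fin N) × Finset (Fin N))} (hM : Mat M)
    (hp : ∀ p ∈ M, p.1 ≠ ∅ ∧ ∃ j ∉ p.1, p.2 = insert j p.1) (hpL : ∀ p ∈ M, p.2 ∈ L ∧ p.1 ∉ L₀)
    {C : Finset (Finset (Fin N))} (hC : ∀ σ ∈ L, σ ∉ L₀ → σ ∈ C ∨ (∃ p ∈ M, p.1 = σ) ∨ ∃ p ∈ M, p.2 = σ)
    (n : ℕ) : ∑ i ∈ Finset.range n, relBetti F L L₀ i ≤ C.card := by
  classical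
  calc ∑ i ∈ Finset.range n, relBetti F L L₀ i
      ≤ ∑ i ∈ Finset.range n, (C.filter fun σ => σ.card = i + 1).card :=
        Finset.sum_le_sum fun i _ => relBetti_le F h0 hL hL0 hM hp hpL hC i
    _ = ((Finset.range n).biUnion fun i => C.filter fun σ => σ.card = i + 1).card := by
        rw [Finset.card_biUnion]
        intro i _ j _ hij
        show Disjoint (C.filter fun σ => σ.card = i + 1) (C.filter fun σ => σ.card = j + 1)
        rw [Finset.disjoint_left]
        intro σ h1 h2
        rw [Finset.mem_filter] at h1 h2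
        omega
    _ ≤ C.card := Finset.card_le_card (Finset.biUnion_subset.2 fun i _ => Finset.filter_subset _ _)

/-- a crude bound -/
theorem relBetti_crude (L L₀ : Set (Finset (Fin N))) (i : ℕ) : relBetti F L L₀ i ≤ 2 ^ N := by
  refine (Submodule.finrank_quotient_le _).trans ((Submodule.finrank_le _).trans ?_)
  rw [Module.finrank_fintype_fun_eq_card]
  simp

theorem critCount_crude (A : Finset (Finset (Fin N))) (h : Fin N → ℝ) :
    critCount F A h ≤ N * (N * 2 ^ N) := by
  calc critCount F A h ≤ ∑ v : Fin N, ∑ i ∈ Finset.range N, 2 ^ N :=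
        Finset.sum_le_sum fun v _ => Finset.sum_le_sum fun i _ => relBetti_crude F _ _ i
    _ = N * (N * 2 ^ N) := by simp

end

end Pool.Agent.H755
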