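import Pool.Agent.H755.BookD
import Pool.Agent.H755.Cx2

/-! Local unknottedness of the linear images of the body. -/

set_option autoImplicit false
set_option maxHeartbeats 4000000
set_option linter.deprecated false
set_option linter.unusedVariables false
set_option linter.unusedSimpArgs false
set_option linter.style.longLine false
set_option maxRecDepth 100000

namespace Pool.Agent.H755

open Set Filter Topology

/-- every index is a vertex -/
theorem chk_cover : ((List.range 30).all fun i => facets.any fun l => l.elem i) = true := by decide +kernel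

theorem exists_facet (w : Fin 30) : ∃ l ∈ facets, w.1 ∈ l := by
  have h := chk_cover
  simp only [List.all_eq_true, List.any_eq_true, List.mem_range, List.elem_eq_mem, decide_eq_true_eq] at h
  exact h w.1 w.2

theorem single_mem (w : Fin 30) : (Pi.single w (1:ℝ) : Fin 30 → ℝ) ∈ realization FK := by
  obtain ⟨l, hl, hw⟩ := exists_facet w
  refine ⟨fun i => ?_, by simp, toFS l, mem_FK.2 ⟨l, hl, rfl⟩, fun i hi => ?_⟩
  · by_cases h : i = w
    · rw [h, Pi.single_eq_same]; norm_num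
    · rw [Pi.single_eq_of_ne h]
  · by_cases h : i = w
    · rw [h, mem_toFS] at hi; exact absurd hw hi
    · rw [Pi.single_eq_of_ne h]

theorem single_sum (w : Fin 30) : ∑ i, (Pi.single w (1:ℝ) : Fin 30 → ℝ) i • pos0 i = pos0 w := by
  rw [Finset.sum_eq_single w]
  · rw [Pi.single_eq_same, one_smul]
  · intro i _ hi
    rw [Pi.single_eq_of_ne hi, zero_smul]
  · simp

/-- weights on facets which do not contain `w` -/
def Rw (w : Fin 30) : Set (Fin 30 → ℝ) :=
  {u | (∀ i, 0 ≤ u i) ∧ ∑ i, u i = 1 ∧ ∃ l ∈ {l | l ∈ facets ∧ w.1 ∉ l}, ∀ i : Fin 30, i.1 ∉ l → u i = 0}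

theorem Rw_compact (w : Fin 30) : IsCompact (Rw w) := by
  refine (isCompact_Icc (a := (0 : Fin 30 → ℝ)) (b := 1)).of_isClosed_subset ?_ ?_
  · have e : Rw w = {u | ∀ i, 0 ≤ u i} ∩ ({u | ∑ i, u i = 1} ∩ ⋃ l ∈ {l | l ∈ facets ∧ w.1 ∉ l},
        {u | ∀ i : Fin 30, i.1 ∉ l → u i = 0}) := by
      ext u
      simp only [Rw, mem_setOf_eq, mem_inter_iff, mem_iUnion, exists_prop]
    rw [e]
    refine IsClosed.inter ?_ (IsClosed.inter ?_ ?_)
    · simp only [setOf_forall]
      exact isClosed_iInter fun i => isClosed_le continuous_const (continuous_apply i)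
    · exact isClosed_eq (continuous_finset_sum _ fun i _ => continuous_apply i) continuous_const
    · refine Set.Finite.isClosed_biUnion ?_ fun l _ => ?_
      · exact (List.finite_toSet facets).subset fun l hl => hl.1
      · simp only [setOf_forall]
        exact isClosed_iInter fun i => isClosed_iInter fun _ => isClosed_eq (continuous_apply i) continuous_const
  · rintro u ⟨h0, h1, -⟩
    exact ⟨h0, fun i => by
      show u i ≤ 1
      rw [← h1]
      exact Finset.single_le_sum (f := u) (fun j _ => h0 j) (Finset.mem_univ i)⟩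

theorem Rw_sub (w : Fin 30) : Rw w ⊆ realization FK := by
  rintro u ⟨h0, h1, l, hl, h2⟩
  exact ⟨h0, h1, toFS l, mem_FK.2 ⟨l, hl.1, rfl⟩, fun i hi => h2 i (by rwa [mem_toFS] at hi)⟩

theorem far_notMem (w : Fin 30) : pos0 w ∉ (fun u : Fin 30 → ℝ => ∑ i, u i • pos0 i) '' Rw w := by
  rintro ⟨u, hu, he⟩
  have h := inj0 (Rw_sub w hu) (single_mem w) (he.trans (single_sum w).symm)
  obtain ⟨h0, h1, l, hl, h2⟩ := hu
  have h3 := h2 w hl.2
  rw [h, Pi.single_eq_same] at h3
  exact one_ne_zero h3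

theorem near_body (w : Fin 30) : ∀ᶠ x in 𝓝 (pos0 w), x ∈ body0 → x - pos0 w ∈ fan (vsAt w.1) (linkF w.1) := by
  have hc : IsCompact ((fun u : Fin 30 → ℝ => ∑ i, u i • pos0 i) '' Rw w) :=
    (Rw_compact w).image (continuous_finset_sum _ fun i _ => (continuous_apply i).smul continuous_const)
  filter_upwards [hc.isClosed.isOpen_compl.mem_nhds (far_notMem w)] with x hx hb
  obtain ⟨l, hl, u, ⟨u0, u1⟩, u2, rfl⟩ := mem_body.1 hb
  by_cases hw : w.1 ∈ l
  · rw [fan_iff]
    refine ⟨l, hl, hw, u, ⟨u0, u1⟩, ?_⟩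
    simp only [smul_sub, Finset.sum_sub_distrib, ← Finset.sum_smul, u2, one_smul]
  · exact absurd ⟨u, ⟨u0, u2, l, ⟨hl, hw⟩, fun i hi => by
      by_contra h
      exact hi (u1 i h)⟩, rfl⟩ hx

theorem small_coeff (w : Fin 30) {l : List ℕ} (hl : l ∈ facets) (i : Fin 30) : ∀ᶠ x in 𝓝 (pos0 w),
    w.1 ∈ l → i ≠ w → ∀ u, Wt l u → x - pos0 w = ∑ i, u i • (pos0 i - pos0 w) → u i < 1 / 30 := by
  by_cases hi : i.1 ∈ l
  · obtain ⟨f, f1, f2⟩ := exists_pin hl hi
    have f2' : (affZ f (verts0 i.1) : ℝ) ≠ 0 := by exact_mod_cast f2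
    have hcont : Continuous fun x : E5 => lin f.1 (x - pos0 w) / (affZ f (verts0 i.1) : ℝ) :=
      ((LinearMap.continuous_of_finiteDimensional (lin f.1)).comp (continuous_id.sub continuous_const)).div_const _
    have h0 : lin f.1 (pos0 w - pos0 w) / (affZ f (verts0 i.1) : ℝ) < 1 / 30 := by
      rw [sub_self, map_zero, zero_div]; norm_num
    filter_upwards [hcont.continuousAt.eventually (Iio_mem_nhds h0)] with x hx hwl hiw u hu he
    have hw0 : affR f (pos0 w) = 0 := by
      rw [affR_pos, f1 w hwl (Ne.symm hiw)]; simp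
    have key : lin f.1 (x - pos0 w) = u i * (affZ f (verts0 i.1) : ℝ) := by
      rw [he, map_sum]
      rw [Finset.sum_eq_single i]
      · rw [map_smul, map_sub, ← affR_pos, smul_eq_mul]
        have : lin f.1 (pos0 i) - lin f.1 (pos0 w) = affR f (pos0 i) - affR f (pos0 w) := by
          simp only [affR]; ring
        rw [this, hw0, sub_zero]
      · intro j _ hj
        by_cases hj0 : u j = 0
        · rw [hj0, zero_smul, map_zero]
        · have : lin f.1 (pos0 j) - lin f.1 (pos0 w) = affR f (pos0 j) - affR f (pos0 w) := by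
            simp only [affR]; ring
          rw [map_smul, map_sub, this, hw0, affR_pos, f1 j (hu.2 j hj0) hj]
          simp
      · simp
    have hx' : lin f.1 (x - pos0 w) / (affZ f (verts0 i.1) : ℝ) < 1 / 30 := hx
    rw [key, mul_div_assoc, div_self f2', mul_one] at hx'
    exact hx'
  · refine Eventually.of_forall fun x _ _ u hu _ => ?_
    have : u i = 0 := by
      by_contra h
      exact hi (hu.2 i h)
    rw [this]; norm_num

theorem near_fan (w : Fin 30) : ∀ᶠ x in 𝓝 (pos0 w), x - pos0 w ∈ fan (vsAt w.1) (linkF w.1) → x ∈ body0 := by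
  have h : ∀ᶠ x in 𝓝 (pos0 w), ∀ l ∈ {l | l ∈ facets}, ∀ i : Fin 30, w.1 ∈ l → i ≠ w → ∀ u, Wt l u →
      x - pos0 w = ∑ i, u i • (pos0 i - pos0 w) → u i < 1 / 30 := by
    rw [eventually_all_finite (List.finite_toSet facets)]
    intro l hl
    rw [eventually_all]
    exact fun i => small_coeff w hl i
  filter_upwards [h] with x hx hf
  obtain ⟨l, hl, hw, u, hu, he⟩ := fan_iff.1 hf
  have hs : ∀ i, i ≠ w → u i ≤ 1 / 30 := fun i hi => (hx l hl i hw hi u hu he).le
  set s : ℝ := ∑ i ∈ Finset.univ.erase w, u i with hsd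
  have s1 : s ≤ 1 := by
    calc s ≤ ∑ i ∈ Finset.univ.erase w, (1 / 30 : ℝ) :=
          Finset.sum_le_sum fun i hi => hs i (Finset.ne_of_mem_erase hi)
      _ ≤ 1 := by
          rw [Finset.sum_const, Finset.card_erase_of_mem (Finset.mem_univ w)]
          simp
          norm_num
  rw [mem_body]
  refine ⟨l, hl, fun i => if i = w then 1 - s else u i, ⟨fun i => ?_, fun i hi => ?_⟩, ?_, ?_⟩
  · show 0 ≤ if i = w then 1 - s else u i
    split_ifs
    · linarith
    · exact hu.1 i
  · replace hi : (if i = w then 1 - s else u i) ≠ 0 := hi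
    by_cases h : i = w
    · rw [h]; exact hw
    · rw [if_neg h] at hi
      exact hu.2 i hi
  · rw [← Finset.add_sum_erase _ _ (Finset.mem_univ w)]
    have e : ∑ x ∈ Finset.univ.erase w, (if x = w then 1 - s else u x) = s :=
      Finset.sum_congr rfl fun i hi => if_neg (Finset.ne_of_mem_erase hi)
    rw [e]
    simp
  · rw [← Finset.add_sum_erase _ _ (Finset.mem_univ w)]
    have e : ∑ x ∈ Finset.univ.erase w, (if x = w then 1 - s else u x) • pos0 x =
        ∑ x ∈ Finset.univ.erase w, u x • pos0 x :=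
      Finset.sum_congr rfl fun i hi => by rw [if_neg (Finset.ne_of_mem_erase hi)]
    rw [e]
    show x = (if w = w then 1 - s else u w) • pos0 w + ∑ x ∈ Finset.univ.erase w, u x • pos0 x
    rw [if_pos rfl]
    rw [← Finset.add_sum_erase _ _ (Finset.mem_univ w), sub_self, smul_zero, zero_add] at he
    simp only [smul_sub, Finset.sum_sub_distrib, ← Finset.sum_smul, ← hsd] at he
    rw [sub_smul, one_smul, sub_add_eq_add_sub, add_sub_assoc, ← he]
    abel

theorem near_iff (w : Fin 30) :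
    ∀ᶠ x in 𝓝 (pos0 w), (x ∈ body0 ↔ x - pos0 w ∈ fan (vsAt w.1) (linkF w.1)) := by
  filter_upwards [near_body w, near_fan w] with x h1 h2 using ⟨h1, h2⟩

theorem cube_compact : IsCompact (cube 3) := by
  refine Metric.isCompact_of_isClosed_isBounded ?_ ?_
  · have e : cube 3 = ⋂ i, {x : ES 3 | |x i| ≤ 1} := by
      ext x; simp [cube]
    rw [e]
    exact isClosed_iInter fun i => isClosed_le (by fun_prop) continuous_const
  · rw [isBounded_iff_forall_norm_le]
    refine ⟨Real.sqrt 5, fun x hx => ?_⟩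
    rw [EuclideanSpace.norm_eq]
    refine Real.sqrt_le_sqrt ?_
    have : ∀ i ∈ (Finset.univ : Finset (Fin 5)), ‖x i‖ ^ 2 ≤ 1 := fun i _ => by
      have := hx i
      rw [Real.norm_eq_abs]
      nlinarith [abs_nonneg (x i)]
    calc ∑ i : Fin 5, ‖x i‖ ^ 2 ≤ ∑ i : Fin 5, (1:ℝ) := Finset.sum_le_sum this
      _ = 5 := by simp

theorem loc_ball {K : Set E5} {q : E5} {φ : E5 ≃ₜ E5} (h1 : IsPL φ) (h2 : IsPL φ.symm)
    (hh : ∀ t : ℝ, 0 ≤ t → ∀ x, φ (t • x) = t • φ x)
    (hK : ∀ᶠ x in 𝓝 q, (x ∈ K ↔ φ (x - q) 3 = 0 ∧ φ (x - q) 4 = 0)) {ε : ℝ} (hε : 0 < ε) :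
    ∃ (B : Set E5) (Φ : E5 ≃ₜ E5), B ⊆ Metric.ball q ε ∧ q ∈ interior B ∧
      (∀ x ∈ B, ∀ t : ℝ, 0 ≤ t → t < 1 → q + t • (x - q) ∈ interior B) ∧
      StarConvex ℝ q (B ∩ K) ∧ IsPL Φ ∧ IsPL Φ.symm ∧ Φ '' B = cube 3 ∧ Φ '' (B ∩ K) = flatCube 3 := by
  obtain ⟨ρ, hρ, hρK⟩ := Metric.eventually_nhds_iff.1 (hK.and (Metric.ball_mem_nhds q hε))
  have φ0 : φ 0 = 0 := by
    have := hh 0 le_rfl 0
    rwa [zero_smul, zero_smul] at this
  obtain ⟨R, hR⟩ : ∃ R, ∀ y ∈ cube 3, ‖φ.symm y‖ ≤ R := by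
    obtain ⟨R, hR⟩ := isBounded_iff_forall_norm_le.1 (cube_compact.image φ.symm.continuous).isBounded
    exact ⟨R, fun y hy => hR _ ⟨y, hy, rfl⟩⟩
  have hR0 : 0 ≤ R := by
    have := hR 0 (fun i => by simp)
    exact (norm_nonneg _).trans this
  obtain ⟨r, hr, hrR⟩ : ∃ r : ℝ, 0 < r ∧ r * R < ρ := by
    refine ⟨ρ / (R + 1), by positivity, ?_⟩
    rw [div_mul_eq_mul_div, div_lt_iff₀ (by positivity)]
    nlinarith
  have hri : r⁻¹ ≠ 0 := inv_ne_zero hr.ne'
  set Φ : E5 ≃ₜ E5 := (Homeomorph.subRight q).trans (φ.trans (Homeomorph.smulOfNeZero r⁻¹ hri)) with hΦ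
  have Φa : ∀ x, Φ x = r⁻¹ • φ (x - q) := fun x => rfl
  have Φs : ∀ y, Φ.symm y = φ.symm ((r⁻¹)⁻¹ • y) + q := fun y => rfl
  have Φc : ∀ a b : ℝ, 0 ≤ a → 0 ≤ b → a + b = 1 → ∀ y, Φ (a • q + b • y) = b • Φ y := by
    intro a b ha hb hab y
    have : a • q + b • y - q = b • (y - q) := by
      rw [smul_sub]
      have : a = 1 - b := by linarith
      rw [this, sub_smul, one_smul]; abel
    rw [Φa, this, hh b hb, Φa, smul_comm]
  have hball : ∀ x, Φ x ∈ cube 3 → dist x q < ρ := by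
    intro x hx
    have e : φ (x - q) = r • Φ x := by rw [Φa, smul_smul, mul_inv_cancel₀ hr.ne', one_smul]
    have e2 : x - q = r • φ.symm (Φ x) := by
      apply φ.injective
      rw [hh r hr.le, φ.apply_symm_apply, e]
    rw [dist_eq_norm, e2, norm_smul, Real.norm_of_nonneg hr.le]
    exact (mul_le_mul_of_nonneg_left (hR _ hx) hr.le).trans_lt hrR
  have hflat : ∀ x, Φ x ∈ cube 3 → (x ∈ K ↔ Φ x 3 = 0 ∧ Φ x 4 = 0) := by
    intro x hx
    rw [(hρK (hball x hx)).1]
    have e : ∀ i, Φ x i = r⁻¹ * φ (x - q) i := fun i => rfl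
    rw [e, e, mul_eq_zero, mul_eq_zero]
    simp [hri]
  have cube_smul : ∀ b : ℝ, 0 ≤ b → b ≤ 1 → ∀ y ∈ cube 3, b • y ∈ cube 3 := by
    intro b hb hb1 y hy i
    show |b * y i| ≤ 1
    rw [abs_mul, abs_of_nonneg hb]
    exact mul_le_one₀ hb1 (abs_nonneg _) (hy i)
  have hint : ∀ x, (∀ i, |Φ x i| < 1) → x ∈ interior {x | Φ x ∈ cube 3} := by
    intro x hx
    rw [mem_interior]
    refine ⟨{x | ∀ i, |Φ x i| < 1}, fun x hx i => (hx i).le, ?_, hx⟩
    simp only [setOf_forall]
    refine isOpen_iInter_of_finite fun i => isOpen_lt ?_ continuous_const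
    have h : Continuous fun y : E5 => |y i| := by fun_prop
    exact h.comp Φ.continuous
  refine ⟨{x | Φ x ∈ cube 3}, Φ, ?_, ?_, ?_, ?_, ?_, ?_, ?_, ?_⟩
  · intro x hx
    exact (hρK (hball x hx)).2
  · apply hint
    intro i
    rw [Φa, sub_self, φ0, smul_zero]
    simp
  · intro x hx t ht ht1
    apply hint
    intro i
    have e : q + t • (x - q) = (1 - t) • q + t • x := by
      rw [smul_sub, sub_smul, one_smul]; abel
    rw [e, Φc (1 - t) t (by linarith) ht (by ring)]
    show |t * Φ x i| < 1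
    rw [abs_mul, abs_of_nonneg ht]
    have := hx i
    nlinarith [abs_nonneg (Φ x i)]
  · intro y hy a b ha hb hab
    have h3 : Φ (a • q + b • y) ∈ cube 3 := by
      rw [Φc a b ha hb hab]
      exact cube_smul b hb (by linarith) _ hy.1
    refine ⟨h3, ?_⟩
    rw [hflat _ h3, Φc a b ha hb hab]
    have := (hflat y hy.1).1 hy.2
    constructor
    · show b * Φ y 3 = 0
      rw [this.1, mul_zero]
    · show b * Φ y 4 = 0
      rw [this.2, mul_zero]
  · have h3 : IsPL (fun x : E5 => x - q) := by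
      have := isPL_affine (ContinuousLinearMap.id ℝ E5) (-q)
      simpa [sub_eq_add_neg] using this
    have h4 : IsPL (fun x : E5 => r⁻¹ • x) := by
      have := isPL_linear (r⁻¹ • ContinuousLinearMap.id ℝ E5)
      simpa using this
    exact h4.comp (h1.comp h3)
  · have h3 : IsPL (fun x : E5 => x + q) := by
      have := isPL_affine (ContinuousLinearMap.id ℝ E5) q
      simpa using this
    have h4 : IsPL (fun x : E5 => (r⁻¹)⁻¹ • x) := by
      have := isPL_linear ((r⁻¹)⁻¹ • ContinuousLinearMap.id ℝ E5)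
      simpa using this
    exact h3.comp (h2.comp h4)
  · exact image_preimage_eq _ Φ.surjective
  · ext y
    constructor
    · rintro ⟨x, ⟨hx, hxK⟩, rfl⟩
      refine ⟨hx, fun i hi => ?_⟩
      have := (hflat x hx).1 hxK
      have hi' : i = 3 ∨ i = 4 := by
        have h5 : ∀ i : Fin 5, 3 ≤ i.1 → i = 3 ∨ i = 4 := by decide
        exact h5 i hi
      rcases hi' with rfl | rfl
      · exact this.1
      · exact this.2
    · rintro ⟨hy, hy0⟩
      have hy' : Φ (Φ.symm y) ∈ cube 3 := by rw [Φ.apply_symm_apply]; exact hy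
      refine ⟨Φ.symm y, ⟨hy', (hflat _ hy').2 ?_⟩, Φ.apply_symm_apply y⟩
      rw [Φ.apply_symm_apply]
      exact ⟨hy0 3 (by decide), hy0 4 (by decide)⟩

/-- the image of the body under a linear isomorphism, as a polyhedral knot -/
noncomputable def KA (A : E5 ≃L[ℝ] E5) : PolyhedralKnot 3 where
  N := 30
  facets := FK
  vertex i := by
    obtain ⟨l, hl, hi⟩ := exists_facet i
    exact ⟨toFS l, mem_FK.2 ⟨l, hl, rfl⟩, mem_toFS.2 hi⟩
  sphere := FK_sphere
  pos i := A (pos0 i)
  inj := by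
    intro w hw w' hw' he
    apply inj0 hw hw'
    apply A.injective
    simpa only [map_sum, map_smul] using he

theorem KA_body (A : E5 ≃L[ℝ] E5) : (KA A).body = A '' body0 := by
  rw [body0, image_image]
  show (fun w : Fin 30 → ℝ => ∑ i, w i • A (pos0 i)) '' realization FK = _
  refine image_congr fun w _ => ?_
  simp only [map_sum, map_smul]

theorem KA_knotted (A : E5 ≃L[ℝ] E5) : ¬ (KA A).Unknotted := by
  rintro ⟨Φ, hΦ⟩
  refine body_knotted ⟨A.toHomeomorph.trans Φ, ?_⟩
  rw [← hΦ, KA_body, image_image]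
  rfl

theorem KA_loc (A : E5 ≃L[ℝ] E5) : (KA A).LocallyUnknotted := by
  intro v ε hε
  obtain ⟨φ, h1, h2, h3, h4⟩ := exists_loc v
  have hf : ∀ y, y ∈ fan (vsAt v.1) (linkF v.1) ↔ φ y 3 = 0 ∧ φ y 4 = 0 := by
    intro y
    constructor
    · intro h
      have : φ y ∈ {x : E5 | x 3 = 0 ∧ x 4 = 0} := by rw [← h4]; exact ⟨y, h, rfl⟩
      exact this
    · intro h
      have : φ y ∈ φ '' fan (vsAt v.1) (linkF v.1) := by rw [h4]; exact h
      obtain ⟨z, hz, e⟩ := this
      rw [← φ.injective e]; exact hz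
  have key := loc_ball (K := (KA A).body) (q := A (pos0 v)) (φ := A.symm.toHomeomorph.trans φ) (ε := ε)
    (h1.comp (isPL_linear (A.symm : E5 →L[ℝ] E5))) ((isPL_linear (A : E5 →L[ℝ] E5)).comp h2)
    (fun t ht x => by
      show φ (A.symm (t • x)) = t • φ (A.symm x)
      rw [map_smul, h3 t ht]) ?_ hε
  · exact key
  · have h5 := near_iff v
    have h6 : Tendsto A.symm (𝓝 (A (pos0 v))) (𝓝 (pos0 v)) := by
      have := A.symm.continuous.tendsto (A (pos0 v))
      rwa [A.symm_apply_apply] at this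
    filter_upwards [h6.eventually h5] with x hx
    have e : x ∈ (KA A).body ↔ A.symm x ∈ body0 := by
      rw [KA_body]
      constructor
      · rintro ⟨y, hy, rfl⟩
        rw [A.symm_apply_apply]; exact hy
      · intro h
        exact ⟨_, h, A.apply_symm_apply x⟩
    rw [e, hx, hf]
    have e2 : (A.symm.toHomeomorph.trans φ) (x - A (pos0 v)) = φ (A.symm x - pos0 v) := by
      show φ (A.symm (x - A (pos0 v))) = _
      rw [map_sub, A.symm_apply_apply]
    rw [e2]

end Pool.Agent.H755
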