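import Pool.Agent.H755.Cx
import Pool.Agent.H755.Homol

/-! Acyclic matchings for the two main directions. -/

set_option autoImplicit false
set_option maxHeartbeats 4000000
set_option linter.deprecated false
set_option linter.unusedVariables false
set_option linter.unusedSimpArgs false
set_option linter.style.longLine false
set_option maxRecDepth 100000

namespace Pool.Agent.H755

open Set

/-- the main direction -/
def xi0 : Z5 := ⟨90, 190, -168, 20400, 20001⟩

def rkP : List ℕ := [11, 14, 12, 16, 10, 18, 15, 17, 13, 19, 26, 22, 23, 25, 8, 5, 2, 1, 4, 6, 7, 3, 21, 24, 27, 28, 20, 29, 9, 0]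
def rkM : List ℕ := [18, 15, 17, 13, 19, 11, 14, 12, 16, 10, 3, 7, 6, 4, 21, 24, 27, 28, 25, 23, 22, 26, 8, 5, 2, 1, 9, 0, 20, 29]

def matP : List (List (ℕ × ℕ)) := [
  [(536887297, 536952833), (268435457, 268697601), (262145, 537133057), (16385, 81921), 
   (65537, 536936449), (1, 536870913)],
  [(268435462, 268959750), (268435459, 268697603), (65539, 536936451), (65542, 536936454), 
   (268959746, 269221890), (786434, 537657346), (524294, 537395206), (537133058, 537133059), 
   (65538, 536936450), (6, 536870918), (268435458, 268697602), (524290, 537395202), 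
   (536870914, 536870915), (3, 262147), (2, 262146)],
  [(269484036, 270008324), (536936452, 536952836), (537395204, 538443780), 
   (268435460, 268959748), (524292, 1572868), (65540, 81924), (16388, 536887300), 
   (1048580, 537919492), (4, 536870916)],
  [(268435468, 269484044), (131096, 537002008), (16396, 536887308), (536870936, 538968088), 
   (2097176, 270532632), (538968072, 540016648), (1048588, 537919500), (147464, 537018376), 
   (269484040, 271581192), (12, 536870924), (24, 268435480), (16392, 536887304), 
   (268435464, 270532616), (2097160, 3145736), (1048584, 537919496), (131080, 537001992), 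
   (8, 536870920)],
  [(536903696, 537034768), (32784, 163856), (268435472, 270532624), (131088, 537002000), 
   (536870928, 538968080), (16, 2097168)],
  [(268435552, 270532704), (32816, 536903728), (2097248, 538968160), (270532640, 270532656), 
   (2097200, 538968112), (536903712, 536903776), (32800, 32864), (2097184, 538968096), 
   (268435488, 268435504), (96, 536871008), (536870944, 536870960), (32, 48)],
  [(268435520, 270532672), (32832, 536903744), (536870976, 538968128), (64, 2097216)],
  [(268435840, 269484416), (1048960, 537919872), (269484160, 271581312), 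
   (537919616, 540016768), (32960, 536903872), (268435648, 270532800), (536871104, 538968256), 
   (536903808, 536904064), (268435584, 270532736), (1048704, 3145856), (192, 2097344), 
   (32896, 33152), (2097280, 538968192), (384, 536871296), (128, 536871040)],
  [(537395456, 538444032), (536903936, 537035008), (269484288, 270008576), 
   (268435712, 268960000), (33024, 164096), (131328, 537002240), (536871168, 537919744), 
   (1048832, 1573120), (256, 524544)],
  [(147968, 537018880), (16897, 536887809), (268436224, 268960512), (537002496, 537002752), 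
   (525056, 537395968), (268435969, 268698113), (268960256, 269222400), (536871425, 537133569), 
   (537133568, 537657856), (513, 262657), (268435968, 268698112), (16896, 536887808), 
   (131584, 131840), (768, 536871680), (262656, 786944), (524800, 537395712), (512, 536871424)],
  [(1537, 67110401), (67109889, 67109891), (67109890, 67111938), (67110400, 67112448), 
   (67109888, 67111936), (1536, 3584), (1025, 1027), (1026, 3074), (1024, 3072)],
  [(2054, 67110918), (2816, 67111680), (2304, 67111168), (2050, 67110914), (2052, 67110916), 
   (67110912, 67111424), (2048, 2560)],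
  [(4108, 67112972), (67113088, 67113344), (6148, 67115012), (67113216, 67115264), 
   (4104, 67112968), (4100, 67112964), (67112960, 67115008), (4224, 4480), (6144, 6400), 
   (4096, 4352)],
  [(8240, 67117104), (12296, 67121160), (12416, 67121280), (8288, 67117152), (8216, 67117080), 
   (67117184, 67117248), (12288, 67121152), (8208, 67117072), (8200, 67117064), (8320, 8384), 
   (8256, 67117120), (8224, 67117088), (8192, 67117056)],
  [(147456, 537018368), (81920, 536952832), (16384, 536887296)],
  [(536903680, 537034752), (32768, 163840)],
  [(65536, 536936448)],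
  [(131072, 537001984)],
  [(262144, 537133056)],
  [(786432, 537657344), (524288, 537395200)],
  [(1572864, 538443776), (537919488, 540016640), (1048576, 3145728)],
  [(2097152, 538968064)],
  [(272630272, 272630273), (272629768, 272629772), (4194312, 4194316), (4194308, 272629764), 
   (4194816, 4194817), (4194305, 272629761), (4194304, 272629760)],
  [(276824320, 276824448), (276824080, 276824112), (8388704, 276824160), 
   (276824128, 276824256), (8388624, 8388656), (8388640, 276824096), (276824064, 276824192), 
   (8388672, 8388800), (8388864, 8388992), (8388608, 8388736)],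
  [(20971524, 289406980), (16777219, 285212675), (16777222, 285212678), (20971521, 289406977), 
   (16777220, 285212676), (20971520, 289406976), (16777217, 285212673), (285212672, 285212674), 
   (16777216, 16777218)],
  [(37748744, 306184200), (33554456, 301989912), (37749248, 306184704), (41943296, 310378752), 
   (301990144, 301990656), (310378496, 310378512), (37748736, 306184192), 
   (33554440, 301989896), (41943040, 41943056), (33554688, 33555200), (33554944, 301990400), 
   (301989888, 301989904), (33554432, 33554448)],
  [(67108912, 67141680), (67109056, 67141824), (67108960, 67141728), (67108876, 67125260), 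
   (67109632, 67240704), (67109248, 67142016), (67108867, 67174403), (67240192, 67272960), 
   (67108870, 67174406), (67125256, 67256328), (67272704, 67272720), (67256320, 67256832), 
   (67174404, 67190788), (67239952, 67239960), (67174401, 67190785), (67125760, 67125761), 
   (67108868, 67125252), (67108928, 67141696), (67108992, 67141760), (67108896, 67141664), 
   (67109120, 67141888), (67141632, 67141648), (67108866, 67174402), (67108880, 67108888), 
   (67174400, 67190784), (67108872, 67239944), (67239936, 67240448), (67109376, 67109377), 
   (67108865, 67125249), (67108864, 67125248)],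
  [(134217752, 167772184), (134225928, 134230024), (134225936, 134225968), 
   (134225952, 134226016), (134217824, 142606432), (134221832, 134221836), 
   (134230016, 134230144), (134221952, 134222208), (134217740, 138412044), 
   (138412036, 155189252), (167772168, 171966472), (171966464, 171966976), 
   (134217776, 142606384), (142606352, 176160784), (134225984, 134226112), 
   (167772672, 167772928), (167772416, 176161024), (155189248, 155189249), 
   (134221828, 134223876), (138412544, 138412545), (134218112, 142606720), 
   (150994948, 150994950), (134222080, 134224128), (134218496, 134220544), 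
   (134217920, 142606528), (134219780, 134219782), (150994945, 150994947), 
   (134220288, 134221312), (134219778, 134220802), (134218754, 134218755), 
   (134219264, 134219265), (134225920, 134226048), (150994944, 150994946), 
   (134218240, 134218241), (134217856, 142606464), (134217732, 134217734), 
   (134217744, 167772176), (167772160, 176160768), (134217736, 138412040), 
   (134217792, 142606400), (134217730, 134217731), (138412032, 138412033), 
   (134217729, 134218753), (134217760, 142606368), (142606336, 142606592), 
   (134217984, 134220032), (134221824, 134223872), (134218752, 134220800), 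
   (134217728, 134219776)],
  [(270532608, 271581184), (268697600, 269221888), (268959744, 270008320), 
   (268435456, 269484032)],
  []]

def matM : List (List (ℕ × ℕ)) := [
  [(20971521, 155189249), (67109377, 67110401), (67109889, 67109891), (4194817, 138412545), 
   (150994945, 150994947), (1027, 134218755), (1537, 134219265), (67108865, 67108867), 
   (4194305, 138412033), (1025, 134218753), (16777217, 16777219), (3, 134217731), 
   (134217729, 134218241), (1, 513)],
  [(67109890, 67111938), (3074, 134220802), (16777218, 150994946), (67108866, 67110914), 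
   (2050, 134219778), (1026, 134218754), (2, 134217730)],
  [(67108876, 67112972), (4108, 134221836), (16777222, 150994950), (134221828, 134223876), 
   (134219780, 134219782), (150994948, 155189252), (134217740, 138412044), (6148, 67115012), 
   (67110916, 67110918), (12, 4194316), (4100, 67112964), (67108868, 67108870), 
   (16777220, 20971524), (2052, 2054), (6, 134217734), (134217732, 138412036), (4, 4194308)],
  [(134221832, 134230024), (67112968, 67121160), (138412040, 171966472), (4104, 12296), 
   (67108872, 67117064), (8200, 134225928), (4194312, 37748744), (134217736, 167772168), 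
   (8, 33554440)],
  [(67108888, 67117080), (67117072, 67117104), (8240, 134225968), (8216, 134225944), 
   (134217776, 142606384), (142606352, 176160784), (33554456, 167772184), (24, 134217752), 
   (67108880, 67108912), (8208, 134225936), (48, 8388656), (8388624, 41943056), 
   (134217744, 167772176), (16, 33554448)],
  [(8388640, 142606368), (67108896, 67117088), (134217760, 134225952), (32, 8224)],
  [(67109056, 67117248), (8384, 134226112), (8388704, 142606432), (142606400, 142606528), 
   (67108960, 67117152), (134217824, 134226016), (8388672, 8388800), (96, 8288), 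
   (192, 134217920), (134217792, 134225984), (8256, 67117120), (64, 67108928)],
  [(134221952, 134230144), (67117184, 67121280), (67108992, 67113088), (8388736, 142606464), 
   (4224, 12416), (8320, 134226048), (128, 134217856)],
  [(33555200, 167772928), (67109248, 67113344), (4480, 134222208), (8388992, 142606720), 
   (167772416, 176161024), (67109632, 67111680), (67111168, 67115264), (6400, 134224128), 
   (2816, 134220544), (2304, 134220032), (384, 134218112), (67109120, 67113216), 
   (33554688, 41943296), (768, 134218496), (4352, 134222080), (8388864, 142606592), 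
   (256, 134217984)],
  [(167772672, 171966976), (67111424, 67112448), (134219264, 134221312), (67109376, 67110400), 
   (1536, 3584), (2560, 134220288), (33554944, 37749248), (4194816, 138412544), (512, 134218240)],
  [(1024, 134218752)],
  [(3072, 134220800), (134219776, 134223872), (2048, 6144)],
  [(12288, 134230016), (4096, 134221824)],
  [(8192, 134225920)],
  [(16897, 67125761), (67125252, 67125260), (16896, 67125760), (16388, 16396), 
   (16385, 67125249), (16392, 67125256), (16384, 67125248)],
  [(32864, 67141728), (32816, 67141680), (67141888, 67142016), (67141760, 67141824), 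
   (32800, 67141664), (32784, 67141648), (33024, 33152), (32896, 32960), (67141632, 67141696), 
   (32768, 32832)],
  [(65542, 67174406), (67174402, 67174403), (67174404, 67190788), (67190784, 67190785), 
   (67174400, 67174401), (65540, 81924), (81920, 81921), (65537, 65539), (65536, 65538)],
  [(163856, 67272720), (131840, 67240704), (164096, 67272960), (67240448, 67256832), 
   (67256320, 67256328), (67239944, 67239960), (131584, 147968), (147456, 147464), 
   (131328, 67240192), (163840, 67272704), (67239936, 67239952), (131080, 131096), 
   (131072, 131088)],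
  [(262657, 268698113), (268697601, 268697603), (786434, 269221890), (268698112, 269222400), 
   (262145, 262147), (262146, 268697602), (262656, 786944), (786432, 269221888), 
   (262144, 268697600)],
  [(1572868, 270008324), (268960256, 268960512), (524294, 268959750), (268960000, 270008576), 
   (524290, 268959746), (524800, 525056), (524292, 268959748), (524544, 1573120), 
   (268959744, 270008320), (524288, 1572864)],
  [(269484288, 269484416), (269484040, 269484044), (1048832, 1048960), (1048584, 1048588), 
   (1048580, 269484036), (1048704, 269484160), (1048576, 269484032)],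
  [(2097176, 270532632), (2097248, 270532704), (270532640, 270532656), (3145856, 271581312), 
   (270532736, 270532800), (271581184, 271581192), (2097280, 2097344), (3145728, 3145736), 
   (2097160, 270532616), (2097184, 2097200), (2097168, 270532624), (2097216, 270532672), 
   (2097152, 270532608)],
  [(37748736, 171966464), (20971520, 155189248), (4194304, 138412032)],
  [(41943040, 176160768), (8388608, 142606336)],
  [(16777216, 150994944)],
  [(33554432, 167772160)],
  [(67117056, 67121152), (67112960, 67115008), (67109888, 67111936), (67108864, 67110912)],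
  [],
  [(268435462, 285212678), (268435459, 285212675), (268435969, 272630273), 
   (272630272, 306184704), (285212676, 289406980), (289406976, 289406977), 
   (306184192, 306184200), (268435504, 276824112), (276824096, 276824160), 
   (272629768, 272629772), (301990400, 301990656), (268435840, 276824448), 
   (268435480, 301989912), (268435648, 276824256), (301990144, 310378752), 
   (310378496, 310378512), (268435968, 268436224), (268435712, 276824320), 
   (268435488, 268435552), (268435584, 276824192), (268435520, 276824128), 
   (276824064, 276824080), (268435472, 301989904), (301989888, 301989896), 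
   (268435464, 268435468), (268435460, 272629764), (268435458, 285212674), 
   (285212672, 285212673), (268435457, 272629761), (268435456, 272629760)],
  [(538443776, 538443780), (537395204, 537395206), (537919492, 537919500), 
   (536870918, 536936454), (536936452, 536952836), (536952832, 536952833), 
   (537395456, 537395968), (536870924, 536887308), (536887297, 536887809), 
   (536887304, 537018376), (537001992, 537002008), (536870936, 538968088), 
   (536887808, 537018880), (537002000, 537034768), (536871680, 537002752), 
   (537002240, 537035008), (536903696, 536903728), (536871425, 537133569), 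
   (536903936, 536904064), (536936450, 536936451), (537395202, 537657346), 
   (537133058, 537133059), (537657344, 537657856), (536871296, 537919872), 
   (536870960, 538968112), (538968096, 538968160), (536903808, 536903872), 
   (537919496, 540016648), (536903744, 536903776), (540016640, 540016768), 
   (538968128, 538968256), (536870928, 538968080), (536870916, 536887300), 
   (536871168, 537919744), (536887296, 537018368), (536870914, 536870915), 
   (536870920, 538968072), (537395200, 537395712), (536936448, 536936449), 
   (536870913, 537133057), (538968064, 538968192), (537133056, 537133568), 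
   (536871424, 537002496), (537919488, 537919616), (537001984, 537034752), 
   (536903680, 536903712), (536871040, 536871104), (536870944, 536871008), 
   (536870912, 536870976)]]

def crP : List (List ℕ) := [[], [], [], [], [], [], [], [], [], [], [], [], [], [], [], [], [], [], [], [], [], [], [], [], [], [], [], [134225944], [], [536870912]]
def crM : List (List ℕ) := [[], [], [], [], [], [], [], [], [], [], [], [], [], [], [], [], [], [], [], [], [], [], [], [], [], [], [], [134217728], [], [538444032]]

def rkA (rk : List ℕ) (i : ℕ) : ℕ := rk.getD i 0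

/-- masks of the subsets of a list -/
def subs : List ℕ → List ℕ
  | [] => [0]
  | a :: l => subs l ++ (subs l).map fun s => 2 ^ a ||| s

def pw (a : ℕ) : List (ℕ × ℕ) → Bool
  | [] => true
  | q :: l => (q.2 &&& a != a) && pw a l

def pwAll : List (ℕ × ℕ) → Bool
  | [] => true
  | p :: l => pw p.1 l && pwAll l

def chkP (rk : List ℕ) (v : ℕ) (p : ℕ × ℕ) : Bool :=
  decide (p.1 < 2 ^ 30) && decide (p.1 ≠ 0) && p.1.testBit v &&
    ((List.range 30).any fun j => !(p.1.testBit j) && p.2 == p.1 ||| 2 ^ j) &&
    (fmasks.any fun f => f &&& p.2 == p.2) &&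
    ((List.range 30).all fun j => !(p.2.testBit j) || decide (rkA rk j ≤ rkA rk v))

def chkV (rk : List ℕ) (M : List (ℕ × ℕ)) (C : List ℕ) (v : ℕ) : Bool :=
  pwAll M && M.all (chkP rk v) &&
  (facets.all fun l => !(l.elem v) || ((subs (l.filter fun j => decide (rkA rk j < rkA rk v))).all fun s =>
    C.elem (2 ^ v ||| s) || M.any fun p => p.1 == 2 ^ v ||| s || p.2 == 2 ^ v ||| s))

def chkDir (rk : List ℕ) (M : List (List (ℕ × ℕ))) (C : List (List ℕ)) : Bool :=
  ((List.range 30).all fun v => chkV rk (M.getD v []) (C.getD v []) v) &&
  ((List.range 30).all fun i => (List.range 30).all fun j => (i == j) || (rkA rk i != rkA rk j))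

theorem chkDirP : chkDir rkP matP crP = true := by decide +kernel
theorem chkDirM : chkDir rkM matM crM = true := by decide +kernel

def htsOK : Bool := (List.range 30).all fun i => (List.range 30).all fun j =>
  (decide (xi0.dot (verts0 i) < xi0.dot (verts0 j)) == decide (rkA rkP i < rkA rkP j)) &&
  (decide (xi0.dot (verts0 j) < xi0.dot (verts0 i)) == decide (rkA rkM i < rkA rkM j))

theorem chk_hts : htsOK = true := by decide +kernel

theorem bits_insert {s a : ℕ} (ha : a < 30) : bits (2 ^ a ||| s) = insert ⟨a, ha⟩ (bits s) := by
  ext i
  rw [mem_bits, Nat.testBit_or, Nat.testBit_two_pow, Finset.mem_insert, mem_bits, Bool.or_eq_true,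
    decide_eq_true_eq, Fin.ext_iff]
  exact ⟨fun h => h.imp Eq.symm id, fun h => h.imp Eq.symm id⟩

theorem subs_spec : ∀ (l : List ℕ) (σ : Finset (Fin 30)), (∀ i ∈ σ, i.1 ∈ l) → ∃ s ∈ subs l, bits s = σ
  | [], σ, h => ⟨0, by simp [subs], by
      rw [Finset.eq_empty_of_forall_notMem (s := σ) fun i hi => by simpa using h i hi]
      ext i; simp [mem_bits]⟩
  | a :: l, σ, h => by
    by_cases ha : ∃ i ∈ σ, i.1 = a
    · obtain ⟨i, hi, rfl⟩ := ha
      obtain ⟨s, hs, hs2⟩ := subs_spec l (σ.erase i) (fun j hj => by
        rw [Finset.mem_erase] at hj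
        rcases List.mem_cons.1 (h j hj.2) with h1 | h1
        · exact absurd (Fin.ext h1) hj.1
        · exact h1)
      refine ⟨2 ^ i.1 ||| s, List.mem_append_right _ (List.mem_map.2 ⟨s, hs, rfl⟩), ?_⟩
      rw [bits_insert i.2, hs2]
      exact Finset.insert_erase hi
    · obtain ⟨s, hs, hs2⟩ := subs_spec l σ (fun j hj => by
        rcases List.mem_cons.1 (h j hj) with h1 | h1
        · exact absurd ⟨j, hj, h1⟩ ha
        · exact h1)
      exact ⟨s, List.mem_append_left _ hs, hs2⟩

theorem pw_iff {a : ℕ} : ∀ {l : List (ℕ × ℕ)}, pw a l = true → ∀ q ∈ l, ¬ q.2 &&& a = a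
  | [], _, q, hq => absurd hq (by simp)
  | p :: l, h, q, hq => by
    rw [pw, Bool.and_eq_true, bne_iff_ne] at h
    rcases List.mem_cons.1 hq with rfl | hq
    · exact h.1
    · exact pw_iff h.2 q hq

theorem pwAll_iff : ∀ {l : List (ℕ × ℕ)}, pwAll l = true → l.Pairwise fun p q => ¬ q.2 &&& p.1 = p.1
  | [], _ => List.Pairwise.nil
  | p :: l, h => by
    rw [pwAll, Bool.and_eq_true] at h
    exact List.pairwise_cons.2 ⟨pw_iff h.1, pwAll_iff h.2⟩

theorem face_mask {s f : ℕ} (hf : f ∈ fmasks) (h : f &&& s = s) : ∃ τ ∈ FK, bits s ⊆ τ := by
  refine ⟨bits f, ?_, fun i hi => ?_⟩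
  · have h2 : bits f ∈ (FK : Set (Finset (Fin 30))) := by
      rw [FK_eq]; exact ⟨f, hf, rfl⟩
    exact Finset.mem_coe.1 h2
  · rw [mem_bits] at hi ⊢
    rw [← h, Nat.testBit_and, Bool.and_eq_true] at hi
    exact hi.1

section

variable (F : Type) [Field F]

theorem vertex_le {rk : List ℕ} {M : List (ℕ × ℕ)} {C : List ℕ} {v : Fin 30} (hc : chkV rk M C v.1 = true)
    (hinj : ∀ i j : Fin 30, rkA rk i = rkA rk j → i = j) {h : Fin 30 → ℝ}
    (hh : ∀ i j : Fin 30, h i < h j ↔ rkA rk i < rkA rk j) :
    ∑ i ∈ Finset.range 30, relBetti F {σ | IsFace FK σ ∧ ∀ j ∈ σ, h j ≤ h v}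
      {σ | IsFace FK σ ∧ ∀ j ∈ σ, h j < h v} i ≤ C.length := by
  classical
  simp only [chkV, Bool.and_eq_true, List.all_eq_true] at hc
  obtain ⟨⟨h1, h2⟩, h3⟩ := hc
  have hle : ∀ i j : Fin 30, h i ≤ h j ↔ rkA rk i ≤ rkA rk j := fun i j => by
    rw [← not_lt, hh, not_lt]
  have hP : ∀ p ∈ M, p.1 < 2 ^ 30 ∧ p.1 ≠ 0 ∧ v ∈ bits p.1 ∧
      (∃ j : Fin 30, j ∉ bits p.1 ∧ bits p.2 = insert j (bits p.1)) ∧ (∃ τ ∈ FK, bits p.2 ⊆ τ) ∧
      ∀ j ∈ bits p.2, rkA rk j.1 ≤ rkA rk v.1 := by
    intro p hp
    have h4 := h2 p hp
    simp only [chkP, Bool.and_eq_true, decide_eq_true_eq, List.any_eq_true, List.all_eq_true, Bool.or_eq_true,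
      Bool.not_eq_true', List.mem_range, beq_iff_eq] at h4
    obtain ⟨⟨⟨⟨⟨a1, a2⟩, a3⟩, j, hj, a4, a4'⟩, f, hf, a5⟩, a6⟩ := h4
    refine ⟨a1, a2, mem_bits.2 a3, ⟨⟨j, hj⟩, ?_, ?_⟩, face_mask hf a5, fun i hi => ?_⟩
    · rw [mem_bits]
      show ¬ p.1.testBit j = true
      rw [a4]; simp
    · rw [a4', Nat.or_comm, bits_insert hj]
    · rcases a6 i.1 i.2 with h5 | h5
      · rw [mem_bits, h5] at hi
        exact absurd hi (by simp)
      · exact h5
  have key := sum_relBetti_le F (L := {σ | IsFace FK σ ∧ ∀ j ∈ σ, h j ≤ h v})
    (L₀ := {σ | IsFace FK σ ∧ ∀ j ∈ σ, h j < h v}) (M := M.map fun p => (bits p.1, bits p.2))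
    (C := (C.map bits).toFinset) (fun σ hσ => ⟨hσ.1, fun j hj => (hσ.2 j hj).le⟩)
    ?_ ?_ ?_ ?_ ?_ ?_ 30
  · refine key.trans ((List.toFinset_card_le _).trans ?_)
    rw [List.length_map]
  · rintro σ ⟨⟨a1, τ', a2, a3⟩, a4⟩ τ hτ hne
    exact ⟨⟨Finset.nonempty_iff_ne_empty.2 hne, τ', a2, hτ.trans a3⟩, fun j hj => a4 j (hτ hj)⟩
  · rintro σ ⟨⟨a1, τ', a2, a3⟩, a4⟩ τ hτ hne
    exact ⟨⟨Finset.nonempty_iff_ne_empty.2 hne, τ', a2, hτ.trans a3⟩, fun j hj => a4 j (hτ hj)⟩
  · rw [Mat, List.pairwise_map]
    refine (pwAll_iff h1).imp_of_mem fun {p q} hp hq hpq => ?_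
    show ¬ bits p.1 ⊆ bits q.2
    rw [bits_sub (hP p hp).1]
    exact hpq
  · intro p hp
    obtain ⟨q, hq, rfl⟩ := List.mem_map.1 hp
    obtain ⟨a1, a2, a3, a4, a5, a6⟩ := hP q hq
    exact ⟨Finset.nonempty_iff_ne_empty.1 ⟨v, a3⟩, a4⟩
  · intro p hp
    obtain ⟨q, hq, rfl⟩ := List.mem_map.1 hp
    obtain ⟨a1, a2, a3, ⟨j, a4, a4'⟩, a5, a6⟩ := hP q hq
    refine ⟨⟨⟨?_, a5⟩, fun j hj => (hle j v).2 (a6 j hj)⟩, fun h5 => lt_irrefl _ (h5.2 v a3)⟩
    show (bits q.2).Nonempty
    rw [a4']; exact Finset.insert_nonempty _ _
  · rintro σ ⟨⟨a1, τ, a2, a3⟩, a4⟩ hσ0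
    obtain ⟨l, hl, rfl⟩ := mem_FK.1 a2
    have hv : v ∈ σ := by
      by_contra hv
      apply hσ0
      refine ⟨⟨a1, toFS l, a2, a3⟩, fun j hj => lt_of_le_of_ne (a4 j hj) fun h5 => ?_⟩
      have h6 : j = v := by
        apply hinj
        apply le_antisymm
        · exact (hle j v).1 h5.le
        · exact (hle v j).1 h5.ge
      exact hv (h6 ▸ hj)
    have hvl : v.1 ∈ l := mem_toFS.1 (a3 hv)
    obtain ⟨s, hs, hs2⟩ := subs_spec (l.filter fun j => decide (rkA rk j < rkA rk v.1)) (σ.erase v) (fun j hj => by
      rw [Finset.mem_erase] at hj
      rw [List.mem_filter, decide_eq_true_eq]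
      refine ⟨mem_toFS.1 (a3 hj.2), lt_of_le_of_ne ((hle j v).1 (a4 j hj.2)) fun h5 => hj.1 (hinj j v h5)⟩)
    have hσ : bits (2 ^ v.1 ||| s) = σ := by
      rw [bits_insert v.2, hs2]
      exact Finset.insert_erase hv
    have h5 := h3 l hl
    rw [Bool.or_eq_true] at h5
    rcases h5 with h5 | h5
    · rw [List.elem_eq_mem] at h5
      simp [hvl] at h5
    · rw [List.all_eq_true] at h5
      have h6 := h5 s hs
      simp only [Bool.or_eq_true, List.elem_eq_mem, decide_eq_true_eq, List.any_eq_true, beq_iff_eq] at h6
      rcases h6 with h6 | ⟨p, hp, h6 | h6⟩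
      · left
        rw [List.mem_toFinset, List.mem_map]
        exact ⟨_, h6, hσ⟩
      · right; left
        refine ⟨_, List.mem_map.2 ⟨p, hp, rfl⟩, ?_⟩
        show bits p.1 = σ
        rw [h6, hσ]
      · right; right
        refine ⟨_, List.mem_map.2 ⟨p, hp, rfl⟩, ?_⟩
        show bits p.2 = σ
        rw [h6, hσ]

theorem dir_le {rk : List ℕ} {M : List (List (ℕ × ℕ))} {C : List (List ℕ)} (hc : chkDir rk M C = true)
    (hC : ∑ v : Fin 30, (C.getD v.1 []).length ≤ 2) {h : Fin 30 → ℝ}
    (hh : ∀ i j : Fin 30, h i < h j ↔ rkA rk i < rkA rk j) : critCount F FK h ≤ 2 := by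
  rw [chkDir, Bool.and_eq_true, List.all_eq_true, List.all_eq_true] at hc
  refine le_trans (Finset.sum_le_sum fun v _ => ?_) hC
  refine vertex_le F (hc.1 v.1 (List.mem_range.2 v.2)) (fun i j hij => ?_) hh
  have h2 := hc.2 i.1 (List.mem_range.2 i.2)
  rw [List.all_eq_true] at h2
  have h3 := h2 j.1 (List.mem_range.2 j.2)
  rw [Bool.or_eq_true, beq_iff_eq, bne_iff_ne] at h3
  rcases h3 with h3 | h3
  · exact Fin.ext h3
  · exact absurd hij h3

/-- the height of a vertex in the main direction -/
def hgt (i : Fin 30) : ℤ := xi0.dot (verts0 i.1)

theorem hgt_spec (i j : Fin 30) : (hgt i < hgt j ↔ rkA rkP i < rkA rkP j) ∧ (hgt j < hgt i ↔ rkA rkM i < rkA rkM j) := by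
  have h := chk_hts
  rw [htsOK, List.all_eq_true] at h
  have h2 := h i.1 (List.mem_range.2 i.2)
  rw [List.all_eq_true] at h2
  have h3 := h2 j.1 (List.mem_range.2 j.2)
  rw [Bool.and_eq_true, beq_iff_eq, beq_iff_eq, decide_eq_decide, decide_eq_decide] at h3
  exact h3

theorem critP {h : Fin 30 → ℝ} (hh : ∀ i j : Fin 30, h i < h j ↔ hgt i < hgt j) : critCount F FK h ≤ 2 :=
  dir_le F chkDirP (by decide +kernel) fun i j => (hh i j).trans (hgt_spec i j).1

theorem critM {h : Fin 30 → ℝ} (hh : ∀ i j : Fin 30, h i < h j ↔ hgt j < hgt i) : critCount F FK h ≤ 2 :=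
  dir_le F chkDirM (by decide +kernel) fun i j => (hh i j).trans (hgt_spec i j).2

end

end Pool.Agent.H755
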