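import Mathlib

/-! Combinatorial data: an arrangement of six planes around a five-stick trefoil arc, with labels
in the symmetric group on three letters. Everything is checked by the kernel. -/

set_option autoImplicit false
set_option linter.style.longLine false
set_option maxHeartbeats 4000000

namespace Pool.Agent.H755.Mach

abbrev Z4 := ℤ × ℤ × ℤ × ℤ

/-- the six affine functions -/
def pl : List Z4 := [(2,-2,1,4), (-11,-27,61,-250), (-3,-3,5,-10), (1,1,1,-2), (1,3,5,-26), (1,-1,0,-2)]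

/-- `(c, cz, c0)`: `∑ c i * f i + cz * z + c0 = 0` -/
def circ : List (List ℤ × ℤ × ℤ) := [([-1,0,0,0,0,2],1,8), ([104,-7,0,-437,152,0],0,912), ([0,25,-217,0,-88,-288],0,1216), ([0,1,-29,-84,8,0],128,0)]

/-- sign vectors realized in the half space -/
def cov : List (List ℤ) :=
  [[-1,-1,-1,-1,-1,-1], [-1,-1,-1,-1,0,-1], [-1,-1,-1,-1,1,-1], [-1,-1,-1,0,-1,-1], 
   [-1,-1,-1,0,0,-1], [-1,-1,-1,0,1,-1], [-1,-1,-1,1,-1,-1], [-1,-1,-1,1,0,-1], 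
   [-1,-1,-1,1,1,-1], [-1,-1,0,-1,-1,-1], [-1,-1,0,-1,0,-1], [-1,-1,0,-1,1,-1], 
   [-1,-1,0,0,-1,-1], [-1,-1,0,0,0,-1], [-1,-1,0,0,1,-1], [-1,-1,0,1,-1,-1], [-1,-1,0,1,0,-1], 
   [-1,-1,0,1,1,-1], [-1,-1,1,-1,-1,-1], [-1,-1,1,-1,0,-1], [-1,-1,1,-1,1,-1], [-1,-1,1,0,-1,-1], 
   [-1,-1,1,0,0,-1], [-1,-1,1,0,1,-1], [-1,-1,1,1,-1,-1], [-1,-1,1,1,0,-1], [-1,-1,1,1,1,-1], 
   [-1,0,-1,1,1,-1], [-1,0,0,1,1,-1], [-1,0,1,-1,-1,-1], [-1,0,1,-1,0,-1], [-1,0,1,-1,1,-1], 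
   [-1,0,1,0,-1,-1], [-1,0,1,0,0,-1], [-1,0,1,0,1,-1], [-1,0,1,1,-1,-1], [-1,0,1,1,0,-1], 
   [-1,0,1,1,1,-1], [-1,1,-1,1,1,-1], [-1,1,0,1,1,-1], [-1,1,1,-1,-1,-1], [-1,1,1,-1,0,-1], 
   [-1,1,1,-1,1,-1], [-1,1,1,0,-1,-1], [-1,1,1,0,0,-1], [-1,1,1,0,1,-1], [-1,1,1,1,-1,-1], 
   [-1,1,1,1,0,-1], [-1,1,1,1,1,-1], [0,-1,-1,-1,-1,-1], [0,-1,-1,0,-1,-1], [0,-1,-1,1,-1,-1], 
   [0,-1,-1,1,0,-1], [0,-1,-1,1,1,-1], [0,-1,0,-1,-1,-1], [0,-1,0,0,-1,-1], [0,-1,0,1,-1,-1], 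
   [0,-1,0,1,0,-1], [0,-1,0,1,1,-1], [0,-1,1,-1,-1,-1], [0,-1,1,0,-1,-1], [0,-1,1,1,-1,-1], 
   [0,-1,1,1,0,-1], [0,-1,1,1,1,-1], [0,0,-1,1,1,-1], [0,0,0,1,1,-1], [0,0,1,-1,-1,-1], 
   [0,0,1,0,-1,-1], [0,0,1,1,-1,-1], [0,0,1,1,0,-1], [0,0,1,1,1,-1], [0,1,-1,1,1,-1], 
   [0,1,0,1,1,-1], [0,1,1,-1,-1,-1], [0,1,1,-1,0,-1], [0,1,1,-1,1,-1], [0,1,1,0,-1,-1], 
   [0,1,1,0,0,-1], [0,1,1,0,1,-1], [0,1,1,1,-1,-1], [0,1,1,1,0,-1], [0,1,1,1,1,-1], 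
   [1,-1,-1,-1,-1,-1], [1,-1,-1,-1,-1,0], [1,-1,-1,-1,-1,1], [1,-1,-1,0,-1,-1], [1,-1,-1,0,-1,0], 
   [1,-1,-1,0,-1,1], [1,-1,-1,1,-1,-1], [1,-1,-1,1,-1,0], [1,-1,-1,1,-1,1], [1,-1,-1,1,0,-1], 
   [1,-1,-1,1,0,0], [1,-1,-1,1,0,1], [1,-1,-1,1,1,-1], [1,-1,-1,1,1,0], [1,-1,-1,1,1,1], 
   [1,-1,0,-1,-1,-1], [1,-1,0,-1,-1,0], [1,-1,0,-1,-1,1], [1,-1,0,0,-1,-1], [1,-1,0,0,-1,0], 
   [1,-1,0,0,-1,1], [1,-1,0,1,-1,-1], [1,-1,0,1,-1,0], [1,-1,0,1,-1,1], [1,-1,0,1,0,-1], 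
   [1,-1,0,1,0,0], [1,-1,0,1,0,1], [1,-1,0,1,1,-1], [1,-1,0,1,1,0], [1,-1,0,1,1,1], 
   [1,-1,1,-1,-1,-1], [1,-1,1,-1,-1,0], [1,-1,1,-1,-1,1], [1,-1,1,0,-1,-1], [1,-1,1,0,-1,0], 
   [1,-1,1,0,-1,1], [1,-1,1,1,-1,-1], [1,-1,1,1,-1,0], [1,-1,1,1,-1,1], [1,-1,1,1,0,-1], 
   [1,-1,1,1,0,0], [1,-1,1,1,0,1], [1,-1,1,1,1,-1], [1,-1,1,1,1,0], [1,-1,1,1,1,1], 
   [1,0,-1,-1,-1,1], [1,0,-1,0,-1,1], [1,0,-1,1,-1,1], [1,0,-1,1,0,1], [1,0,-1,1,1,-1], 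
   [1,0,-1,1,1,0], [1,0,-1,1,1,1], [1,0,0,-1,-1,1], [1,0,0,0,-1,1], [1,0,0,1,-1,1], 
   [1,0,0,1,0,1], [1,0,0,1,1,-1], [1,0,0,1,1,0], [1,0,0,1,1,1], [1,0,1,-1,-1,-1], 
   [1,0,1,-1,-1,0], [1,0,1,-1,-1,1], [1,0,1,0,-1,-1], [1,0,1,0,-1,0], [1,0,1,0,-1,1], 
   [1,0,1,1,-1,-1], [1,0,1,1,-1,0], [1,0,1,1,-1,1], [1,0,1,1,0,-1], [1,0,1,1,0,0], [1,0,1,1,0,1], 
   [1,0,1,1,1,-1], [1,0,1,1,1,0], [1,0,1,1,1,1], [1,1,-1,-1,-1,1], [1,1,-1,0,-1,1], 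
   [1,1,-1,1,-1,1], [1,1,-1,1,0,1], [1,1,-1,1,1,-1], [1,1,-1,1,1,0], [1,1,-1,1,1,1], 
   [1,1,0,-1,-1,1], [1,1,0,0,-1,1], [1,1,0,1,-1,1], [1,1,0,1,0,1], [1,1,0,1,1,-1], [1,1,0,1,1,0], 
   [1,1,0,1,1,1], [1,1,1,-1,-1,-1], [1,1,1,-1,-1,0], [1,1,1,-1,-1,1], [1,1,1,-1,0,-1], 
   [1,1,1,-1,0,0], [1,1,1,-1,0,1], [1,1,1,-1,1,-1], [1,1,1,-1,1,0], [1,1,1,-1,1,1], 
   [1,1,1,0,-1,-1], [1,1,1,0,-1,0], [1,1,1,0,-1,1], [1,1,1,0,0,-1], [1,1,1,0,0,0], [1,1,1,0,0,1], 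
   [1,1,1,0,1,-1], [1,1,1,0,1,0], [1,1,1,0,1,1], [1,1,1,1,-1,-1], [1,1,1,1,-1,0], [1,1,1,1,-1,1], 
   [1,1,1,1,0,-1], [1,1,1,1,0,0], [1,1,1,1,0,1], [1,1,1,1,1,-1], [1,1,1,1,1,0], [1,1,1,1,1,1]]

/-- the regions, each with a point and a path to the first region -/
def topes : List (List ℤ × Z4 × List ℕ) :=
  [([-1,-1,-1,-1,-1,-1],(-7,6,1,1),[]), ([-1,-1,-1,-1,1,-1],(-22,22,1,1),[0]), 
   ([-1,-1,-1,1,-1,-1],(-3,6,1,1),[1]), ([-1,-1,-1,1,1,-1],(-3,19,5,1),[2,0]), 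
   ([-1,-1,1,-1,-1,-1],(-14,6,2,1),[4]), ([-1,-1,1,-1,1,-1],(-23,17,3,1),[5,0]), 
   ([-1,-1,1,1,-1,-1],(-4,3,4,1),[6,1]), ([-1,-1,1,1,1,-1],(-12,15,7,1),[7,2,0]), 
   ([-1,1,-1,1,1,-1],(7,24,18,1),[12,2,0]), ([-1,1,1,-1,-1,-1],(-18,-4,5,1),[13,4]), 
   ([-1,1,1,-1,1,-1],(-23,1,17,1),[14,5,0]), ([-1,1,1,1,-1,-1],(-8,3,10,2),[15,6,1]), 
   ([-1,1,1,1,1,-1],(-11,15,17,1),[16,7,2,0]), ([1,-1,-1,-1,-1,-1],(0,0,1,1),[22]), 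
   ([1,-1,-1,-1,-1,1],(7,-7,1,1),[33,22]), ([1,-1,-1,1,-1,-1],(2,2,1,1),[23,1]), 
   ([1,-1,-1,1,-1,1],(14,-5,2,1),[36,23,1]), ([1,-1,-1,1,1,-1],(16,17,7,1),[24,2,0]), 
   ([1,-1,-1,1,1,1],(18,7,5,1),[39,24,2,0]), ([1,-1,1,-1,-1,-1],(-2,-2,1,1),[25,4]), 
   ([1,-1,1,-1,-1,1],(2,-6,1,1),[46,25,4]), ([1,-1,1,1,-1,-1],(0,1,4,1),[26,6,1]), 
   ([1,-1,1,1,-1,1],(3,-2,3,1),[49,26,6,1]), ([1,-1,1,1,1,-1],(1,3,5,1),[27,7,2,0]), 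
   ([1,-1,1,1,1,1],(7,1,9,2),[52,27,7,2,0]), ([1,1,-1,-1,-1,1],(22,-22,1,1),[53,33,22]), 
   ([1,1,-1,1,-1,1],(23,-17,3,1),[54,36,23,1]), ([1,1,-1,1,1,-1],(20,24,23,1),[28,12,2,0]), 
   ([1,1,-1,1,1,1],(23,9,17,1),[65,28,12,2,0]), ([1,1,1,-1,-1,-1],(-17,-15,8,1),[29,13,4]), 
   ([1,1,1,-1,-1,1],(2,-18,7,1),[70,29,13,4]), ([1,1,1,-1,1,-1],(-22,-17,24,1),[30,14,5,0]), 
   ([1,1,1,-1,1,1],(-10,-23,25,1),[73,30,14,5,0]), ([1,1,1,1,-1,-1],(-2,0,5,1),[31,15,6,1]), 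
   ([1,1,1,1,-1,1],(13,-14,8,1),[78,31,15,6,1]), ([1,1,1,1,1,-1],(3,8,18,1),[32,16,7,2,0]), 
   ([1,1,1,1,1,1],(13,-10,18,1),[81,32,16,7,2,0])]

/-- the walls, each with a point, a label and a certificate -/
def walls : List (List ℤ × Z4 × (ℕ × Bool) × List ℕ) :=
  [([-1,-1,-1,-1,0,-1],(-12,11,1,1),(0,false),[]), ([-1,-1,-1,0,-1,-1],(-5,6,1,1),(0,false),[]), 
   ([-1,-1,-1,0,1,-1],(-19,20,1,1),(0,false),[]), ([-1,-1,-1,1,0,-1],(-3,8,1,1),(0,false),[0]), 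
   ([-1,-1,0,-1,-1,-1],(-16,11,1,2),(0,false),[]), ([-1,-1,0,-1,1,-1],(-44,39,1,2),(0,false),[]), 
   ([-1,-1,0,1,-1,-1],(-6,11,9,3),(0,false),[]), ([-1,-1,0,1,1,-1],(-10,15,5,1),(0,false),[]), 
   ([-1,-1,1,-1,0,-1],(-19,10,3,1),(0,false),[1]), ([-1,-1,1,0,-1,-1],(-5,3,4,1),(0,true),[]), 
   ([-1,-1,1,0,1,-1],(-18,16,4,1),(0,false),[2]), ([-1,-1,1,1,0,-1],(-4,5,3,1),(0,false),[0,3]), 
   ([-1,0,-1,1,1,-1],(4,23,15,1),(0,false),[]), ([-1,0,1,-1,-1,-1],(-19,3,2,1),(0,false),[]), 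
   ([-1,0,1,-1,1,-1],(-22,11,5,1),(0,false),[]), ([-1,0,1,1,-1,-1],(-24,15,31,7),(0,false),[]), 
   ([-1,0,1,1,1,-1],(-9,17,10,1),(0,false),[]), ([-1,1,0,1,1,-1],(3,22,17,1),(0,false),[4]), 
   ([-1,1,1,-1,0,-1],(-17,1,8,1),(0,false),[1,5]), ([-1,1,1,0,-1,-1],(-4,1,5,1),(0,true),[6]), 
   ([-1,1,1,0,1,-1],(-18,5,15,1),(0,false),[2,7]), 
   ([-1,1,1,1,0,-1],(-8,5,9,2),(0,false),[0,3,8]), ([0,-1,-1,-1,-1,-1],(-2,3,2,2),(0,false),[]), 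
   ([0,-1,-1,1,-1,-1],(1,4,2,1),(0,false),[]), ([0,-1,-1,1,1,-1],(10,16,8,1),(0,false),[]), 
   ([0,-1,1,-1,-1,-1],(-4,-1,2,1),(0,false),[]), ([0,-1,1,1,-1,-1],(-2,2,4,1),(0,false),[]), 
   ([0,-1,1,1,1,-1],(0,5,6,1),(0,false),[]), ([0,1,-1,1,1,-1],(11,23,20,1),(0,false),[]), 
   ([0,1,1,-1,-1,-1],(-15,-10,6,1),(0,false),[]), ([0,1,1,-1,1,-1],(-22,-9,22,1),(0,false),[]), 
   ([0,1,1,1,-1,-1],(-7,2,10,2),(0,false),[]), ([0,1,1,1,1,-1],(0,11,18,1),(0,false),[]), 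
   ([1,-1,-1,-1,-1,0],(1,-1,1,1),(0,false),[]), ([1,-1,-1,0,-1,-1],(0,1,1,1),(0,false),[9]), 
   ([1,-1,-1,0,-1,1],(8,-7,1,1),(0,false),[9,22]), ([1,-1,-1,1,-1,0],(3,1,2,1),(0,false),[]), 
   ([1,-1,-1,1,0,-1],(4,4,2,1),(0,false),[0,10]), 
   ([1,-1,-1,1,0,1],(14,-1,3,1),(1,true),[1,2,5,6,7,8,12,13,15,18,19,20,21,24,26,27,28,33,34,35,37,38,39,43,45,46]), 
   ([1,-1,-1,1,1,0],(15,13,6,1),(0,false),[]), ([1,-1,0,-1,-1,-1],(-3,-2,1,2),(0,false),[11]), 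
   ([1,-1,0,-1,-1,1],(8,-13,1,2),(0,false),[11,23]), ([1,-1,0,1,-1,-1],(2,3,7,2),(0,false),[12]), 
   ([1,-1,0,1,-1,1],(9,-4,7,2),(0,false),[12,24]), ([1,-1,0,1,1,-1],(2,3,5,1),(0,false),[13]), 
   ([1,-1,0,1,1,1],(4,1,5,1),(0,false),[13,27]), ([1,-1,1,-1,-1,0],(-1,-3,1,1),(0,false),[]), 
   ([1,-1,1,0,-1,-1],(-1,0,3,1),(0,true),[14]), ([1,-1,1,0,-1,1],(2,-3,3,1),(0,true),[14,28]), 
   ([1,-1,1,1,-1,0],(2,0,4,1),(0,false),[]), ([1,-1,1,1,0,-1],(0,2,4,1),(0,false),[0,3,15]), 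
   ([1,-1,1,1,0,1],(7,0,9,2),(1,true),[1,2,5,6,7,8,15,18,19,20,21,28,33,34,35,37,38,39,43,45,46]), 
   ([1,-1,1,1,1,0],(3,1,5,1),(0,false),[]), ([1,0,-1,-1,-1,1],(38,-41,1,3),(0,false),[]), 
   ([1,0,-1,1,-1,1],(54,-43,3,3),(0,false),[]), ([1,0,-1,1,1,-1],(20,21,17,1),(0,false),[16]), 
   ([1,0,-1,1,1,1],(18,6,10,1),(0,false),[16,31]), 
   ([1,0,1,-1,-1,-1],(-3,-6,5,2),(1,true),[4,6,8,9,11,12,13,15,16,17,19,21,22,23,24,26,27,28,29,30,31,32,34,35,37,38,39,40,41,42]), 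
   ([1,0,1,-1,-1,1],(0,-7,1,1),(1,true),[4,6,8,9,11,12,13,15,16,17,19,21,22,23,24,26,27,28,29,30,31,32,33,34,35,37,38,39,40,41,42]), 
   ([1,0,1,1,-1,-1],(2,1,9,2),(2,true),[4,8,9,11,12,13,14,15,16,17,21,22,23,24,26,27,28,29,30,31,32,35,37,38,39,40,41,42]), 
   ([1,0,1,1,-1,1],(10,-7,11,3),(2,true),[4,8,9,11,12,13,14,15,16,17,21,22,23,24,26,27,28,29,30,31,32,35,36,37,38,39,40,41,42]), 
   ([1,0,1,1,1,-1],(4,9,17,3),(2,true),[4,9,11,12,13,14,16,17,22,23,24,26,27,28,29,30,31,32,35,38,39,40,41,42]), 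
   ([1,0,1,1,1,1],(12,1,19,4),(2,true),[4,9,11,12,13,14,16,17,22,23,24,26,27,28,29,30,31,32,35,38,40,41,42]), 
   ([1,1,-1,0,-1,1],(22,-21,1,1),(0,false),[9,22,29]), 
   ([1,1,-1,1,0,1],(21,-10,7,1),(1,true),[1,2,5,6,7,8,12,13,15,16,18,19,20,21,24,26,27,28,30,31,33,34,35,37,38,39,43,45,46]), 
   ([1,1,-1,1,1,0],(22,20,22,1),(0,false),[]), 
   ([1,1,0,-1,-1,1],(37,-42,1,2),(1,true),[4,6,8,9,12,13,15,16,17,19,21,22,24,26,27,28,29,30,31,33,34,35,37,38,39,40,41,42]), 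
   ([1,1,0,1,-1,1],(18,-13,5,1),(2,false),[4,8,12,13,15,16,17,21,24,26,27,30,31,36,37,38,39,41,42]), 
   ([1,1,0,1,1,-1],(12,18,20,1),(0,false),[4,17]), 
   ([1,1,0,1,1,1],(19,6,17,1),(0,false),[4,17,42]), ([1,1,1,-1,-1,0],(-13,-15,8,1),(0,false),[]), 
   ([1,1,1,-1,0,-1],(-19,-15,18,1),(0,false),[1,5,18]), 
   ([1,1,1,-1,0,1],(-6,-21,19,1),(0,false),[1,5,18,43]), 
   ([1,1,1,-1,1,0],(-18,-20,24,1),(0,false),[]), ([1,1,1,0,-1,-1],(-2,-1,5,1),(0,true),[6,19]), 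
   ([1,1,1,0,-1,1],(9,-15,8,1),(0,true),[6,19,28,33,34,35,36]), 
   ([1,1,1,0,1,-1],(-10,-6,18,1),(0,false),[2,7,20]), 
   ([1,1,1,0,1,1],(0,-20,22,1),(0,false),[2,7,20,46]), ([1,1,1,1,-1,0],(0,-2,5,1),(0,false),[]), 
   ([1,1,1,1,0,-1],(-2,1,5,1),(0,false),[0,3,8,21]), 
   ([1,1,1,1,0,1],(13,-14,11,1),(0,true),[1,2,5,6,7,18,19,20,28,33,34,35,36,43,45,46]), 
   ([1,1,1,1,1,0],(3,1,16,1),(0,false),[])]

/-- the codimension two faces off the arc, each with a point and its four walls -/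
def cods : List (List ℤ × Z4 × List ℕ) :=
  [([-1,-1,-1,0,0,-1],(-9,10,1,1),[2,0,1,3]), ([-1,-1,0,-1,0,-1],(-31,26,1,2),[5,0,4,8]), 
   ([-1,-1,0,0,1,-1],(-19,19,2,1),[7,2,5,10]), ([-1,-1,0,1,0,-1],(-9,14,9,3),[7,3,6,11]), 
   ([-1,0,0,1,1,-1],(-1,16,11,1),[16,7,12,17]), ([-1,0,1,-1,0,-1],(-30,12,4,1),[14,8,13,18]), 
   ([-1,0,1,0,-1,-1],(-26,14,22,5),[15,9,13,19]), ([-1,0,1,0,1,-1],(-14,10,6,1),[16,10,14,20]), 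
   ([-1,0,1,1,0,-1],(-21,14,27,6),[16,11,15,21]), ([0,-1,-1,0,-1,-1],(-3,5,4,3),[23,1,22,34]), 
   ([0,-1,-1,1,0,-1],(2,12,8,3),[24,3,23,37]), ([0,-1,0,-1,-1,-1],(-11,1,4,5),[25,4,22,40]), 
   ([0,-1,0,1,-1,-1],(-4,14,16,5),[26,6,23,42]), ([0,-1,0,1,1,-1],(1,19,20,4),[27,7,24,44]), 
   ([0,-1,1,0,-1,-1],(-6,4,8,3),[26,9,25,47]), ([0,-1,1,1,0,-1],(-3,5,8,2),[27,11,26,50]), 
   ([0,0,-1,1,1,-1],(19,37,28,2),[28,12,24,55]), ([0,1,0,1,1,-1],(9,21,20,1),[32,17,28,68]), 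
   ([0,1,1,-1,0,-1],(-50,-24,40,3),[30,18,29,71]), ([0,1,1,0,-1,-1],(-12,2,16,3),[31,19,29,74]), 
   ([0,1,1,0,1,-1],(-12,-2,16,1),[32,20,30,76]), ([0,1,1,1,0,-1],(-11,3,16,3),[32,21,31,79]), 
   ([1,-1,-1,0,-1,0],(3,-1,2,2),[35,33,34,36]), ([1,-1,0,-1,-1,0],(-1,-9,2,4),[41,33,40,46]), 
   ([1,-1,0,1,-1,0],(8,2,12,3),[43,36,42,49]), ([1,-1,0,1,0,-1],(-1,6,7,2),[44,37,42,50]), 
   ([1,-1,0,1,0,1],(13,2,17,4),[45,38,43,51]), ([1,-1,0,1,1,0],(7,3,10,2),[45,39,44,52]), 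
   ([1,-1,1,0,-1,0],(1,-3,6,2),[48,46,47,49]), ([1,0,-1,0,-1,1],(27,-25,2,2),[54,35,53,63]), 
   ([1,0,-1,1,0,1],(99,-34,11,2),[56,38,54,64]), ([1,0,-1,1,1,0],(118,104,96,7),[56,39,55,65]), 
   ([1,0,0,-1,-1,1],(19,-24,1,2),[58,41,53,66]), ([1,0,1,-1,-1,0],(-11,-19,6,4),[58,46,57,70]), 
   ([1,0,1,0,-1,-1],(-1,-5,14,4),[59,47,57,74]), ([1,0,1,0,-1,1],(5,-7,6,2),[60,48,58,75]), 
   ([1,0,1,1,-1,0],(17,-15,62,16),[60,49,59,78]), ([1,0,1,1,0,-1],(9,2,23,5),[61,50,59,79]), 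
   ([1,0,1,1,0,1],(57,-6,65,14),[62,51,60,80]), ([1,0,1,1,1,0],(67,27,106,20),[62,52,61,81]), 
   ([1,1,0,0,-1,1],(19,-19,2,1),[67,63,66,75]), ([1,1,0,1,0,1],(22,-12,8,1),[69,64,67,80]), 
   ([1,1,0,1,1,0],(27,23,34,2),[69,65,68,81]), ([1,1,1,-1,0,0],(-29,-33,36,2),[72,70,71,73]), 
   ([1,1,1,0,-1,0],(-1,-3,6,1),[75,70,74,78]), ([1,1,1,0,0,1],(4,-16,14,1),[77,72,75,80]), 
   ([1,1,1,0,1,0],(-8,-10,20,1),[77,73,76,81])]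

/-- the distinguished wall -/
def es : ℕ := 9

/-- `s` refines `t` -/
def ge : List ℤ → List ℤ → Bool
  | [], [] => true
  | a :: s, b :: t => (b == 0 || a == b) && ge s t
  | _, _ => false

def inA : List ℤ → Bool
  | [a, b, c, d, e, f] =>
    (a == 0 && b == 0 && decide (0 ≤ c)) || (b == 0 && c == 0 && decide (0 ≤ a) && decide (0 ≤ d)) ||
    (c == 0 && d == 0 && decide (b ≤ 0) && decide (e ≤ 0)) ||
    (d == 0 && e == 0 && decide (0 ≤ c) && decide (f ≤ 0)) || (e == 0 && f == 0 && decide (0 ≤ d))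
  | _ => true

def up (s : List ℤ) : List ℤ := s.map fun x => if x < 0 then -1 else 1
def dn (s : List ℤ) : List ℤ := s.map fun x => if 0 < x then 1 else -1

def nonneg : List ℤ → List ℤ → Bool
  | [], [] => true
  | a :: c, b :: s => decide (0 ≤ a * b) && nonneg c s
  | _, _ => false

def somepos : List ℤ → List ℤ → Bool
  | a :: c, b :: s => decide (0 < a * b) || somepos c s
  | _, _ => false

def kill (c : List ℤ × ℤ × ℤ) (s : List ℤ) : Bool :=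
  decide (0 ≤ c.2.1) && decide (0 ≤ c.2.2) && nonneg c.1 s && (decide (0 < c.2.2) || somepos c.1 s)

def combZ : List ℤ → List Z4 → Z4
  | a :: c, f :: L => let r := combZ c L
    (a * f.1 + r.1, a * f.2.1 + r.2.1, a * f.2.2.1 + r.2.2.1, a * f.2.2.2 + r.2.2.2)
  | _, _ => (0, 0, 0, 0)

def allS : ℕ → List (List ℤ)
  | 0 => [[]]
  | n + 1 => (allS n).flatMap fun l => [(-1) :: l, 0 :: l, 1 :: l]

def feas (s : List ℤ) : Bool := circ.all fun c => !kill c s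

def tl : List (List ℤ) := topes.map fun t => t.1
def ta (s : List ℤ) : List (List ℤ) := tl.filter fun b => ge b s
def wl : List (List ℤ) := walls.map fun t => t.1
def wa (s : List ℤ) : List (List ℤ) := wl.filter fun b => ge b s

def evZ (f p : Z4) : ℤ := f.1 * p.1 + f.2.1 * p.2.1 + f.2.2.1 * p.2.2.1 + f.2.2.2 * p.2.2.2
def sgZ (x : ℤ) : ℤ := if 0 < x then 1 else if x < 0 then -1 else 0
def svZ (p : Z4) : List ℤ := pl.map fun f => sgZ (evZ f p)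

/-- `p` has positive denominator, positive height and sign vector `s` -/
def okp (s : List ℤ) (p : Z4) : Bool :=
  decide (0 < p.2.2.2) && decide (0 < p.2.2.1) && (svZ p == s) && !inA s

def m3 (a b : ℕ × Bool) : ℕ × Bool := ((a.1 + (bif a.2 then 2 else 1) * b.1) % 3, xor a.2 b.2)
def i3 (a : ℕ × Bool) : ℕ × Bool := bif a.2 then a else (2 * a.1 % 3, false)

def look (w : List ℤ) : List (List ℤ × Z4 × (ℕ × Bool) × List ℕ) → ℕ × Bool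
  | [] => (0, false)
  | t :: l => bif t.1 == w then t.2.2.1 else look w l

def trav (pre : List ℤ) : List ℤ → List ℤ → ℕ × Bool
  | x :: b, y :: c =>
    bif x == y then trav (pre ++ [x]) b c
    else m3 (bif x == 1 then look (pre ++ 0 :: b) walls else i3 (look (pre ++ 0 :: b) walls))
      (trav (pre ++ [y]) b c)
  | _, _ => (0, false)

def gg (b c : List ℤ) : ℕ × Bool := trav [] b c

/-- closure under crossing the walls in `W` -/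
def clo (W : List (List ℤ)) : ℕ → List (List ℤ) → List (List ℤ)
  | 0, L => L
  | n + 1, L => clo W n (L ++ (W.filter fun w => L.elem (up w)).map dn ++
      (W.filter fun w => L.elem (dn w)).map up)

theorem chk_circ : (circ.all fun c => combZ c.1 pl == (0, 0, -c.2.1, -c.2.2)) = true := by
  decide +kernel
theorem chk_cov : ((allS 6).all fun s => !feas s || cov.elem s) = true := by decide +kernel
theorem chk_up : (cov.all fun s => cov.all fun s' => !ge s' s || (ta s).elem (up s')) = true := by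
  decide +kernel
theorem chk_topes : (topes.all fun t => okp t.1 t.2.1 && (ge t.1 t.1) && (up t.1 == t.1)) = true := by
  decide +kernel
theorem chk_walls : (walls.all fun t => okp t.1 t.2.1 && ge (up t.1) t.1 && ge (dn t.1) t.1 &&
    tl.elem (up t.1) && tl.elem (dn t.1) && (gg (up t.1) (dn t.1) == t.2.2.1)) = true := by decide +kernel
theorem chk_coc : (cov.all fun s => inA s || (ta s).all fun b => (ta s).all fun c => (ta s).all fun d =>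
    m3 (gg b c) (gg c d) == gg b d) = true := by decide +kernel
theorem chk_clo : (cov.all fun s => inA s || (ta s).all fun b => (clo (wa s) 3 [up s]).elem b) = true := by
  decide +kernel

/-! ### elimination -/

def wk (k : ℕ) : List ℤ × Z4 × (ℕ × Bool) × List ℕ := walls.getD k ([], (0,0,0,1), (0, false), [])
def pth (b : List ℤ) : List (List ℤ × Z4 × List ℕ) → List ℕ
  | [] => []
  | t :: l => bif t.1 == b then t.2.2 else pth b l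

/-- tree walls: the path of one side is the path of the other side extended by the wall -/
def isTree (k : ℕ) : Bool :=
  (pth (up (wk k).1) topes == k :: pth (dn (wk k).1) topes) ||
  (pth (dn (wk k).1) topes == k :: pth (up (wk k).1) topes)

/-- the walls of a codimension two face lie over it and each of its regions is met twice -/
def okc (t : List ℤ × Z4 × List ℕ) : Bool :=
  okp t.1 t.2.1 && (t.2.2.all fun k => decide (k < walls.length) && ge (wk k).1 t.1) &&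
  (tl.all fun b => (((t.2.2.map fun k => up (wk k).1) ++ (t.2.2.map fun k => dn (wk k).1)).count b) % 2 == 0)

/-- the certificate of the wall `k` -/
def okw (k : ℕ) : Bool :=
  let L := (k :: (bif (wk k).2.2.1.2 then [es] else []) ++
    (wk k).2.2.2.flatMap (fun r => (cods.getD r ([], (0,0,0,1), [])).2.2)).filter (fun j => !isTree j)
  isTree k || (List.range walls.length).all fun j => (L.count j) % 2 == 0

theorem chk_cods : (cods.all okc) = true := by decide +kernel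
theorem chk_okw : ((List.range walls.length).all okw) = true := by decide +kernel
theorem chk_tree : ((List.range walls.length).all fun k => !isTree k || ((wk k).2.2.1 == (0, false))) = true := by
  decide +kernel

end Pool.Agent.H755.Mach
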