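import Pool.Agent.H755.GTriv
import Pool.Agent.H755.MachData

/-! The complement of the trefoil arc in the half space, by an arrangement of planes. -/

set_option autoImplicit false
set_option linter.deprecated false
set_option linter.unusedVariables false
set_option linter.style.longLine false

namespace Pool.Agent.H755.Mach

open Set Pool.Agent.Helper60.AS

abbrev E3 := Fin 3 → ℝ

noncomputable def evR (f : Z4) (y : E3) : ℝ := f.1 * y 0 + f.2.1 * y 1 + f.2.2.1 * y 2 + f.2.2.2
noncomputable def sgR (x : ℝ) : ℤ := if 0 < x then 1 else if x < 0 then -1 else 0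
noncomputable def svL (L : List Z4) (y : E3) : List ℤ := L.map fun f => sgR (evR f y)
noncomputable def sv (y : E3) : List ℤ := svL pl y

/-- the trefoil arc -/
def Arc : Set E3 := {y | 0 ≤ y 2 ∧ inA (sv y) = true}
/-- its complement in the half space -/
def Y : Set E3 := {y | 0 ≤ y 2 ∧ inA (sv y) = false}

theorem sgR_pos {x : ℝ} (h : 0 < x) : sgR x = 1 := if_pos h
theorem sgR_neg {x : ℝ} (h : x < 0) : sgR x = -1 := by
  unfold sgR; rw [if_neg (not_lt.2 h.le), if_pos h]
theorem sgR_zero : sgR 0 = 0 := by simp [sgR]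

theorem sgR_cast {x : ℤ} : sgR (x : ℝ) = sgZ x := by
  unfold sgR sgZ
  simp only [Int.cast_pos, Int.cast_lt_zero]

theorem sgR_mul_pos {c x : ℝ} (h : 0 < c) : sgR (c * x) = sgR x := by
  rcases lt_trichotomy x 0 with hx | hx | hx
  · rw [sgR_neg hx, sgR_neg (mul_neg_of_pos_of_neg h hx)]
  · rw [hx, mul_zero]
  · rw [sgR_pos hx, sgR_pos (mul_pos h hx)]

theorem continuous_evR (f : Z4) : Continuous (evR f) := by
  unfold evR; fun_prop

/-- the real point of an integer quadruple -/
noncomputable def pt (p : Z4) : E3 := ![(p.1 : ℝ) / p.2.2.2, (p.2.1 : ℝ) / p.2.2.2, (p.2.2.1 : ℝ) / p.2.2.2]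

theorem evR_pt (f p : Z4) (hp : 0 < p.2.2.2) : sgR (evR f (pt p)) = sgZ (evZ f p) := by
  have h0 : (0:ℝ) < p.2.2.2 := by exact_mod_cast hp
  rw [← sgR_cast, ← sgR_mul_pos h0]
  congr 1
  simp only [evR, pt, evZ, Matrix.cons_val_zero, Matrix.cons_val_one, Matrix.cons_val]
  push_cast
  field_simp

theorem sv_pt (p : Z4) (hp : 0 < p.2.2.2) : sv (pt p) = svZ p := by
  unfold sv svL svZ
  exact List.map_congr_left fun f _ => evR_pt f p hp

/-! ### refinement -/

theorem ge_refl : ∀ s : List ℤ, ge s s = true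
  | [] => rfl
  | a :: s => by simp [ge, ge_refl s]

theorem ge_trans : ∀ {s t u : List ℤ}, ge s t = true → ge t u = true → ge s u = true
  | [], [], [], _, _ => rfl
  | a :: s, b :: t, c :: u, h1, h2 => by
    simp only [ge, Bool.and_eq_true, Bool.or_eq_true, beq_iff_eq] at h1 h2 ⊢
    refine ⟨?_, ge_trans h1.2 h2.2⟩
    rcases h2.1 with h | h
    · exact Or.inl h
    · rcases h1.1 with h' | h'
      · left; rw [← h, h']
      · right; rw [h', h]
  | [], [], _ :: _, _, h => by simp [ge] at h
  | [], _ :: _, _, h, _ => by simp [ge] at h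
  | _ :: _, [], _, h, _ => by simp [ge] at h
  | _ :: _, _ :: _, [], _, h => by simp [ge] at h

open Filter Topology in
theorem svL_near (L : List Z4) (a : E3) : ∀ᶠ x in 𝓝 a, ge (svL L x) (svL L a) = true := by
  induction L with
  | nil => exact Filter.Eventually.of_forall fun x => rfl
  | cons f L ih =>
    have h : ∀ᶠ x in 𝓝 a, sgR (evR f a) = 0 ∨ sgR (evR f x) = sgR (evR f a) := by
      rcases lt_trichotomy (evR f a) 0 with h | h | h
      · filter_upwards [(continuous_evR f).continuousAt.eventually_lt continuousAt_const h] with x hx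
        right; rw [sgR_neg hx, sgR_neg h]
      · refine Filter.Eventually.of_forall fun x => ?_
        left; rw [h, sgR_zero]
      · filter_upwards [continuousAt_const.eventually_lt (continuous_evR f).continuousAt h] with x hx
        right; rw [sgR_pos hx, sgR_pos h]
    filter_upwards [ih, h] with x h1 h2
    simp only [svL, List.map_cons, ge, Bool.and_eq_true, Bool.or_eq_true, beq_iff_eq]
    exact ⟨h2, h1⟩

theorem evR_seg (f : Z4) (y p : E3) (t : ℝ) :
    evR f ((1 - t) • y + t • p) = (1 - t) * evR f y + t * evR f p := by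
  simp only [evR, Pi.add_apply, Pi.smul_apply, smul_eq_mul]; ring

theorem svL_seg (L : List Z4) (y p : E3) {t : ℝ} (h0 : 0 < t) (h1 : t ≤ 1)
    (h : ge (svL L p) (svL L y) = true) : svL L ((1 - t) • y + t • p) = svL L p := by
  induction L with
  | nil => rfl
  | cons f L ih =>
    simp only [svL, List.map_cons, ge, Bool.and_eq_true, Bool.or_eq_true, beq_iff_eq] at h ⊢
    have ih := ih h.2
    simp only [svL] at ih
    rw [ih]
    congr 1
    rw [evR_seg]
    have key : sgR (evR f y) = 0 ∨ sgR (evR f p) = sgR (evR f y) := h.1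
    have e1 : 0 ≤ 1 - t := by linarith
    rcases lt_trichotomy (evR f p) 0 with hp | hp | hp
    · have hy : evR f y ≤ 0 := by
        by_contra hc
        rw [not_le] at hc
        rw [sgR_pos hc, sgR_neg hp] at key
        rcases key with h | h <;> norm_num at h
      rw [sgR_neg hp]
      exact sgR_neg (by nlinarith [mul_nonneg e1 (neg_nonneg.2 hy)])
    · have hy : evR f y = 0 := by
        rcases lt_trichotomy (evR f y) 0 with hc | hc | hc
        · rw [hp, sgR_zero, sgR_neg hc] at key
          rcases key with h | h <;> norm_num at h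
        · exact hc
        · rw [hp, sgR_zero, sgR_pos hc] at key
          rcases key with h | h <;> norm_num at h
      rw [hp, hy]; simp
    · have hy : 0 ≤ evR f y := by
        by_contra hc
        rw [not_le] at hc
        rw [sgR_neg hc, sgR_pos hp] at key
        rcases key with h | h <;> norm_num at h
      rw [sgR_pos hp]
      exact sgR_pos (by nlinarith [mul_nonneg e1 hy])

/-! ### feasibility -/

noncomputable def combR : List ℤ → List Z4 → E3 → ℝ
  | a :: c, f :: L, y => a * evR f y + combR c L y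
  | _, _, _ => 0

theorem combR_eq : ∀ (c : List ℤ) (L : List Z4) (y : E3), combR c L y = evR (combZ c L) y
  | [], L, y => by simp [combR, combZ, evR]
  | a :: c, [], y => by simp [combR, combZ, evR]
  | a :: c, f :: L, y => by
    rw [combR, combR_eq c L y]
    simp only [combZ, evR]
    push_cast
    ring

theorem sg_mul_nonneg {a : ℤ} {x : ℝ} (h : 0 ≤ a * sgR x) : 0 ≤ (a : ℝ) * x := by
  rcases lt_trichotomy x 0 with hx | hx | hx
  · rw [sgR_neg hx] at h
    have : (a : ℝ) ≤ 0 := by exact_mod_cast (by omega : a ≤ 0)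
    nlinarith
  · rw [hx]; simp
  · rw [sgR_pos hx] at h
    have : (0 : ℝ) ≤ a := by exact_mod_cast (by omega : 0 ≤ a)
    nlinarith

theorem sg_mul_pos {a : ℤ} {x : ℝ} (h : 0 < a * sgR x) : 0 < (a : ℝ) * x := by
  rcases lt_trichotomy x 0 with hx | hx | hx
  · rw [sgR_neg hx] at h
    have : (a : ℝ) < 0 := by exact_mod_cast (by omega : a < 0)
    nlinarith
  · rw [hx, sgR_zero] at h; simp at h
  · rw [sgR_pos hx] at h
    have : (0 : ℝ) < a := by exact_mod_cast (by omega : 0 < a)
    nlinarith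

theorem comb_nonneg : ∀ (c : List ℤ) (L : List Z4) (y : E3), nonneg c (svL L y) = true →
    0 ≤ combR c L y ∧ (somepos c (svL L y) = true → 0 < combR c L y)
  | [], L, y, _ => by
    refine ⟨by simp [combR], fun h => ?_⟩
    simp [somepos] at h
  | a :: c, [], y, h => by simp [svL, nonneg] at h
  | a :: c, f :: L, y, h => by
    simp only [svL, List.map_cons, nonneg, Bool.and_eq_true, decide_eq_true_eq] at h
    obtain ⟨h1, h2⟩ := comb_nonneg c L y h.2
    have h3 := sg_mul_nonneg h.1
    rw [combR]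
    refine ⟨by linarith, fun hs => ?_⟩
    simp only [svL, List.map_cons, somepos, Bool.or_eq_true, decide_eq_true_eq] at hs
    rcases hs with hs | hs
    · have := sg_mul_pos hs; linarith
    · have := h2 hs; linarith

theorem feas_sv {y : E3} (hy : 0 ≤ y 2) : feas (sv y) = true := by
  rw [feas, List.all_eq_true]
  intro c hc
  have h1 := List.all_eq_true.1 chk_circ c hc
  rw [beq_iff_eq] at h1
  by_contra hk
  rw [Bool.not_eq_true, Bool.not_eq_false'] at hk
  simp only [kill, Bool.and_eq_true, decide_eq_true_eq, Bool.or_eq_true] at hk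
  obtain ⟨⟨⟨k1, k2⟩, k3⟩, k4⟩ := hk
  obtain ⟨e1, e2⟩ := comb_nonneg c.1 pl y k3
  have e3 : combR c.1 pl y = -(c.2.1 * y 2) - c.2.2 := by
    rw [combR_eq, h1]; simp [evR]; ring
  have k1' : (0:ℝ) ≤ c.2.1 := by exact_mod_cast k1
  have k2' : (0:ℝ) ≤ c.2.2 := by exact_mod_cast k2
  have e4 : 0 ≤ (c.2.1 : ℝ) * y 2 := mul_nonneg k1' hy
  rcases k4 with k4 | k4
  · have : (0:ℝ) < c.2.2 := by exact_mod_cast k4
    linarith
  · have := e2 k4; linarith

theorem sg_mem (x : ℝ) : sgR x = -1 ∨ sgR x = 0 ∨ sgR x = 1 := by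
  rcases lt_trichotomy x 0 with h | h | h
  · left; exact sgR_neg h
  · right; left; rw [h, sgR_zero]
  · right; right; exact sgR_pos h

theorem svL_mem_allS : ∀ (L : List Z4) (y : E3), svL L y ∈ allS L.length
  | [], y => by simp [svL, allS]
  | f :: L, y => by
    rw [List.length_cons, allS, List.mem_flatMap]
    refine ⟨_, svL_mem_allS L y, ?_⟩
    simp only [svL, List.map_cons, List.mem_cons, List.cons.injEq, and_true, List.not_mem_nil, or_false]
    exact sg_mem _

theorem sv_mem_cov {y : E3} (hy : 0 ≤ y 2) : sv y ∈ cov := by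
  have h := List.all_eq_true.1 chk_cov (sv y) (svL_mem_allS pl y)
  rw [feas_sv hy] at h
  simpa using h

/-! ### cells -/

/-- the cell index of a point -/
noncomputable def clip (y : E3) : E3 := ![y 0, y 1, max (y 2) 0]
noncomputable def bt (y : E3) : List ℤ := up (sv (clip y))

theorem continuous_clip : Continuous clip := by
  refine continuous_pi fun i => ?_
  fin_cases i
  · exact continuous_apply 0
  · exact continuous_apply 1
  · show Continuous fun y : E3 => max (y 2) 0
    fun_prop

theorem clip_of {y : E3} (h : 0 ≤ y 2) : clip y = y := by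
  funext i
  fin_cases i
  · rfl
  · rfl
  · exact max_eq_left h

theorem clip_nonneg (y : E3) : 0 ≤ clip y 2 := le_max_right _ _

theorem bt_near {a : E3} (ha : a ∈ Y) : ∃ ε > 0, ∀ x, dist x a < ε → bt x ∈ ta (sv a) := by
  have h := continuous_clip.continuousAt.eventually (svL_near pl (clip a))
  obtain ⟨ε, he, h⟩ := Metric.eventually_nhds_iff.1 h
  refine ⟨ε, he, fun x hx => ?_⟩
  have h1 := h hx
  rw [clip_of ha.1] at h1
  have h2 := List.all_eq_true.1 (List.all_eq_true.1 chk_up (sv a) (sv_mem_cov ha.1))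
    (sv (clip x)) (sv_mem_cov (clip_nonneg x))
  have h3 : ge (sv (clip x)) (sv a) = true := h1
  rw [h3] at h2
  simpa [bt] using h2

theorem mem_ta {b s : List ℤ} : b ∈ ta s ↔ b ∈ tl ∧ ge b s = true := by
  simp [ta]

/-- closed cells minus the arc -/
def C (s : List ℤ) : Set E3 := {y | 0 ≤ y 2 ∧ ge s (sv y) = true ∧ inA (sv y) = false}

theorem C_sub (s : List ℤ) : C s ⊆ Y := fun y h => ⟨h.1, h.2.2⟩
theorem C_mono {s t : List ℤ} (h : ge s t = true) : C t ⊆ C s := fun y hy => ⟨hy.1, ge_trans h hy.2.1, hy.2.2⟩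
theorem mem_C_of_ge {y : E3} (hy : y ∈ Y) {s : List ℤ} (h : ge s (sv y) = true) : y ∈ C s := ⟨hy.1, h, hy.2⟩

theorem okp_iff {s : List ℤ} {p : Z4} (h : okp s p = true) :
    sv (pt p) = s ∧ 0 < pt p 2 ∧ inA s = false := by
  simp only [okp, Bool.and_eq_true, decide_eq_true_eq, beq_iff_eq, Bool.not_eq_true'] at h
  obtain ⟨⟨⟨h1, h2⟩, h3⟩, h4⟩ := h
  refine ⟨by rw [sv_pt p h1, h3], ?_, h4⟩
  have h1' : (0:ℝ) < p.2.2.2 := by exact_mod_cast h1
  have h2' : (0:ℝ) < p.2.2.1 := by exact_mod_cast h2
  exact div_pos h2' h1'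

theorem seg_mem {s : List ℤ} {p : Z4} (h : okp s p = true) {y : E3} (hy : y ∈ C s) {t : ℝ}
    (h0 : 0 < t) (h1 : t ≤ 1) : (1 - t) • y + t • pt p ∈ C s ∧ sv ((1 - t) • y + t • pt p) = s := by
  obtain ⟨e1, e2, e3⟩ := okp_iff h
  have e4 : sv ((1 - t) • y + t • pt p) = s := by
    have := svL_seg pl y (pt p) h0 h1 (by
      have := hy.2.1
      rw [← e1] at this
      exact this)
    rw [sv, this]; exact e1
  refine ⟨⟨?_, ?_, ?_⟩, e4⟩
  · show 0 ≤ (1 - t) * y 2 + t * pt p 2
    have := hy.1
    have h3 : 0 ≤ 1 - t := by linarith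
    positivity
  · rw [e4]; exact ge_refl s
  · rw [e4]; exact e3

theorem pt_mem {s : List ℤ} {p : Z4} (h : okp s p = true) : pt p ∈ C s := by
  obtain ⟨e1, e2, e3⟩ := okp_iff h
  exact ⟨e2.le, by rw [e1]; exact ge_refl s, by rw [e1]; exact e3⟩

theorem C_star {s : List ℤ} {p : Z4} (h : okp s p = true) : StarConvex ℝ (pt p) (C s) := by
  rw [starConvex_iff_forall_pos (pt_mem h)]
  intro y hy a b ha hb hab
  have := (seg_mem h hy (t := a) ha (by linarith)).1
  rwa [add_comm, show 1 - a = b by linarith] at this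

theorem C_gtriv {s : List ℤ} {p : Z4} (h : okp s p = true) : GTriv (C s) :=
  gtriv_starConvex (pt_mem h) (C_star h)

theorem C_preconn {s : List ℤ} {p : Z4} (h : okp s p = true) : IsPreconnected (C s) := by
  refine preconn_deform (S' := {pt p}) isPreconnected_singleton (fun t x => (1 - t) • x + t • pt p)
    (fun a => by fun_prop) ?_ (fun x => by simp) (fun a _ => by simp) (by simpa using pt_mem h)
  intro t ht a ha
  rcases ht.1.eq_or_lt with h0 | h0
  · rw [← h0]; simpa using ha
  · exact (seg_mem h ha h0 ht.2).1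

theorem tope_data {b : List ℤ} (hb : b ∈ tl) : ∃ p, okp b p = true ∧ up b = b := by
  rw [tl, List.mem_map] at hb
  obtain ⟨t, ht, rfl⟩ := hb
  have := List.all_eq_true.1 chk_topes t ht
  simp only [Bool.and_eq_true, beq_iff_eq] at this
  exact ⟨_, this.1.1, this.2⟩

structure WallOK (w : List ℤ) (p : Z4) (l : ℕ × Bool) : Prop where
  ok : okp w p = true
  gu : ge (up w) w = true
  gd : ge (dn w) w = true
  ut : up w ∈ tl
  dt : dn w ∈ tl
  lab : gg (up w) (dn w) = l

theorem wall_data {t : List ℤ × Z4 × (ℕ × Bool) × List ℕ} (ht : t ∈ walls) :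
    WallOK t.1 t.2.1 t.2.2.1 := by
  have := List.all_eq_true.1 chk_walls t ht
  simp only [Bool.and_eq_true, beq_iff_eq, List.elem_eq_mem, decide_eq_true_eq] at this
  obtain ⟨⟨⟨⟨⟨h1, h2⟩, h3⟩, h4⟩, h5⟩, h6⟩ := this
  exact ⟨h1, h2, h3, h4, h5, h6⟩

/-! ### gluing -/

theorem glue {G : Type} [Group G] {T : E3 → E3 → G} {V : List ℤ → E3 → G}
    (hV : ∀ b ∈ tl, TrivBy T (C b) (V b))
    (hδ : ∀ t ∈ walls, V (up t.1) (pt t.2.1) = V (dn t.1) (pt t.2.1)) : ∃ v, TrivBy T Y v := by
  -- agreement on closed walls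
  have h1 : ∀ t ∈ walls, ∀ a ∈ C t.1, V (up t.1) a = V (dn t.1) a := by
    intro t ht a ha
    have hw := wall_data ht
    have := TrivBy.const ((hV _ hw.ut).mono (C_mono hw.gu)) ((hV _ hw.dt).mono (C_mono hw.gd))
      (C_preconn hw.ok) ha (pt_mem hw.ok)
    rw [hδ t ht, mul_inv_cancel] at this
    exact mul_inv_eq_one.1 this
  have h2 : ∀ a ∈ Y, ∀ b ∈ ta (sv a), V b a = V (up (sv a)) a := by
    intro a ha b hb
    have h3 := List.all_eq_true.1 chk_clo (sv a) (sv_mem_cov ha.1)
    rw [ha.2, Bool.false_or, List.all_eq_true] at h3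
    have h4 := h3 b hb
    rw [List.elem_eq_mem, decide_eq_true_eq] at h4
    have key : ∀ (n : ℕ) (L : List (List ℤ)), (∀ b ∈ L, V b a = V (up (sv a)) a) →
        ∀ b ∈ clo (wa (sv a)) n L, V b a = V (up (sv a)) a := by
      intro n
      induction n with
      | zero => intro L hL; exact hL
      | succ n ih =>
        intro L hL
        refine ih _ fun b hb => ?_
        have hwa : ∀ w ∈ wa (sv a), V (up w) a = V (dn w) a := by
          intro w hw
          rw [wa, List.mem_filter, wl, List.mem_map] at hw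
          obtain ⟨⟨t, ht, rfl⟩, hg⟩ := hw
          exact h1 t ht a (mem_C_of_ge ha hg)
        simp only [List.mem_append, List.mem_map, List.mem_filter, List.elem_eq_mem,
          decide_eq_true_eq] at hb
        rcases hb with (hb | ⟨w, ⟨hw, hw2⟩, rfl⟩) | ⟨w, ⟨hw, hw2⟩, rfl⟩
        · exact hL b hb
        · rw [← hwa w hw]; exact hL _ hw2
        · rw [hwa w hw]; exact hL _ hw2
    exact key 3 [up (sv a)] (fun b hb => by rw [List.mem_singleton.1 hb]) b h4
  refine ⟨fun x => V (bt x) x, fun a ha => ?_⟩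
  obtain ⟨ε, he, hb⟩ := bt_near ha
  have hself : up (sv a) ∈ ta (sv a) := by
    have := hb a (by simpa using he)
    rwa [bt, clip_of ha.1] at this
  -- near `a` all `V b`, `b ∈ ta (sv a)`, agree
  have h5 : ∃ ε' > 0, ∀ x, dist x a < ε' → ∀ b ∈ ta (sv a), V b x = V (up (sv a)) x := by
    have h6 : ∀ b ∈ ta (sv a), ∃ ε' > 0, ∀ x, dist x a < ε' → V b x = V (up (sv a)) x := by
      intro b hb'
      obtain ⟨b1, b2⟩ := mem_ta.1 hb'
      obtain ⟨c1, c2⟩ := mem_ta.1 hself
      obtain ⟨e, he, h⟩ := ((hV b b1).mono (S' := {a}) (by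
        rintro _ rfl; exact mem_C_of_ge ha b2)).locConst ((hV _ c1).mono (S' := {a}) (by
        rintro _ rfl; exact mem_C_of_ge ha c2)) a rfl
      refine ⟨e, he, fun x hx => ?_⟩
      have := h x hx
      rw [h2 a ha b hb', mul_inv_cancel] at this
      exact mul_inv_eq_one.1 this
    generalize hL : ta (sv a) = L at h6
    clear hL hself hb h2
    revert h6
    generalize up (sv a) = c
    intro h6
    induction L with
    | nil => exact ⟨1, one_pos, fun x _ b hb => by simp at hb⟩
    | cons b L ih =>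
      obtain ⟨e1, he1, k1⟩ := ih (fun b hb => h6 b (List.mem_cons_of_mem _ hb))
      obtain ⟨e2, he2, k2⟩ := h6 b List.mem_cons_self
      refine ⟨min e1 e2, lt_min he1 he2, fun x hx d hd => ?_⟩
      rcases List.mem_cons.1 hd with rfl | hd
      · exact k2 x (hx.trans_le (min_le_right _ _))
      · exact k1 x (hx.trans_le (min_le_left _ _)) d hd
  obtain ⟨e', he', h5⟩ := h5
  obtain ⟨c1, c2⟩ := mem_ta.1 hself
  obtain ⟨e'', he'', h6⟩ := hV _ c1 a (mem_C_of_ge ha c2)
  refine ⟨min ε (min e' e''), by positivity, fun x y hx hy => ?_⟩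
  have m1 : min ε (min e' e'') ≤ ε := min_le_left _ _
  have m2 : min ε (min e' e'') ≤ e' := (min_le_right _ _).trans (min_le_left _ _)
  have m3 : min ε (min e' e'') ≤ e'' := (min_le_right _ _).trans (min_le_right _ _)
  show T x y = (V (bt x) x)⁻¹ * V (bt y) y
  rw [h5 x (hx.trans_le m2) _ (hb x (hx.trans_le m1)), h5 y (hy.trans_le m2) _ (hb y (hy.trans_le m1))]
  exact h6 x y (hx.trans_le m3) (hy.trans_le m3)

end Pool.Agent.H755.Mach
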