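import Pool.Agent.H755.Mach

/-! Sign valued flat functions on the complement of the arc. -/

set_option autoImplicit false
set_option linter.deprecated false
set_option linter.unusedVariables false
set_option linter.style.longLine false

namespace Pool.Agent.H755.Mach

open Set Pool.Agent.Helper60.AS

/-- the sign action on `ZMod 3` -/
def rho : ℤˣ →* (ZMod 3 →ₗ[ZMod 3] ZMod 3) where
  toFun g := (((g : ℤ) : ZMod 3)) • LinearMap.id
  map_one' := by ext; simp
  map_mul' g h := by ext; simp [mul_comm]

theorem rho_apply (g : ℤˣ) (x : ZMod 3) : rho g x = ((g : ℤ) : ZMod 3) * x := rfl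

def phi (a : ℕ × Bool) : Aff rho := ⟨(a.1 : ZMod 3), bif a.2 then -1 else 1⟩

theorem phi_mul (a b : ℕ × Bool) : phi (m3 a b) = phi a * phi b := by
  obtain ⟨a, s⟩ := a
  obtain ⟨b, t⟩ := b
  ext
  · show (((a + (bif s then 2 else 1) * b) % 3 : ℕ) : ZMod 3) = (a : ZMod 3) + rho (bif s then -1 else 1) (b : ZMod 3)
    rw [rho_apply]
    cases s
    · simp [ZMod.natCast_mod]
    · have h2 : (2 : ZMod 3) = -1 := by decide
      simp [ZMod.natCast_mod, h2]
  · cases s <;> cases t <;> simp [phi, m3]

/-- the flat function -/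
noncomputable def Gm (x y : E3) : Aff rho := phi (gg (bt x) (bt y))

theorem gg_coc {a : E3} (ha : a ∈ Y) {b c d : List ℤ} (hb : b ∈ ta (sv a)) (hc : c ∈ ta (sv a))
    (hd : d ∈ ta (sv a)) : phi (gg b c) * phi (gg c d) = phi (gg b d) := by
  have h := List.all_eq_true.1 chk_coc (sv a) (sv_mem_cov ha.1)
  rw [ha.2, Bool.false_or] at h
  have h := List.all_eq_true.1 (List.all_eq_true.1 (List.all_eq_true.1 h b hb) c hc) d hd
  rw [← phi_mul, beq_iff_eq.1 h]

theorem gg_self {a : E3} (ha : a ∈ Y) {b : List ℤ} (hb : b ∈ ta (sv a)) : phi (gg b b) = 1 := by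
  have := gg_coc ha hb hb hb
  exact mul_eq_left.1 this

theorem Gm_flat : GFlat Gm Y := by
  intro a ha
  obtain ⟨ε, he, h⟩ := bt_near ha
  exact ⟨ε, he, fun x y z hx hy hz => gg_coc ha (h x hx) (h y hy) (h z hz)⟩

theorem Gm_triv {b : List ℤ} (hb : b ∈ tl) : TrivBy Gm (C b) (fun x => phi (gg b (bt x))) := by
  intro a ha
  have haY := C_sub b ha
  obtain ⟨ε, he, h⟩ := bt_near haY
  have hbt : b ∈ ta (sv a) := mem_ta.2 ⟨hb, ha.2.1⟩
  refine ⟨ε, he, fun x y hx hy => ?_⟩
  show phi (gg (bt x) (bt y)) = (phi (gg b (bt x)))⁻¹ * phi (gg b (bt y))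
  have h1 := gg_coc haY (h x hx) hbt (h y hy)
  have h2 := gg_coc haY (h x hx) hbt (h x hx)
  rw [gg_self haY (h x hx)] at h2
  rw [← h1, eq_inv_of_mul_eq_one_left h2]

theorem even_prod {α : Type} [BEq α] [LawfulBEq α] (L : List α) (f : α → ℤˣ) (h : ∀ b ∈ L, L.count b % 2 = 0) :
    (L.map f).prod = 1 := by
  classical
  rw [Finset.prod_list_map_count]
  refine Finset.prod_eq_one fun b hb => ?_
  have key : ∀ n : ℕ, n % 2 = 0 → f b ^ n = 1 := fun n hn => by
    rw [← Nat.div_add_mod n 2, hn, add_zero, pow_mul, Int.units_sq, one_pow]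
  refine key _ ?_
  rw [← h b (by simpa using hb)]
  congr 1
  unfold List.count
  congr 1
  funext x
  rw [Bool.eq_iff_iff]; simp

theorem sq_units (x : ℤˣ) : x * x = 1 := Int.units_mul_self x
theorem aux1 {a b c : ℤˣ} (h : b = a * c) : a * (b * c) = 1 := by
  rw [h, mul_assoc a c c, sq_units, mul_one, sq_units]
theorem aux2 {a b c : ℤˣ} (h : c = a * b) : a * (b * c) = 1 := by
  rw [mul_comm b c, aux1 h]
theorem aux3 (a a' b b' : ℤˣ) : a⁻¹ * a' * (b⁻¹ * b') = (a * b)⁻¹ * (a' * b') := by
  rw [mul_inv, mul_mul_mul_comm]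

theorem prod_filter {α : Type} (L : List α) (f : α → ℤˣ) (p : α → Bool) (h : ∀ b ∈ L, p b = false → f b = 1) :
    ((L.filter p).map f).prod = (L.map f).prod := by
  induction L with
  | nil => rfl
  | cons a L ih =>
    have ih := ih fun b hb => h b (List.mem_cons_of_mem _ hb)
    rcases hp : p a with _ | _
    · rw [List.filter_cons_of_neg (by simp [hp]), ih, List.map_cons, List.prod_cons,
        h a List.mem_cons_self hp, one_mul]
    · rw [List.filter_cons_of_pos (by simp [hp]), List.map_cons, List.prod_cons, ih, List.map_cons,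
        List.prod_cons]

theorem wk_mem {k : ℕ} (hk : k < walls.length) : wk k ∈ walls := by
  rw [wk, List.getD_eq_getElem _ _ hk]
  exact List.getElem_mem hk

theorem exists_wk {t : List ℤ × Z4 × (ℕ × Bool) × List ℕ} (ht : t ∈ walls) :
    ∃ k < walls.length, wk k = t := by
  obtain ⟨k, hk, h⟩ := List.mem_iff_getElem.1 ht
  exact ⟨k, hk, by rw [wk, List.getD_eq_getElem _ _ hk, h]⟩

theorem es_lt : es < walls.length := by decide +kernel

theorem class_pm {T : E3 → E3 → ℤˣ} (hT : GFlat T Y) :
    (∃ v, TrivBy T Y v) ∨ GaugeEq T (fun x y => (Gm x y).g) Y := by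
  have h0 : ∀ b : List ℤ, ∃ v : E3 → ℤˣ, b ∈ tl → TrivBy T (C b) v := by
    intro b
    by_cases hb : b ∈ tl
    · obtain ⟨p, hp, -⟩ := tope_data hb
      obtain ⟨v, hv⟩ := C_gtriv hp ℤˣ T (hT.mono (C_sub b))
      exact ⟨v, fun _ => hv⟩
    · exact ⟨fun _ => 1, fun h => absurd h hb⟩
  choose v hv using h0
  set δ : ℕ → ℤˣ := fun k => v (up (wk k).1) (pt (wk k).2.1) * v (dn (wk k).1) (pt (wk k).2.1) with hδ
  have agree : ∀ k < walls.length, ∀ a ∈ C (wk k).1, v (up (wk k).1) a * v (dn (wk k).1) a = δ k := by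
    intro k hk a ha
    have hw := wall_data (wk_mem hk)
    have := TrivBy.const ((hv _ hw.ut).mono (C_mono hw.gu)) ((hv _ hw.dt).mono (C_mono hw.gd))
      (C_preconn hw.ok) ha (pt_mem hw.ok)
    rw [Int.units_inv_eq_self, Int.units_inv_eq_self] at this
    exact this
  set W : List ℤ → ℤˣ := fun b => ((pth b topes).map δ).prod with hW
  set δ' : ℕ → ℤˣ := fun k => δ k * (W (up (wk k).1) * W (dn (wk k).1)) with hδ'
  have tree : ∀ k, isTree k = true → δ' k = 1 := by
    intro k hk
    simp only [isTree, Bool.or_eq_true, beq_iff_eq] at hk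
    rcases hk with hk | hk
    · have : W (up (wk k).1) = δ k * W (dn (wk k).1) := by
        simp only [hW]; rw [hk, List.map_cons, List.prod_cons]
      show δ k * (W (up (wk k).1) * W (dn (wk k).1)) = 1
      exact aux1 this
    · have : W (dn (wk k).1) = δ k * W (up (wk k).1) := by
        simp only [hW]; rw [hk, List.map_cons, List.prod_cons]
      show δ k * (W (up (wk k).1) * W (dn (wk k).1)) = 1
      exact aux2 this
  have cod : ∀ c ∈ cods, (c.2.2.map δ').prod = 1 ∧ ∀ k ∈ c.2.2, k < walls.length := by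
    intro c hc
    have := List.all_eq_true.1 chk_cods c hc
    simp only [okc, Bool.and_eq_true, List.all_eq_true, decide_eq_true_eq, beq_iff_eq] at this
    obtain ⟨⟨c1, c2⟩, c3⟩ := this
    refine ⟨?_, fun k hk => (c2 k hk).1⟩
    obtain ⟨e1, e2, e3⟩ := okp_iff c1
    set a := pt c.2.1 with ha
    have haY : a ∈ Y := ⟨e2.le, by rw [e1]; exact e3⟩
    let f : List ℤ → ℤˣ := fun b => v b a * W b
    have h1 : c.2.2.map δ' = c.2.2.map fun k => f (up (wk k).1) * f (dn (wk k).1) := by
      refine List.map_congr_left fun k hk => ?_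
      have h2 : a ∈ C (wk k).1 := mem_C_of_ge haY (by rw [e1]; exact (c2 k hk).2)
      show δ k * (W (up (wk k).1) * W (dn (wk k).1)) = (v (up (wk k).1) a * W (up (wk k).1)) *
        (v (dn (wk k).1) a * W (dn (wk k).1))
      rw [← agree k (c2 k hk).1 a h2]
      exact mul_mul_mul_comm _ _ _ _
    rw [h1, List.prod_map_mul]
    have h3 := even_prod ((c.2.2.map fun k => up (wk k).1) ++ (c.2.2.map fun k => dn (wk k).1)) f (by
      intro b hb
      apply c3
      simp only [List.mem_append, List.mem_map] at hb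
      rcases hb with ⟨k, hk, rfl⟩ | ⟨k, hk, rfl⟩
      · exact (wall_data (wk_mem (c2 k hk).1)).ut
      · exact (wall_data (wk_mem (c2 k hk).1)).dt)
    rw [List.map_append, List.prod_append, List.map_map, List.map_map] at h3
    exact h3
  have codD : ∀ r : ℕ, ((cods.getD r ([], (0,0,0,1), [])).2.2.map δ').prod = 1 ∧
      ∀ k ∈ (cods.getD r ([], (0,0,0,1), [])).2.2, k < walls.length := by
    intro r
    by_cases hr : r < cods.length
    · rw [List.getD_eq_getElem _ _ hr]
      exact cod _ (List.getElem_mem hr)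
    · rw [List.getD_eq_default _ _ (not_lt.1 hr)]
      exact ⟨rfl, fun k hk => by simp at hk⟩
  have main : ∀ k < walls.length, δ' k = bif (wk k).2.2.1.2 then δ' es else 1 := by
    intro k hk
    have h1 := List.all_eq_true.1 chk_okw k (List.mem_range.2 hk)
    simp only [okw, Bool.or_eq_true] at h1
    rcases h1 with h1 | h1
    · have h2 := List.all_eq_true.1 chk_tree k (List.mem_range.2 hk)
      rw [h1, Bool.not_true, Bool.false_or, beq_iff_eq] at h2
      rw [h2, tree k h1]; rfl
    · set L0 := (k :: (bif (wk k).2.2.1.2 then [es] else []) ++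
        (wk k).2.2.2.flatMap (fun r => (cods.getD r ([], (0,0,0,1), [])).2.2)) with hL0
      have h2 : ((L0.filter fun j => !isTree j).map δ').prod = 1 := by
        refine even_prod _ _ fun j hj => ?_
        have hjl : j < walls.length := by
          have hj0 := List.mem_of_mem_filter hj
          rw [hL0, List.mem_append, List.mem_cons, List.mem_flatMap] at hj0
          rcases hj0 with (hj0 | hj0) | ⟨r, hr, hj0⟩
          · rw [hj0]; exact hk
          · rcases hb : (wk k).2.2.1.2 with _ | _
            · rw [hb] at hj0; simp at hj0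
            · rw [hb] at hj0
              simp only [cond_true, List.mem_singleton] at hj0
              rw [hj0]; exact es_lt
          · exact (codD r).2 j hj0
        have := List.all_eq_true.1 h1 j (List.mem_range.2 hjl)
        exact beq_iff_eq.1 this
      rw [prod_filter _ _ _ (fun j _ hj => tree j (by simpa using hj)), hL0, List.map_append,
        List.prod_append, List.map_cons, List.prod_cons] at h2
      have h3 : ((((wk k).2.2.2).flatMap (fun r => (cods.getD r ([], (0,0,0,1), [])).2.2)).map δ').prod = 1 := by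
        induction (wk k).2.2.2 with
        | nil => rfl
        | cons r R ih =>
          rw [List.flatMap_cons, List.map_append, List.prod_append, ih, mul_one]
          exact (codD r).1
      rw [h3, mul_one] at h2
      rcases hb : (wk k).2.2.1.2 with _ | _
      · rw [hb] at h2
        simpa using h2
      · rw [hb] at h2
        simp only [cond_true, List.map_cons, List.map_nil, List.prod_cons, List.prod_nil, mul_one] at h2
        simp only [cond_true]
        have := eq_inv_of_mul_eq_one_left h2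
        rwa [Int.units_inv_eq_self] at this
  rcases Int.units_eq_one_or (δ' es) with ht | ht
  · left
    refine glue (V := fun b x => W b * v b x) (fun b hb => (hv b hb).left _) fun t ht' => ?_
    obtain ⟨k, hk, rfl⟩ := exists_wk ht'
    have h1 := main k hk
    rw [ht] at h1
    have h2 : v (up (wk k).1) (pt (wk k).2.1) * v (dn (wk k).1) (pt (wk k).2.1) *
        (W (up (wk k).1) * W (dn (wk k).1)) = 1 := by
      have : δ' k = 1 := by rw [h1]; cases (wk k).2.2.1.2 <;> rfl
      exact this
    have h3 : (W (up (wk k).1) * v (up (wk k).1) (pt (wk k).2.1)) *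
        (W (dn (wk k).1) * v (dn (wk k).1) (pt (wk k).2.1)) = 1 := by
      rw [← h2]
      ac_rfl
    have := eq_inv_of_mul_eq_one_left h3
    rwa [Int.units_inv_eq_self] at this
  · right
    have hG : ∀ b ∈ tl, TrivBy (fun x y => T x y * (Gm x y).g) (C b)
        (fun x => W b * v b x * (phi (gg b (bt x))).g) := by
      intro b hb a ha
      obtain ⟨e1, he1, h1⟩ := (hv b hb).left (W b) a ha
      obtain ⟨e2, he2, h2⟩ := Gm_triv hb a ha
      refine ⟨min e1 e2, lt_min he1 he2, fun x y hx hy => ?_⟩
      have a1 := h1 x y (hx.trans_le (min_le_left _ _)) (hy.trans_le (min_le_left _ _))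
      have a2 := congrArg Aff.g (h2 x y (hx.trans_le (min_le_right _ _)) (hy.trans_le (min_le_right _ _)))
      simp only [Aff.mul_g, Aff.inv_g] at a2
      show T x y * (Gm x y).g = (W b * v b x * (phi (gg b (bt x))).g)⁻¹ * (W b * v b y * (phi (gg b (bt y))).g)
      have a1' : T x y = (W b * v b x)⁻¹ * (W b * v b y) := a1
      rw [a1', a2]
      exact aux3 _ _ _ _
    obtain ⟨u, hu⟩ := glue (V := fun b x => W b * v b x * (phi (gg b (bt x))).g) hG fun t ht' => by
      obtain ⟨k, hk, rfl⟩ := exists_wk ht'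
      have hw := wall_data (wk_mem hk)
      obtain ⟨e1, e2, e3⟩ := okp_iff hw.ok
      set p := pt (wk k).2.1 with hp
      have hpY : p ∈ Y := ⟨e2.le, by rw [e1]; exact e3⟩
      have hbt : bt p = up (wk k).1 := by rw [bt, clip_of e2.le, e1]
      have m1 : up (wk k).1 ∈ ta (sv p) := mem_ta.2 ⟨hw.ut, by rw [e1]; exact hw.gu⟩
      have m2 : dn (wk k).1 ∈ ta (sv p) := mem_ta.2 ⟨hw.dt, by rw [e1]; exact hw.gd⟩
      have c1 := gg_self hpY m1
      have c2 := gg_coc hpY m1 m2 m1
      rw [c1, hw.lab] at c2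
      have c3 := congrArg Aff.g c2
      simp only [Aff.mul_g, Aff.one_g] at c3
      have h1 := main k hk
      rw [ht] at h1
      have h1' : v (up (wk k).1) p * v (dn (wk k).1) p * (W (up (wk k).1) * W (dn (wk k).1)) =
        (phi (wk k).2.2.1).g := h1
      show W (up (wk k).1) * v (up (wk k).1) p * (phi (gg (up (wk k).1) (bt p))).g =
        W (dn (wk k).1) * v (dn (wk k).1) p * (phi (gg (dn (wk k).1) (bt p))).g
      rw [hbt, c1, Aff.one_g, mul_one]
      have c4 : (phi (gg (dn (wk k).1) (up (wk k).1))).g = (phi (wk k).2.2.1).g := by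
        have := eq_inv_of_mul_eq_one_left c3
        rw [Int.units_inv_eq_self] at this
        exact this.symm
      rw [c4, ← h1']
      have e : W (dn (wk k).1) * v (dn (wk k).1) p * (v (up (wk k).1) p * v (dn (wk k).1) p *
          (W (up (wk k).1) * W (dn (wk k).1))) = (W (up (wk k).1) * v (up (wk k).1) p) *
          ((W (dn (wk k).1) * W (dn (wk k).1)) * (v (dn (wk k).1) p * v (dn (wk k).1) p)) := by
        ac_rfl
      rw [e, sq_units, sq_units, one_mul, mul_one]
    refine ⟨fun x => (u x)⁻¹, fun a ha => ?_⟩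
    obtain ⟨e, he, h⟩ := hu a ha
    refine ⟨e, he, fun x y hx hy => ?_⟩
    have h1 := h x y hx hy
    simp only at h1
    show (Gm x y).g = (u x)⁻¹⁻¹ * T x y * (u y)⁻¹
    rw [Int.units_inv_eq_self, Int.units_inv_eq_self, Int.units_inv_eq_self]
    rw [Int.units_inv_eq_self] at h1
    calc (Gm x y).g = T x y * (T x y * (Gm x y).g) := by rw [← mul_assoc, sq_units, one_mul]
      _ = u x * T x y * u y := by rw [h1]; ac_rfl

end Pool.Agent.H755.Mach
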