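import Mathlib

/-! Piecewise linear maps between real normed spaces. -/

set_option autoImplicit false
set_option linter.deprecated false

namespace Pool.Agent.H755

open Set

variable {E E' E'' : Type*} [NormedAddCommGroup E] [NormedSpace ℝ E]
  [NormedAddCommGroup E'] [NormedSpace ℝ E'] [NormedAddCommGroup E''] [NormedSpace ℝ E'']

/-- a closed convex polyhedron: an intersection of finitely many closed half-spaces
`{x | p x ≤ c}` (`p` a linear form, `c` a real number). -/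
def IsPolyhedral (P : Set E) : Prop :=
  ∃ s : Set ((E →L[ℝ] ℝ) × ℝ), s.Finite ∧ P = {x | ∀ p ∈ s, p.1 x ≤ p.2}

/-- a piecewise linear map: the space is a union of finitely many closed convex polyhedra on each
of which the map is affine. -/
def IsPL (f : E → E') : Prop :=
  ∃ C : Set (Set E), C.Finite ∧ ⋃₀ C = univ ∧
    ∀ P ∈ C, IsPolyhedral P ∧ ∃ (A : E →L[ℝ] E') (b : E'), ∀ x ∈ P, f x = A x + b

theorem isPolyhedral_univ : IsPolyhedral (univ : Set E) := ⟨∅, finite_empty, by simp⟩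

theorem IsPolyhedral.inter {P Q : Set E} (hP : IsPolyhedral P) (hQ : IsPolyhedral Q) :
    IsPolyhedral (P ∩ Q) := by
  obtain ⟨s, hs, rfl⟩ := hP
  obtain ⟨t, ht, rfl⟩ := hQ
  refine ⟨s ∪ t, hs.union ht, ?_⟩
  ext x
  simp only [mem_inter_iff, mem_setOf_eq, mem_union]
  constructor
  · rintro ⟨h1, h2⟩ p (hp | hp)
    exacts [h1 p hp, h2 p hp]
  · intro h
    exact ⟨fun p hp => h p (Or.inl hp), fun p hp => h p (Or.inr hp)⟩

theorem isPolyhedral_halfspace (p : E →L[ℝ] ℝ) (c : ℝ) : IsPolyhedral {x : E | p x ≤ c} :=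
  ⟨{(p, c)}, finite_singleton _, by simp⟩

/-- preimage under an affine map -/
theorem IsPolyhedral.preimage {Q : Set E'} (hQ : IsPolyhedral Q) (A : E →L[ℝ] E') (b : E') :
    IsPolyhedral {x : E | A x + b ∈ Q} := by
  obtain ⟨s, hs, rfl⟩ := hQ
  refine ⟨(fun p : (E' →L[ℝ] ℝ) × ℝ => (p.1.comp A, p.2 - p.1 b)) '' s, hs.image _, ?_⟩
  ext x
  simp only [mem_setOf_eq, mem_image, forall_exists_index, and_imp, forall_apply_eq_imp_iff₂,
    ContinuousLinearMap.coe_comp', Function.comp_apply, map_add]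
  constructor
  · intro h p hp
    linarith [h p hp]
  · intro h p hp
    linarith [h p hp]

theorem isPL_affine (A : E →L[ℝ] E') (b : E') : IsPL (fun x => A x + b) :=
  ⟨{univ}, finite_singleton _, by simp, by
    rintro P hP
    rw [mem_singleton_iff.1 hP]
    exact ⟨isPolyhedral_univ, A, b, fun x _ => rfl⟩⟩

theorem isPL_linear (A : E →L[ℝ] E') : IsPL (fun x => A x) := by
  simpa using isPL_affine A (0 : E')

theorem isPL_const (b : E') : IsPL (fun _ : E => b) := by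
  simpa using isPL_affine (0 : E →L[ℝ] E') b

theorem isPL_id : IsPL (fun x : E => x) := isPL_linear (ContinuousLinearMap.id ℝ E)

theorem IsPL.comp {g : E' → E''} {f : E → E'} (hg : IsPL g) (hf : IsPL f) :
    IsPL (fun x => g (f x)) := by
  classical
  obtain ⟨C, hC, hCu, hCa⟩ := hf
  obtain ⟨D, hD, hDu, hDa⟩ := hg
  refine ⟨image2 (fun P Q => {x | x ∈ P ∧ f x ∈ Q}) C D, hC.image2 _ hD, ?_, ?_⟩
  · rw [eq_univ_iff_forall]
    intro x
    obtain ⟨P, hP, hxP⟩ : x ∈ ⋃₀ C := hCu ▸ mem_univ x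
    obtain ⟨Q, hQ, hxQ⟩ : f x ∈ ⋃₀ D := hDu ▸ mem_univ _
    exact ⟨_, ⟨P, hP, Q, hQ, rfl⟩, hxP, hxQ⟩
  · rintro _ ⟨P, hP, Q, hQ, rfl⟩
    obtain ⟨hPp, A, b, hA⟩ := hCa P hP
    obtain ⟨hQp, B, c, hB⟩ := hDa Q hQ
    have h1 : {x | x ∈ P ∧ f x ∈ Q} = P ∩ {x | A x + b ∈ Q} := by
      ext x
      simp only [mem_setOf_eq, mem_inter_iff]
      constructor
      · rintro ⟨h, h'⟩
        exact ⟨h, by rwa [← hA x h]⟩
      · rintro ⟨h, h'⟩
        exact ⟨h, by rwa [hA x h]⟩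
    refine ⟨?_, B.comp A, B b + c, ?_⟩
    · show IsPolyhedral {x | x ∈ P ∧ f x ∈ Q}
      rw [h1]
      exact hPp.inter (hQp.preimage A b)
    rintro x ⟨hx, hx'⟩
    show g (f x) = _
    rw [hB _ hx', hA x hx]
    simp [map_add, add_assoc]

/-- combination of two PL maps -/
theorem IsPL.comp₂ {f : E → ℝ} {g : E → ℝ} (hf : IsPL f) (hg : IsPL g)
    (F : ℝ → ℝ → E')
    (hF : ∀ (A B : E →L[ℝ] ℝ) (a b : ℝ), IsPL (fun x => F (A x + a) (B x + b))) :
    IsPL (fun x => F (f x) (g x)) := by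
  classical
  obtain ⟨C, hC, hCu, hCa⟩ := hf
  obtain ⟨D, hD, hDu, hDa⟩ := hg
  choose! hPp A a hA using hCa
  choose! hQp B b hB using hDa
  choose K hK hKu hKa using fun (P Q : Set E) => hF (A P) (B Q) (a P) (b Q)
  refine ⟨⋃ P ∈ C, ⋃ Q ∈ D, (fun S => P ∩ Q ∩ S) '' (K P Q),
    hC.biUnion fun P _ => hD.biUnion fun Q _ => (hK P Q).image _, ?_, ?_⟩
  · rw [eq_univ_iff_forall]
    intro x
    obtain ⟨P, hP, hxP⟩ : x ∈ ⋃₀ C := hCu ▸ mem_univ x
    obtain ⟨Q, hQ, hxQ⟩ : x ∈ ⋃₀ D := hDu ▸ mem_univ _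
    obtain ⟨S, hS, hxS⟩ : x ∈ ⋃₀ (K P Q) := hKu P Q ▸ mem_univ _
    refine ⟨P ∩ Q ∩ S, ?_, ⟨hxP, hxQ⟩, hxS⟩
    simp only [mem_iUnion]
    exact ⟨P, hP, Q, hQ, S, hS, rfl⟩
  · intro R hR
    simp only [mem_iUnion] at hR
    obtain ⟨P, hP, Q, hQ, S, hS, rfl⟩ := hR
    obtain ⟨hSp, L, c, hL⟩ := hKa P Q S hS
    refine ⟨((hPp P hP).inter (hQp Q hQ)).inter hSp, L, c, ?_⟩
    rintro x ⟨⟨hxP, hxQ⟩, hxS⟩
    show F (f x) (g x) = _
    rw [hA P hP x hxP, hB Q hQ x hxQ]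
    exact hL x hxS

theorem IsPL.add_real {f g : E → ℝ} (hf : IsPL f) (hg : IsPL g) : IsPL (fun x => f x + g x) := by
  refine hf.comp₂ hg (fun s t => s + t) fun A B a b => ?_
  have := isPL_affine (A + B) (a + b)
  refine cast (congrArg IsPL (funext fun x => ?_)) this
  simp only [ContinuousLinearMap.add_apply]
  ring

theorem isPL_min_affine (A B : E →L[ℝ] ℝ) (a b : ℝ) :
    IsPL (fun x => min (A x + a) (B x + b)) := by
  refine ⟨{{x | (A - B) x ≤ b - a}, {x | (B - A) x ≤ a - b}}, by simp, ?_, ?_⟩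
  · rw [eq_univ_iff_forall]
    intro x
    rcases le_total (A x + a) (B x + b) with h | h
    · exact ⟨_, Or.inl rfl, by simp only [mem_setOf_eq, ContinuousLinearMap.sub_apply]; linarith⟩
    · exact ⟨_, Or.inr rfl, by simp only [mem_setOf_eq, ContinuousLinearMap.sub_apply]; linarith⟩
  · rintro P (rfl | rfl)
    · refine ⟨isPolyhedral_halfspace _ _, A, a, fun x hx => min_eq_left ?_⟩
      simp only [mem_setOf_eq, ContinuousLinearMap.sub_apply] at hx
      linarith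
    · refine ⟨isPolyhedral_halfspace _ _, B, b, fun x hx => min_eq_right ?_⟩
      simp only [mem_setOf_eq, ContinuousLinearMap.sub_apply] at hx
      linarith

theorem IsPL.min {f g : E → ℝ} (hf : IsPL f) (hg : IsPL g) : IsPL (fun x => min (f x) (g x)) :=
  hf.comp₂ hg (fun s t => Min.min s t) isPL_min_affine

theorem IsPL.const_mul {f : E → ℝ} (hf : IsPL f) (c : ℝ) : IsPL (fun x => c * f x) := by
  have h := (isPL_linear (c • ContinuousLinearMap.id ℝ ℝ)).comp hf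
  simpa using h

theorem IsPL.neg_real {f : E → ℝ} (hf : IsPL f) : IsPL (fun x => - f x) := by
  simpa using hf.const_mul (-1)

theorem IsPL.max {f g : E → ℝ} (hf : IsPL f) (hg : IsPL g) : IsPL (fun x => max (f x) (g x)) := by
  have h := (hf.neg_real.min hg.neg_real).neg_real
  refine cast (congrArg IsPL (funext fun x => ?_)) h
  rw [← max_neg_neg, neg_neg, neg_neg]

theorem IsPL.abs {f : E → ℝ} (hf : IsPL f) : IsPL (fun x => |f x|) := hf.max hf.neg_real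

/-- `x ↦ A x + g x • d` -/
theorem IsPL.add_smul_const {g : E → ℝ} (hg : IsPL g) (A : E →L[ℝ] E') (d : E') :
    IsPL (fun x => A x + g x • d) := by
  obtain ⟨C, hC, hCu, hCa⟩ := hg
  refine ⟨C, hC, hCu, fun P hP => ?_⟩
  obtain ⟨hPp, B, b, hB⟩ := hCa P hP
  refine ⟨hPp, A + B.smulRight d, b • d, fun x hx => ?_⟩
  show A x + g x • d = _
  rw [hB x hx]
  simp [add_smul, add_assoc]

theorem IsPL.add {f g : E → E'} (hf : IsPL f) (hg : IsPL g) : IsPL (fun x => f x + g x) := by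
  classical
  obtain ⟨C, hC, hCu, hCa⟩ := hf
  obtain ⟨D, hD, hDu, hDa⟩ := hg
  refine ⟨image2 (fun P Q => P ∩ Q) C D, hC.image2 _ hD, ?_, ?_⟩
  · rw [eq_univ_iff_forall]
    intro x
    obtain ⟨P, hP, hxP⟩ : x ∈ ⋃₀ C := hCu ▸ mem_univ x
    obtain ⟨Q, hQ, hxQ⟩ : x ∈ ⋃₀ D := hDu ▸ mem_univ _
    exact ⟨_, ⟨P, hP, Q, hQ, rfl⟩, hxP, hxQ⟩
  · rintro _ ⟨P, hP, Q, hQ, rfl⟩
    obtain ⟨hPp, A, b, hA⟩ := hCa P hP
    obtain ⟨hQp, B, c, hB⟩ := hDa Q hQ
    refine ⟨hPp.inter hQp, A + B, b + c, ?_⟩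
    rintro x ⟨hx, hx'⟩
    show f x + g x = _
    rw [hB _ hx', hA x hx]
    simp only [ContinuousLinearMap.add_apply]
    abel

end Pool.Agent.H755
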