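import Pool.Agent.H755.KData
import Pool.Agent.H755.KDefs

/-! The realization is injective. -/

set_option autoImplicit false
set_option linter.deprecated false
set_option linter.unusedVariables false
set_option linter.style.longLine false

namespace Pool.Agent.H755

open Set

/-- facet list to finset -/
def toFS (l : List ℕ) : Finset (Fin 30) := Finset.univ.filter fun i => i.1 ∈ l

theorem mem_toFS {l : List ℕ} {i : Fin 30} : i ∈ toFS l ↔ i.1 ∈ l := by simp [toFS]

/-- the complex -/
def FK : Finset (Finset (Fin 30)) := (facets.map toFS).toFinset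

theorem mem_FK {τ : Finset (Fin 30)} : τ ∈ FK ↔ ∃ l ∈ facets, toFS l = τ := by simp [FK]

/-- the positions -/
noncomputable def pos0 (i : Fin 30) : E5 := toE (verts0 i.1)

noncomputable def affR (f : Z5 × ℤ) (x : E5) : ℝ := lin f.1 x + f.2

theorem affR_pos (f : Z5 × ℤ) (i : Fin 30) : affR f (pos0 i) = affZ f (verts0 i.1) := by
  rw [affR, pos0, lin_toE, affZ]; push_cast; ring

theorem affR_sum (f : Z5 × ℤ) {w : Fin 30 → ℝ} (hw : ∑ i, w i = 1) :
    affR f (∑ i, w i • pos0 i) = ∑ i, w i * affZ f (verts0 i.1) := by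
  rw [affR, map_sum]
  have h : (f.2 : ℝ) = ∑ i, w i * (f.2 : ℝ) := by rw [← Finset.sum_mul, hw, one_mul]
  rw [h, ← Finset.sum_add_distrib]
  refine Finset.sum_congr rfl fun i _ => ?_
  rw [map_smul, smul_eq_mul, ← mul_add, ← affR_pos]; rfl

/-- signs are recorded by the mask -/
def Msk (f : Z5 × ℤ) (m : ℕ × ℕ) : Prop := ∀ i : Fin 30,
  (m.1.testBit i.1 = true ↔ 0 < affZ f (verts0 i.1)) ∧ (m.2.testBit i.1 = true ↔ affZ f (verts0 i.1) < 0)

theorem okMaskGo_iff {f : Z5 × ℤ} {m : ℕ × ℕ} : ∀ {k : ℕ} {l : List Z5}, okMaskGo f m k l = true →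
    ∀ i, (hi : i < l.length) → (m.1.testBit (k + i) = true ↔ 0 < affZ f (l[i])) ∧
      (m.2.testBit (k + i) = true ↔ affZ f (l[i]) < 0)
  | k, [], _, i, hi => absurd hi (by simp)
  | k, x :: l, h, i, hi => by
    simp only [okMaskGo, Bool.and_eq_true, beq_iff_eq] at h
    obtain ⟨⟨h1, h2⟩, h3⟩ := h
    rcases i with _ | i
    · simp only [add_zero, List.getElem_cons_zero]
      rw [h1, h2]; simp
    · have := okMaskGo_iff h3 i (by simpa using hi)
      simp only [List.getElem_cons_succ]
      rw [show k + (i + 1) = k + 1 + i by ring]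
      exact this

theorem okMasks_iff : ∀ {k : ℕ} {l : List (Z5 × ℤ)}, okMasks k l = true → ∀ i, (hi : i < l.length) →
    okMaskGo (l[i]) (maskAt (k + i)) 0 verts = true
  | k, [], _, i, hi => absurd hi (by simp)
  | k, f :: l, h, i, hi => by
    simp only [okMasks, Bool.and_eq_true] at h
    rcases i with _ | i
    · exact h.1
    · have := okMasks_iff h.2 i (by simpa using hi)
      simp only [List.getElem_cons_succ]
      rw [show k + (i + 1) = k + 1 + i by ring]
      exact this

theorem verts_len : verts.length = 30 := by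
  have := chk_len
  simp only [Bool.and_eq_true, decide_eq_true_eq] at this
  exact this.2

theorem exists_msk {k : ℕ} (hk : k < 504) : ∃ f, Msk f (maskAt k) := by
  have hl := chk_len
  simp only [Bool.and_eq_true, decide_eq_true_eq] at hl
  have hk' : k < seps4.length := by rw [hl.1]; exact hk
  have h := okMasks_iff chk_okMasks k hk'
  rw [zero_add] at h
  refine ⟨seps4[k], fun i => ?_⟩
  have hi : i.1 < verts.length := by rw [hl.2]; exact i.2
  have h2 := okMaskGo_iff h i.1 hi
  rw [zero_add] at h2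
  rw [verts0, List.getD_eq_getElem _ _ hi]
  exact h2

theorem bitGo_iff {A : ℕ} {l : List ℕ} : ∀ {n : ℕ}, bitGo A l n = true → ∀ i < n, (A.testBit i = true ↔ i ∈ l)
  | 0, _, i, hi => absurd hi (by simp)
  | n + 1, h, i, hi => by
    simp only [bitGo, Bool.and_eq_true, beq_iff_eq] at h
    rcases Nat.lt_succ_iff_lt_or_eq.1 hi with h1 | rfl
    · exact bitGo_iff h.2 i h1
    · rw [h.1, List.elem_eq_mem, decide_eq_true_eq]

theorem pinGo_iff {A : ℕ} : ∀ {c : ℕ} {l : List ℕ}, pinGo A c l = true → ∀ i ∈ l, ∃ k < 504,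
    (A ^^^ 2 ^ i) &&& ((maskAt k).1 ||| (maskAt k).2) = 0 ∧ ((maskAt k).1 ||| (maskAt k).2).testBit i = true
  | c, [], _, i, hi => absurd hi (by simp)
  | c, j :: l, h, i, hi => by
    simp only [pinGo, Bool.and_eq_true, beq_iff_eq, decide_eq_true_eq] at h
    obtain ⟨⟨⟨h1, h2⟩, h3⟩, h4⟩ := h
    rcases List.mem_cons.1 hi with rfl | hi
    · exact ⟨_, h1, h2, h3⟩
    · exact pinGo_iff h4 i hi

theorem sepGo_iff {A : ℕ} : ∀ {c : ℕ} {l : List ℕ}, sepGo A c l = true → ∀ B ∈ l, ∃ k < 504,
    sepd A B (maskAt k) = true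
  | c, [], _, i, hi => absurd hi (by simp)
  | c, j :: l, h, i, hi => by
    simp only [sepGo, Bool.and_eq_true, decide_eq_true_eq] at h
    obtain ⟨⟨h1, h2⟩, h4⟩ := h
    rcases List.mem_cons.1 hi with rfl | hi
    · exact ⟨_, h1, h2⟩
    · exact sepGo_iff h4 i hi

theorem allPairs_iff : ∀ {l c : List ℕ}, allPairs l c = true → ∀ A ∈ l, ∀ B ∈ l, A = B ∨
    (∃ k < 504, sepd A B (maskAt k) = true) ∨ ∃ k < 504, sepd B A (maskAt k) = true
  | [], _, _, A, hA, _, _ => absurd hA (by simp)
  | a :: l, [], h, _, _, _, _ => by simp [allPairs] at h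
  | a :: l, c :: cs, h, A, hA, B, hB => by
    simp only [allPairs, Bool.and_eq_true] at h
    rcases List.mem_cons.1 hA with hA1 | hA1 <;> rcases List.mem_cons.1 hB with hB1 | hB1
    · exact Or.inl (hA1.trans hB1.symm)
    · rw [hA1]; exact Or.inr (Or.inl (sepGo_iff h.1 B hB1))
    · rw [hB1]; exact Or.inr (Or.inr (sepGo_iff h.1 A hA1))
    · exact allPairs_iff h.2 A hA1 B hB1

theorem okF_iff : ∀ {L : List (List ℕ)} {M P : List ℕ}, okF L M P = true → ∀ l ∈ L, ∃ A ∈ M,
    (∀ i < 30, (A.testBit i = true ↔ i ∈ l)) ∧ (∀ i ∈ l, i < 30) ∧ ∃ c, pinGo A c l = true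
  | [], _, _, _, l, hl => absurd hl (by simp)
  | _ :: _, [], _, h, _, _ => by simp [okF] at h
  | _ :: _, _ :: _, [], h, _, _ => by simp [okF] at h
  | a :: L, A :: M, c :: P, h, l, hl => by
    simp only [okF, Bool.and_eq_true, List.all_eq_true, decide_eq_true_eq] at h
    obtain ⟨⟨⟨h1, h2⟩, h3⟩, h4⟩ := h
    rcases List.mem_cons.1 hl with rfl | hl
    · exact ⟨A, by simp, bitGo_iff h1, h2, c, h3⟩
    · obtain ⟨B, hB, h⟩ := okF_iff h4 l hl
      exact ⟨B, List.mem_cons_of_mem _ hB, h⟩

theorem sum_sep {w w' v : Fin 30 → ℝ} (hw : ∀ i, 0 ≤ w i) (hw' : ∀ i, 0 ≤ w' i)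
    (h1 : ∀ i, w i ≠ 0 → 0 ≤ v i) (h2 : ∀ i, w' i ≠ 0 → v i ≤ 0)
    (he : ∑ i, w i * v i = ∑ i, w' i * v i) : (∀ i, w i * v i = 0) ∧ ∀ i, w' i * v i = 0 := by
  have a1 : ∀ i, 0 ≤ w i * v i := fun i => by
    by_cases h : w i = 0
    · rw [h, zero_mul]
    · exact mul_nonneg (hw i) (h1 i h)
  have a2 : ∀ i, w' i * v i ≤ 0 := fun i => by
    by_cases h : w' i = 0
    · rw [h, zero_mul]
    · exact mul_nonpos_of_nonneg_of_nonpos (hw' i) (h2 i h)
  have s1 : 0 ≤ ∑ i, w i * v i := Finset.sum_nonneg fun i _ => a1 i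
  have s2 : ∑ i, w' i * v i ≤ 0 := Finset.sum_nonpos fun i _ => a2 i
  have e1 : ∑ i, w i * v i = 0 := by linarith
  have e2 : ∑ i, w' i * v i = 0 := by linarith
  constructor
  · intro i
    exact (Finset.sum_eq_zero_iff_of_nonneg (fun i _ => a1 i)).1 e1 i (Finset.mem_univ i)
  · intro i
    exact (Finset.sum_eq_zero_iff_of_nonpos (fun i _ => a2 i)).1 e2 i (Finset.mem_univ i)

theorem sepd_iff {A B : ℕ} {m : ℕ × ℕ} (h : sepd A B m = true) (i : ℕ) :
    (A.testBit i = true → B.testBit i = true → m.1.testBit i = false ∧ m.2.testBit i = false) := by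
  intro ha hb
  simp only [sepd, Bool.and_eq_true, beq_iff_eq] at h
  have := congrArg (fun n => Nat.testBit n i) h.1
  simp only [Nat.testBit_land, Nat.testBit_lor, ha, hb, Bool.true_and, Nat.zero_testBit,
    Bool.or_eq_false_iff] at this
  exact this

theorem sepd_or {A B : ℕ} {m : ℕ × ℕ} (h : sepd A B m = true) :
    (∀ i, (A.testBit i = true → B.testBit i = false → m.1.testBit i = true) ∧
      (A.testBit i = false → B.testBit i = true → m.2.testBit i = true)) ∨
    (∀ i, (A.testBit i = true → B.testBit i = false → m.2.testBit i = true) ∧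
      (A.testBit i = false → B.testBit i = true → m.1.testBit i = true)) := by
  simp only [sepd, Bool.and_eq_true, Bool.or_eq_true, beq_iff_eq] at h
  rcases h.2 with ⟨h1, h2⟩ | ⟨h1, h2⟩
  · left
    intro i
    have e1 := congrArg (fun n => Nat.testBit n i) h1
    have e2 := congrArg (fun n => Nat.testBit n i) h2
    simp only [Nat.testBit_land, Nat.testBit_xor] at e1 e2
    constructor
    · intro a b; rw [a, b] at e1; simpa using e1
    · intro a b; rw [a, b] at e2; simpa using e2
  · right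
    intro i
    have e1 := congrArg (fun n => Nat.testBit n i) h1
    have e2 := congrArg (fun n => Nat.testBit n i) h2
    simp only [Nat.testBit_land, Nat.testBit_xor] at e1 e2
    constructor
    · intro a b; rw [a, b] at e1; simpa using e1
    · intro a b; rw [a, b] at e2; simpa using e2

/-- a point common to two facets lies in the common face -/
theorem supp_sep {A B : ℕ} {k : ℕ} (hk : k < 504) (h : sepd A B (maskAt k) = true) {w w' : Fin 30 → ℝ}
    (hw : ∀ i, 0 ≤ w i) (hw' : ∀ i, 0 ≤ w' i) (sw : ∑ i, w i = 1) (sw' : ∑ i, w' i = 1)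
    (hA : ∀ i, w i ≠ 0 → A.testBit i.1 = true) (hB : ∀ i, w' i ≠ 0 → B.testBit i.1 = true)
    (he : ∑ i, w i • pos0 i = ∑ i, w' i • pos0 i) :
    (∀ i, w i ≠ 0 → B.testBit i.1 = true) ∧ ∀ i, w' i ≠ 0 → A.testBit i.1 = true := by
  obtain ⟨f, hf⟩ := exists_msk hk
  have hsum : ∑ i, w i * (affZ f (verts0 i.1) : ℝ) = ∑ i, w' i * (affZ f (verts0 i.1) : ℝ) := by
    rw [← affR_sum f sw, ← affR_sum f sw', he]
  rcases sepd_or h with h1 | h1
  · have key := sum_sep hw hw' (v := fun i => (affZ f (verts0 i.1) : ℝ)) (fun i hi => by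
      have a := hA i hi
      rcases hb : B.testBit i.1 with _ | _
      · have := (hf i).1.1 ((h1 i.1).1 a hb)
        have : (0:ℝ) < affZ f (verts0 i.1) := by exact_mod_cast this
        exact this.le
      · have := sepd_iff h i.1 a hb
        have h2 : ¬ affZ f (verts0 i.1) < 0 := fun h3 => by
          have := (hf i).2.2 h3
          rw [(sepd_iff h i.1 a hb).2] at this; exact absurd this (by simp)
        exact_mod_cast not_lt.1 h2) (fun i hi => by
      have b := hB i hi
      rcases ha : A.testBit i.1 with _ | _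
      · have := (hf i).2.1 ((h1 i.1).2 ha b)
        have : (affZ f (verts0 i.1) : ℝ) < 0 := by exact_mod_cast this
        exact this.le
      · have h2 : ¬ 0 < affZ f (verts0 i.1) := fun h3 => by
          have := (hf i).1.2 h3
          rw [(sepd_iff h i.1 ha b).1] at this; exact absurd this (by simp)
        exact_mod_cast not_lt.1 h2) hsum
    constructor
    · intro i hi
      by_contra hb
      rw [Bool.not_eq_true] at hb
      have := (hf i).1.1 ((h1 i.1).1 (hA i hi) hb)
      have h3 : (0:ℝ) < affZ f (verts0 i.1) := by exact_mod_cast this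
      rcases mul_eq_zero.1 (key.1 i) with h4 | h4
      · exact hi h4
      · exact h3.ne' h4
    · intro i hi
      by_contra ha
      rw [Bool.not_eq_true] at ha
      have := (hf i).2.1 ((h1 i.1).2 ha (hB i hi))
      have h3 : (affZ f (verts0 i.1) : ℝ) < 0 := by exact_mod_cast this
      rcases mul_eq_zero.1 (key.2 i) with h4 | h4
      · exact hi h4
      · exact h3.ne h4
  · have key := sum_sep hw' hw (v := fun i => (affZ f (verts0 i.1) : ℝ)) (fun i hi => by
      have b := hB i hi
      rcases ha : A.testBit i.1 with _ | _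
      · have := (hf i).1.1 ((h1 i.1).2 ha b)
        have : (0:ℝ) < affZ f (verts0 i.1) := by exact_mod_cast this
        exact this.le
      · have h2 : ¬ affZ f (verts0 i.1) < 0 := fun h3 => by
          have := (hf i).2.2 h3
          rw [(sepd_iff h i.1 ha b).2] at this; exact absurd this (by simp)
        exact_mod_cast not_lt.1 h2) (fun i hi => by
      have a := hA i hi
      rcases hb : B.testBit i.1 with _ | _
      · have := (hf i).2.1 ((h1 i.1).1 a hb)
        have : (affZ f (verts0 i.1) : ℝ) < 0 := by exact_mod_cast this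
        exact this.le
      · have h2 : ¬ 0 < affZ f (verts0 i.1) := fun h3 => by
          have := (hf i).1.2 h3
          rw [(sepd_iff h i.1 a hb).1] at this; exact absurd this (by simp)
        exact_mod_cast not_lt.1 h2) hsum.symm
    constructor
    · intro i hi
      by_contra hb
      rw [Bool.not_eq_true] at hb
      have := (hf i).2.1 ((h1 i.1).1 (hA i hi) hb)
      have h3 : (affZ f (verts0 i.1) : ℝ) < 0 := by exact_mod_cast this
      rcases mul_eq_zero.1 (key.2 i) with h4 | h4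
      · exact hi h4
      · exact h3.ne h4
    · intro i hi
      by_contra ha
      rw [Bool.not_eq_true] at ha
      have := (hf i).1.1 ((h1 i.1).2 ha (hB i hi))
      have h3 : (0:ℝ) < affZ f (verts0 i.1) := by exact_mod_cast this
      rcases mul_eq_zero.1 (key.1 i) with h4 | h4
      · exact hi h4
      · exact h3.ne' h4

theorem exists_pin {l : List ℕ} (hl : l ∈ facets) {i : Fin 30} (hi : i.1 ∈ l) :
    ∃ f, (∀ j : Fin 30, j.1 ∈ l → j ≠ i → affZ f (verts0 j.1) = 0) ∧ affZ f (verts0 i.1) ≠ 0 := by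
  obtain ⟨A, hA, h1, h2, c, h3⟩ := okF_iff chk_okF l hl
  obtain ⟨k, hk, e1, e2⟩ := pinGo_iff h3 i.1 hi
  obtain ⟨f, hf⟩ := exists_msk hk
  refine ⟨f, fun j hj hji => ?_, ?_⟩
  · have e3 := congrArg (fun n => Nat.testBit n j.1) e1
    have hne : i.1 ≠ j.1 := fun h => hji (Fin.ext h.symm)
    simp only [Nat.testBit_land, Nat.testBit_xor, Nat.testBit_lor, (h1 j.1 j.2).2 hj, Nat.testBit_two_pow,
      hne, decide_false, Bool.xor_false, Bool.true_and, Nat.zero_testBit, Bool.or_eq_false_iff] at e3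
    by_contra hne0
    rcases lt_or_gt_of_ne hne0 with h | h
    · have := (hf j).2.2 h
      rw [e3.2] at this; exact absurd this (by simp)
    · have := (hf j).1.2 h
      rw [e3.1] at this; exact absurd this (by simp)
  · intro h0
    rw [Nat.testBit_lor, Bool.or_eq_true] at e2
    rcases e2 with e2 | e2
    · have := (hf i).1.1 e2
      rw [h0] at this; exact absurd this (lt_irrefl 0)
    · have := (hf i).2.1 e2
      rw [h0] at this; exact absurd this (lt_irrefl 0)

theorem sum_single {v w : Fin 30 → ℝ} {i : Fin 30} (h : ∀ j, j ≠ i → w j * v j = 0) :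
    ∑ j, w j * v j = w i * v i :=
  Finset.sum_eq_single i (fun j _ hj => h j hj) (fun h => absurd (Finset.mem_univ i) h)

theorem inj0 : InjOn (fun w : Fin 30 → ℝ => ∑ i, w i • pos0 i) (realization FK) := by
  intro w hw w' hw' he
  obtain ⟨hw0, sw, τ, hτ, hwτ⟩ := hw
  obtain ⟨hw0', sw', τ', hτ', hwτ'⟩ := hw'
  obtain ⟨l, hl, rfl⟩ := mem_FK.1 hτ
  obtain ⟨l', hl', rfl⟩ := mem_FK.1 hτ'
  simp only at he
  obtain ⟨A, hA, a1, a2, c, a3⟩ := okF_iff chk_okF l hl
  obtain ⟨B, hB, b1, b2, c', b3⟩ := okF_iff chk_okF l' hl'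
  have sA : ∀ i, w i ≠ 0 → A.testBit i.1 = true := fun i hi => by
    rw [a1 i.1 i.2]
    by_contra h
    exact hi (hwτ i (by rwa [mem_toFS]))
  have sB : ∀ i, w' i ≠ 0 → B.testBit i.1 = true := fun i hi => by
    rw [b1 i.1 i.2]
    by_contra h
    exact hi (hwτ' i (by rwa [mem_toFS]))
  have sB' : ∀ i, w' i ≠ 0 → A.testBit i.1 = true := by
    rcases allPairs_iff chk_pairs A hA B hB with rfl | ⟨k, hk, h⟩ | ⟨k, hk, h⟩
    · exact sB
    · exact (supp_sep hk h hw0 hw0' sw sw' sA sB he).2
    · exact (supp_sep hk h hw0' hw0 sw' sw sB sA he.symm).1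
  funext i
  by_cases hi : i.1 ∈ l
  · obtain ⟨f, f1, f2⟩ := exists_pin hl hi
    have f2' : (affZ f (verts0 i.1) : ℝ) ≠ 0 := by exact_mod_cast f2
    have key : ∀ u : Fin 30 → ℝ, (∀ i, u i ≠ 0 → A.testBit i.1 = true) → ∀ j, j ≠ i →
        u j * (affZ f (verts0 j.1) : ℝ) = 0 := by
      intro u hu j hj
      by_cases h : u j = 0
      · rw [h, zero_mul]
      · rw [f1 j ((a1 j.1 j.2).1 (hu j h)) hj]; simp
    have hsum : ∑ i, w i * (affZ f (verts0 i.1) : ℝ) = ∑ i, w' i * (affZ f (verts0 i.1) : ℝ) := by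
      rw [← affR_sum f sw, ← affR_sum f sw', he]
    rw [sum_single (key w sA), sum_single (key w' sB')] at hsum
    exact mul_right_cancel₀ f2' hsum
  · have e1 : w i = 0 := hwτ i (by rwa [mem_toFS])
    have e2 : w' i = 0 := by
      by_contra h
      exact hi ((a1 i.1 i.2).1 (sB' i h))
    rw [e1, e2]

end Pool.Agent.H755
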