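import Pool.Agent.H755.GTriv

/-! The second cohomology of the complement of the standard three-sphere in `R^5` vanishes
for every flat coefficient system (on an exhausting family of compact sets). -/

set_option autoImplicit false
set_option linter.deprecated false
set_option linter.unusedVariables false

namespace Pool.Agent.H755

open Set Pool.Agent.Helper60.AS

/-- the model space -/
abbrev Om := (Fin 4 → ℝ) × ℝ

/-- compact parts of the complement of the standard (cubical) sphere -/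
def RN (N : ℝ) : Set Om := {p | ‖p.1‖ ≤ N ∧ |p.2| ≤ N ∧ (1 / N ≤ |‖p.1‖ - 1| ∨ 1 / N ≤ |p.2|)}

theorem RN_closed (N : ℝ) : IsClosed (RN N) := by
  have h1 : IsClosed {p : Om | ‖p.1‖ ≤ N} := isClosed_le (by fun_prop) continuous_const
  have h2 : IsClosed {p : Om | |p.2| ≤ N} := isClosed_le (by fun_prop) continuous_const
  have h3 : IsClosed {p : Om | 1 / N ≤ |‖p.1‖ - 1|} := isClosed_le continuous_const (by fun_prop)
  have h4 : IsClosed {p : Om | 1 / N ≤ |p.2|} := isClosed_le continuous_const (by fun_prop)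
  exact h1.inter (h2.inter (h3.union h4))

theorem RN_compact (N : ℝ) : IsCompact (RN N) := by
  refine Metric.isCompact_of_isClosed_isBounded (RN_closed N) ?_
  refine (Metric.isBounded_closedBall (x := (0 : Om)) (r := N)).subset fun p hp => ?_
  rw [mem_closedBall_zero_iff, Prod.norm_def]
  exact max_le hp.1 (by rw [Real.norm_eq_abs]; exact hp.2.1)

variable {k V G : Type} [Group G] [CommRing k] [AddCommGroup V] [Module k V]

theorem norm_update_le {x : Fin 4 → ℝ} {N t : ℝ} (j : Fin 4) (hx : ‖x‖ ≤ N) (ht : |t| ≤ N) :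
    ‖Function.update x j t‖ ≤ N := by
  have hN : 0 ≤ N := (norm_nonneg _).trans hx
  rw [pi_norm_le_iff_of_nonneg hN] at hx ⊢
  intro i
  by_cases h : i = j
  · subst h; simpa using ht
  · simpa [Function.update_of_ne h] using hx i

theorem le_norm_update {x : Fin 4 → ℝ} {t : ℝ} (j : Fin 4) (ht : |x j| ≤ |t|) :
    ‖x‖ ≤ ‖Function.update x j t‖ := by
  rw [pi_norm_le_iff_of_nonneg (norm_nonneg _)]
  intro i
  by_cases h : i = j
  · subst h
    refine le_trans ?_ (norm_le_pi_norm _ i)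
    simpa using ht
  · refine le_trans ?_ (norm_le_pi_norm _ i)
    simp [Function.update_of_ne h]

theorem cont_update (j : Fin 4) (f : ℝ × Om → ℝ) (hf : Continuous f) :
    Continuous fun p : ℝ × Om => ((Function.update p.2.1 j (f p), p.2.2) : Om) := by
  refine Continuous.prodMk ?_ (by fun_prop)
  exact (continuous_fst.comp continuous_snd).update j hf

/-- pushing the coordinate `j` to `N` -/
def pushC (j : Fin 4) (N : ℝ) (s : ℝ) (p : Om) : Om :=
  (Function.update p.1 j ((1 - s) * p.1 j + s * N), p.2)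

theorem pushC_cont (j : Fin 4) (N : ℝ) : Continuous fun p : ℝ × Om => pushC j N p.1 p.2 :=
  cont_update j (fun p => (1 - p.1) * p.2.1 j + p.1 * N) (by fun_prop)

theorem pushC_zero (j : Fin 4) (N : ℝ) (p : Om) : pushC j N 0 p = p := by
  simp [pushC]

/-- the part of a shell where the coordinates in a list vanish -/
def shell (z : Set (Fin 4)) (N : ℝ) : Set Om :=
  {p | 1 + 1 / N ≤ ‖p.1‖ ∧ ‖p.1‖ ≤ N ∧ p.2 = 0 ∧ ∀ i ∈ z, p.1 i = 0}

theorem shell_closed (z : Set (Fin 4)) (N : ℝ) : IsClosed (shell z N) := by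
  have h1 : IsClosed {p : Om | 1 + 1 / N ≤ ‖p.1‖} := isClosed_le continuous_const (by fun_prop)
  have h2 : IsClosed {p : Om | ‖p.1‖ ≤ N} := isClosed_le (by fun_prop) continuous_const
  have h3 : IsClosed {p : Om | p.2 = 0} := isClosed_eq (by fun_prop) continuous_const
  have h4 : IsClosed {p : Om | ∀ i ∈ z, p.1 i = 0} := by
    have : {p : Om | ∀ i ∈ z, p.1 i = 0} = ⋂ i ∈ z, {p : Om | p.1 i = 0} := by ext; simp
    rw [this]
    exact isClosed_biInter fun i _ => isClosed_eq (by fun_prop) continuous_const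
  exact h1.inter (h2.inter (h3.inter h4))

theorem pushC_shell {z : Set (Fin 4)} {N : ℝ} {j : Fin 4} (hj : j ∉ z) {s : ℝ} (hs : s ∈ Icc (0:ℝ) 1)
    {p : Om} (hp : p ∈ shell z N) (hp0 : 0 ≤ p.1 j) :
    pushC j N s p ∈ shell z N ∧ 0 ≤ (pushC j N s p).1 j := by
  obtain ⟨h1, h2, h3, h4⟩ := hp
  have hN : 0 ≤ N := (norm_nonneg _).trans h2
  have hjN : p.1 j ≤ N := (le_abs_self _).trans ((norm_le_pi_norm p.1 j).trans h2)
  have ht0 : p.1 j ≤ (1 - s) * p.1 j + s * N := by nlinarith [hs.1]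
  have htN : (1 - s) * p.1 j + s * N ≤ N := by nlinarith [hs.2]
  refine ⟨⟨h1.trans (le_norm_update j ?_), norm_update_le j h2 ?_, h3, fun i hi => ?_⟩, ?_⟩
  · rw [abs_of_nonneg hp0, abs_of_nonneg (hp0.trans ht0)]; exact ht0
  · rw [abs_of_nonneg (hp0.trans ht0)]; exact htN
  · have : i ≠ j := fun h => hj (h ▸ hi)
    simp only [pushC, Function.update_of_ne this]
    exact h4 i hi
  · simp only [pushC, Function.update_self]; linarith

/-- the top face -/
def topF (z : Set (Fin 4)) (j : Fin 4) (N : ℝ) : Set Om :=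
  {p | ‖p.1‖ ≤ N ∧ p.2 = 0 ∧ (∀ i ∈ z, p.1 i = 0) ∧ p.1 j = N}

theorem topF_convex (z : Set (Fin 4)) (j : Fin 4) (N : ℝ) : Convex ℝ (topF z j N) := by
  rintro p ⟨h1, h2, h3, h4⟩ q ⟨g1, g2, g3, g4⟩ a b ha hb hab
  refine ⟨?_, ?_, fun i hi => ?_, ?_⟩
  · calc ‖a • p.1 + b • q.1‖ ≤ ‖a • p.1‖ + ‖b • q.1‖ := norm_add_le _ _
      _ = a * ‖p.1‖ + b * ‖q.1‖ := by rw [norm_smul, norm_smul, Real.norm_of_nonneg ha, Real.norm_of_nonneg hb]
      _ ≤ a * N + b * N := by gcongr
      _ = N := by rw [← add_mul, hab, one_mul]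
  · show a * p.2 + b * q.2 = 0
    rw [h2, g2]; ring
  · show a * p.1 i + b * q.1 i = 0
    rw [h3 i hi, g3 i hi]; ring
  · show a * p.1 j + b * q.1 j = N
    rw [h4, g4, ← add_mul, hab, one_mul]

theorem topF_sub {z : Set (Fin 4)} {j : Fin 4} {N : ℝ} (hN : 2 ≤ N) :
    topF z j N ⊆ shell z N ∩ {p | 0 ≤ p.1 j} := by
  rintro p ⟨h1, h2, h3, h4⟩
  refine ⟨⟨?_, h1, h2, h3⟩, by show 0 ≤ p.1 j; rw [h4]; linarith⟩
  have : N ≤ ‖p.1‖ := by
    have := norm_le_pi_norm p.1 j
    rw [h4, Real.norm_of_nonneg (by linarith)] at this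
    exact this
  have h5 : 1 / N ≤ 1 := by rw [div_le_one (by linarith)]; linarith
  linarith

theorem pushC_top {z : Set (Fin 4)} {N : ℝ} {j : Fin 4} (hj : j ∉ z) {p : Om} (hp : p ∈ shell z N)
    (hp0 : 0 ≤ p.1 j) : pushC j N 1 p ∈ topF z j N := by
  obtain ⟨⟨h1, h2, h3, h4⟩, _⟩ := pushC_shell hj (right_mem_Icc.2 zero_le_one) hp hp0
  exact ⟨h2, h3, h4, by simp [pushC]⟩

/-- reflection of the coordinate `j` -/
def reflC (j : Fin 4) (p : Om) : Om := (Function.update p.1 j (- p.1 j), p.2)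

theorem reflC_cont (j : Fin 4) : Continuous (reflC j) := by
  refine Continuous.prodMk ?_ (by fun_prop)
  exact continuous_fst.update j (by fun_prop)

theorem reflC_reflC (j : Fin 4) (p : Om) : reflC j (reflC j p) = p := by
  simp [reflC]

theorem reflC_norm (j : Fin 4) (p : Om) : ‖(reflC j p).1‖ = ‖p.1‖ := by
  have h : ∀ p : Om, ‖p.1‖ ≤ ‖(reflC j p).1‖ := fun p => le_norm_update j (by simp)
  refine le_antisymm ?_ (h p)
  have := h (reflC j p)
  rwa [reflC_reflC] at this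

theorem reflC_shell {z : Set (Fin 4)} {N : ℝ} {j : Fin 4} (hj : j ∉ z) {p : Om}
    (hp : p ∈ shell z N) : reflC j p ∈ shell z N := by
  obtain ⟨h1, h2, h3, h4⟩ := hp
  refine ⟨by rwa [reflC_norm], by rwa [reflC_norm], h3, fun i hi => ?_⟩
  have : i ≠ j := fun h => hj (h ▸ hi)
  simp only [reflC, Function.update_of_ne this]
  exact h4 i hi

/-- the half shells -/
def half (z : Set (Fin 4)) (j : Fin 4) (N : ℝ) : Set Om := shell z N ∩ {p | 0 ≤ p.1 j}
def half' (z : Set (Fin 4)) (j : Fin 4) (N : ℝ) : Set Om := shell z N ∩ {p | p.1 j ≤ 0}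

theorem half_gtriv {z : Set (Fin 4)} {j : Fin 4} (hj : j ∉ z) {N : ℝ} (hN : 2 ≤ N) :
    GTriv (half z j N) := by
  refine (gtriv_convex (topF_convex z j N)).deform (pushC j N)
    (fun s _ a _ => (pushC_cont j N).continuousAt) ?_ (pushC_zero j N) ?_ (topF_sub hN)
  · rintro s hs a ⟨h1, h2⟩
    exact pushC_shell hj hs h1 h2
  · rintro a ⟨h1, h2⟩
    exact pushC_top hj h1 h2

theorem half_preconn {z : Set (Fin 4)} {j : Fin 4} (hj : j ∉ z) {N : ℝ} (hN : 2 ≤ N) :
    IsPreconnected (half z j N) := by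
  refine preconn_deform (topF_convex z j N).isPreconnected (pushC j N)
    (fun a => (pushC_cont j N).comp (by fun_prop : Continuous fun s : ℝ => (s, a))) ?_
    (pushC_zero j N) ?_ (topF_sub hN)
  · rintro s hs a ⟨h1, h2⟩
    exact pushC_shell hj hs h1 h2
  · rintro a ⟨h1, h2⟩
    exact pushC_top hj h1 h2

theorem half'_eq {z : Set (Fin 4)} {j : Fin 4} (hj : j ∉ z) {N : ℝ} :
    half' z j N = reflC j '' half z j N := by
  ext p
  constructor
  · rintro ⟨h1, h2⟩
    refine ⟨reflC j p, ⟨reflC_shell hj h1, ?_⟩, reflC_reflC j p⟩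
    show 0 ≤ (reflC j p).1 j
    simp only [reflC, Function.update_self]
    exact neg_nonneg.2 h2
  · rintro ⟨q, ⟨h1, h2⟩, rfl⟩
    refine ⟨reflC_shell hj h1, ?_⟩
    show (reflC j q).1 j ≤ 0
    simp only [reflC, Function.update_self]
    exact neg_nonpos.2 h2

theorem half'_preconn {z : Set (Fin 4)} {j : Fin 4} (hj : j ∉ z) {N : ℝ} (hN : 2 ≤ N) :
    IsPreconnected (half' z j N) := by
  rw [half'_eq hj]
  exact (half_preconn hj hN).image _ (reflC_cont j).continuousOn

theorem GTriv.preimage {S : Set Om} {f : Om → Om} (hf : Continuous f)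
    (hff : ∀ x, f (f x) = x) (h : GTriv S) : GTriv (f '' S) := by
  intro G _ T hT
  have h1 : GFlat (fun x y => T (f x) (f y)) S :=
    hT.pull (fun a _ => hf.continuousAt) (fun a ha => ⟨a, ha, rfl⟩)
  obtain ⟨v, hv⟩ := h G _ h1
  have h2 := hv.pull (F := f) (R := f '' S) (fun a _ => hf.continuousAt) (by
    rintro _ ⟨a, ha, rfl⟩; rw [hff]; exact ha)
  simp only [hff] at h2
  exact ⟨_, h2⟩

theorem half'_gtriv {z : Set (Fin 4)} {j : Fin 4} (hj : j ∉ z) {N : ℝ} (hN : 2 ≤ N) :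
    GTriv (half' z j N) := by
  rw [half'_eq hj]
  exact (half_gtriv hj hN).preimage (reflC_cont j) (reflC_reflC j)

theorem half_union (z : Set (Fin 4)) (j : Fin 4) (N : ℝ) :
    half z j N ∪ half' z j N = shell z N := by
  ext p
  constructor
  · rintro (h | h)
    exacts [h.1, h.1]
  · intro h
    rcases le_total 0 (p.1 j) with h' | h'
    exacts [Or.inl ⟨h, h'⟩, Or.inr ⟨h, h'⟩]

theorem half_inter (z : Set (Fin 4)) (j : Fin 4) (N : ℝ) :
    half z j N ∩ half' z j N = shell (insert j z) N := by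
  ext p
  constructor
  · rintro ⟨⟨h, h1⟩, ⟨_, h2⟩⟩
    refine ⟨h.1, h.2.1, h.2.2.1, ?_⟩
    rintro i (rfl | hi)
    · exact le_antisymm h2 h1
    · exact h.2.2.2 i hi
  · rintro ⟨h1, h2, h3, h4⟩
    have h5 := h4 j (mem_insert _ _)
    exact ⟨⟨⟨h1, h2, h3, fun i hi => h4 i (mem_insert_of_mem _ hi)⟩, h5.ge⟩,
      ⟨⟨h1, h2, h3, fun i hi => h4 i (mem_insert_of_mem _ hi)⟩, h5.le⟩⟩

theorem half_closed (z : Set (Fin 4)) (j : Fin 4) (N : ℝ) : IsClosed (half z j N) :=
  (shell_closed z N).inter (isClosed_le continuous_const (by fun_prop))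

theorem half'_closed (z : Set (Fin 4)) (j : Fin 4) (N : ℝ) : IsClosed (half' z j N) :=
  (shell_closed z N).inter (isClosed_le (by fun_prop) continuous_const)

/-- the two-dimensional shell is connected -/
theorem shell3_preconn {N : ℝ} (hN : 2 ≤ N) : IsPreconnected (shell {3} N) := by
  rw [← half_union {3} 2 N]
  have h2 : (2 : Fin 4) ∉ ({3} : Set (Fin 4)) := by decide
  refine IsPreconnected.union (((fun i => if i = 0 then N else 0), 0) : Om) ?_ ?_
    (half_preconn h2 hN) (half'_preconn h2 hN)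
  all_goals
    have hnorm : ‖(fun i : Fin 4 => if i = 0 then N else 0)‖ = N := by
      apply le_antisymm
      · rw [pi_norm_le_iff_of_nonneg (by linarith)]
        intro i
        by_cases h : i = 0
        · simp [h, abs_of_nonneg (by linarith : (0:ℝ) ≤ N)]
        · simp [h]; linarith
      · have := norm_le_pi_norm (fun i : Fin 4 => if i = 0 then N else 0) 0
        simp only [if_true, Real.norm_eq_abs] at this
        exact (le_abs_self N).trans this
    have h5 : 1 / N ≤ 1 := by rw [div_le_one (by linarith)]; linarith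
    refine ⟨⟨by simp only [hnorm]; linarith, hnorm.le, rfl, ?_⟩, ?_⟩
    · rintro i rfl; simp
    · simp

/-- the three-dimensional shell is simply connected -/
theorem shell_gtriv {N : ℝ} (hN : 2 ≤ N) : GTriv (shell ∅ N) := by
  rw [← half_union ∅ 3 N]
  have h3 : (3 : Fin 4) ∉ (∅ : Set (Fin 4)) := fun h => h
  refine GTriv.union (half_closed _ _ _) (half'_closed _ _ _) (half_gtriv h3 hN) (half'_gtriv h3 hN) ?_
  rw [half_inter]
  have : insert (3 : Fin 4) (∅ : Set (Fin 4)) = {3} := by simp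
  rw [this]
  exact shell3_preconn hN

/-- the slice at height zero -/
def midS (N : ℝ) : Set Om := RN N ∩ {p | p.2 = 0}

def ballS (N : ℝ) : Set Om := {p | ‖p.1‖ ≤ 1 - 1 / N ∧ p.2 = 0}

theorem ballS_convex (N : ℝ) : Convex ℝ (ballS N) := by
  rintro p ⟨h1, h2⟩ q ⟨g1, g2⟩ a b ha hb hab
  refine ⟨?_, ?_⟩
  · calc ‖a • p.1 + b • q.1‖ ≤ ‖a • p.1‖ + ‖b • q.1‖ := norm_add_le _ _
      _ = a * ‖p.1‖ + b * ‖q.1‖ := by rw [norm_smul, norm_smul, Real.norm_of_nonneg ha, Real.norm_of_nonneg hb]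
      _ ≤ a * (1 - 1 / N) + b * (1 - 1 / N) := by gcongr
      _ = 1 - 1 / N := by rw [← add_mul, hab, one_mul]
  · show a * p.2 + b * q.2 = 0
    rw [h2, g2]; ring

theorem midS_eq {N : ℝ} (hN : 2 ≤ N) : midS N = ballS N ∪ shell ∅ N := by
  have h0 : 0 < 1 / N := by positivity
  have h5 : 1 / N ≤ 1 := by rw [div_le_one (by linarith)]; linarith
  ext p
  constructor
  · rintro ⟨⟨h1, h2, h3⟩, h4⟩
    have h4 : p.2 = 0 := h4
    rcases h3 with h3 | h3
    · rcases le_total (‖p.1‖) 1 with h | h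
      · left
        rw [abs_of_nonpos (by linarith)] at h3
        exact ⟨by linarith, h4⟩
      · right
        rw [abs_of_nonneg (by linarith)] at h3
        exact ⟨by linarith, h1, h4, fun i hi => hi.elim⟩
    · rw [h4, abs_zero] at h3; linarith
  · rintro (⟨h1, h2⟩ | ⟨h1, h2, h3, _⟩)
    · refine ⟨⟨by linarith, by rw [h2, abs_zero]; linarith, Or.inl ?_⟩, h2⟩
      rw [abs_of_nonpos (by linarith)]; linarith
    · refine ⟨⟨h2, by rw [h3, abs_zero]; linarith, Or.inl ?_⟩, h3⟩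
      rw [abs_of_nonneg (by linarith)]; linarith

theorem midS_gtriv {N : ℝ} (hN : 2 ≤ N) : GTriv (midS N) := by
  rw [midS_eq hN]
  have h0 : 0 < 1 / N := by positivity
  refine GTriv.union ?_ (shell_closed _ _) (gtriv_convex (ballS_convex N)) (shell_gtriv hN) ?_
  · have g1 : IsClosed {p : Om | ‖p.1‖ ≤ 1 - 1 / N} := isClosed_le (by fun_prop) continuous_const
    have g2 : IsClosed {p : Om | p.2 = 0} := isClosed_eq (by fun_prop) continuous_const
    exact g1.inter g2
  · have : ballS N ∩ shell ∅ N = ∅ := by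
      ext p
      simp only [mem_inter_iff, mem_empty_iff_false, iff_false, not_and]
      rintro ⟨h1, _⟩ ⟨h2, _⟩
      linarith
    rw [this]
    exact isPreconnected_empty

/-- the upper part -/
def upS (N : ℝ) : Set Om := RN N ∩ {p | 0 ≤ p.2}
def loS (N : ℝ) : Set Om := RN N ∩ {p | p.2 ≤ 0}

theorem upS_hv {N : ℝ} (hN : 2 ≤ N) {T : Om → Om → (V →ₗ[k] V)} (hT : Flat T (upS N)) (q : ℕ) :
    HV T (upS N) ∅ (q + 1) := by
  have hcl : IsClosed (upS N) := (RN_closed N).inter (isClosed_le continuous_const (by fun_prop))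
  have hco : IsCompact (upS N) := (RN_compact N).of_isClosed_subset hcl inter_subset_left
  let R : Set Om := {p | ‖p.1‖ ≤ N ∧ p.2 = N}
  have cR : IsClosed R := by
    have g1 : IsClosed {p : Om | ‖p.1‖ ≤ N} := isClosed_le (by fun_prop) continuous_const
    have g2 : IsClosed {p : Om | p.2 = N} := isClosed_eq (by fun_prop) continuous_const
    exact g1.inter g2
  have hR : R ⊆ upS N := by
    rintro p ⟨h1, h2⟩
    have h5 : 1 / N ≤ N := by rw [div_le_iff₀ (by linarith)]; nlinarith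
    refine ⟨⟨h1, by rw [h2, abs_of_nonneg (by linarith)], Or.inr ?_⟩, ?_⟩
    · rw [h2, abs_of_nonneg (by linarith)]; exact h5
    · show 0 ≤ p.2; rw [h2]; linarith
  have hRc : Convex ℝ R := by
    rintro p ⟨h1, h2⟩ q ⟨g1, g2⟩ a b ha hb hab
    refine ⟨?_, ?_⟩
    · calc ‖a • p.1 + b • q.1‖ ≤ ‖a • p.1‖ + ‖b • q.1‖ := norm_add_le _ _
        _ = a * ‖p.1‖ + b * ‖q.1‖ := by rw [norm_smul, norm_smul, Real.norm_of_nonneg ha, Real.norm_of_nonneg hb]
        _ ≤ a * N + b * N := by gcongr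
        _ = N := by rw [← add_mul, hab, one_mul]
    · show a * p.2 + b * q.2 = N
      rw [h2, g2, ← add_mul, hab, one_mul]
  refine hv_push hco cR hR hT (fun s p => (p.1, (1 - s) * p.2 + s * N)) ?_ ?_ ?_ ?_ ?_
    (HV_convex hRc (hco.of_isClosed_subset cR hR) (hT.mono hR) q)
  · exact Continuous.continuousOn (by fun_prop)
  · intro x _; simp
  · rintro s hs p ⟨⟨h1, h2, h3⟩, h4⟩
    have h4 : 0 ≤ p.2 := h4
    rw [abs_of_nonneg h4] at h2 h3
    have a1 : p.2 ≤ (1 - s) * p.2 + s * N := by nlinarith [hs.1]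
    have a2 : (1 - s) * p.2 + s * N ≤ N := by nlinarith [hs.2]
    refine ⟨⟨h1, ?_, h3.imp_right fun h => ?_⟩, ?_⟩
    · show |(1 - s) * p.2 + s * N| ≤ N
      rw [abs_of_nonneg (by linarith)]; exact a2
    · show 1 / N ≤ |(1 - s) * p.2 + s * N|
      rw [abs_of_nonneg (by linarith)]; linarith
    · show 0 ≤ (1 - s) * p.2 + s * N
      linarith
  · rintro s hs p ⟨h1, h2⟩
    refine ⟨h1, ?_⟩
    show (1 - s) * p.2 + s * N = N
    rw [h2]; ring
  · rintro p ⟨⟨h1, _⟩, _⟩
    exact ⟨h1, by show (1 - 1) * p.2 + 1 * N = N; ring⟩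

theorem loS_hv {N : ℝ} (hN : 2 ≤ N) {T : Om → Om → (V →ₗ[k] V)} (hT : Flat T (loS N)) (q : ℕ) :
    HV T (loS N) ∅ (q + 1) := by
  have hcl : IsClosed (loS N) := (RN_closed N).inter (isClosed_le (by fun_prop) continuous_const)
  have hco : IsCompact (loS N) := (RN_compact N).of_isClosed_subset hcl inter_subset_left
  let R : Set Om := {p | ‖p.1‖ ≤ N ∧ p.2 = -N}
  have cR : IsClosed R := by
    have g1 : IsClosed {p : Om | ‖p.1‖ ≤ N} := isClosed_le (by fun_prop) continuous_const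
    have g2 : IsClosed {p : Om | p.2 = -N} := isClosed_eq (by fun_prop) continuous_const
    exact g1.inter g2
  have hR : R ⊆ loS N := by
    rintro p ⟨h1, h2⟩
    have h5 : 1 / N ≤ N := by rw [div_le_iff₀ (by linarith)]; nlinarith
    refine ⟨⟨h1, by rw [h2, abs_neg, abs_of_nonneg (by linarith)], Or.inr ?_⟩, ?_⟩
    · rw [h2, abs_neg, abs_of_nonneg (by linarith)]; exact h5
    · show p.2 ≤ 0; rw [h2]; linarith
  have hRc : Convex ℝ R := by
    rintro p ⟨h1, h2⟩ q ⟨g1, g2⟩ a b ha hb hab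
    refine ⟨?_, ?_⟩
    · calc ‖a • p.1 + b • q.1‖ ≤ ‖a • p.1‖ + ‖b • q.1‖ := norm_add_le _ _
        _ = a * ‖p.1‖ + b * ‖q.1‖ := by rw [norm_smul, norm_smul, Real.norm_of_nonneg ha, Real.norm_of_nonneg hb]
        _ ≤ a * N + b * N := by gcongr
        _ = N := by rw [← add_mul, hab, one_mul]
    · show a * p.2 + b * q.2 = -N
      rw [h2, g2, ← add_mul, hab, one_mul]
  refine hv_push hco cR hR hT (fun s p => (p.1, (1 - s) * p.2 - s * N)) ?_ ?_ ?_ ?_ ?_
    (HV_convex hRc (hco.of_isClosed_subset cR hR) (hT.mono hR) q)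
  · exact Continuous.continuousOn (by fun_prop)
  · intro x _; simp
  · rintro s hs p ⟨⟨h1, h2, h3⟩, h4⟩
    have h4 : p.2 ≤ 0 := h4
    rw [abs_of_nonpos h4] at h2 h3
    have a1 : (1 - s) * p.2 - s * N ≤ p.2 := by nlinarith [hs.1]
    have a2 : -N ≤ (1 - s) * p.2 - s * N := by nlinarith [hs.2]
    refine ⟨⟨h1, ?_, h3.imp_right fun h => ?_⟩, ?_⟩
    · show |(1 - s) * p.2 - s * N| ≤ N
      rw [abs_of_nonpos (by linarith)]; linarith
    · show 1 / N ≤ |(1 - s) * p.2 - s * N|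
      rw [abs_of_nonpos (by linarith)]; linarith
    · show (1 - s) * p.2 - s * N ≤ 0
      linarith
  · rintro s hs p ⟨h1, h2⟩
    refine ⟨h1, ?_⟩
    show (1 - s) * p.2 - s * N = -N
    rw [h2]; ring
  · rintro p ⟨⟨h1, _⟩, _⟩
    exact ⟨h1, by show (1 - 1) * p.2 - 1 * N = -N; ring⟩

/-- **the second cohomology of the complement of the standard sphere vanishes** -/
theorem RN_hv {N : ℝ} (hN : 2 ≤ N) {T : Om → Om → G} (hT : GFlat T (RN N)) (ρ : G →* (V →ₗ[k] V)) :
    HV (sys T ρ) (RN N) ∅ 2 := by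
  have hu : upS N ∪ loS N = RN N := by
    ext p
    constructor
    · rintro (h | h)
      exacts [h.1, h.1]
    · intro h
      rcases le_total 0 p.2 with h' | h'
      exacts [Or.inl ⟨h, h'⟩, Or.inr ⟨h, h'⟩]
  have hi : upS N ∩ loS N = midS N := by
    ext p
    constructor
    · rintro ⟨⟨h, h1⟩, ⟨_, h2⟩⟩
      exact ⟨h, le_antisymm h2 h1⟩
    · rintro ⟨h, h1⟩
      exact ⟨⟨h, (h1 : p.2 = 0).ge⟩, ⟨h, (h1 : p.2 = 0).le⟩⟩
  have hF := GFlat.sys hT ρ
  have key := HV_union (S₁ := upS N) (S₂ := loS N) (S₁' := ∅) (S₂' := ∅) (q := 1)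
    ((RN_closed N).inter (isClosed_le continuous_const (by fun_prop)))
    ((RN_closed N).inter (isClosed_le (by fun_prop) continuous_const)) isClosed_empty isClosed_empty
    (empty_subset _) (empty_subset _) (by rw [hu]; exact hF)
    (upS_hv hN (hF.mono inter_subset_left) 1) (loS_hv hN (hF.mono inter_subset_left) 1)
    (by
      rw [hi, inter_self]
      exact (midS_gtriv hN).hv (hT.mono inter_subset_left) ρ)
  rwa [hu, union_self] at key

/-- the standard cubical sphere -/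
def stdS : Set Om := {p | ‖p.1‖ = 1 ∧ p.2 = 0}

theorem RN_disj {N : ℝ} (hN : 2 ≤ N) : RN N ⊆ stdSᶜ := by
  rintro p ⟨_, _, h3⟩ ⟨h4, h5⟩
  have h0 : 0 < 1 / N := by positivity
  rcases h3 with h | h
  · rw [h4, sub_self, abs_zero] at h; linarith
  · rw [h5, abs_zero] at h; linarith

/-- every compact subset of the complement is contained in some `RN N` -/
theorem exists_RN {C : Set Om} (hC : IsCompact C) (hd : C ⊆ stdSᶜ) : ∃ N : ℝ, 2 ≤ N ∧ C ⊆ RN N := by
  obtain ⟨r, hr⟩ := hC.isBounded.subset_closedBall (0 : Om)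
  rcases C.eq_empty_or_nonempty with he | hne
  · exact ⟨2, le_rfl, by rw [he]; exact empty_subset _⟩
  let f : Om → ℝ := fun p => max (|‖p.1‖ - 1|) (|p.2|)
  have hf : Continuous f := by fun_prop
  obtain ⟨p, hp, hmin⟩ := hC.exists_isMinOn hne hf.continuousOn
  have hpos : 0 < f p := by
    by_contra h
    have h1 : |‖p.1‖ - 1| ≤ 0 := (le_max_left _ _).trans (not_lt.1 h)
    have h2 : |p.2| ≤ 0 := (le_max_right _ _).trans (not_lt.1 h)
    refine hd hp ⟨?_, ?_⟩
    · linarith [abs_eq_zero.1 (le_antisymm h1 (abs_nonneg _))]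
    · exact abs_eq_zero.1 (le_antisymm h2 (abs_nonneg _))
  refine ⟨max 2 (max r (1 / f p)), le_max_left _ _, fun q hq => ?_⟩
  set N := max 2 (max r (1 / f p)) with hN
  have hN2 : 2 ≤ N := le_max_left _ _
  have hqr := hr hq
  rw [mem_closedBall_zero_iff, Prod.norm_def] at hqr
  have hrN : r ≤ N := (le_max_left _ _).trans (le_max_right _ _)
  have h1N : 1 / N ≤ f p := by
    rw [div_le_iff₀ (by linarith)]
    have : 1 / f p ≤ N := (le_max_right _ _).trans (le_max_right _ _)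
    rw [div_le_iff₀ hpos] at this
    linarith
  have hfq : 1 / N ≤ f q := h1N.trans (hmin hq)
  refine ⟨(le_max_left _ _).trans (hqr.trans hrN), ?_, ?_⟩
  · rw [← Real.norm_eq_abs]; exact (le_max_right _ _).trans (hqr.trans hrN)
  · exact le_max_iff.1 hfq

end Pool.Agent.H755
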