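import Pool.Agent.H755.MDat
import Pool.Agent.H755.LocU

/-! The total absolute curvature of the stretched knots. -/

set_option autoImplicit false
set_option maxHeartbeats 4000000
set_option linter.deprecated false
set_option linter.unusedVariables false
set_option linter.unusedSimpArgs false
set_option linter.style.longLine false
set_option maxRecDepth 100000

namespace Pool.Agent.H755

open Set Filter Topology MeasureTheory

open scoped ENNReal

/-- the main direction as a vector -/
noncomputable def xiR : E5 := toE xi0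

theorem inner_xiR (x : E5) : inner ℝ xiR x = lin xi0 x := by
  rw [lin_apply]
  simp only [xiR, toE, PiLp.inner_apply, Fin.sum_univ_five]
  simp
  ring

theorem inner_pos (i : Fin 30) : inner ℝ xiR (pos0 i) = (hgt i : ℝ) := by
  rw [inner_xiR, pos0, lin_toE]
  rfl

theorem xiR_ne : xiR ≠ 0 := by
  intro h
  have : xiR 0 = 0 := by rw [h]; rfl
  have h2 : xiR 0 = (90 : ℝ) := by
    show ((xi0.a : ℤ) : ℝ) = 90
    norm_num [xi0]
  rw [h2] at this
  norm_num at this

/-- stretching along the main direction -/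
noncomputable def stretch (t : ℝ) (ht : 0 ≤ t) : E5 ≃L[ℝ] E5 :=
  LinearEquiv.toContinuousLinearEquiv
    { toFun := fun x => x + (t * inner ℝ xiR x) • xiR
      invFun := fun x => x - (t / (1 + t * inner ℝ xiR xiR) * inner ℝ xiR x) • xiR
      map_add' := fun x y => by rw [inner_add_right, mul_add, add_smul]; abel
      map_smul' := fun c x => by
        show c • x + (t * inner ℝ xiR (c • x)) • xiR = c • (x + (t * inner ℝ xiR x) • xiR)
        rw [inner_smul_right, smul_add, smul_smul]
        congr 2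
        ring
      left_inv := fun x => by
        show x + (t * inner ℝ xiR x) • xiR - (t / (1 + t * inner ℝ xiR xiR) *
          inner ℝ xiR (x + (t * inner ℝ xiR x) • xiR)) • xiR = x
        have h : 0 < 1 + t * inner ℝ xiR xiR := by
          have := mul_nonneg ht (real_inner_self_nonneg (x := xiR)); linarith
        rw [inner_add_right, inner_smul_right, add_sub_assoc, ← sub_smul]
        have e : t * inner ℝ xiR x - t / (1 + t * inner ℝ xiR xiR) *
          (inner ℝ xiR x + t * inner ℝ xiR x * inner ℝ xiR xiR) = 0 := by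
          field_simp
          ring
        rw [e, zero_smul, add_zero]
      right_inv := fun x => by
        show x - (t / (1 + t * inner ℝ xiR xiR) * inner ℝ xiR x) • xiR + (t *
          inner ℝ xiR (x - (t / (1 + t * inner ℝ xiR xiR) * inner ℝ xiR x) • xiR)) • xiR = x
        have h : 0 < 1 + t * inner ℝ xiR xiR := by
          have := mul_nonneg ht (real_inner_self_nonneg (x := xiR)); linarith
        rw [inner_sub_right, inner_smul_right, sub_add, ← sub_smul]
        have e : t / (1 + t * inner ℝ xiR xiR) * inner ℝ xiR x - t * (inner ℝ xiR x -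
          t / (1 + t * inner ℝ xiR xiR) * inner ℝ xiR x * inner ℝ xiR xiR) = 0 := by
          field_simp
          ring
        rw [e, zero_smul, sub_zero] }

theorem stretch_apply (t : ℝ) (ht : 0 ≤ t) (x : E5) : stretch t ht x = x + (t * inner ℝ xiR x) • xiR := rfl

theorem hgt_inj {i j : Fin 30} (h : hgt i = hgt j) : i = j := by
  have h1 : ∀ i j : Fin 30, hgt i = hgt j → i = j := by decide +kernel
  exact h1 i j h

theorem crit_good (F : Type) [Field F] {t δ D : ℝ} (ht : 0 ≤ t) (hD : ∀ i j, ‖pos0 i - pos0 j‖ < D) (hδ : 0 < δ)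
    (htd : D ≤ t * δ) {ξ : E5} (hξ : ‖ξ‖ = 1) (hs : δ ≤ |inner ℝ ξ xiR|) :
    critCount F FK (fun i => inner ℝ ξ (stretch t ht (pos0 i))) ≤ 2 := by
  have e : ∀ i, inner ℝ ξ (stretch t ht (pos0 i)) = inner ℝ ξ (pos0 i) + t * hgt i * inner ℝ ξ xiR := by
    intro i
    rw [stretch_apply, inner_add_right, inner_smul_right, inner_pos]
  have hb : ∀ i j, |inner ℝ ξ (pos0 i) - inner ℝ ξ (pos0 j)| < D := by
    intro i j
    rw [← inner_sub_right]
    refine (abs_real_inner_le_norm _ _).trans_lt ?_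
    rw [hξ, one_mul]
    exact hD i j
  have hgap : ∀ i j, hgt i < hgt j → (1:ℝ) ≤ (hgt j : ℝ) - hgt i := by
    intro i j h
    have : hgt i + 1 ≤ hgt j := h
    have : ((hgt i + 1 : ℤ) : ℝ) ≤ hgt j := by exact_mod_cast this
    push_cast at this
    linarith
  rcases le_abs.1 hs with h1 | h1
  · have key : ∀ i j, hgt i < hgt j → inner ℝ ξ (stretch t ht (pos0 i)) < inner ℝ ξ (stretch t ht (pos0 j)) := by
      intro i j h
      rw [e, e]
      have h2 := hgap i j h
      have h3 := (abs_lt.1 (hb i j)).2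
      have h4 : D ≤ (t * ((hgt j : ℝ) - hgt i)) * inner ℝ ξ xiR := by
        calc D ≤ t * δ := htd
          _ ≤ (t * ((hgt j : ℝ) - hgt i)) * inner ℝ ξ xiR := by
            refine mul_le_mul ?_ h1 hδ.le (mul_nonneg ht (by linarith))
            nlinarith
      nlinarith
    refine critP F fun i j => ⟨fun h => ?_, key i j⟩
    rcases lt_trichotomy (hgt i) (hgt j) with h2 | h2 | h2
    · exact h2
    · rw [hgt_inj h2] at h; exact absurd h (lt_irrefl _)
    · exact absurd h (key j i h2).not_gt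
  · have key : ∀ i j, hgt i < hgt j → inner ℝ ξ (stretch t ht (pos0 j)) < inner ℝ ξ (stretch t ht (pos0 i)) := by
      intro i j h
      rw [e, e]
      have h2 := hgap i j h
      have h3 := (abs_lt.1 (hb j i)).2
      have h4 : D ≤ (t * ((hgt j : ℝ) - hgt i)) * (-inner ℝ ξ xiR) := by
        calc D ≤ t * δ := htd
          _ ≤ (t * ((hgt j : ℝ) - hgt i)) * (-inner ℝ ξ xiR) := by
            refine mul_le_mul ?_ h1 hδ.le (mul_nonneg ht (by linarith))
            nlinarith
      nlinarith
    refine critM F fun i j => ⟨fun h => ?_, key j i⟩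
    rcases lt_trichotomy (hgt i) (hgt j) with h2 | h2 | h2
    · exact absurd h (key i j h2).not_gt
    · rw [hgt_inj h2] at h; exact absurd h (lt_irrefl _)
    · exact h2

/-- the surface measure of the unit sphere -/
noncomputable abbrev sgm : Measure (Metric.sphere (0 : E5) 1) := (volume : Measure E5).toSphere

theorem sgm_null : sgm {ξ | inner ℝ (ξ : E5) xiR = 0} = 0 := by
  have hm : MeasurableSet {ξ : Metric.sphere (0 : E5) 1 | inner ℝ (ξ : E5) xiR = 0} := by
    refine (isClosed_eq ?_ continuous_const).measurableSet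
    exact continuous_subtype_val.inner continuous_const
  rw [Measure.toSphere_apply' _ hm]
  have hV : (volume : Measure E5) (LinearMap.ker (innerₛₗ ℝ xiR) : Set E5) = 0 := by
    refine Measure.addHaar_submodule _ _ fun h => ?_
    have h1 : xiR ∈ LinearMap.ker (innerₛₗ ℝ xiR) := by rw [h]; trivial
    rw [LinearMap.mem_ker] at h1
    exact xiR_ne (inner_self_eq_zero.1 h1)
  rw [measure_mono_null ?_ hV, mul_zero]
  rintro x ⟨r, -, y, ⟨z, hz, rfl⟩, rfl⟩
  show inner ℝ xiR (r • (z : E5)) = 0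
  rw [inner_smul_right, real_inner_comm]
  have : inner ℝ (z : E5) xiR = 0 := hz
  rw [this, mul_zero]

theorem sgm_tendsto : Tendsto (fun n : ℕ => sgm {ξ | |inner ℝ (ξ : E5) xiR| < 1 / ((n : ℝ) + 1)}) atTop (𝓝 0) := by
  have hc : Continuous fun ξ : Metric.sphere (0 : E5) 1 => |inner ℝ (ξ : E5) xiR| :=
    (continuous_subtype_val.inner continuous_const).abs
  have h := tendsto_measure_iInter_atTop (μ := sgm)
    (s := fun n : ℕ => {ξ : Metric.sphere (0 : E5) 1 | |inner ℝ (ξ : E5) xiR| < 1 / ((n : ℝ) + 1)})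
    (fun n => (isOpen_lt hc continuous_const).measurableSet.nullMeasurableSet) (fun m n hmn ξ hξ => ?_)
    ⟨0, measure_ne_top _ _⟩
  · have e : (⋂ n : ℕ, {ξ : Metric.sphere (0 : E5) 1 | |inner ℝ (ξ : E5) xiR| < 1 / ((n : ℝ) + 1)}) =
        {ξ : Metric.sphere (0 : E5) 1 | inner ℝ (ξ : E5) xiR = 0} := by
      ext ξ
      simp only [mem_iInter, mem_setOf_eq]
      constructor
      · intro h1
        by_contra h2
        obtain ⟨n, hn⟩ := exists_nat_one_div_lt (abs_pos.2 h2)
        exact absurd (h1 n) hn.not_gt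
      · intro h1 n
        rw [h1, abs_zero]
        positivity
    rw [e, sgm_null] at h
    exact h
  · show |inner ℝ (ξ : E5) xiR| < 1 / ((m : ℝ) + 1)
    have hξ' : |inner ℝ (ξ : E5) xiR| < 1 / ((n : ℝ) + 1) := hξ
    refine hξ'.trans_le ?_
    apply one_div_le_one_div_of_le
    · positivity
    · have : (m : ℝ) ≤ n := by exact_mod_cast hmn
      linarith

/-- the total absolute curvature of the stretched knots is close to 2 -/
theorem exists_stretch {ε : ℝ≥0∞} (hε : 0 < ε) : ∃ (t : ℝ) (ht : 0 ≤ t), ∀ (F : Type) [Field F],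
    TA F (KA (stretch t ht)) < 2 + ε := by
  have hu0 : sgm univ ≠ 0 := by
    intro h
    rw [Measure.toSphere_apply_univ] at h
    rcases mul_eq_zero.1 h with h | h
    · simp at h
    · exact absurd h (Metric.measure_ball_pos _ _ one_pos).ne'
  have hut : sgm univ ≠ ⊤ := measure_ne_top _ _
  set C : ℕ := 30 * (30 * 2 ^ 30) with hC
  have ht1 : Tendsto (fun n : ℕ => (C : ℝ≥0∞) * sgm {ξ | |inner ℝ (ξ : E5) xiR| < 1 / ((n : ℝ) + 1)} / sgm univ)
      atTop (𝓝 0) := by
    have h := ENNReal.Tendsto.div_const (ENNReal.Tendsto.const_mul (a := (C : ℝ≥0∞)) sgm_tendsto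
      (Or.inr (ENNReal.natCast_ne_top C))) (b := sgm univ) (Or.inr hu0)
    simpa using h
  obtain ⟨n, hn⟩ := (ht1.eventually (gt_mem_nhds hε)).exists
  set δ : ℝ := 1 / ((n : ℝ) + 1) with hδ
  have hδ0 : 0 < δ := by positivity
  obtain ⟨D, hD⟩ : ∃ D, ∀ i j : Fin 30, ‖pos0 i - pos0 j‖ < D := by
    refine ⟨(∑ i : Fin 30, ∑ j : Fin 30, ‖pos0 i - pos0 j‖) + 1, fun i j => ?_⟩
    have h1 : ‖pos0 i - pos0 j‖ ≤ ∑ j : Fin 30, ‖pos0 i - pos0 j‖ :=
      Finset.single_le_sum (f := fun j => ‖pos0 i - pos0 j‖) (fun j _ => norm_nonneg _) (Finset.mem_univ j)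
    have h2 : ∑ j : Fin 30, ‖pos0 i - pos0 j‖ ≤ ∑ i : Fin 30, ∑ j : Fin 30, ‖pos0 i - pos0 j‖ :=
      Finset.single_le_sum (f := fun i => ∑ j : Fin 30, ‖pos0 i - pos0 j‖)
        (fun i _ => Finset.sum_nonneg fun j _ => norm_nonneg _) (Finset.mem_univ i)
    linarith
  have hD0 : 0 < D := (norm_nonneg _).trans_lt (hD 0 0)
  have ht : 0 ≤ D / δ := by positivity
  refine ⟨D / δ, ht, fun F _ => ?_⟩
  have hbad : MeasurableSet {ξ : Metric.sphere (0 : E5) 1 | |inner ℝ (ξ : E5) xiR| < δ} := by
    have hc : Continuous fun ξ : Metric.sphere (0 : E5) 1 => |inner ℝ (ξ : E5) xiR| :=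
      (continuous_subtype_val.inner continuous_const).abs
    exact (isOpen_lt hc continuous_const).measurableSet
  have hpt : ∀ ξ : Metric.sphere (0 : E5) 1,
      (critCount F FK (fun i => inner ℝ (ξ : E5) (stretch (D / δ) ht (pos0 i))) : ℝ≥0∞) ≤
        2 + {ξ : Metric.sphere (0 : E5) 1 | |inner ℝ (ξ : E5) xiR| < δ}.indicator (fun _ => (C : ℝ≥0∞)) ξ := by
    intro ξ
    by_cases h : |inner ℝ (ξ : E5) xiR| < δ
    · rw [indicator_of_mem (show ξ ∈ {ξ : Metric.sphere (0 : E5) 1 | |inner ℝ (ξ : E5) xiR| < δ} from h)]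
      refine le_trans ?_ le_add_self
      exact_mod_cast critCount_crude F FK _
    · refine le_trans ?_ le_self_add
      have h1 : ‖(ξ : E5)‖ = 1 := mem_sphere_zero_iff_norm.1 ξ.2
      exact_mod_cast crit_good F ht hD hδ0 (by rw [div_mul_cancel₀ _ hδ0.ne']) h1 (not_lt.1 h)
  have hint : ∫⁻ ξ : Metric.sphere (0 : E5) 1,
      (critCount F FK (fun i => inner ℝ (ξ : E5) (stretch (D / δ) ht (pos0 i))) : ℝ≥0∞) ∂sgm ≤
        2 * sgm univ + C * sgm {ξ : Metric.sphere (0 : E5) 1 | |inner ℝ (ξ : E5) xiR| < δ} := by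
    refine (lintegral_mono hpt).trans ?_
    rw [lintegral_add_left measurable_const, lintegral_const, lintegral_indicator_const hbad]
  show (∫⁻ ξ : Metric.sphere (0 : E5) 1,
      (critCount F FK (fun i => inner ℝ (ξ : E5) (stretch (D / δ) ht (pos0 i))) : ℝ≥0∞) ∂sgm) / sgm univ < 2 + ε
  calc (∫⁻ ξ : Metric.sphere (0 : E5) 1,
      (critCount F FK (fun i => inner ℝ (ξ : E5) (stretch (D / δ) ht (pos0 i))) : ℝ≥0∞) ∂sgm) / sgm univ
      ≤ (2 * sgm univ + C * sgm {ξ : Metric.sphere (0 : E5) 1 | |inner ℝ (ξ : E5) xiR| < δ}) / sgm univ :=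
        ENNReal.div_le_div_right hint _
    _ = 2 + C * sgm {ξ : Metric.sphere (0 : E5) 1 | |inner ℝ (ξ : E5) xiR| < δ} / sgm univ := by
        rw [ENNReal.add_div, ENNReal.mul_div_cancel_right hu0 hut]
    _ < 2 + ε := by
        exact ENNReal.add_lt_add_left (by norm_num) hn

end Pool.Agent.H755
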