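import Pool.Agent.H755.GTriv
import Pool.Agent.H755.Mach2

/-! Complements of homogeneous unknotted codimension two cones inside convex neighbourhoods. -/

set_option autoImplicit false
set_option linter.deprecated false
set_option linter.unusedVariables false
set_option linter.style.longLine false

namespace Pool.Agent.H755

open Set Pool.Agent.Helper60.AS

abbrev X5 := EuclideanSpace ℝ (Fin 5)

/-- the rotation of the last two coordinates by the angle `2 π s` -/
noncomputable def rot (s : ℝ) (y : X5) : X5 :=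
  WithLp.toLp 2 ![y 0, y 1, y 2, Real.cos (2 * Real.pi * s) * y 3 - Real.sin (2 * Real.pi * s) * y 4,
    Real.sin (2 * Real.pi * s) * y 3 + Real.cos (2 * Real.pi * s) * y 4]

theorem rot_cont : Continuous fun p : ℝ × X5 => rot p.1 p.2 := by
  unfold rot
  refine (PiLp.continuous_toLp 2 _).comp (continuous_pi fun i => ?_)
  fin_cases i
  · show Continuous fun p : ℝ × X5 => p.2 0
    fun_prop
  · show Continuous fun p : ℝ × X5 => p.2 1
    fun_prop
  · show Continuous fun p : ℝ × X5 => p.2 2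
    fun_prop
  · show Continuous fun p : ℝ × X5 => Real.cos (2 * Real.pi * p.1) * p.2 3 - Real.sin (2 * Real.pi * p.1) * p.2 4
    fun_prop
  · show Continuous fun p : ℝ × X5 => Real.sin (2 * Real.pi * p.1) * p.2 3 + Real.cos (2 * Real.pi * p.1) * p.2 4
    fun_prop

theorem rot_three (s : ℝ) (y : X5) :
    rot s y 3 = Real.cos (2 * Real.pi * s) * y 3 - Real.sin (2 * Real.pi * s) * y 4 := rfl
theorem rot_four (s : ℝ) (y : X5) :
    rot s y 4 = Real.sin (2 * Real.pi * s) * y 3 + Real.cos (2 * Real.pi * s) * y 4 := rfl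

theorem rot_zero (y : X5) : rot 0 y = y := by
  ext i; fin_cases i <;> simp [rot]

theorem rot_one (y : X5) : rot 1 y = y := by
  ext i; fin_cases i <;> simp [rot]

theorem rot_sq (s : ℝ) (y : X5) : rot s y 3 ^ 2 + rot s y 4 ^ 2 = y 3 ^ 2 + y 4 ^ 2 := by
  rw [rot_three, rot_four]
  have := Real.sin_sq_add_cos_sq (2 * Real.pi * s)
  linear_combination (y 3 ^ 2 + y 4 ^ 2) * this

theorem rot_norm (s : ℝ) (y : X5) : ‖rot s y‖ = ‖y‖ := by
  rw [EuclideanSpace.norm_eq, EuclideanSpace.norm_eq]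
  congr 1
  simp only [Real.norm_eq_abs, sq_abs, Fin.sum_univ_five]
  have h := rot_sq s y
  have h0 : rot s y 0 = y 0 := rfl
  have h1 : rot s y 1 = y 1 := rfl
  have h2 : rot s y 2 = y 2 := rfl
  rw [h0, h1, h2]; linarith

section

variable (ψ : X5 ≃ₜ X5) (v : X5)

noncomputable def zet (x : X5) : ℂ := ⟨ψ (x - v) 3, ψ (x - v) 4⟩
noncomputable def Tz (x y : X5) : ℤˣ := (-1) ^ cint (ang (zet ψ v)) x y
/-- the cone -/
def PP : Set X5 := {x | ψ (x - v) 3 = 0 ∧ ψ (x - v) 4 = 0}

theorem zet_cont : Continuous (zet ψ v) := by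
  have h3 : Continuous fun x : X5 => ψ (x - v) 3 := by
    have : Continuous fun x : X5 => ψ (x - v) := ψ.continuous.comp (by fun_prop)
    fun_prop
  have h4 : Continuous fun x : X5 => ψ (x - v) 4 := by
    have : Continuous fun x : X5 => ψ (x - v) := ψ.continuous.comp (by fun_prop)
    fun_prop
  have e : zet ψ v = fun x => ((ψ (x - v) 3 : ℝ) : ℂ) + ((ψ (x - v) 4 : ℝ) : ℂ) * Complex.I := by
    funext x; exact Complex.ext (by simp [zet]) (by simp [zet])
  rw [e]
  exact (Complex.continuous_ofReal.comp h3).add ((Complex.continuous_ofReal.comp h4).mul continuous_const)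

theorem zet_ne {x : X5} : zet ψ v x ≠ 0 ↔ x ∉ PP ψ v := by
  rw [not_iff_not, Complex.ext_iff]; rfl

theorem Tz_flat : GFlat (Tz ψ v) (PP ψ v)ᶜ :=
  gflat_zpow (angCont_ang (fun x _ => (zet_cont ψ v).continuousAt) fun x hx => (zet_ne ψ v).2 hx) _

/-- the rotation loop -/
noncomputable def lp (s : ℝ) (x : X5) : X5 := v + ψ.symm (rot s (ψ (x - v)))

theorem lp_psi (s : ℝ) (x : X5) : ψ (lp ψ v s x - v) = rot s (ψ (x - v)) := by
  simp [lp]

theorem lp_cont : Continuous fun p : ℝ × X5 => lp ψ v p.1 p.2 := by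
  unfold lp
  have : Continuous fun p : ℝ × X5 => ψ (p.2 - v) := ψ.continuous.comp (by fun_prop)
  exact continuous_const.add (ψ.symm.continuous.comp (rot_cont.comp (continuous_fst.prodMk this)))

theorem lp_zero (x : X5) : lp ψ v 0 x = x := by simp [lp, rot_zero]
theorem lp_one (x : X5) : lp ψ v 1 x = x := by simp [lp, rot_one]

theorem lp_sq (s : ℝ) (x : X5) : ψ (lp ψ v s x - v) 3 ^ 2 + ψ (lp ψ v s x - v) 4 ^ 2 =
    ψ (x - v) 3 ^ 2 + ψ (x - v) 4 ^ 2 := by rw [lp_psi, rot_sq]

theorem mem_PP_iff {x : X5} : x ∈ PP ψ v ↔ ψ (x - v) 3 ^ 2 + ψ (x - v) 4 ^ 2 = 0 := by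
  constructor
  · rintro ⟨h1, h2⟩; rw [h1, h2]; norm_num
  · intro h
    constructor
    · nlinarith [sq_nonneg (ψ (x - v) 3), sq_nonneg (ψ (x - v) 4)]
    · nlinarith [sq_nonneg (ψ (x - v) 3), sq_nonneg (ψ (x - v) 4)]

theorem lp_mem (s : ℝ) {x : X5} (hx : x ∉ PP ψ v) : lp ψ v s x ∉ PP ψ v := by
  rw [mem_PP_iff] at hx ⊢
  rwa [lp_sq]

theorem zet_lp (s : ℝ) (x : X5) : zet ψ v (lp ψ v s x) =
    Complex.exp ((2 * Real.pi * s : ℝ) * Complex.I) * zet ψ v x := by
  rw [Complex.exp_mul_I, ← Complex.ofReal_cos, ← Complex.ofReal_sin]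
  apply Complex.ext
  · show ψ (lp ψ v s x - v) 3 = _
    rw [lp_psi, rot_three]
    generalize Real.cos (2 * Real.pi * s) = c
    generalize Real.sin (2 * Real.pi * s) = d
    simp [zet]
  · show ψ (lp ψ v s x - v) 4 = _
    rw [lp_psi, rot_four]
    generalize Real.cos (2 * Real.pi * s) = c
    generalize Real.sin (2 * Real.pi * s) = d
    simp [zet]; ring

theorem Tz_loop {x : X5} (hx : x ∉ PP ψ v) : HasTr (Tz ψ v) (fun s => lp ψ v s x) (-1) := by
  have hz := (zet_ne ψ v).2 hx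
  have hA : AngCont (ang (zet ψ v)) (PP ψ v)ᶜ :=
    angCont_ang (fun x _ => (zet_cont ψ v).continuousAt) fun x hx => (zet_ne ψ v).2 hx
  have hγ : ContinuousOn (fun s => lp ψ v s x) (Icc 0 1) :=
    ((lp_cont ψ v).comp (by fun_prop : Continuous fun s : ℝ => (s, x))).continuousOn
  have h := hasTr_mint (γ := fun s => lp ψ v s x) hA hγ (fun s _ => lp_mem ψ v s hx)
    (A := fun s => ang (zet ψ v) x + s) (by fun_prop) (by
      intro s _
      show ∃ m : ℤ, ang (zet ψ v) x + s = ang (zet ψ v) (lp ψ v s x) + m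
      unfold ang
      rw [zet_lp]
      have h1 : ((Complex.arg (Complex.exp ((2 * Real.pi * s : ℝ) * Complex.I) * zet ψ v x) : ℝ) : Real.Angle) =
        ((2 * Real.pi * s + Complex.arg (zet ψ v x) : ℝ) : Real.Angle) := by
        rw [Complex.arg_mul_coe_angle (Complex.exp_ne_zero _) hz, Real.Angle.coe_add]
        congr 1
        rw [Complex.arg_exp_mul_I]
        exact Real.Angle.coe_toIocMod _ _
      rw [Real.Angle.angle_eq_iff_two_pi_dvd_sub] at h1
      obtain ⟨m, hm⟩ := h1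
      refine ⟨-m, ?_⟩
      have key : Complex.arg (Complex.exp ((2 * Real.pi * s : ℝ) * Complex.I) * zet ψ v x) =
        2 * Real.pi * m + (2 * Real.pi * s + Complex.arg (zet ψ v x)) := by linarith
      rw [key, Int.cast_neg]
      have hpi := Real.pi_pos
      field_simp
      ring) 1 (by simp) (by rw [lp_one, lp_zero])
  have h2 := h.map (zpowersHom ℤˣ (-1 : ℤˣ))
  have e1 : (fun x y => zpowersHom ℤˣ (-1 : ℤˣ) (mint (ang (zet ψ v)) x y)) = Tz ψ v := by
    funext x y; rfl
  have e2 : zpowersHom ℤˣ (-1 : ℤˣ) (Multiplicative.ofAdd (1:ℤ)) = -1 := rfl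
  rw [e1, e2] at h2
  exact h2

theorem units_cases {ρ : ℤˣ →* (ZMod 3 →ₗ[ZMod 3] ZMod 3)} (h : ρ = Mach.rho) : IsUnit (1 - ρ (-1)) := by
  subst h
  have e : ∀ x : ZMod 3, (1 - Mach.rho (-1)) x = 2 * x := by
    intro x
    rw [LinearMap.sub_apply, Mach.rho_apply, Module.End.one_apply]
    push_cast
    ring
  refine ⟨⟨1 - Mach.rho (-1), (2 : ZMod 3) • (1 : ZMod 3 →ₗ[ZMod 3] ZMod 3), ?_, ?_⟩, rfl⟩
  · ext
    show (1 - Mach.rho (-1)) ((2 : ZMod 3) • (1 : ZMod 3)) = (1 : ZMod 3)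
    rw [e]; decide
  · ext
    show (2 : ZMod 3) • ((1 - Mach.rho (-1)) (1 : ZMod 3)) = (1 : ZMod 3)
    rw [e]; decide

theorem wedge (hψ : ∀ t : ℝ, 0 ≤ t → ∀ x, ψ (t • x) = t • ψ x) {W : Set X5} (hW : Convex ℝ W)
    (hWc : IsClosed W) (hv : v ∈ interior W) {T : X5 → X5 → ℤˣ} (hT : GFlat T (W \ PP ψ v))
    (hTz : ∀ x ∈ W, ∀ y ∈ W, T x y = Tz ψ v x y) {C : Set X5} (hC : IsCompact C)
    (hCW : C ⊆ W \ PP ψ v) :
    ∃ S, IsCompact S ∧ C ⊆ S ∧ S ⊆ W \ PP ψ v ∧ ∀ q, HV (sys T Mach.rho) S ∅ q := by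
  have h0 : ψ 0 = 0 := by simpa using hψ 0 le_rfl 0
  set N : X5 → ℝ := fun x => ‖ψ (x - v)‖ with hN
  have hNc : Continuous N := continuous_norm.comp (ψ.continuous.comp (by fun_prop))
  set r : X5 → ℝ := fun x => ψ (x - v) 3 ^ 2 + ψ (x - v) 4 ^ 2 with hr
  have hψc : Continuous fun x : X5 => ψ (x - v) := ψ.continuous.comp (by fun_prop)
  have hrc : Continuous r := by
    have h3 : Continuous fun x : X5 => ψ (x - v) 3 := by fun_prop
    have h4 : Continuous fun x : X5 => ψ (x - v) 4 := by fun_prop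
    exact (h3.pow 2).add (h4.pow 2)
  have hrN : ∀ x, r x ≤ N x ^ 2 := by
    intro x
    simp only [hr, hN]
    rw [EuclideanSpace.norm_eq, Real.sq_sqrt (by positivity), Fin.sum_univ_five]
    simp only [Real.norm_eq_abs, sq_abs]
    nlinarith [sq_nonneg (ψ (x - v) 0), sq_nonneg (ψ (x - v) 1), sq_nonneg (ψ (x - v) 2)]
  have hr0 : ∀ x ∈ C, 0 < r x := by
    intro x hx
    have h1 := (hCW hx).2
    rw [mem_PP_iff] at h1
    exact lt_of_le_of_ne (by positivity) (Ne.symm h1)
  obtain ⟨ε0, he0, hε⟩ := hC.exists_forall_le' hrc.continuousOn hr0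
  obtain ⟨M0, hM0⟩ := (hC.bddAbove_image hNc.continuousOn)
  have hM0 : ∀ x ∈ C, N x ≤ M0 := fun x hx => hM0 ⟨x, hx, rfl⟩
  -- a small radius
  obtain ⟨l0, hl0, hball⟩ : ∃ l0 > 0, ∀ x, N x ≤ l0 → x ∈ W := by
    have h1 : (fun y => v + ψ.symm y) ⁻¹' W ∈ nhds (0 : X5) := by
      refine ContinuousAt.preimage_mem_nhds ?_ ?_
      · exact (continuous_const.add ψ.symm.continuous).continuousAt
      · have : v + ψ.symm 0 = v := by rw [← h0, ψ.symm_apply_apply, add_zero]
        rw [this]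
        exact mem_interior_iff_mem_nhds.1 hv
    obtain ⟨e, he, h2⟩ := Metric.nhds_basis_closedBall.mem_iff.1 h1
    refine ⟨e, he, fun x hx => ?_⟩
    have h3 : ψ (x - v) ∈ Metric.closedBall (0 : X5) e := by rwa [mem_closedBall_zero_iff]
    have h4 := h2 h3
    simpa using h4
  set M := max M0 1 with hM
  have hM1 : 1 ≤ M := le_max_right _ _
  set l := min l0 (min (Real.sqrt ε0) 1) with hl
  have hlp : 0 < l := by have := Real.sqrt_pos.2 he0; positivity
  have hl1 : l ≤ 1 := (min_le_right _ _).trans (min_le_right _ _)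
  have hll0 : l ≤ l0 := min_le_left _ _
  have hls : l ^ 2 ≤ ε0 := by
    have h1 : l ≤ Real.sqrt ε0 := (min_le_right _ _).trans (min_le_left _ _)
    calc l ^ 2 ≤ Real.sqrt ε0 ^ 2 := by gcongr
      _ = ε0 := Real.sq_sqrt he0.le
  set κ := ε0 / M ^ 2 with hκ
  have hκp : 0 < κ := by positivity
  have hPP : ∀ x, 0 < r x → x ∉ PP ψ v := fun x hx h => by
    rw [mem_PP_iff] at h
    exact absurd h hx.ne'
  let S : Set X5 := {x | x ∈ W ∧ l ≤ N x ∧ N x ≤ M ∧ κ * N x ^ 2 ≤ r x}
  let R : Set X5 := {x | N x = l ∧ κ * N x ^ 2 ≤ r x}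
  have hcpt : IsCompact {x | N x ≤ M} := by
    have h1 : {x | N x ≤ M} = (fun y => v + ψ.symm y) '' Metric.closedBall 0 M := by
      ext x
      constructor
      · intro hx
        exact ⟨ψ (x - v), by rwa [mem_closedBall_zero_iff], by simp⟩
      · rintro ⟨y, hy, rfl⟩
        rw [mem_closedBall_zero_iff] at hy
        show ‖ψ (v + ψ.symm y - v)‖ ≤ M
        simpa using hy
    rw [h1]
    exact (isCompact_closedBall _ _).image (continuous_const.add ψ.symm.continuous)
  have hcl2 : IsClosed {x | κ * N x ^ 2 ≤ r x} := isClosed_le (by fun_prop) hrc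
  have hSc : IsCompact S := by
    have : S = {x | N x ≤ M} ∩ (W ∩ ({x | l ≤ N x} ∩ {x | κ * N x ^ 2 ≤ r x})) := by
      ext x; exact ⟨fun h => ⟨h.2.2.1, h.1, h.2.1, h.2.2.2⟩, fun h => ⟨h.2.1, h.2.2.1, h.1, h.2.2.2⟩⟩
    rw [this]
    exact hcpt.inter_right (hWc.inter ((isClosed_le continuous_const hNc).inter hcl2))
  have hRW : ∀ x ∈ R, x ∈ W := fun x hx => hball x (by rw [hx.1]; exact hll0)
  have hRS : R ⊆ S := fun x hx => ⟨hRW x hx, hx.1.ge, by rw [hx.1]; linarith, hx.2⟩
  have hRcl : IsClosed R := (isClosed_eq hNc continuous_const).inter hcl2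
  have hSP : S ⊆ W \ PP ψ v := fun x hx => ⟨hx.1, hPP x (by
    have := hx.2.1
    have h1 : 0 < κ * N x ^ 2 := by
      have : 0 < N x := by linarith
      positivity
    exact h1.trans_le hx.2.2.2)⟩
  have hRC : IsCompact R := hSc.of_isClosed_subset hRcl hRS
  refine ⟨S, hSc, fun x hx => ?_, hSP, fun q => ?_⟩
  · have h1 := hε x hx
    have h2 := hM0 x hx
    have h3 := hrN x
    have hNn : 0 ≤ N x := norm_nonneg _
    refine ⟨(hCW hx).1, ?_, h2.trans (le_max_left _ _), ?_⟩
    · exact le_of_sq_le_sq (by linarith) hNn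
    · have h4 : N x ≤ M := h2.trans (le_max_left _ _)
      calc κ * N x ^ 2 ≤ κ * M ^ 2 := by gcongr
        _ = ε0 := by rw [hκ]; field_simp
        _ ≤ r x := h1
  · -- the circle lemma on `R`
    have hTR : GFlat T R := hT.mono (hRS.trans hSP)
    have hTS : GFlat T S := hT.mono hSP
    have hR : HV (sys T Mach.rho) R ∅ q := by
      refine circle_lemma (S₁ := ∅) hRC isClosed_empty (empty_subset _) hTR Mach.rho (lp ψ v)
        (lp_cont ψ v).continuousOn (fun x _ => lp_zero ψ v x) (fun x _ => lp_one ψ v x) ?_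
        (fun s _ x hx => hx.elim) ?_ q
      · intro s _ x hx
        refine ⟨?_, ?_⟩
        · show ‖ψ (lp ψ v s x - v)‖ = l
          rw [lp_psi, rot_norm]; exact hx.1
        · show κ * ‖ψ (lp ψ v s x - v)‖ ^ 2 ≤ ψ (lp ψ v s x - v) 3 ^ 2 + ψ (lp ψ v s x - v) 4 ^ 2
          rw [lp_sq, lp_psi, rot_norm]; exact hx.2
      · intro x hx g hg
        have hlW : ∀ s, lp ψ v s x ∈ W := fun s => hball _ (by
          show ‖ψ (lp ψ v s x - v)‖ ≤ l0
          rw [lp_psi, rot_norm]
          have : N x = l := hx.1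
          simp only [hN] at this
          rw [this]; exact hll0)
        have h1 := Tz_loop ψ v (hSP (hRS hx)).2
        have h2 : HasTr (Tz ψ v) (fun s => lp ψ v s x) g := by
          obtain ⟨F, f0, f1, hF⟩ := hg
          refine ⟨F, f0, f1, fun s hs => ?_⟩
          obtain ⟨e, he, h⟩ := hF s hs
          exact ⟨e, he, fun t ht t' ht' a b => by
            rw [← hTz _ (hlW t) _ (hlW t')]; exact h t ht t' ht' a b⟩
        rw [h2.unique h1]
        exact units_cases rfl
    -- push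
    refine hv_push (R := R) hSc hRcl hRS (hTS.sys _)
      (fun t x => v + ((1 - t) + t * l / N x) • (x - v)) ?_ ?_ ?_ ?_ ?_ hR
    · have hne : ∀ p ∈ Icc (0:ℝ) 1 ×ˢ S, N p.2 ≠ 0 := fun p hp => by
        have := hp.2.2.1
        exact (hlp.trans_le this).ne'
      have h1 : ContinuousOn (fun p : ℝ × X5 => (1 - p.1) + p.1 * l / N p.2) (Icc (0:ℝ) 1 ×ˢ S) := by
        refine ContinuousOn.add (by fun_prop) (ContinuousOn.div (by fun_prop) ?_ hne)
        exact (hNc.comp continuous_snd).continuousOn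
      exact continuousOn_const.add (h1.smul (by fun_prop))
    · intro x hx
      simp
    all_goals
      have key : ∀ t ∈ Icc (0:ℝ) 1, ∀ x ∈ S, ∃ c : ℝ, 0 < c ∧ c ≤ 1 ∧ (1 - t) + t * l / N x = c ∧
          N (v + c • (x - v)) = (1 - t) * N x + t * l ∧ r (v + c • (x - v)) = c ^ 2 * r x ∧
          N (v + c • (x - v)) = c * N x := by
        intro t ht x hx
        have hxl : l ≤ N x := hx.2.1
        have hNp : 0 < N x := hlp.trans_le hxl
        have q1 : 0 < l / N x := div_pos hlp hNp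
        have q2 : l / N x ≤ 1 := (div_le_one hNp).2 hxl
        have c0 : 0 < (1 - t) + t * l / N x := by
          rw [mul_div_assoc]
          rcases ht.1.eq_or_lt with h | h
          · rw [← h]; norm_num
          · have : 0 < t * (l / N x) := by positivity
            linarith [ht.2]
        have hpsi : ∀ c : ℝ, 0 < c → ψ (v + c • (x - v) - v) = c • ψ (x - v) := by
          intro c hc
          rw [add_sub_cancel_left, hψ c hc.le]
        have hNc' : ∀ c : ℝ, 0 < c → N (v + c • (x - v)) = c * N x := by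
          intro c hc
          simp only [hN]
          rw [hpsi c hc, norm_smul, Real.norm_eq_abs, abs_of_pos hc]
        refine ⟨_, c0, ?_, rfl, ?_, ?_, hNc' _ c0⟩
        · rw [mul_div_assoc]
          nlinarith [ht.1, ht.2]
        · rw [hNc' _ c0]
          field_simp
        · simp only [hr]
          rw [hpsi _ c0]
          simp only [PiLp.smul_apply, smul_eq_mul]
          ring
    · intro t ht x hx
      obtain ⟨c, c0, c1, hc, e1, e2, e3⟩ := key t ht x hx
      simp only [hc]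
      have hvW : v ∈ W := interior_subset hv
      refine ⟨?_, ?_, ?_, ?_⟩
      · have := hW hvW hx.1 (a := 1 - c) (b := c) (by linarith) c0.le (by ring)
        convert this using 1
        module
      · rw [e1]; nlinarith [hx.2.1, ht.1, ht.2]
      · rw [e1]
        have : l ≤ M := by linarith
        nlinarith [hx.2.2.1, ht.1, ht.2]
      · rw [e3, e2]
        have := hx.2.2.2
        calc κ * (c * N x) ^ 2 = c ^ 2 * (κ * N x ^ 2) := by ring
          _ ≤ c ^ 2 * r x := by gcongr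
    · intro t ht x hx
      obtain ⟨c, c0, c1, hc, e1, e2, e3⟩ := key t ht x (hRS hx)
      simp only [hc]
      have hxl : N x = l := hx.1
      refine ⟨?_, ?_⟩
      · rw [e1, hxl]; ring
      · rw [e3, e2]
        calc κ * (c * N x) ^ 2 = c ^ 2 * (κ * N x ^ 2) := by ring
          _ ≤ c ^ 2 * r x := by gcongr; exact hx.2
    · intro x hx
      obtain ⟨c, c0, c1, hc, e1, e2, e3⟩ := key 1 (right_mem_Icc.2 zero_le_one) x hx
      simp only [hc]
      refine ⟨?_, ?_⟩
      · rw [e1]; ring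
      · rw [e3, e2]
        calc κ * (c * N x) ^ 2 = c ^ 2 * (κ * N x ^ 2) := by ring
          _ ≤ c ^ 2 * r x := by gcongr; exact hx.2.2.2

end

end Pool.Agent.H755
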